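import Pool.Agent.W_7d29a1_NV.DefsR66

/-!
Theorem SD: in very strong disorder the polymer is not diffusive, in almost every direction.
Definitions and frozen statements of the leaves. Paper proof: `/team-store/h80_SD.md`.
-/

namespace Pool.Agent.W_7d29a1_SD

open MeasureTheory ProbabilityTheory Filter Topology Pool.Agent.W_MP_7d29a1_pr
  Pool.Agent.W_7d29a1_h46 Pool.Agent.W_7d29a1_h46u Pool.Agent.W_7d29a1_D2.B35
  Pool.Agent.W_7d29a1_Q29 Pool.Agent.W_7d29a1_NV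

/-- The mean mass of the polymer outside the tube of radius `R √n` around the line `t v`. -/
noncomputable def Tb {d : ℕ} (ρ : Measure ℝ) (β : ℝ) (h v : Vec d) (R : ℝ) (n : ℕ) : ℝ :=
  ∫ η, (1 - PolT β h η (tube d n v (R * Real.sqrt n))) ∂(law d ρ)

/-- The polymer with tilt `h` is diffusive around the line `t v`: the maximum of `‖S_t - t v‖`,
divided by `√n`, is tight. -/
def Dif {d : ℕ} (ρ : Measure ℝ) (β : ℝ) (h v : Vec d) : Prop :=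
  ∀ ε : ℝ, 0 < ε → ∃ R : ℝ, ∀ n : ℕ, Tb ρ β h v R n ≤ ε

/-- All the rows `> p` together move the free energy of length `n` by at most `M`, with
probability at least `1 - δ`. -/
def RS {d : ℕ} (ρ : Measure ℝ) (β : ℝ) (h : Vec d) (n p : ℕ) (M δ : ℝ) : Prop :=
  ((law d ρ).prod (law d ρ)).real
    {w | M < |X β h w.1 n - X β h (spl (Pa d p) w.1 w.2) n|} ≤ δ

/-! ### The polymer at one tilt -/

section Pol

variable (d : ℕ) (ρ : Measure ℝ) (β b : ℝ)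

/-- Leaf C: two environments which agree on the rows `≤ p`. -/
def Coup : Prop := ∀ (Ω : Type) [MeasurableSpace Ω] (P : Measure Ω) [IsProbabilityMeasure P]
  (E₁ E₂ : Ω → Env d), MeasurePreserving E₁ P (law d ρ) → MeasurePreserving E₂ P (law d ρ) →
  ∀ p : ℕ, (∀ (x : Ω) (q : ℕ × Site d), q.1 ≤ p → E₁ x q = E₂ x q) →
  ∀ (h : Vec d) (n : ℕ) (M δ : ℝ), RS ρ β h n p M δ →
    P.real {x | 2 * M < |X β h (E₁ x) n - X β h (E₂ x) n|} ≤ 2 * δ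

/-- Leaf W1: `TwoPr` with all the rows `> p`. -/
def TwoW : Prop := ∀ (h : Vec d) (n k : ℕ) (T : Fin k → ℕ) (r : Fin (k + 1) → ℕ), Ord n T r →
  ∀ (p : ℕ) (M δ : ℝ), 0 ≤ M → (∀ i, p < T i) → RS ρ β h n p M δ →
  (∑ i : Fin k, vap ρ β b h n (T i) (r i.castSucc) (r i.succ)) /
      (4 * Bc β b * Real.sqrt (k + 1)) ≤
    2 * M + 4 * Bc β b * Real.sqrt (k + 1) * δ +
      ∑ i : Fin k, kap ρ β b h n (T i) (r i.castSucc) (r i.succ) +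
      (2 * Bc β b * k + 1) *
        Real.sqrt (2 * ∑ i : Fin k, kap ρ β b h n (T i) (r i.castSucc) (r i.succ))

/-- Leaf W2: the core: at a length with a small increment and concentrated laws of the positions at
the times `≥ n / 8`, the rows `> n / 8` move the free energy. -/
def CoreW : Prop := ∀ (h : Vec d) (g : ℝ), 0 < g →
  lam ρ β h + g ≤ Real.log (Phi h) + Real.log (∫ t, Real.exp (β * t) ∂ρ) →
    ∃ δ₀ : ℝ, 0 < δ₀ ∧ ∀ M : ℝ, ∃ ε δ b₂ : ℝ, 0 < ε ∧ 0 < δ ∧ ∀ b₀ : ℝ, b₂ ≤ b₀ →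
      ∃ n₀ : ℕ, ∀ n : ℕ, n₀ ≤ n →
        A ρ β h n - A ρ β h (n - 1) ≤ lam ρ β h + g / 2 →
        (∀ τ : ℕ, n / 8 ≤ τ → τ ≤ n →
          (law d ρ).real {η | ¬ GoodN β h n τ b₀ ε η} ≤ δ) →
          ¬ RS ρ β h n (n / 8) M δ₀

open Classical in
/-- Leaf I: the laws of the positions at the times `≥ n / 8`, for most of the lengths. -/
def MulW : Prop := ∀ h : Vec d, VSD ρ β h → ∀ ε δ : ℝ, 0 < ε → 0 < δ →
  ∃ δ₂ : ℝ, 0 < δ₂ ∧ ∀ M : ℝ, ∃ b₁ : ℝ, ∀ b₀ : ℝ, b₁ ≤ b₀ → ∃ m₀ N₀ : ℕ, ∀ N : ℕ, N₀ ≤ N →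
    (((Finset.Ico N (2 * N)).filter fun n =>
      ¬ ((∀ m : ℕ, m ≤ m₀ → RS ρ β h (n + m) (n / 8) M δ₂) →
        ∀ τ : ℕ, n / 8 ≤ τ → τ ≤ n →
          (law d ρ).real {η | ¬ GoodN β h n τ b₀ ε η} ≤ δ)).card : ℝ) ≤ δ * N

/-- Leaf N: the rows `> n / 8` move the free energy, at infinitely many lengths. -/
def NVR : Prop := ∀ h : Vec d, VSD ρ β h → ∃ δ₀ : ℝ, 0 < δ₀ ∧ ∀ M₁ : ℝ,
  ∃ δ₂ : ℝ, 0 < δ₂ ∧ ∀ M₂ : ℝ, ∃ m₀ : ℕ, ∀ N : ℕ, ∃ n : ℕ, N ≤ n ∧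
    ¬ (RS ρ β h n (n / 8) M₁ δ₀ ∧ ∀ m : ℕ, m ≤ m₀ → RS ρ β h (n + m) (n / 8) M₂ δ₂)

/-! ### Two directions -/

/-- Leaf P: two close directions whose polymers are in disjoint tubes after the time `p`. -/
def PairS : Prop := ∀ (h₁ h₂ v₁ v₂ : Vec d) (n p : ℕ) (R a C ε : ℝ), 0 ≤ R → 0 ≤ a → 0 ≤ C →
  ‖v₂ - v₁‖ * Real.sqrt n ≤ a → ‖h₂ - h₁‖ * Real.sqrt n ≤ C →
  2 * R * Real.sqrt n < p * ‖v₂ - v₁‖ → Tb ρ β h₁ v₁ R n ≤ ε → Tb ρ β h₂ v₂ R n ≤ ε →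
    RS ρ β h₁ n p (C * a + 2 * C * R + 6) (10 * ε)

/-- Leaf D: the velocity of a diffusive polymer is a slope of the free energy. -/
def SubD : Prop := ∀ h v : Vec d, Dif ρ β h v →
  ∀ k : Vec d, lam ρ β h + inner ℝ v k ≤ lam ρ β (h + k)

/-- The theorem. -/
def MainSD : Prop := ∀ᵐ v : Vec d, ∀ h : Vec d, VSD ρ β h → ¬ Dif ρ β h v

end Pol

/-! ### Convex geometry -/

section Geo

variable (d : ℕ)

/-- Leaf G4: a convex Lipschitz function whose slopes are the tilts. -/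
def Geo4 : Prop := ∀ (L : Vec d → ℝ) (H : ℝ), 0 ≤ H → (∀ x y, |L x - L y| ≤ 1 * ‖x - y‖) →
  ∃ J : Vec d → ℝ, ConvexOn ℝ Set.univ J ∧ (∀ x y, |J x - J y| ≤ H * ‖x - y‖) ∧
    ∀ h v : Vec d, ‖h‖ ≤ H → (∀ k : Vec d, L h + inner ℝ v k ≤ L (h + k)) →
      ∀ w, J v + inner ℝ h (w - v) ≤ J w

end Geo

end Pool.Agent.W_7d29a1_SD
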