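import Pool.Agent.W_7d29a1_SD.SubD20

/-!
A velocity whose tube of radius `o(n)` keeps a mass bounded below, with a probability bounded
below, is a slope of the free energy (common part of the leaves D of SDP and C1 of W).
-/

namespace Pool.Agent.W_7d29a1_SD

open MeasureTheory ProbabilityTheory Filter Topology Pool.Agent.W_MP_7d29a1_pr
  Pool.Agent.W_7d29a1_h46 Pool.Agent.W_7d29a1_h46u

variable {d : ℕ} {ρ : Measure ℝ} [IsProbabilityMeasure ρ] {β : ℝ}

/-- The mass of the tube is at least `1 / 2` with probability at least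
`1 - 2 ∫ (1 - mass of the tube)`. -/
theorem goodG20 (h v : Vec d) (n : ℕ) (r : ℝ) :
    1 - 2 * ∫ η, (1 - PolT β h η (tube d n v r)) ∂(law d ρ) ≤
      (law d ρ).real {η | 1 / 2 ≤ PolT β h η (tube d n v r)} := by
  have hm : Measurable fun η : Env d => 1 - PolT β h η (tube d n v r) :=
    measurable_const.sub (measurable_PolT β h _)
  have h0 : ∀ η : Env d, 0 ≤ 1 - PolT β h η (tube d n v r) := fun η =>
    sub_nonneg.2 (PolT_le_one β h η _)
  have hi : Integrable (fun η : Env d => 1 - PolT β h η (tube d n v r))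
      (law d ρ) := by
    refine Integrable.mono' (integrable_const (1 : ℝ)) hm.aestronglyMeasurable
      (ae_of_all _ fun η => ?_)
    rw [Real.norm_eq_abs, abs_of_nonneg (h0 η)]
    linarith [PolT_nonneg β h η (tube d n v r)]
  have h1 := mul_meas_ge_le_integral_of_nonneg (ae_of_all _ h0) hi (1 / 2)
  have h2 : {η : Env d | 1 / 2 ≤ PolT β h η (tube d n v r)}ᶜ ⊆
      {η : Env d | 1 / 2 ≤ 1 - PolT β h η (tube d n v r)} := by
    intro η hη
    have h3 : ¬ 1 / 2 ≤ PolT β h η (tube d n v r) := hη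
    show 1 / 2 ≤ 1 - PolT β h η (tube d n v r)
    linarith [not_le.1 h3]
  have h3 := measureReal_mono (μ := law d ρ) h2
  have hms : MeasurableSet {η : Env d | 1 / 2 ≤ PolT β h η (tube d n v r)} :=
    measurableSet_le measurable_const (measurable_PolT β h _)
  rw [probReal_compl_eq_one_sub hms] at h3
  linarith

/-- The common core. -/
theorem coreG20 (hd : 0 < d) (hρ : EM ρ) (h v k : Vec d) {θ α : ℝ} (hθ : 0 < θ) (hα : 0 < α)
    (r : ℕ → ℝ) (hr : Tendsto (fun n : ℕ => r n / (n : ℝ)) atTop (𝓝 0))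
    (hP : ∀ᶠ n : ℕ in atTop, α ≤ (law d ρ).real {η | θ ≤ PolT β h η (tube d n v (r n))}) :
    lam ρ β h + inner ℝ v k ≤ lam ρ β (h + k) := by
  obtain ⟨C, hC0, hC⟩ := momU (ρ := ρ) hd hρ β 1
  have key : ∀ n : ℕ, 1 ≤ n → α ≤ (law d ρ).real {η | θ ≤ PolT β h η (tube d n v (r n))} →
      A ρ β h n / n + inner ℝ v k ≤
      A ρ β (h + k) n / n + (α⁻¹ * (2 * C)) / Real.sqrt n + ‖k‖ * (r n / n) +
        (-Real.log θ) / n := by
    intro n hn hPG
    have hn' : (0 : ℝ) < n := by exact_mod_cast hn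
    have hs : 0 < Real.sqrt n := Real.sqrt_pos.2 hn'
    have hsq : Real.sqrt n * Real.sqrt n = n := Real.mul_self_sqrt hn'.le
    set G : Set (Env d) := {η | θ ≤ PolT β h η (tube d n v (r n))} with hG
    have hG0 : law d ρ G ≠ 0 := by
      intro h1
      rw [Measure.real, h1] at hPG
      simp only [ENNReal.toReal_zero] at hPG
      linarith
    obtain ⟨i1, m1⟩ := hC h n hn
    obtain ⟨i2, m2⟩ := hC (h + k) n hn
    have hpw : (n : ℝ) ^ ((1 / 2 : ℝ) * (1 : ℕ)) = Real.sqrt n := by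
      rw [Real.sqrt_eq_rpow]
      norm_num
    rw [hpw] at m1 m2
    have hi : Integrable (fun η => |X β h η n - A ρ β h n| ^ 1 +
      |X β (h + k) η n - A ρ β (h + k) n| ^ 1) (law d ρ) := i1.add i2
    obtain ⟨η, hη, hle⟩ := exists_le_setAverage hG0 (measure_ne_top _ _) hi.integrableOn
    have h3 : ∫ η in G, (|X β h η n - A ρ β h n| ^ 1 +
        |X β (h + k) η n - A ρ β (h + k) n| ^ 1) ∂(law d ρ) ≤ 2 * (C * Real.sqrt n) := by
      refine (setIntegral_le_integral hi (ae_of_all _ fun η => by positivity)).trans ?_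
      rw [integral_add i1 i2]
      linarith
    have h4 : (|X β h η n - A ρ β h n| ^ 1 + |X β (h + k) η n - A ρ β (h + k) n| ^ 1) ≤
        α⁻¹ * (2 * (C * Real.sqrt n)) := by
      refine hle.trans ?_
      rw [setAverage_eq, smul_eq_mul]
      have h5 : ((law d ρ).real G)⁻¹ ≤ α⁻¹ := inv_anti₀ hα hPG
      have h6 : 0 ≤ 2 * (C * Real.sqrt n) := by positivity
      have h7 : 0 ≤ ((law d ρ).real G)⁻¹ := by positivity
      calc ((law d ρ).real G)⁻¹ * _ ≤ ((law d ρ).real G)⁻¹ * (2 * (C * Real.sqrt n)) :=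
            mul_le_mul_of_nonneg_left h3 h7
        _ ≤ α⁻¹ * (2 * (C * Real.sqrt n)) := mul_le_mul_of_nonneg_right h5 h6
    rw [pow_one, pow_one] at h4
    have h5 := tube_tilt20 hd h k v hθ hη
    have h7 := neg_abs_le (X β h η n - A ρ β h n)
    have h8 := le_abs_self (X β (h + k) η n - A ρ β (h + k) n)
    have h9 : A ρ β h n + n * inner ℝ v k ≤
        A ρ β (h + k) n + (α⁻¹ * (2 * C)) * Real.sqrt n + ‖k‖ * r n + (-Real.log θ) := by
      have e1 : (α⁻¹ * (2 * C)) * Real.sqrt n = α⁻¹ * (2 * (C * Real.sqrt n)) := by ring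
      rw [e1]
      linarith
    have h10 := div_le_div_of_nonneg_right h9 hn'.le
    rw [add_div, add_div, add_div, add_div, mul_div_cancel_left₀ _ hn'.ne'] at h10
    have h11 : (α⁻¹ * (2 * C)) * Real.sqrt n / n = (α⁻¹ * (2 * C)) / Real.sqrt n := by
      rw [div_eq_div_iff hn'.ne' hs.ne', mul_assoc, hsq]
    rw [h11, mul_div_assoc ‖k‖] at h10
    exact h10
  have hsq : Tendsto (fun n : ℕ => Real.sqrt n) atTop atTop :=
    Real.tendsto_sqrt_atTop.comp tendsto_natCast_atTop_atTop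
  have t1 : Tendsto (fun n : ℕ => (α⁻¹ * (2 * C)) / Real.sqrt n) atTop (𝓝 0) :=
    hsq.const_div_atTop _
  have t2 : Tendsto (fun n : ℕ => (-Real.log θ) / (n : ℝ)) atTop (𝓝 0) :=
    tendsto_natCast_atTop_atTop.const_div_atTop _
  have t5 : Tendsto (fun n : ℕ => ‖k‖ * (r n / (n : ℝ))) atTop (𝓝 (‖k‖ * 0)) :=
    hr.const_mul _
  have t3 : Tendsto (fun n : ℕ => A ρ β h n / n + inner ℝ v k) atTop
      (𝓝 (lam ρ β h + inner ℝ v k)) := (tendsto_A hd hρ β h).add_const _
  have t4 : Tendsto (fun n : ℕ => A ρ β (h + k) n / n + (α⁻¹ * (2 * C)) / Real.sqrt n +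
      ‖k‖ * (r n / n) + (-Real.log θ) / n) atTop (𝓝 (lam ρ β (h + k) + 0 + ‖k‖ * 0 + 0)) :=
    (((tendsto_A hd hρ β (h + k)).add t1).add t5).add t2
  rw [mul_zero, add_zero, add_zero, add_zero] at t4
  exact le_of_tendsto_of_tendsto t3 t4
    ((hP.and (eventually_ge_atTop 1)).mono fun n hn => key n hn.2 hn.1)

end Pool.Agent.W_7d29a1_SD
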