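import Pool.Agent.W_7d29a1_D2.AeG6

/-!
The selection: at almost every velocity the two resampling bounds hold at all large times. Density
points of arbitrary sets replace all averaging over the velocities.
-/

namespace Pool.Agent.W_7d29a1_SD.Sel70

open MeasureTheory ProbabilityTheory Set Filter Topology Metric Pool.Agent.W_MP_7d29a1_pr
  Pool.Agent.W_7d29a1_h46 Pool.Agent.W_7d29a1_h46u Pool.Agent.W_7d29a1_D2

variable {d : ℕ}

/-- There are points of `s` in every small annulus around `v`. -/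
def Ann (s : Set (Vec d)) (v : Vec d) : Prop :=
  ∃ r₀ : ℝ, 0 < r₀ ∧ ∀ r : ℝ, 0 < r → r ≤ r₀ → ∃ y ∈ s, r / 2 ≤ ‖y - v‖ ∧ ‖y - v‖ ≤ r

/-- Almost every point of an arbitrary set `s` has points of `s` in every small annulus. -/
lemma ae_ann (hd : 0 < d) (s : Set (Vec d)) : ∀ᵐ v : Vec d, v ∈ s → Ann s v := by
  have h1 := Besicovitch.ae_tendsto_measure_inter_div (volume : Measure (Vec d)) s
  have h2 : ∀ᵐ v ∂(volume : Measure (Vec d)).restrict s, Ann s v := by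
    filter_upwards [h1] with v hv
    have h3 : ∀ᶠ r in 𝓝[>] (0 : ℝ), (1 / 2 : ENNReal) <
        volume (s ∩ closedBall v r) / volume (closedBall v r) :=
      hv.eventually (lt_mem_nhds (by norm_num))
    obtain ⟨r₀, hr₀, hr⟩ := mem_nhdsGT_iff_exists_Ioc_subset.1 h3
    refine ⟨r₀, hr₀, fun r h0 hr1 => ?_⟩
    have h4 : (1 / 2 : ENNReal) < volume (s ∩ closedBall v r) / volume (closedBall v r) :=
      hr ⟨h0, hr1⟩
    by_contra hcon
    push Not at hcon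
    have h5 : s ∩ closedBall v r ⊆ closedBall v (r / 2) := by
      rintro y ⟨hy, hyr⟩
      rw [mem_closedBall, dist_eq_norm] at hyr ⊢
      by_contra h6
      push Not at h6
      exact absurd hyr (not_le.2 (hcon y hy h6.le))
    have h6 : volume (closedBall v (r / 2)) ≤ (1 / 2 : ENNReal) * volume (closedBall v r) := by
      rw [Measure.addHaar_closedBall _ _ (by positivity : (0 : ℝ) ≤ r / 2),
        Measure.addHaar_closedBall _ _ h0.le, ← mul_assoc]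
      gcongr
      have e : (1 / 2 : ENNReal) = ENNReal.ofReal (1 / 2) := by
        rw [ENNReal.ofReal_div_of_pos (by norm_num)]
        simp
      rw [e, ← ENNReal.ofReal_mul (by norm_num)]
      apply ENNReal.ofReal_le_ofReal
      have hfin : Module.finrank ℝ (Vec d) = d := by simp
      rw [hfin, div_pow]
      have h7 : (2 : ℝ) ≤ 2 ^ d := by
        calc (2 : ℝ) = 2 ^ 1 := by norm_num
          _ ≤ 2 ^ d := pow_le_pow_right₀ (by norm_num) hd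
      have h8 : (0 : ℝ) ≤ r ^ d := by positivity
      rw [div_le_iff₀ (by positivity)]
      nlinarith
    have h7 : volume (closedBall v r) ≠ 0 := (measure_closedBall_pos _ _ h0).ne'
    have h8 : volume (closedBall v r) ≠ ⊤ := measure_closedBall_lt_top.ne
    have h9 : volume (s ∩ closedBall v r) / volume (closedBall v r) ≤ 1 / 2 := by
      rw [ENNReal.div_le_iff h7 h8]
      exact (measure_mono h5).trans h6
    exact absurd h4 (not_lt.2 h9)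
  rw [ae_iff] at h2 ⊢
  refine measure_mono_null (fun v hv => ?_)
    (le_antisymm ((Measure.le_restrict_apply s {a | ¬ Ann s a}).trans h2.le) bot_le)
  rw [mem_setOf_eq, Classical.not_imp] at hv
  exact ⟨hv.2, hv.1⟩

/-- At almost every velocity the inverse gradient is Lipschitz. -/
lemma ae_lip {L : Vec d → ℝ} (hL : ConvexOn ℝ univ L) :
    ∀ᵐ v : Vec d, ∀ h : Vec d, (∀ k : Vec d, L h + inner ℝ v k ≤ L (h + k)) →
      ∃ C δ : ℝ, 0 < C ∧ 0 < δ ∧ ∀ h' v' : Vec d,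
        (∀ k : Vec d, L h' + inner ℝ v' k ≤ L (h' + k)) → ‖v' - v‖ ≤ δ →
          ‖h' - h‖ ≤ C * ‖v' - v‖ := by
  filter_upwards [ae_loG_all hL] with v hv h hh
  obtain ⟨c, hc, δ, hδ, H⟩ := hv h hh
  refine ⟨1 / c, c * δ / 2, by positivity, by positivity, fun h' v' hh' hv' => ?_⟩
  set r := h' - h with hr
  have h1 : gap L h v r ≤ ‖v' - v‖ * ‖r‖ := by
    have h2 := hh' (-r)
    have e : h' + -r = h := by rw [hr]; abel
    have e2 : h + r = h' := by rw [hr]; abel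
    rw [e, inner_neg_right] at h2
    have h3 : inner ℝ (v' - v) r ≤ ‖v' - v‖ * ‖r‖ := real_inner_le_norm _ _
    rw [inner_sub_left] at h3
    unfold gap
    rw [e2]
    linarith
  rcases (norm_nonneg r).eq_or_lt with h0 | h0
  · rw [← h0]
    positivity
  rcases le_or_gt ‖r‖ δ with h2 | h2
  · have h3 := H r h2
    rw [rpow_two_real] at h3
    have h4 : c * ‖r‖ ≤ ‖v' - v‖ := by
      have h5 : c * ‖r‖ * ‖r‖ ≤ ‖v' - v‖ * ‖r‖ := by nlinarith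
      exact le_of_mul_le_mul_right h5 h0
    rw [div_mul_eq_mul_div, one_mul, le_div_iff₀ hc]
    linarith
  · exfalso
    -- far away the gap is at least linear
    have ht0 : 0 < δ / ‖r‖ := by positivity
    have ht1 : δ / ‖r‖ ≤ 1 := by
      rw [div_le_one h0]
      exact h2.le
    have h3 : ‖(δ / ‖r‖) • r‖ = δ := by
      rw [norm_smul, Real.norm_eq_abs, abs_of_pos ht0, div_mul_cancel₀ _ h0.ne']
    have h4 := H ((δ / ‖r‖) • r) h3.le
    rw [h3, rpow_two_real] at h4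
    have h5 : gap L h v ((δ / ‖r‖) • r) ≤ (δ / ‖r‖) * gap L h v r := by
      have h6 := hL.2 (mem_univ h) (mem_univ (h + r)) (sub_nonneg.2 ht1) ht0.le (by ring)
      have e : (1 - δ / ‖r‖) • h + (δ / ‖r‖) • (h + r) = h + (δ / ‖r‖) • r := by
        rw [smul_add, sub_smul, one_smul]
        abel
      rw [e, smul_eq_mul, smul_eq_mul] at h6
      unfold gap
      rw [inner_smul_right]
      linarith
    have h6 : c * δ ^ 2 ≤ (δ / ‖r‖) * (‖v' - v‖ * ‖r‖) :=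
      (h4.trans h5).trans (mul_le_mul_of_nonneg_left h1 ht0.le)
    have h7 : (δ / ‖r‖) * (‖v' - v‖ * ‖r‖) = δ * ‖v' - v‖ := by
      field_simp
    rw [h7] at h6
    have h8 : δ * ‖v' - v‖ ≤ δ * (c * δ / 2) := mul_le_mul_of_nonneg_left hv' hδ.le
    nlinarith [mul_pos hc (mul_pos hδ hδ)]

/-- **The selection, abstractly**: `T h v R n` is the mass outside of the tube of width `R √n`,
`V h` says that the tilt `h` is in very strong disorder and `RS h n p M δ` that the resampling of the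
rows after `p` moves the free energy by at most `M` up to the probability `δ`. -/
theorem sel70 (hd : 0 < d) {L : Vec d → ℝ} (hL : ConvexOn ℝ univ L)
    {T : Vec d → Vec d → ℝ → ℕ → ℝ} {V : Vec d → Prop} {RS : Vec d → ℕ → ℕ → ℝ → ℝ → Prop}
    (hT : ∀ (h v : Vec d) (R R' : ℝ) (n : ℕ), R ≤ R' → T h v R' n ≤ T h v R n)
    (hD : ∀ h v : Vec d, (∀ ε : ℝ, 0 < ε → ∃ R : ℝ, ∀ n : ℕ, T h v R n ≤ ε) →
      ∀ k : Vec d, L h + inner ℝ v k ≤ L (h + k))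
    (hP : ∀ (h₁ h₂ v₁ v₂ : Vec d) (n p : ℕ) (R a C ε : ℝ), 0 ≤ R → 0 ≤ a → 0 ≤ C →
      ‖v₂ - v₁‖ * Real.sqrt n ≤ a → ‖h₂ - h₁‖ * Real.sqrt n ≤ C →
      2 * R * Real.sqrt n < p * ‖v₂ - v₁‖ → T h₁ v₁ R n ≤ ε → T h₂ v₂ R n ≤ ε →
        RS h₁ n p (C * a + 2 * C * R + 6) (10 * ε))
    (hM : ∀ (h : Vec d) (n p : ℕ) (M δ δ' : ℝ), δ ≤ δ' → RS h n p M δ → RS h n p M δ')
    (hN : ∀ h : Vec d, V h → ∃ δ₀ : ℝ, 0 < δ₀ ∧ ∀ M₁ : ℝ, ∃ δ₂ : ℝ, 0 < δ₂ ∧ ∀ M₂ : ℝ,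
      ∃ m₀ : ℕ, ∀ N₀ : ℕ, ∃ n : ℕ, N₀ ≤ n ∧
        ¬ (RS h n (n / 8) M₁ δ₀ ∧ ∀ m : ℕ, m ≤ m₀ → RS h (n + m) (n / 8) M₂ δ₂)) :
    ∀ᵐ v : Vec d, ∀ h : Vec d, V h → ¬ ∀ ε : ℝ, 0 < ε → ∃ R : ℝ, ∀ n : ℕ, T h v R n ≤ ε := by
  classical
  set TI : Vec d → Vec d → Prop := fun h v =>
    ∀ ε : ℝ, 0 < ε → ∃ R : ℝ, ∀ n : ℕ, T h v R n ≤ ε with hTI
  set hh : Vec d → Vec d := fun v =>
    if H : ∃ h, V h ∧ TI h v then H.choose else 0 with hhh
  have hspec : ∀ v, (∃ h, V h ∧ TI h v) → V (hh v) ∧ TI (hh v) v := by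
    intro v H
    simp only [hhh, H, dif_pos]
    exact H.choose_spec
  set E : ℕ → ℕ → Set (Vec d) := fun j R =>
    {v | TI (hh v) v ∧ ∀ n : ℕ, T (hh v) v R n ≤ 1 / ((j : ℝ) + 1)} with hE
  have hann : ∀ᵐ v : Vec d, ∀ j R : ℕ, v ∈ E j R → Ann (E j R) v :=
    ae_all_iff.2 fun j => ae_all_iff.2 fun R => ae_ann hd (E j R)
  filter_upwards [hann, ae_lip hL] with v hv1 hv2 h₁ hV₁ hT₁
  obtain ⟨hV, hTv⟩ := hspec v ⟨h₁, hV₁, hT₁⟩
  set h := hh v with hhv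
  obtain ⟨C, δ, hC, hδ, hLip⟩ := hv2 h (hD h v hTv)
  -- the sets of the given precision
  have hex : ∀ j : ℕ, ∃ R : ℕ, v ∈ E j R := by
    intro j
    obtain ⟨R, hR⟩ := hTv (1 / ((j : ℝ) + 1)) (by positivity)
    obtain ⟨R', hR'⟩ := exists_nat_ge R
    exact ⟨R', hTv, fun n => (hT h v R R' n hR').trans (hR n)⟩
  -- the resampling bound at all large times
  have key : ∀ (j R m₀ : ℕ), v ∈ E j R → ∃ N : ℕ, ∀ n : ℕ, N ≤ n → ∀ m : ℕ, m ≤ m₀ →
      RS h (n + m) (n / 8) ((C * (100 * ((R : ℝ) + 1))) * (100 * ((R : ℝ) + 1)) +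
        2 * (C * (100 * ((R : ℝ) + 1))) * R + 6) (10 * (1 / ((j : ℝ) + 1))) := by
    intro j R m₀ hjR
    obtain ⟨r₀, hr₀, hann⟩ := hv1 j R hjR
    set b : ℝ := 100 * ((R : ℝ) + 1) with hb
    have hb0 : 0 < b := by positivity
    have hmin : 0 < min r₀ δ := lt_min hr₀ hδ
    obtain ⟨N, hN⟩ := exists_nat_ge ((b / min r₀ δ) ^ 2 + 1000 + m₀)
    refine ⟨N, fun n hn m hm => ?_⟩
    have hnR : (N : ℝ) ≤ n := by exact_mod_cast hn
    have hmR : (m : ℝ) ≤ m₀ := by exact_mod_cast hm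
    have hm0 : (0 : ℝ) ≤ m := Nat.cast_nonneg m
    have hsq : 0 ≤ (b / min r₀ δ) ^ 2 := by positivity
    have hn1000 : (1000 : ℝ) ≤ n := by linarith [Nat.cast_nonneg (α := ℝ) m₀]
    have hmn : (m : ℝ) ≤ n := by linarith
    set q : ℕ := n + m with hq
    have hqR : (q : ℝ) = n + m := by rw [hq]; push_cast; ring
    have hq0 : (0 : ℝ) < q := by rw [hqR]; linarith
    have hs0 : 0 < Real.sqrt q := Real.sqrt_pos.2 hq0
    have hss : Real.sqrt q * Real.sqrt q = q := Real.mul_self_sqrt hq0.le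
    have hr : b / Real.sqrt q ≤ min r₀ δ := by
      rw [div_le_iff₀ hs0, ← div_le_iff₀' hmin]
      apply Real.le_sqrt_of_sq_le
      rw [hqR]
      linarith [Nat.cast_nonneg (α := ℝ) m₀]
    obtain ⟨y, hy, hy1, hy2⟩ := hann (b / Real.sqrt q) (by positivity) (hr.trans (min_le_left _ _))
    have hyd : ‖y - v‖ ≤ δ := hy2.trans (hr.trans (min_le_right _ _))
    have h3 := hLip (hh y) y (hD (hh y) y hy.1) hyd
    have hy3 : ‖y - v‖ * Real.sqrt q ≤ b := by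
      rwa [le_div_iff₀ hs0] at hy2
    refine hP h (hh y) v y q (n / 8) R b (C * b) (1 / ((j : ℝ) + 1)) (Nat.cast_nonneg R) hb0.le
      (by positivity) hy3 ?_ ?_ (hjR.2 q) (hy.2 q)
    · calc ‖hh y - h‖ * Real.sqrt q ≤ C * ‖y - v‖ * Real.sqrt q :=
            mul_le_mul_of_nonneg_right h3 hs0.le
        _ = C * (‖y - v‖ * Real.sqrt q) := by ring
        _ ≤ C * b := mul_le_mul_of_nonneg_left hy3 hC.le
    · have h4 : (n : ℝ) / 8 - 1 ≤ ((n / 8 : ℕ) : ℝ) := by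
        have h5 : n < 8 * (n / 8) + 8 := by omega
        have h6 : (n : ℝ) < 8 * ((n / 8 : ℕ) : ℝ) + 8 := by exact_mod_cast h5
        linarith
      have h5 : ((n : ℝ) / 8 - 1) * (b / Real.sqrt q / 2) ≤ ((n / 8 : ℕ) : ℝ) * ‖y - v‖ :=
        mul_le_mul h4 hy1 (by positivity) (Nat.cast_nonneg _)
      refine lt_of_lt_of_le ?_ h5
      have e : ((n : ℝ) / 8 - 1) * (b / Real.sqrt q / 2) =
          (((n : ℝ) / 8 - 1) * b / 2) / Real.sqrt q := by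
        field_simp
      rw [e, lt_div_iff₀ hs0]
      have e2 : 2 * (R : ℝ) * Real.sqrt q * Real.sqrt q = 2 * R * q := by
        rw [mul_assoc (2 * (R : ℝ)), hss]
      rw [e2, hqR, hb]
      have hR0 : (0 : ℝ) ≤ R := Nat.cast_nonneg R
      nlinarith [mul_nonneg hR0 (by linarith : (0 : ℝ) ≤ (n : ℝ) - m),
        mul_nonneg hR0 (by linarith : (0 : ℝ) ≤ (n : ℝ) - 1000)]
  obtain ⟨δ₀, hδ₀, H₀⟩ := hN h hV
  obtain ⟨j₁, hj₁⟩ := exists_nat_ge (10 / δ₀)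
  obtain ⟨R₁, hR₁⟩ := hex j₁
  obtain ⟨N₁, hN₁⟩ := key j₁ R₁ 0 hR₁
  obtain ⟨δ₂, hδ₂, H₂⟩ := H₀ ((C * (100 * ((R₁ : ℝ) + 1))) * (100 * ((R₁ : ℝ) + 1)) +
        2 * (C * (100 * ((R₁ : ℝ) + 1))) * R₁ + 6)
  obtain ⟨j₂, hj₂⟩ := exists_nat_ge (10 / δ₂)
  obtain ⟨R₂, hR₂⟩ := hex j₂
  obtain ⟨m₀, H₃⟩ := H₂ ((C * (100 * ((R₂ : ℝ) + 1))) * (100 * ((R₂ : ℝ) + 1)) +
        2 * (C * (100 * ((R₂ : ℝ) + 1))) * R₂ + 6)
  obtain ⟨N₂, hN₂⟩ := key j₂ R₂ m₀ hR₂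
  obtain ⟨n, hn, hcon⟩ := H₃ (max N₁ N₂)
  have hsmall : ∀ (j : ℕ) (δ : ℝ), 0 < δ → 10 / δ ≤ j → 10 * (1 / ((j : ℝ) + 1)) ≤ δ := by
    intro j δ hδ hj
    have hj0 : (0 : ℝ) < (j : ℝ) + 1 := by positivity
    rw [div_le_iff₀ hδ] at hj
    rw [mul_one_div, div_le_iff₀ hj0]
    nlinarith
  refine hcon ⟨?_, fun m hm => ?_⟩
  · have h1 := hN₁ n ((le_max_left _ _).trans hn) 0 le_rfl
    rw [add_zero] at h1
    exact hM _ _ _ _ _ _ (hsmall j₁ δ₀ hδ₀ hj₁) h1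
  · exact hM _ _ _ _ _ _ (hsmall j₂ δ₂ hδ₂ hj₂) (hN₂ n ((le_max_right _ _).trans hn) m hm)

end Pool.Agent.W_7d29a1_SD.Sel70
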