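import Pool.Agent.W_7d29a1_Q29.SumA98
import Pool.Agent.W_7d29a1_h46.Basic
import Pool.Agent.W_7d29a1_SD.DefsSD

/-!
Theorem SD, step 1: two close diffusive directions; the rows after `p` matter little.
-/

namespace Pool.Agent.W_7d29a1_SD

open MeasureTheory ProbabilityTheory Filter Topology Pool.Agent.W_MP_7d29a1_pr
  Pool.Agent.W_7d29a1_h46 Pool.Agent.W_7d29a1_h46u Pool.Agent.W_7d29a1_D2.B35
  Pool.Agent.W_7d29a1_Q29

variable {d : ℕ} {ρ : Measure ℝ}

/-! ### One environment -/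

theorem tilt6 {n : ℕ} (k v : Vec d) {r : ℝ} {s : Fin n → Step d} (hs : s ∈ tube d n v r) :
    n * inner ℝ k v - ‖k‖ * r ≤ inner ℝ k (emb (pos s n)) := by
  have h1 := hs n le_rfl
  have h2 : inner ℝ k (emb (pos s n)) =
      n * inner ℝ k v + inner ℝ k (emb (pos s n) - (n : ℝ) • v) := by
    rw [inner_sub_right, inner_smul_right]
    ring
  have h3 : -(‖k‖ * r) ≤ inner ℝ k (emb (pos s n) - (n : ℝ) • v) := by
    have h4 := abs_real_inner_le_norm k (emb (pos s n) - (n : ℝ) • v)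
    have h5 : ‖k‖ * ‖emb (pos s n) - (n : ℝ) • v‖ ≤ ‖k‖ * r :=
      mul_le_mul_of_nonneg_left h1 (norm_nonneg _)
    linarith [(abs_le.1 h4).1]
  linarith

/-- The change of the tilt, when the polymer stays in the tube. -/
theorem one6 (hd : 0 < d) (β : ℝ) (h h' : Vec d) {η : Env d} {n : ℕ} {v : Vec d} {r : ℝ}
    (hP : 1 / 2 ≤ PolT β h η (tube d n v r)) :
    X β h η n + n * inner ℝ (h' - h) v - ‖h' - h‖ * r - Real.log 2 ≤ X β h' η n := by
  have h1 := le_ZT_of_PolT hd hP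
  have h2 := ZT_tilt_ge β h h' η (E := tube d n v r) (A := n * inner ℝ (h' - h) v - ‖h' - h‖ * r)
    fun s hs => tilt6 (h' - h) v hs
  have h3 := ZT_mono β h' η (E := tube d n v r) (E' := Set.univ) (Set.subset_univ _)
  have hZ : 0 < Z β h η n := ZT_univ_pos hd β h η
  have h4 : Real.exp (n * inner ℝ (h' - h) v - ‖h' - h‖ * r) * (1 / 2 * Z β h η n) ≤
      Z β h' η n :=
    (mul_le_mul_of_nonneg_left h1 (Real.exp_pos _).le).trans (h2.trans h3)
  have h5 := Real.log_le_log (by positivity) h4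
  rw [Real.log_mul (Real.exp_pos _).ne' (by positivity), Real.log_exp,
    Real.log_mul (by norm_num) hZ.ne', one_div, Real.log_inv] at h5
  unfold X
  linarith

theorem ZT_agree6 (β : ℝ) (h : Vec d) {n : ℕ} {η η' : Env d} {E : Set (Fin n → Step d)}
    (hE : ∀ s ∈ E, ∀ i : Fin n, η (i + 1, pos s (i + 1)) = η' (i + 1, pos s (i + 1))) :
    ZT β h η E = ZT β h η' E := by
  unfold ZT
  refine Finset.sum_congr rfl fun s _ => ?_
  by_cases hs : s ∈ E
  · rw [if_pos hs, if_pos hs]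
    unfold wgt energy
    rw [Finset.sum_congr rfl fun i _ => hE s hs i]
  · rw [if_neg hs, if_neg hs]

/-- Two environments which agree where the polymer lives. -/
theorem two6 (hd : 0 < d) (β : ℝ) (h : Vec d) {n : ℕ} {η η' : Env d}
    {E : Set (Fin n → Step d)} (hE : ZT β h η E = ZT β h η' E)
    (h1 : 1 / 2 ≤ PolT β h η E) (h2 : 1 / 2 ≤ PolT β h η' E) :
    |X β h η n - X β h η' n| ≤ Real.log 2 := by
  have a1 : 1 / 2 * Z β h η n ≤ ZT β h η E := le_ZT_of_PolT hd h1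
  have a2 : 1 / 2 * Z β h η' n ≤ ZT β h η' E := le_ZT_of_PolT hd h2
  have b1 : ZT β h η E ≤ Z β h η n := ZT_mono β h η (Set.subset_univ _)
  have b2 : ZT β h η' E ≤ Z β h η' n := ZT_mono β h η' (Set.subset_univ _)
  have p1 : 0 < Z β h η n := ZT_univ_pos hd β h η
  have p2 : 0 < Z β h η' n := ZT_univ_pos hd β h η'
  have c1 : Real.log (1 / 2 * Z β h η n) ≤ Real.log (Z β h η' n) :=
    Real.log_le_log (by positivity) (by linarith)
  have c2 : Real.log (1 / 2 * Z β h η' n) ≤ Real.log (Z β h η n) :=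
    Real.log_le_log (by positivity) (by linarith)
  rw [Real.log_mul (by norm_num) p1.ne', one_div, Real.log_inv] at c1
  rw [Real.log_mul (by norm_num) p2.ne', one_div, Real.log_inv] at c2
  unfold X
  rw [abs_le]
  exact ⟨by linarith, by linarith⟩

/-! ### Measure -/

theorem pre6 {α γ : Type*} [MeasurableSpace α] [MeasurableSpace γ] {μ : Measure α}
    {ν : Measure γ} {f : α → γ} (hf : MeasurePreserving f μ ν) {B : Set γ}
    (hB : MeasurableSet B) : μ.real (f ⁻¹' B) = ν.real B := by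
  unfold Measure.real
  rw [hf.measure_preimage hB.nullMeasurableSet]

/-- Markov's inequality. -/
theorem mark6 [IsProbabilityMeasure ρ] (_hd : 0 < d) (β : ℝ) (h : Vec d) {n : ℕ}
    (E : Set (Fin n → Step d)) {ε : ℝ}
    (h1 : ∫ η, (1 - PolT β h η E) ∂(law d ρ) ≤ ε) :
    (law d ρ).real {η | ¬ 1 / 2 ≤ PolT β h η E} ≤ 2 * ε := by
  have hm : Measurable fun η : Env d => 1 - PolT β h η E := (measurable_PolT β h E).const_sub 1
  have h0 : ∀ η : Env d, 0 ≤ 1 - PolT β h η E := fun η => by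
    linarith [PolT_le_one β h η E]
  have hi : Integrable (fun η : Env d => 1 - PolT β h η E) (law d ρ) := by
    refine Integrable.mono' (integrable_const (1 : ℝ)) hm.aestronglyMeasurable
      (Eventually.of_forall fun η => ?_)
    rw [Real.norm_eq_abs, abs_of_nonneg (h0 η)]
    linarith [PolT_nonneg β h η E]
  have h2 := mul_meas_ge_le_integral_of_nonneg (μ := law d ρ) (Eventually.of_forall h0) hi (1 / 2)
  have h3 : (law d ρ).real {η | ¬ 1 / 2 ≤ PolT β h η E} ≤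
      (law d ρ).real {η | 1 / 2 ≤ 1 - PolT β h η E} := by
    refine measureReal_mono fun η hη => ?_
    have h4 : PolT β h η E < 1 / 2 := not_le.1 hη
    show 1 / 2 ≤ 1 - PolT β h η E
    linarith
  linarith

/-- **Step 1.** -/
theorem rs6 [IsProbabilityMeasure ρ] (hd : 0 < d) (β : ℝ) {h₁ h₂ v₁ v₂ : Vec d} {n p : ℕ}
    {r ε M : ℝ} (h1 : ∫ η, (1 - PolT β h₁ η (tube d n v₁ r)) ∂(law d ρ) ≤ ε)
    (h2 : ∫ η, (1 - PolT β h₂ η (tube d n v₂ r)) ∂(law d ρ) ≤ ε)
    (hv : 2 * r < p * ‖v₂ - v₁‖)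
    (hM : n * (‖h₂ - h₁‖ * ‖v₂ - v₁‖) + 2 * (‖h₂ - h₁‖ * r) + 4 * Real.log 2 ≤ M) :
    RS ρ β h₁ n p M (10 * ε) := by
  unfold RS
  set S' : Set (ℕ × Site d) := Pa d p with hS'
  set S'' : Set (ℕ × Site d) := Pa d p ∪ {q | r < ‖emb q.2 - (q.1 : ℝ) • v₁‖} with hS''
  set G1 : Set (Env d) := {η | ¬ 1 / 2 ≤ PolT β h₁ η (tube d n v₁ r)} with hG1
  set G2 : Set (Env d) := {η | ¬ 1 / 2 ≤ PolT β h₂ η (tube d n v₂ r)} with hG2
  have m1 : MeasurableSet G1 :=
    (measurableSet_le measurable_const (measurable_PolT β h₁ (tube d n v₁ r))).compl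
  have m2 : MeasurableSet G2 :=
    (measurableSet_le measurable_const (measurable_PolT β h₂ (tube d n v₂ r))).compl
  have q1 := mark6 hd β h₁ (tube d n v₁ r) h1
  have q2 := mark6 hd β h₂ (tube d n v₂ r) h2
  have mp1 := S98.mp_spl (ρ := ρ) S'
  have mp2 := S98.mp_spl (ρ := ρ) S''
  have mf : MeasurePreserving (Prod.fst : Env d × Env d → Env d) ((law d ρ).prod (law d ρ))
      (law d ρ) := measurePreserving_fst
  have hsub : {w : Env d × Env d | M < |X β h₁ w.1 n - X β h₁ (spl S' w.1 w.2) n|} ⊆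
      ((((Prod.fst ⁻¹' G1) ∪ (Prod.fst ⁻¹' G2)) ∪
        ((fun w : Env d × Env d => spl S' w.1 w.2) ⁻¹' G1)) ∪
        ((fun w : Env d × Env d => spl S'' w.1 w.2) ⁻¹' G1)) ∪
        ((fun w : Env d × Env d => spl S'' w.1 w.2) ⁻¹' G2) := by
    intro w hw
    by_contra hcon
    simp only [Set.mem_union, not_or] at hcon
    obtain ⟨⟨⟨⟨c1, c2⟩, c3⟩, c4⟩, c5⟩ := hcon
    have d1 : 1 / 2 ≤ PolT β h₁ w.1 (tube d n v₁ r) := not_not.1 c1
    have d2 : 1 / 2 ≤ PolT β h₂ w.1 (tube d n v₂ r) := not_not.1 c2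
    have d3 : 1 / 2 ≤ PolT β h₁ (spl S' w.1 w.2) (tube d n v₁ r) := not_not.1 c3
    have d4 : 1 / 2 ≤ PolT β h₁ (spl S'' w.1 w.2) (tube d n v₁ r) := not_not.1 c4
    have d5 : 1 / 2 ≤ PolT β h₂ (spl S'' w.1 w.2) (tube d n v₂ r) := not_not.1 c5
    -- the tubes
    have e1 : ZT β h₁ (spl S'' w.1 w.2) (tube d n v₁ r) =
        ZT β h₁ (spl S' w.1 w.2) (tube d n v₁ r) := by
      refine ZT_agree6 β h₁ fun s hs i => ?_
      have hi := hs (i + 1) (by have := i.2; omega)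
      by_cases hp : ((i : ℕ) + 1, pos s (i + 1)) ∈ Pa d p
      · rw [S98.spl_mem _ _ (Or.inl hp : _ ∈ S''), S98.spl_mem _ _ hp]
      · have hn : ((i : ℕ) + 1, pos s (i + 1)) ∉ S'' := by
          rintro (h9 | h9)
          · exact hp h9
          · exact absurd hi (not_le.2 h9)
        rw [S98.spl_not_mem _ _ hn, S98.spl_not_mem _ _ hp]
    have e2 : ZT β h₂ w.1 (tube d n v₂ r) = ZT β h₂ (spl S'' w.1 w.2) (tube d n v₂ r) := by
      refine ZT_agree6 β h₂ fun s hs i => ?_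
      have hi := hs (i + 1) (by have := i.2; omega)
      have hmem : ((i : ℕ) + 1, pos s (i + 1)) ∈ S'' := by
        by_cases hp : (i : ℕ) + 1 ≤ p
        · exact Or.inl hp
        · refine Or.inr ?_
          show r < ‖emb (pos s (i + 1)) - (((i : ℕ) + 1 : ℕ) : ℝ) • v₁‖
          have hpi : (p : ℝ) ≤ (((i : ℕ) + 1 : ℕ) : ℝ) := by
            exact_mod_cast (not_le.1 hp).le
          have t1 : (((i : ℕ) + 1 : ℕ) : ℝ) * ‖v₂ - v₁‖ ≤
              ‖emb (pos s (i + 1)) - (((i : ℕ) + 1 : ℕ) : ℝ) • v₁‖ + r := by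
            have t2 : (((i : ℕ) + 1 : ℕ) : ℝ) • (v₂ - v₁) =
                (emb (pos s (i + 1)) - (((i : ℕ) + 1 : ℕ) : ℝ) • v₁) -
                (emb (pos s (i + 1)) - (((i : ℕ) + 1 : ℕ) : ℝ) • v₂) := by
              rw [smul_sub]
              abel
            have t3 : ‖(((i : ℕ) + 1 : ℕ) : ℝ) • (v₂ - v₁)‖ =
                (((i : ℕ) + 1 : ℕ) : ℝ) * ‖v₂ - v₁‖ := by
              rw [norm_smul, Real.norm_eq_abs, abs_of_nonneg (Nat.cast_nonneg _)]
            rw [← t3, t2]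
            exact (norm_sub_le _ _).trans (add_le_add le_rfl hi)
          have t4 : (p : ℝ) * ‖v₂ - v₁‖ ≤ (((i : ℕ) + 1 : ℕ) : ℝ) * ‖v₂ - v₁‖ :=
            mul_le_mul_of_nonneg_right hpi (norm_nonneg _)
          linarith
      rw [S98.spl_mem _ _ hmem]
    have f1 := two6 hd β h₁ e1 d4 d3
    have f2 := two6 hd β h₂ e2 d2 d5
    have g1 := one6 hd β h₁ h₂ d1
    have g2 := one6 hd β h₂ h₁ d2
    have g3 := one6 hd β h₁ h₂ d4
    have g4 := one6 hd β h₂ h₁ d5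
    have k1 : ‖h₁ - h₂‖ = ‖h₂ - h₁‖ := norm_sub_rev _ _
    have k2 : inner ℝ (h₁ - h₂) v₂ = -inner ℝ (h₂ - h₁) v₂ := by
      rw [← inner_neg_left, neg_sub]
    have k3 : inner ℝ (h₂ - h₁) v₂ - inner ℝ (h₂ - h₁) v₁ ≤ ‖h₂ - h₁‖ * ‖v₂ - v₁‖ := by
      rw [← inner_sub_right]
      exact real_inner_le_norm _ _
    have k4 : (n : ℝ) * (inner ℝ (h₂ - h₁) v₂ - inner ℝ (h₂ - h₁) v₁) ≤
        n * (‖h₂ - h₁‖ * ‖v₂ - v₁‖) := mul_le_mul_of_nonneg_left k3 (Nat.cast_nonneg n)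
    rw [k1, k2] at g2 g4
    have f3 := abs_le.1 f1
    have f4 := abs_le.1 f2
    have hw' : M < |X β h₁ w.1 n - X β h₁ (spl S' w.1 w.2) n| := hw
    have hle : |X β h₁ w.1 n - X β h₁ (spl S' w.1 w.2) n| ≤ M := by
      rw [abs_le]
      constructor
      · linarith [f3.1, f3.2, f4.1, f4.2]
      · linarith [f3.1, f3.2, f4.1, f4.2]
    exact absurd hw' (not_lt.2 hle)
  refine (measureReal_mono hsub).trans ?_
  refine (measureReal_union_le _ _).trans ?_
  have u1 := measureReal_union_le (μ := (law d ρ).prod (law d ρ))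
    (((Prod.fst ⁻¹' G1) ∪ (Prod.fst ⁻¹' G2)) ∪
        ((fun w : Env d × Env d => spl S' w.1 w.2) ⁻¹' G1))
    ((fun w : Env d × Env d => spl S'' w.1 w.2) ⁻¹' G1)
  have u2 := measureReal_union_le (μ := (law d ρ).prod (law d ρ))
    ((Prod.fst ⁻¹' G1) ∪ (Prod.fst ⁻¹' G2))
    ((fun w : Env d × Env d => spl S' w.1 w.2) ⁻¹' G1)
  have u3 := measureReal_union_le (μ := (law d ρ).prod (law d ρ))
    (Prod.fst ⁻¹' G1 : Set (Env d × Env d)) (Prod.fst ⁻¹' G2)
  have w1 := pre6 mf m1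
  have w2 := pre6 mf m2
  have w3 := pre6 mp1 m1
  have w4 := pre6 mp2 m1
  have w5 := pre6 mp2 m2
  rw [w5]
  rw [w4] at u1
  rw [w3] at u2
  rw [w1, w2] at u3
  linarith

/-- **The coupling.** Two environments which agree on the rows `≤ p`. -/
theorem coup6 [IsProbabilityMeasure ρ] {β : ℝ} {h : Vec d} {n p : ℕ} {M δ : ℝ}
    (hR : RS ρ β h n p M δ) {Θ : Type*} [MeasurableSpace Θ] {μ : Measure Θ}
    [IsProbabilityMeasure μ] {E₁ E₂ : Θ → Env d} (hE₁ : MeasurePreserving E₁ μ (law d ρ))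
    (hE₂ : MeasurePreserving E₂ μ (law d ρ))
    (hE : ∀ θ, ∀ q : ℕ × Site d, q.1 ≤ p → E₁ θ q = E₂ θ q) :
    μ.real {θ | 2 * M < |X β h (E₁ θ) n - X β h (E₂ θ) n|} ≤ 2 * δ := by
  set B : Set (Env d × Env d) := {w | M < |X β h w.1 n - X β h (spl (Pa d p) w.1 w.2) n|} with hB
  have hBm : MeasurableSet B := by
    refine measurableSet_lt measurable_const ?_
    exact (((measurable_X β h n).comp measurable_fst).sub
      ((measurable_X β h n).comp (S98.measurable_spl (Pa d p)))).abs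
  have hid : MeasurePreserving (id : Env d → Env d) (law d ρ) (law d ρ) := MeasurePreserving.id _
  have p1 := hE₁.prod hid
  have p2 := hE₂.prod hid
  have hT : MeasurableSet {θ | 2 * M < |X β h (E₁ θ) n - X β h (E₂ θ) n|} := by
    refine measurableSet_lt measurable_const ?_
    exact (((measurable_X β h n).comp hE₁.measurable).sub
      ((measurable_X β h n).comp hE₂.measurable)).abs
  have mf : MeasurePreserving (Prod.fst : Θ × Env d → Θ) (μ.prod (law d ρ)) μ :=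
    measurePreserving_fst
  rw [← pre6 mf hT]
  have hsub : (Prod.fst ⁻¹' {θ | 2 * M < |X β h (E₁ θ) n - X β h (E₂ θ) n|} : Set (Θ × Env d)) ⊆
      (Prod.map E₁ id ⁻¹' B) ∪ (Prod.map E₂ id ⁻¹' B) := by
    intro w hw
    by_contra hcon
    simp only [Set.mem_union, not_or] at hcon
    obtain ⟨c1, c2⟩ := hcon
    have d1 : |X β h (E₁ w.1) n - X β h (spl (Pa d p) (E₁ w.1) w.2) n| ≤ M := not_lt.1 c1
    have d2 : |X β h (E₂ w.1) n - X β h (spl (Pa d p) (E₂ w.1) w.2) n| ≤ M := not_lt.1 c2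
    have hw' : 2 * M < |X β h (E₁ w.1) n - X β h (E₂ w.1) n| := hw
    have e1 : spl (Pa d p) (E₁ w.1) w.2 = spl (Pa d p) (E₂ w.1) w.2 := by
      funext q
      by_cases hq : q ∈ Pa d p
      · rw [S98.spl_mem _ _ hq, S98.spl_mem _ _ hq]
        exact hE w.1 q hq
      · rw [S98.spl_not_mem _ _ hq, S98.spl_not_mem _ _ hq]
    rw [e1] at d1
    have d3 := abs_le.1 d1
    have d4 := abs_le.1 d2
    have hle : |X β h (E₁ w.1) n - X β h (E₂ w.1) n| ≤ 2 * M := by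
      rw [abs_le]
      constructor
      · linarith [d3.1, d4.2]
      · linarith [d3.2, d4.1]
    linarith
  refine (measureReal_mono hsub).trans ((measureReal_union_le _ _).trans ?_)
  rw [pre6 p1 hBm, pre6 p2 hBm]
  have hR' : ((law d ρ).prod (law d ρ)).real B ≤ δ := hR
  linarith

/-- Leaf C. -/
theorem coupS6 [IsProbabilityMeasure ρ] (β : ℝ) : Coup d ρ β := by
  intro Ω _ P _ E₁ E₂ h1 h2 p hE h n M δ hR
  exact coup6 hR h1 h2 hE

/-- Leaf P. -/
theorem pairS6 [IsProbabilityMeasure ρ] (hd : 0 < d) (β : ℝ) : PairS d ρ β := by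
  intro h₁ h₂ v₁ v₂ n p R a C ε hR ha hC hv hh hp h1 h2
  refine rs6 hd β (r := R * Real.sqrt n) h1 h2 (by linarith) ?_
  have hs := Real.sqrt_nonneg (n : ℝ)
  have hn : Real.sqrt n * Real.sqrt n = n := Real.mul_self_sqrt (Nat.cast_nonneg n)
  have e1 : (n : ℝ) * (‖h₂ - h₁‖ * ‖v₂ - v₁‖) ≤ C * a := by
    calc (n : ℝ) * (‖h₂ - h₁‖ * ‖v₂ - v₁‖) =
        (‖h₂ - h₁‖ * Real.sqrt n) * (‖v₂ - v₁‖ * Real.sqrt n) := by
          have e : (‖h₂ - h₁‖ * Real.sqrt n) * (‖v₂ - v₁‖ * Real.sqrt n) =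
              (Real.sqrt n * Real.sqrt n) * (‖h₂ - h₁‖ * ‖v₂ - v₁‖) := by ring
          rw [e, hn]
      _ ≤ C * a := mul_le_mul hh hv (mul_nonneg (norm_nonneg _) hs) hC
  have e2 : 2 * (‖h₂ - h₁‖ * (R * Real.sqrt n)) ≤ 2 * C * R := by
    have := mul_le_mul_of_nonneg_left hh (show 0 ≤ 2 * R by positivity)
    linarith
  have e3 : Real.log 2 ≤ 1 := by
    have := Real.log_le_sub_one_of_pos (show (0 : ℝ) < 2 by norm_num)
    linarith
  linarith

end Pool.Agent.W_7d29a1_SD
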