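import Pool.Agent.W_7d29a1_SD.DefsSD
import Pool.Agent.W_7d29a1_SD.Sel70

/-!
Theorem SD from its leaves: the selection of the velocity.
-/

namespace Pool.Agent.W_7d29a1_SD

open MeasureTheory ProbabilityTheory Filter Topology Pool.Agent.W_MP_7d29a1_pr
  Pool.Agent.W_7d29a1_h46 Pool.Agent.W_7d29a1_h46u Pool.Agent.W_7d29a1_D2 Pool.Agent.W_7d29a1_Q29
  Pool.Agent.W_7d29a1_NV

variable {d : ℕ} {ρ : Measure ℝ} [IsProbabilityMeasure ρ] {β : ℝ}

/-- The mass outside of the tube decreases with its radius. -/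
lemma Tb_anti (β : ℝ) (h v : Vec d) {R R' : ℝ} (n : ℕ) (hR : R ≤ R') :
    Tb ρ β h v R' n ≤ Tb ρ β h v R n := by
  have hint : ∀ E : Set (Fin n → Step d), Integrable (fun η => 1 - PolT β h η E) (law d ρ) := by
    intro E
    refine (integrable_const 1).sub (Integrable.of_bound
      (measurable_PolT β h E).aestronglyMeasurable 1 (Filter.Eventually.of_forall fun η => ?_))
    rw [Real.norm_eq_abs, abs_of_nonneg (PolT_nonneg β h η E)]
    exact PolT_le_one β h η E
  refine integral_mono (hint _) (hint _) fun η => ?_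
  have h1 := PolT_mono β h η
    (tube_mono (n := n) v (mul_le_mul_of_nonneg_right hR (Real.sqrt_nonneg n)))
  simp only
  linarith

omit [IsProbabilityMeasure ρ] in
/-- The resampling bound is weaker for a larger probability. -/
lemma RS_mono {h : Vec d} {n p : ℕ} {M δ δ' : ℝ} (hδ : δ ≤ δ') (H : RS ρ β h n p M δ) :
    RS ρ β h n p M δ' := le_trans H hδ

/-- **Theorem SD from its leaves.** -/
theorem mainSD70 (hd : 0 < d) (hρ : EM ρ) (β : ℝ) (hN : NVR d ρ β) (hP : PairS d ρ β)
    (hD : SubD d ρ β) : MainSD d ρ β :=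
  Sel70.sel70 (T := Tb ρ β) (V := VSD ρ β) (RS := RS ρ β) hd (lam_convex hd hρ β)
    (fun h v _ _ n hR => Tb_anti β h v n hR) hD hP (fun _ _ _ _ _ _ hδ H => RS_mono hδ H) hN

end Pool.Agent.W_7d29a1_SD
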