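import Pool.Agent.W_7d29a1_SD.DefsSD
import Pool.Agent.W_7d29a1_h46u.ConcV
import Pool.Agent.W_7d29a1_h46u.LamU

/-!
Theorem SD, leaf D: the velocity of a diffusive polymer is a slope of the free energy.
-/

namespace Pool.Agent.W_7d29a1_SD

open MeasureTheory ProbabilityTheory Filter Topology Pool.Agent.W_MP_7d29a1_pr
  Pool.Agent.W_7d29a1_h46 Pool.Agent.W_7d29a1_h46u

variable {d : ℕ} {ρ : Measure ℝ} [IsProbabilityMeasure ρ] {β : ℝ}

/-- Changing the tilt on the event that the tube around the line has mass at least `c`. -/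
theorem tube_tilt20 (hd : 0 < d) (h k v : Vec d) {η : Env d} {n : ℕ} {r c : ℝ} (hc : 0 < c)
    (hP : c ≤ PolT β h η (tube d n v r)) :
    X β h η n + n * inner ℝ v k - ‖k‖ * r + Real.log c ≤ X β (h + k) η n := by
  have h1 := le_ZT_of_PolT hd hP
  have h2 : Real.exp (n * inner ℝ v k - ‖k‖ * r) * ZT β h η (tube d n v r) ≤
      ZT β (h + k) η (tube d n v r) := by
    refine ZT_tilt_ge β h (h + k) η fun s hs => ?_
    have h3 : ‖emb (pos s n) - (n : ℝ) • v‖ ≤ r := hs n le_rfl
    have h4 : inner ℝ (h + k - h) (emb (pos s n)) =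
        inner ℝ k (emb (pos s n) - (n : ℝ) • v) + n * inner ℝ v k := by
      rw [add_sub_cancel_left, inner_sub_right, inner_smul_right, real_inner_comm k v]
      ring
    have h5 : |inner ℝ k (emb (pos s n) - (n : ℝ) • v)| ≤ ‖k‖ * ‖emb (pos s n) - (n : ℝ) • v‖ :=
      abs_real_inner_le_norm _ _
    have h6 : ‖k‖ * ‖emb (pos s n) - (n : ℝ) • v‖ ≤ ‖k‖ * r :=
      mul_le_mul_of_nonneg_left h3 (norm_nonneg k)
    have h7 := abs_le.1 (h5.trans h6)
    rw [h4]
    linarith [h7.1]
  have h3 : ZT β (h + k) η (tube d n v r) ≤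
      ZT β (h + k) η (Set.univ : Set (Fin n → Step d)) := ZT_mono _ _ _ (Set.subset_univ _)
  have hp : 0 < ZT β h η (Set.univ : Set (Fin n → Step d)) := ZT_univ_pos hd β h η
  have h4 : Real.exp (n * inner ℝ v k - ‖k‖ * r) *
      (c * ZT β h η (Set.univ : Set (Fin n → Step d))) ≤
      ZT β (h + k) η (Set.univ : Set (Fin n → Step d)) :=
    (mul_le_mul_of_nonneg_left h1 (Real.exp_pos _).le).trans (h2.trans h3)
  have h5 := Real.log_le_log (by positivity) h4
  rw [Real.log_mul (Real.exp_pos _).ne' (by positivity), Real.log_exp,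
    Real.log_mul hc.ne' hp.ne'] at h5
  unfold X Z
  linarith

/-- The mass of the tube is at least `1 / 2` with probability at least `1 - 2 Tb`. -/
theorem good20 (h v : Vec d) (n : ℕ) (R : ℝ) :
    1 - 2 * Tb ρ β h v R n ≤
      (law d ρ).real {η | 1 / 2 ≤ PolT β h η (tube d n v (R * Real.sqrt n))} := by
  have hm : Measurable fun η : Env d => 1 - PolT β h η (tube d n v (R * Real.sqrt n)) :=
    measurable_const.sub (measurable_PolT β h _)
  have h0 : ∀ η : Env d, 0 ≤ 1 - PolT β h η (tube d n v (R * Real.sqrt n)) := fun η =>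
    sub_nonneg.2 (PolT_le_one β h η _)
  have hi : Integrable (fun η : Env d => 1 - PolT β h η (tube d n v (R * Real.sqrt n)))
      (law d ρ) := by
    refine Integrable.mono' (integrable_const (1 : ℝ)) hm.aestronglyMeasurable
      (ae_of_all _ fun η => ?_)
    rw [Real.norm_eq_abs, abs_of_nonneg (h0 η)]
    linarith [PolT_nonneg β h η (tube d n v (R * Real.sqrt n))]
  have h1 := mul_meas_ge_le_integral_of_nonneg (ae_of_all _ h0) hi (1 / 2)
  have h2 : {η : Env d | 1 / 2 ≤ PolT β h η (tube d n v (R * Real.sqrt n))}ᶜ ⊆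
      {η : Env d | 1 / 2 ≤ 1 - PolT β h η (tube d n v (R * Real.sqrt n))} := by
    intro η hη
    have h3 : ¬ 1 / 2 ≤ PolT β h η (tube d n v (R * Real.sqrt n)) := hη
    show 1 / 2 ≤ 1 - PolT β h η (tube d n v (R * Real.sqrt n))
    linarith [not_le.1 h3]
  have h3 := measureReal_mono (μ := law d ρ) h2
  have hms : MeasurableSet {η : Env d | 1 / 2 ≤ PolT β h η (tube d n v (R * Real.sqrt n))} :=
    measurableSet_le measurable_const (measurable_PolT β h _)
  rw [probReal_compl_eq_one_sub hms] at h3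
  unfold Tb
  linarith

/-- Leaf D. -/
theorem subD20 (hd : 0 < d) (hρ : EM ρ) : SubD d ρ β := by
  intro h v hD k
  obtain ⟨R, hR⟩ := hD (1 / 4) (by norm_num)
  obtain ⟨C, hC0, hC⟩ := momU (ρ := ρ) hd hρ β 1
  have key : ∀ n : ℕ, 1 ≤ n → A ρ β h n / n + inner ℝ v k ≤
      A ρ β (h + k) n / n + (4 * C + ‖k‖ * R) / Real.sqrt n + Real.log 2 / n := by
    intro n hn
    have hn' : (0 : ℝ) < n := by exact_mod_cast hn
    have hs : 0 < Real.sqrt n := Real.sqrt_pos.2 hn'
    have hsq : Real.sqrt n * Real.sqrt n = n := Real.mul_self_sqrt hn'.le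
    set G : Set (Env d) := {η | 1 / 2 ≤ PolT β h η (tube d n v (R * Real.sqrt n))} with hG
    have hPG : 1 / 2 ≤ (law d ρ).real G := by
      have h1 := good20 (ρ := ρ) (β := β) h v n R
      have h2 := hR n
      linarith
    have hG0 : law d ρ G ≠ 0 := by
      intro h1
      rw [Measure.real, h1] at hPG
      norm_num at hPG
    obtain ⟨i1, m1⟩ := hC h n hn
    obtain ⟨i2, m2⟩ := hC (h + k) n hn
    have hpw : (n : ℝ) ^ ((1 / 2 : ℝ) * (1 : ℕ)) = Real.sqrt n := by
      rw [Real.sqrt_eq_rpow]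
      norm_num
    rw [hpw] at m1 m2
    have hi : Integrable (fun η => |X β h η n - A ρ β h n| ^ 1 +
      |X β (h + k) η n - A ρ β (h + k) n| ^ 1) (law d ρ) := i1.add i2
    obtain ⟨η, hη, hle⟩ := exists_le_setAverage hG0 (measure_ne_top _ _) hi.integrableOn
    have h3 : ∫ η in G, (|X β h η n - A ρ β h n| ^ 1 +
        |X β (h + k) η n - A ρ β (h + k) n| ^ 1) ∂(law d ρ) ≤ 2 * (C * Real.sqrt n) := by
      refine (setIntegral_le_integral hi (ae_of_all _ fun η => by positivity)).trans ?_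
      rw [integral_add i1 i2]
      linarith
    have h4 : (|X β h η n - A ρ β h n| ^ 1 + |X β (h + k) η n - A ρ β (h + k) n| ^ 1) ≤
        4 * (C * Real.sqrt n) := by
      refine hle.trans ?_
      rw [setAverage_eq, smul_eq_mul]
      have h5 : ((law d ρ).real G)⁻¹ ≤ 2 := by
        rw [inv_le_comm₀ (by linarith) (by norm_num)]
        norm_num at hPG ⊢
        exact hPG
      have h6 : 0 ≤ 2 * (C * Real.sqrt n) := by positivity
      have h7 : 0 ≤ ((law d ρ).real G)⁻¹ := by positivity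
      calc ((law d ρ).real G)⁻¹ * _ ≤ ((law d ρ).real G)⁻¹ * (2 * (C * Real.sqrt n)) :=
            mul_le_mul_of_nonneg_left h3 h7
        _ ≤ 2 * (2 * (C * Real.sqrt n)) := mul_le_mul_of_nonneg_right h5 h6
        _ = _ := by ring
    rw [pow_one, pow_one] at h4
    have h5 := tube_tilt20 hd h k v (by norm_num : (0 : ℝ) < 1 / 2) hη
    have h6 : Real.log (1 / 2) = -Real.log 2 := by
      rw [one_div, Real.log_inv]
    rw [h6] at h5
    have h7 := neg_abs_le (X β h η n - A ρ β h n)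
    have h8 := le_abs_self (X β (h + k) η n - A ρ β (h + k) n)
    have h9 : A ρ β h n + n * inner ℝ v k ≤
        A ρ β (h + k) n + (4 * C + ‖k‖ * R) * Real.sqrt n + Real.log 2 := by
      have e1 : (4 * C + ‖k‖ * R) * Real.sqrt n =
          4 * (C * Real.sqrt n) + ‖k‖ * (R * Real.sqrt n) := by ring
      rw [e1]
      linarith
    have h10 := div_le_div_of_nonneg_right h9 hn'.le
    rw [add_div, add_div, add_div, mul_div_cancel_left₀ _ hn'.ne'] at h10
    have h11 : (4 * C + ‖k‖ * R) * Real.sqrt n / n = (4 * C + ‖k‖ * R) / Real.sqrt n := by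
      rw [div_eq_div_iff hn'.ne' hs.ne', mul_assoc, hsq]
    rw [h11] at h10
    exact h10
  have hsq : Tendsto (fun n : ℕ => Real.sqrt n) atTop atTop :=
    Real.tendsto_sqrt_atTop.comp tendsto_natCast_atTop_atTop
  have t1 : Tendsto (fun n : ℕ => (4 * C + ‖k‖ * R) / Real.sqrt n) atTop (𝓝 0) :=
    hsq.const_div_atTop _
  have t2 : Tendsto (fun n : ℕ => Real.log 2 / (n : ℝ)) atTop (𝓝 0) :=
    tendsto_natCast_atTop_atTop.const_div_atTop _
  have t3 : Tendsto (fun n : ℕ => A ρ β h n / n + inner ℝ v k) atTop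
      (𝓝 (lam ρ β h + inner ℝ v k)) := (tendsto_A hd hρ β h).add_const _
  have t4 : Tendsto (fun n : ℕ => A ρ β (h + k) n / n + (4 * C + ‖k‖ * R) / Real.sqrt n +
      Real.log 2 / n) atTop (𝓝 (lam ρ β (h + k) + 0 + 0)) :=
    ((tendsto_A hd hρ β (h + k)).add t1).add t2
  rw [add_zero, add_zero] at t4
  exact le_of_tendsto_of_tendsto t3 t4 ((eventually_ge_atTop 1).mono key)

end Pool.Agent.W_7d29a1_SD
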