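import Pool.Agent.W_7d29a1_SD.DefsSD
import Pool.Agent.W_7d29a1_NV.RowsW92
import Pool.Agent.W_7d29a1_NV.CoreR66

/-!
Theorem SD, leaf W2: the core for the rows behind `n / 8`.
-/

namespace Pool.Agent.W_7d29a1_SD

open MeasureTheory ProbabilityTheory Filter Topology Pool.Agent.W_MP_7d29a1_pr
  Pool.Agent.W_7d29a1_h46 Pool.Agent.W_7d29a1_h46u Pool.Agent.W_7d29a1_D2.B35
  Pool.Agent.W_7d29a1_Q29 Pool.Agent.W_7d29a1_NV

/-- The core behind any time `p`. -/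
theorem coreP92 {d : ℕ} {ρ : Measure ℝ} [IsProbabilityMeasure ρ] {β b : ℝ} (hb : 0 ≤ b)
    (h1 : OneP d ρ β b) (h2 : TwoW d ρ β b) (h3 : MonT d ρ β b) (h4 : VarL d ρ β b)
    (h : Vec d) {g : ℝ} (hg : 0 < g)
    (hgap : lam ρ β h + g ≤ Real.log (Phi h) + Real.log (∫ t, Real.exp (β * t) ∂ρ)) :
    ∃ δ₀ : ℝ, 0 < δ₀ ∧ ∀ M : ℝ, ∃ ε δ b₂ : ℝ, 0 < ε ∧ 0 < δ ∧ ∀ b₀ : ℝ, b₂ ≤ b₀ →
      ∃ n₀ : ℕ, ∀ n p : ℕ, p + n₀ ≤ n →
        A ρ β h n - A ρ β h (n - 1) ≤ lam ρ β h + g / 2 →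
        (∀ τ : ℕ, p < τ → τ ≤ p + n₀ →
          (law d ρ).real {η | ¬ GoodN β h n τ b₀ ε η} ≤ δ) →
          ¬ RS ρ β h n p M δ₀ := by
  obtain ⟨c, hc, hV⟩ := h4 g hg
  set B := Bc β b with hBd
  have hB : 1 ≤ B := by
    rw [hBd]
    unfold Bc
    have := mul_nonneg (abs_nonneg β) hb
    linarith
  refine ⟨c / (64 * B ^ 2), by positivity, fun M₀ => ?_⟩
  obtain ⟨M', hM'⟩ : ∃ M' : ℝ, M' = max M₀ 0 := ⟨_, rfl⟩
  have hM'0 : 0 ≤ M' := by rw [hM']; exact le_max_right _ _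
  have hM'1 : M₀ ≤ M' := by rw [hM']; exact le_max_left _ _
  obtain ⟨q, hq1, hq⟩ := rows66 (M := M') hB hc hM'0
  have hq0 : (1 : ℝ) ≤ q := by exact_mod_cast hq1
  obtain ⟨s, hs⟩ : ∃ s : ℝ, s = 1 / (8 * (2 * B * q + 1) ^ 2) := ⟨_, rfl⟩
  have hs0 : 0 < s := by rw [hs]; positivity
  have hs1 : s ≤ 1 := by
    rw [hs, div_le_one (by positivity)]
    have h0 : 0 ≤ 2 * B * q := by positivity
    nlinarith
  obtain ⟨ε, δ, b₂, hε, hδ, hrow⟩ := rowsW92 hb h1 h3 q s hq1 hs0 hs1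
  refine ⟨ε, δ, b₂, hε, hδ, fun b₀ hb₀ => ?_⟩
  obtain ⟨n₀, hn₀⟩ := hrow b₀ hb₀
  refine ⟨n₀, fun n p hn hinc hgood hRS => ?_⟩
  obtain ⟨T, r, hord, hpT, _, hrn, _, hx0, hxs⟩ := hn₀ h n p hn hgood
  have hRS' : RS ρ β h n p M' (c / (64 * B ^ 2)) := by
    refine le_trans (measureReal_mono ?_) hRS
    intro w hw
    exact lt_of_le_of_lt hM'1 hw
  have hT := h2 h n q T r hord p M' _ hM'0 hpT hRS'
  have hv : c * q ≤ ∑ i : Fin q, vap ρ β b h n (T i) (r i.castSucc) (r i.succ) := by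
    have h8 : ∀ i : Fin q, c ≤ vap ρ β b h n (T i) (r i.castSucc) (r i.succ) := fun i =>
      hV h hgap n hinc _ _ _ (hord.1 i).1 (hord.1 i).2 (hrn i)
    have h9 := Finset.sum_le_sum fun (i : Fin q) (_ : i ∈ Finset.univ) => h8 i
    rw [Finset.sum_const, Finset.card_univ, Fintype.card_fin, nsmul_eq_mul] at h9
    linarith
  have h10 := small92 hB q hs hxs
  have h12 : c * q / (4 * B * Real.sqrt (q + 1)) ≤
      (∑ i : Fin q, vap ρ β b h n (T i) (r i.castSucc) (r i.succ)) /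
        (4 * B * Real.sqrt (q + 1)) := div_le_div_of_nonneg_right hv (by positivity)
  linarith

/-- Leaf W2. -/
theorem coreW92 {d : ℕ} {ρ : Measure ℝ} [IsProbabilityMeasure ρ] {β b : ℝ} (hb : 0 ≤ b)
    (h1 : OneP d ρ β b) (h2 : TwoW d ρ β b) (h3 : MonT d ρ β b) (h4 : VarL d ρ β b) :
    CoreW d ρ β := by
  intro h g hg hgap
  obtain ⟨δ₀, hδ₀, hcore⟩ := coreP92 hb h1 h2 h3 h4 h hg hgap
  refine ⟨δ₀, hδ₀, fun M => ?_⟩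
  obtain ⟨ε, δ, b₂, hε, hδ, hb₂⟩ := hcore M
  refine ⟨ε, δ, b₂, hε, hδ, fun b₀ hb₀ => ?_⟩
  obtain ⟨n₀, hn₀⟩ := hb₂ b₀ hb₀
  refine ⟨2 * n₀, fun n hn hinc hgood => ?_⟩
  refine hn₀ n (n / 8) (by omega) hinc fun τ h5 h6 => hgood τ h5.le (by omega)

end Pool.Agent.W_7d29a1_SD
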