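import Pool.Agent.W_7d29a1_SD.TwoW66
import Pool.Agent.W_7d29a1_SD.CoreW92

/-!
Theorem SD, leaf W2, closed.
-/

namespace Pool.Agent.W_7d29a1_SD

open MeasureTheory ProbabilityTheory Filter Topology Pool.Agent.W_MP_7d29a1_pr
  Pool.Agent.W_7d29a1_h46 Pool.Agent.W_7d29a1_h46u Pool.Agent.W_7d29a1_D2.B35
  Pool.Agent.W_7d29a1_Q29 Pool.Agent.W_7d29a1_NV

/-- **Leaf W2**, closed. -/
theorem coreWE66 {d : ℕ} {ρ : Measure ℝ} [IsProbabilityMeasure ρ] {β : ℝ} (hd : 0 < d)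
    (hρ : EM ρ) (hnc : ∀ c : ℝ, ρ {c} ≠ 1) (hβ : 0 < β) : CoreW d ρ β := by
  obtain ⟨b, hb⟩ := (eventually_HB21 hnc).exists
  exact coreW92 hb.b0.le (onePE66 hd hβ hb) (twoWE66 hd hβ hb) (monT31 hd ρ hb)
    (varL42 hd hρ hβ.ne' hb)

end Pool.Agent.W_7d29a1_SD
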