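import Pool.Agent.W_7d29a1_SD.GoodI79
import Pool.Agent.W_7d29a1_SD.DefsSD

/-!
Leaf I (`MulW`): the laws of the positions at the times `≥ n / 8` are concentrated on few sites as
soon as the rows `> n / 8` do not move the free energy.
-/

set_option autoImplicit false

namespace Pool.Agent.W_7d29a1_SD

open MeasureTheory ProbabilityTheory Filter Topology Pool.Agent.W_MP_7d29a1_pr
  Pool.Agent.W_7d29a1_h46 Pool.Agent.W_7d29a1_h46u Pool.Agent.W_7d29a1_D2.B35
  Pool.Agent.W_7d29a1_Q29 Pool.Agent.W_7d29a1_NV Pool.Agent.W_7d29a1_NV.MT27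

variable {d : ℕ} {ρ : Measure ℝ}

/-- The inserted environment and the old one have the law of the environment and agree on the rows
`≤ τ`. -/
theorem coupIns79 [IsProbabilityMeasure ρ] {β : ℝ} (hC : Coup d ρ β) (h : Vec d) {n p τ m : ℕ}
    (hp : p ≤ τ) (z0 : Site d) {M δ b : ℝ} (hM : 4 * M ≤ b) (hRS : RS ρ β h n p M δ) :
    ((law d ρ).prod (law d ρ)).real
      {w | b / 2 < |X β h (insE τ m z0 w.1 w.2) n - X β h w.1 n|} ≤ 2 * δ := by
  have h1 := hC (Env d × Env d) ((law d ρ).prod (law d ρ))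
    (fun w => insE τ m z0 w.1 w.2) (fun w => w.1) (mp_ins τ m z0)
    (measurePreserving_fst (μ := law d ρ) (ν := law d ρ)) p (fun w q hq => by
      show insE τ m z0 w.1 w.2 q = w.1 q
      unfold insE
      rw [if_pos (hq.trans hp)]) h n M δ hRS
  refine (measureReal_mono fun w hw => ?_).trans h1
  have h2 : b / 2 < |X β h (insE τ m z0 w.1 w.2) n - X β h w.1 n| := hw
  show 2 * M < |X β h (insE τ m z0 w.1 w.2) n - X β h w.1 n|
  linarith

/-- Leaf I. -/
theorem mulW79 [IsProbabilityMeasure ρ] (hd : 0 < d) (hρ : EM ρ) (β : ℝ) (hC : Coup d ρ β) :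
    MulW d ρ β := by
  classical
  intro h hV ε δ hε hδ
  obtain ⟨c₀, C', b₁, hc0, hC0, hb11, hg⟩ := gain27 hd hρ β hV hε
  set κ : ℝ := δ / 16 with hκ
  have hκ0 : 0 < κ := by positivity
  obtain ⟨b₂, hb21, hb₂⟩ := G79.err79 (ρ := ρ) hd hρ β h (c₀ := c₀) (C' := C') (κ := κ) hc0 hC0 hκ0
  obtain ⟨m₁, hm₁⟩ := eventually_atTop.1
    (dm89 (ρ := ρ) hd hρ β h (show (0 : ℝ) < δ * κ / (8 * C') by positivity))
  refine ⟨δ / 16, by positivity, fun M => ⟨max b₁ (max b₂ (max (m₁ / c₀) (4 * M))),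
    fun b hb => ?_⟩⟩
  have hbb1 : b₁ ≤ b := (le_max_left _ _).trans hb
  have hbb2 : b₂ ≤ b := (le_max_left _ _).trans ((le_max_right _ _).trans hb)
  have hbb3 : (m₁ : ℝ) / c₀ ≤ b :=
    (le_max_left _ _).trans ((le_max_right _ _).trans ((le_max_right _ _).trans hb))
  have hbb4 : 4 * M ≤ b :=
    (le_max_right _ _).trans ((le_max_right _ _).trans ((le_max_right _ _).trans hb))
  have hb1 : 1 ≤ b := hb11.trans hbb1
  have hb0 : 0 < b := by linarith
  obtain ⟨m, z0, hm1, hm2, hgain⟩ := hg b hbb1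
  have hm0 : (0 : ℝ) < m := lt_of_lt_of_le (mul_pos hc0 hb0) hm1
  have hmm : m₁ ≤ m := by
    have h1 : (m₁ : ℝ) ≤ m := by
      rw [div_le_iff₀ hc0] at hbb3
      linarith
    exact_mod_cast h1
  have hD : m * lam ρ β h - A ρ β h m ≤ δ * (κ * m / C') / 8 := by
    have h1 := hm₁ m hmm
    refine h1.trans (le_of_eq ?_)
    field_simp
  obtain ⟨N₀, hN₀⟩ := densm89 (ρ := ρ) hd hρ β h (m := m) (b := κ * m / C') (δ := δ)
    (by positivity) hδ hD
  refine ⟨m, N₀, fun N hN => ?_⟩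
  refine le_trans ?_ (hN₀ N hN)
  have hsub : ((Finset.Ico N (2 * N)).filter fun n =>
      ¬ ((∀ m' : ℕ, m' ≤ m → RS ρ β h (n + m') (n / 8) M (δ / 16)) →
        ∀ τ : ℕ, n / 8 ≤ τ → τ ≤ n →
          (law d ρ).real {η | ¬ GoodN β h n τ b ε η} ≤ δ)) ⊆
      ((Finset.Ico N (2 * N)).filter fun n =>
        ¬ (A ρ β h (n + m) - A ρ β h n ≤ lam ρ β h * m + κ * m / C' / 4)) := by
    intro n hn
    rw [Finset.mem_filter] at hn ⊢
    refine ⟨hn.1, fun hA => hn.2 fun hRS τ hτ1 hτn => ?_⟩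
    have h1 := G79.core79 (ρ := ρ) hd hρ β h hb0 (n := n) (τ := τ) (m := m) z0
      {η | ¬ GoodN β h n τ b ε η} (fun η hη => hgain n τ hτn η hη)
    have h2 := coupIns79 (ρ := ρ) hC h (n := n + m) (p := n / 8) (τ := τ) (m := m) hτ1 z0
      (M := M) (δ := δ / 16) (b := b) hbb4 (hRS m le_rfl)
    have h3 := hb₂ b hbb2 m hm1 hm2 n (by
      refine hA.trans (le_of_eq ?_)
      field_simp)
    have h4 : 2 / b * ((A ρ β h (n + m) - A ρ β h n - A ρ β h m) +
        ∫ η, |X β h η m - A ρ β h m| ∂(law d ρ)) ≤ 2 * κ := by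
      have h5 := mul_le_mul_of_nonneg_left h3 (show (0 : ℝ) ≤ 2 / b by positivity)
      refine h5.trans (le_of_eq ?_)
      field_simp
    linarith
  exact_mod_cast Finset.card_le_card hsub

end Pool.Agent.W_7d29a1_SD
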