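import Pool.Agent.W_7d29a1_SD.DefsSD

/-!
Theorem SD, leaf N: the rows `> n / 8` move the free energy, at infinitely many lengths.
-/

namespace Pool.Agent.W_7d29a1_SD

open MeasureTheory ProbabilityTheory Filter Topology Pool.Agent.W_MP_7d29a1_pr
  Pool.Agent.W_7d29a1_h46 Pool.Agent.W_7d29a1_h46u Pool.Agent.W_7d29a1_D2.B35
  Pool.Agent.W_7d29a1_Q29 Pool.Agent.W_7d29a1_NV

open Classical in
/-- Leaf N. -/
theorem nvr50 {d : ℕ} {ρ : Measure ℝ} {β : ℝ} (hC : CoreW d ρ β) (hM : MulW d ρ β)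
    (hI : IncT d ρ β) : NVR d ρ β := by
  intro h hh
  obtain ⟨g, hg⟩ : ∃ g, g = Real.log (Phi h) + Real.log (∫ t, Real.exp (β * t) ∂ρ) - lam ρ β h :=
    ⟨_, rfl⟩
  have hg0 : 0 < g := by
    have h1 : lam ρ β h < Real.log (Phi h) + Real.log (∫ t, Real.exp (β * t) ∂ρ) := hh
    linarith
  obtain ⟨δ₀, hδ₀, hC1⟩ := hC h g hg0 (by linarith)
  refine ⟨δ₀, hδ₀, fun M₁ => ?_⟩
  obtain ⟨ε, δ, b₂, hε, hδ, hC2⟩ := hC1 M₁
  obtain ⟨c, hc, N1, hI1⟩ := hI h (g / 2) (by linarith)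
  have hδ1 : 0 < min δ (c / 2) := by positivity
  obtain ⟨δ₂, hδ₂, hM1⟩ := hM h hh ε (min δ (c / 2)) hε hδ1
  refine ⟨δ₂, hδ₂, fun M₂ => ?_⟩
  obtain ⟨b₁, hM2⟩ := hM1 M₂
  obtain ⟨m₀, N₀, hM3⟩ := hM2 (max b₁ b₂) (le_max_left _ _)
  obtain ⟨n₀, hC3⟩ := hC2 (max b₁ b₂) (le_max_right _ _)
  refine ⟨m₀, fun N => ?_⟩
  obtain ⟨N', hN'⟩ : ∃ N', N' = max (max N N₀) (max N1 (n₀ + 1)) := ⟨_, rfl⟩
  have h1 : N ≤ N' := by rw [hN']; exact (le_max_left _ _).trans (le_max_left _ _)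
  have h2 : N₀ ≤ N' := by rw [hN']; exact (le_max_right _ _).trans (le_max_left _ _)
  have h3 : N1 ≤ N' := by rw [hN']; exact (le_max_left _ _).trans (le_max_right _ _)
  have h4 : n₀ + 1 ≤ N' := by rw [hN']; exact (le_max_right _ _).trans (le_max_right _ _)
  have hN0 : (0 : ℝ) < N' := by
    have : 0 < N' := by omega
    exact_mod_cast this
  have hI2 := hI1 N' h3
  have hM4 := hM3 N' h2
  obtain ⟨n, hn1, hn2⟩ : ∃ n ∈ (Finset.Ico N' (2 * N')).filter (fun n =>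
      A ρ β h n - A ρ β h (n - 1) ≤ lam ρ β h + g / 2),
      n ∉ (Finset.Ico N' (2 * N')).filter (fun n =>
        ¬ ((∀ m : ℕ, m ≤ m₀ → RS ρ β h (n + m) (n / 8) M₂ δ₂) →
          ∀ τ : ℕ, n / 8 ≤ τ → τ ≤ n →
            (law d ρ).real {η | ¬ GoodN β h n τ (max b₁ b₂) ε η} ≤ min δ (c / 2))) := by
    refine Finset.exists_mem_notMem_of_card_lt_card ?_
    have h5 : min δ (c / 2) * N' < c * N' := by
      refine mul_lt_mul_of_pos_right ?_ hN0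
      have : min δ (c / 2) ≤ c / 2 := min_le_right _ _
      linarith
    exact_mod_cast lt_of_le_of_lt hM4 (lt_of_lt_of_le h5 hI2)
  rw [Finset.mem_filter, Finset.mem_Ico] at hn1
  obtain ⟨⟨hn3, hn4⟩, hn5⟩ := hn1
  refine ⟨n, h1.trans hn3, ?_⟩
  rintro ⟨hR1, hR2⟩
  have hgood : ∀ τ : ℕ, n / 8 ≤ τ → τ ≤ n →
      (law d ρ).real {η | ¬ GoodN β h n τ (max b₁ b₂) ε η} ≤ min δ (c / 2) := by
    by_contra h6
    exact hn2 (Finset.mem_filter.2 ⟨Finset.mem_Ico.2 ⟨hn3, hn4⟩, fun h7 => h6 (h7 hR2)⟩)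
  exact hC3 n (by omega) hn5 (fun τ h6 h7 => (hgood τ h6 h7).trans (min_le_left _ _)) hR1

end Pool.Agent.W_7d29a1_SD
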