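import Pool.Agent.W_7d29a1_SD.MainS70
import Pool.Agent.W_7d29a1_SD.MulW79
import Pool.Agent.W_7d29a1_SD.Rs6
import Pool.Agent.W_7d29a1_SD.SubD20
import Pool.Agent.W_7d29a1_SD.CoreWE66
import Pool.Agent.W_7d29a1_SD.NVR50
import Pool.Agent.W_7d29a1_NV.Inc86

/-!
Theorem SD: in very strong disorder the polymer is not diffusive, in almost every direction. The
final wiring, no hypothesis left.
-/

namespace Pool.Agent.W_7d29a1_SD

open MeasureTheory ProbabilityTheory Filter Topology Pool.Agent.W_MP_7d29a1_pr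
  Pool.Agent.W_7d29a1_h46 Pool.Agent.W_7d29a1_h46u Pool.Agent.W_7d29a1_D2.B35
  Pool.Agent.W_7d29a1_Q29 Pool.Agent.W_7d29a1_NV

/-- Leaf N, no hypothesis left. -/
theorem nvr67 {d : ℕ} {ρ : Measure ℝ} [IsProbabilityMeasure ρ] {β : ℝ} (hd : 0 < d) (hρ : EM ρ)
    (hnc : ∀ c : ℝ, ρ {c} ≠ 1) (hβ : 0 < β) : NVR d ρ β :=
  nvr50 (coreWE66 hd hρ hnc hβ) (mulW79 hd hρ β (coupS6 β)) (inc86 hd hρ β)

/-- **Theorem SD**: for almost every velocity `v` and every tilt `h` of very strong disorder, the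
maximum of `‖S_t - t v‖`, divided by `√n`, is not tight. -/
theorem mainSD67 {d : ℕ} {ρ : Measure ℝ} [IsProbabilityMeasure ρ] {β : ℝ} (hd : 0 < d)
    (hρ : EM ρ) (hnc : ∀ c : ℝ, ρ {c} ≠ 1) (hβ : 0 < β) : MainSD d ρ β :=
  mainSD70 hd hρ β (nvr67 hd hρ hnc hβ) (pairS6 hd β) (subD20 hd hρ)

end Pool.Agent.W_7d29a1_SD
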