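import Pool.Agent.W_7d29a1_SD.DefsSD
import Pool.Agent.W_7d29a1_h46u.StrA

/-!
Theorem SD for an arbitrary i.i.d. environment.
-/

namespace Pool.Agent.W_7d29a1_SD.TrSD80

open MeasureTheory ProbabilityTheory Filter Topology Pool.Agent.W_MP_7d29a1_pr
  Pool.Agent.W_7d29a1_h46 Pool.Agent.W_7d29a1_h46u Pool.Agent.W_7d29a1_D2.B35
  Pool.Agent.W_7d29a1_Q29 Pool.Agent.W_7d29a1_NV

variable {d : ℕ} {ρ : Measure ℝ} [IsProbabilityMeasure ρ] {β : ℝ}

lemma tb_anti80 (h v : Vec d) {R R' : ℝ} (hR : R ≤ R') (n : ℕ) :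
    Tb ρ β h v R' n ≤ Tb ρ β h v R n := by
  have hi : ∀ r : ℝ, Integrable (fun η : Env d => 1 - PolT β h η (tube d n v r)) (law d ρ) := by
    intro r
    have hm : Measurable fun η : Env d => 1 - PolT β h η (tube d n v r) :=
      measurable_const.sub (measurable_PolT β h _)
    refine Integrable.mono' (integrable_const (1 : ℝ)) hm.aestronglyMeasurable
      (ae_of_all _ fun η => ?_)
    have h0 : 0 ≤ 1 - PolT β h η (tube d n v r) := sub_nonneg.2 (PolT_le_one β h η _)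
    rw [Real.norm_eq_abs, abs_of_nonneg h0]
    linarith [PolT_nonneg β h η (tube d n v r)]
  refine integral_mono (hi _) (hi _) fun η => ?_
  have h1 : tube d n v (R * Real.sqrt n) ⊆ tube d n v (R' * Real.sqrt n) :=
    tube_mono v (mul_le_mul_of_nonneg_right hR (Real.sqrt_nonneg _))
  have h2 := PolT_mono β h η h1
  change 1 - PolT β h η (tube d n v (R' * Real.sqrt n)) ≤
    1 - PolT β h η (tube d n v (R * Real.sqrt n))
  linarith

/-- Not diffusive: for some `ε` every tube of radius `R √n` is missed with mean probability more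
than `ε` for infinitely many `n`. -/
theorem not_dif80 (hd : 0 < d) {h v : Vec d} (hD : ¬ Dif ρ β h v) :
    ∃ ε : ℝ, 0 < ε ∧ ∀ R : ℝ, ∃ᶠ n : ℕ in atTop, ε < Tb ρ β h v R n := by
  unfold Dif at hD
  push Not at hD
  obtain ⟨ε, hε, H⟩ := hD
  refine ⟨ε, hε, fun R hcon => ?_⟩
  rw [eventually_atTop] at hcon
  obtain ⟨N, hN⟩ := hcon
  obtain ⟨n, hn⟩ := H (max R (Real.sqrt N * (1 + ‖v‖)))
  rcases le_or_gt N n with h1 | h1
  · have h2 := not_lt.1 (hN n h1)
    have h3 := tb_anti80 (ρ := ρ) (β := β) h v (le_max_left R (Real.sqrt N * (1 + ‖v‖))) n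
    linarith
  · have hn0 : (0 : ℝ) ≤ n := Nat.cast_nonneg n
    have hNn : (n : ℝ) ≤ N := by exact_mod_cast h1.le
    have h2 : (n : ℝ) * (1 + ‖v‖) ≤ max R (Real.sqrt N * (1 + ‖v‖)) * Real.sqrt n := by
      have hv : 0 ≤ 1 + ‖v‖ := by positivity
      calc (n : ℝ) * (1 + ‖v‖) = (Real.sqrt n * (1 + ‖v‖)) * Real.sqrt n := by
            calc (n : ℝ) * (1 + ‖v‖) = (Real.sqrt n * Real.sqrt n) * (1 + ‖v‖) := by
                  rw [Real.mul_self_sqrt hn0]
              _ = _ := by ring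
        _ ≤ (Real.sqrt N * (1 + ‖v‖)) * Real.sqrt n :=
            mul_le_mul_of_nonneg_right
              (mul_le_mul_of_nonneg_right (Real.sqrt_le_sqrt hNn) hv) (Real.sqrt_nonneg _)
        _ ≤ _ := mul_le_mul_of_nonneg_right (le_max_right _ _) (Real.sqrt_nonneg _)
    have h3 : Tb ρ β h v (max R (Real.sqrt N * (1 + ‖v‖))) n = 0 := by
      unfold Tb
      have h4 := tube_univ (n := n) v h2
      simp only [h4, PolT_univ hd, sub_self, integral_zero]
    linarith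

/-- The complement of a tube. -/
lemma pol_out80 (hd : 0 < d) (β : ℝ) (h v : Vec d) (r : ℝ) (n : ℕ) (η : Env d) :
    PolT β h η {s : Fin n → Step d | ∃ i ≤ n, r < ‖emb (pos s i) - (i : ℝ) • v‖} =
      1 - PolT β h η (tube d n v r) := by
  classical
  have hpos := ZT_univ_pos (n := n) hd β h η
  unfold PolT
  rw [eq_sub_iff_add_eq, ← add_div, div_eq_one_iff_eq hpos.ne']
  unfold ZT
  rw [← Finset.sum_add_distrib]
  refine Finset.sum_congr rfl fun s _ => ?_
  rw [if_pos (Set.mem_univ s)]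
  by_cases hs : s ∈ tube d n v r
  · have h1 : s ∉ {s : Fin n → Step d | ∃ i ≤ n, r < ‖emb (pos s i) - (i : ℝ) • v‖} := by
      rintro ⟨i, hi, hlt⟩
      exact absurd hlt (not_lt.2 (hs i hi))
    rw [if_neg h1, if_pos hs, zero_add]
  · have h1 : s ∈ {s : Fin n → Step d | ∃ i ≤ n, r < ‖emb (pos s i) - (i : ℝ) • v‖} := by
      by_contra hcon
      refine hs fun i hi => ?_
      by_contra hlt
      exact hcon ⟨i, hi, not_le.1 hlt⟩
    rw [if_pos h1, if_neg hs, add_zero]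

variable {Ω : Type*} [MeasurableSpace Ω] {μ : Measure Ω} [IsProbabilityMeasure μ]
  {ω : ℕ × Site d → Ω → ℝ}

theorem tb_int80 (hd : 0 < d) (hω : IID μ ρ ω) (h v : Vec d) (R : ℝ) (n : ℕ) :
    ∫ x, PolT β h (fun p => ω p x) {s : Fin n → Step d | ∃ i ≤ n,
      R * Real.sqrt n < ‖emb (pos s i) - (i : ℝ) • v‖} ∂μ = Tb ρ β h v R n := by
  unfold Tb
  have hm : Measurable fun η : Env d => 1 - PolT β h η (tube d n v (R * Real.sqrt n)) :=
    measurable_const.sub (measurable_PolT β h _)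
  rw [← StrA_int hω hm]
  refine integral_congr_ae (Filter.Eventually.of_forall fun x => ?_)
  exact pol_out80 hd β h v _ n _

/-- **Theorem SD** for an arbitrary i.i.d. environment. -/
theorem trSD80 (hd : 0 < d) (hω : IID μ ρ ω) (hM : MainSD d ρ β) :
    ∀ᵐ v : Vec d, ∀ h : Vec d, VSD ρ β h → ∃ ε : ℝ, 0 < ε ∧ ∀ R : ℝ, ∃ᶠ n : ℕ in atTop,
      ε < ∫ x, PolT β h (fun p => ω p x) {s : Fin n → Step d | ∃ i ≤ n,
        R * Real.sqrt n < ‖emb (pos s i) - (i : ℝ) • v‖} ∂μ := by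
  filter_upwards [hM] with v hv h hV
  obtain ⟨ε, hε, H⟩ := not_dif80 hd (hv h hV)
  refine ⟨ε, hε, fun R => (H R).mono fun n hn => ?_⟩
  rw [tb_int80 hd hω h v R n]
  exact hn

end Pool.Agent.W_7d29a1_SD.TrSD80
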