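import Pool.Agent.W_7d29a1_SD.FinA43
import Pool.Agent.W_7d29a1_Q29.Fin29

/-!
Strong disorder is very strong disorder: from the letters of the problem to the conditions on the
law of the environment.
-/

namespace Pool.Agent.W_7d29a1_SD

open MeasureTheory ProbabilityTheory Filter Topology Pool.Agent.W_MP_7d29a1_pr
  Pool.Agent.W_7d29a1_h46 Pool.Agent.W_7d29a1_h46u Pool.Agent.W_7d29a1_D2.B35
  Pool.Agent.W_7d29a1_Q29 Pool.Agent.W_7d29a1_P89

variable {Ω : Type*} [MeasurableSpace Ω] {μ : Measure Ω} [IsProbabilityMeasure μ] {d : ℕ}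
  {ρ : Measure ℝ} [IsProbabilityMeasure ρ] {ω : ℕ × Site d → Ω → ℝ} {β : ℝ}

omit [IsProbabilityMeasure ρ] in
/-- The partition function divided by its mean. -/
lemma ratio19 (hd : 0 < d) (h : Vec d) (η : Env d) (n : ℕ) :
    Zn β h η n / Real.exp (n * annN ρ β h) = wt ρ β h η n := by
  have hd' : (0 : ℝ) < d := by exact_mod_cast hd
  have h1 : wt ρ β h η n =
      Real.exp (-((n : ℝ) * (Real.log (Phi h) + Real.log (∫ t, Real.exp (β * t) ∂ρ)))) *
        Z β h η n := rfl
  have h2 : Zn β h η n = Z β h η n / (2 * d : ℝ) ^ n := rfl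
  have h3 : (2 * d : ℝ) ^ n = Real.exp (n * Real.log (2 * d)) := by
    rw [Real.exp_nat_mul, Real.exp_log (by positivity)]
  rw [h1, h2, h3]
  unfold annN
  rw [mul_sub, Real.exp_sub, Real.exp_neg]
  have h4 := Real.exp_pos ((n : ℝ) * Real.log (2 * d))
  have h5 := Real.exp_pos
    ((n : ℝ) * (Real.log (Phi h) + Real.log (∫ t, Real.exp (β * t) ∂ρ)))
  field_simp

/-- The square roots of nonnegative functions of mean one that tend to zero. -/
lemma sqrt19 {F : ℕ → Ω → ℝ} (hI : ∀ n, Integrable (F n) μ) (h0 : ∀ n x, 0 ≤ F n x)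
    (h1 : ∀ n, ∫ x, F n x ∂μ = 1) (ht : ∀ᵐ x ∂μ, Tendsto (fun n => F n x) atTop (𝓝 0)) :
    Tendsto (fun n => ∫ x, Real.sqrt (F n x) ∂μ) atTop (𝓝 0) := by
  refine tendsto_order.2 ⟨fun a ha => Eventually.of_forall fun n =>
    lt_of_lt_of_le ha (integral_nonneg fun x => Real.sqrt_nonneg _), fun ε hε => ?_⟩
  set K : ℝ := 2 / ε with hK
  have hK0 : 0 < K := by positivity
  have hms : ∀ n, AEStronglyMeasurable (fun x => min (Real.sqrt (F n x)) K) μ := fun n =>
    ((hI n).aestronglyMeasurable.aemeasurable.sqrt.min aemeasurable_const).aestronglyMeasurable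
  have hb : ∀ n x, ‖min (Real.sqrt (F n x)) K‖ ≤ K := by
    intro n x
    rw [Real.norm_eq_abs, abs_of_nonneg (le_min (Real.sqrt_nonneg _) hK0.le)]
    exact min_le_right _ _
  have h2 : Tendsto (fun n => ∫ x, min (Real.sqrt (F n x)) K ∂μ) atTop
      (𝓝 (∫ _, (0 : ℝ) ∂μ)) := by
    refine tendsto_integral_of_dominated_convergence (fun _ => K) hms (integrable_const K)
      (fun n => Eventually.of_forall (hb n)) ?_
    filter_upwards [ht] with x hx
    have h3 : Tendsto (fun n => min (Real.sqrt (F n x)) K) atTop (𝓝 (min (Real.sqrt 0) K)) :=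
      ((Real.continuous_sqrt.tendsto 0).comp hx).min tendsto_const_nhds
    rwa [Real.sqrt_zero, min_eq_left hK0.le] at h3
  rw [integral_zero] at h2
  filter_upwards [(tendsto_order.1 h2).2 (ε / 2) (by positivity)] with n hn
  have h4 : ∀ x, Real.sqrt (F n x) ≤ min (Real.sqrt (F n x)) K + F n x / K := by
    intro x
    rcases le_total (Real.sqrt (F n x)) K with h | h
    · rw [min_eq_left h]
      have := div_nonneg (h0 n x) hK0.le
      linarith
    · rw [min_eq_right h]
      have h5 : Real.sqrt (F n x) ≤ F n x / K := by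
        rw [le_div_iff₀ hK0]
        calc Real.sqrt (F n x) * K ≤ Real.sqrt (F n x) * Real.sqrt (F n x) :=
              mul_le_mul_of_nonneg_left h (Real.sqrt_nonneg _)
          _ = F n x := Real.mul_self_sqrt (h0 n x)
      linarith
  have hmi : Integrable (fun x => min (Real.sqrt (F n x)) K) μ :=
    Integrable.of_bound (hms n) K (Eventually.of_forall (hb n))
  calc ∫ x, Real.sqrt (F n x) ∂μ ≤ ∫ x, (min (Real.sqrt (F n x)) K + F n x / K) ∂μ :=
        integral_mono_of_nonneg (Eventually.of_forall fun x => Real.sqrt_nonneg _)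
          (hmi.add ((hI n).div_const K)) (Eventually.of_forall h4)
    _ = ∫ x, min (Real.sqrt (F n x)) K ∂μ + 1 / K := by
        rw [integral_add hmi ((hI n).div_const K), integral_div, h1 n]
    _ < ε / 2 + 1 / K := by linarith
    _ = ε := by
        rw [hK]
        field_simp
        ring

/-- Almost sure convergence of the normalised partition function to zero. -/
lemma sdm19 (hd : 0 < d) (hω : IID μ ρ ω) (hρ : EM ρ) (h : Vec d)
    (hS : ∀ᵐ x ∂μ, Tendsto (fun n : ℕ => Zn β h (fun p => ω p x) n /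
      Real.exp (n * annN ρ β h)) atTop (𝓝 0)) : SDm ρ β h := by
  have hmp := mp_env hω
  have h1 : ∀ n, ∫ η, Real.sqrt (wt ρ β h η n) ∂(law d ρ) =
      ∫ x, Real.sqrt (wt ρ β h (fun p => ω p x) n) ∂μ := fun n =>
    (StrA_int hω (measurable_wt43 ρ β h n).sqrt).symm
  have h2 : Tendsto (fun n => ∫ x, Real.sqrt (wt ρ β h (fun p => ω p x) n) ∂μ) atTop (𝓝 0) := by
    refine sqrt19 (fun n => hmp.integrable_comp_of_integrable (integrable_wt43 hd hρ h n))
      (fun n x => (wt_pos43 hd ρ β h _ n).le) (fun n => ?_) ?_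
    · rw [StrA_int hω (measurable_wt43 ρ β h n), integral_wt43 hd hρ]
    · filter_upwards [hS] with x hx
      refine hx.congr fun n => ?_
      exact ratio19 hd h _ n
  exact h2.congr fun n => (h1 n).symm

/-- The second moment. -/
lemma sec19 (hd : 0 < d) (hω : IID μ ρ ω) (h : Vec d) (n : ℕ) :
    (∫ x, Zn β h (fun p => ω p x) n ^ 2 ∂μ) / Real.exp (2 * n * annN ρ β h) =
      ∫ η, wt ρ β h η n ^ 2 ∂(law d ρ) := by
  rw [← StrA_int hω ((measurable_wt43 ρ β h n).pow_const 2), ← integral_div]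
  refine integral_congr_ae (Eventually.of_forall fun x => ?_)
  show Zn β h (fun p => ω p x) n ^ 2 / Real.exp (2 * n * annN ρ β h) =
    wt ρ β h (fun p => ω p x) n ^ 2
  rw [← ratio19 hd h _ n, div_pow, ← Real.exp_nat_mul]
  congr 2
  push_cast
  ring

/-- Strong disorder beyond the second moment line is very strong disorder, in the letters of the
problem, over the leaves. -/
theorem strong19 (hI : ∀ (h : Vec d) (ε : ℝ) (m : ℕ), 0 < ε → Integrable
      (fun η => ∑ x ∈ boxF d m, w ρ β h η m x ^ (1 + ε)) (law d ρ)) (hd : 0 < d)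
    (h5 : LocS d ρ β) (h6 : RenL d ρ β) (h7 : ExpL) (h8 : LucL d ρ β) (h9 : EndL d ρ β)
    (h10 : FraL d ρ β) (h11 : SecS d ρ β) (hω : IID μ ρ ω) (hρ : EM ρ) (h : Vec d)
    (hS : ∀ᵐ x ∂μ, Tendsto (fun n : ℕ => Zn β h (fun p => ω p x) n /
      Real.exp (n * annN ρ β h)) atTop (𝓝 0))
    (hk : ∀ C : ℝ, ∃ n : ℕ, C * (n + 1) < (∫ x, Zn β h (fun p => ω p x) n ^ 2 ∂μ) /
      Real.exp (2 * n * annN ρ β h)) : lamN ρ β h < annN ρ β h := by
  refine (vsd29 h).2 (sdm43 hI hd h5 h6 h7 h8 h9 h10 h11 h (fun C => ?_)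
    (sdm19 hd hω hρ h hS))
  obtain ⟨n, hn⟩ := hk C
  refine ⟨n, ?_⟩
  rw [sec19 hd hω h n] at hn
  exact hn

/-- Almost sure convergence to zero, the mean written as an integral. -/
lemma sdi19 (hd : 0 < d) (hω : IID μ ρ ω) (hρ : EM ρ) {b : ℝ} (h : Vec d)
    (hS : ∀ᵐ x ∂μ, Tendsto (fun n : ℕ => Zn b h (fun p => ω p x) n /
      ∫ y, Zn b h (fun p => ω p y) n ∂μ) atTop (𝓝 0)) : SDm ρ b h := by
  refine sdm19 hd hω hρ h ?_
  filter_upwards [hS] with x hx
  refine hx.congr fun n => ?_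
  rw [ann29 hd hω hρ h n]

/-- The clause in the letters of the problem. -/
theorem clause19 (hd : 0 < d) (hω : IID μ ρ ω) (hρ : EM ρ)
    (hV : ∀ (h : Vec d) (b : ℝ), 0 < b → b < β → SDm ρ b h → VSD ρ β h) :
    ∀ (h : Vec d) (b : ℝ), 0 < b → b < β →
      (∀ᵐ x ∂μ, Tendsto (fun n : ℕ => Zn b h (fun p => ω p x) n /
        ∫ y, Zn b h (fun p => ω p y) n ∂μ) atTop (𝓝 0)) → lamN ρ β h < annN ρ β h :=
  fun h b hb hbβ hS => (vsd29 h).2 (hV h b hb hbβ (sdi19 hd hω hρ h hS))

end Pool.Agent.W_7d29a1_SD
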