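import Pool.Agent.W_7d29a1_SD.Step72

/-!
Strong disorder is very strong disorder: the difference of two walks.
-/

namespace Pool.Agent.W_7d29a1_SD

open MeasureTheory ProbabilityTheory Filter Topology Pool.Agent.W_MP_7d29a1_pr
  Pool.Agent.W_7d29a1_h46 Pool.Agent.W_7d29a1_h46u Pool.Agent.W_7d29a1_D2.B35
  Pool.Agent.W_7d29a1_Q29 Pool.Agent.W_7d29a1_P89

variable {d : ℕ} {ρ : Measure ℝ}

/-! ### The operator -/

lemma Ad_mono30 (h : Vec d) {f g : Site d → ℝ} (hfg : ∀ z, f z ≤ g z) (z : Site d) :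
    Ad h f z ≤ Ad h g z :=
  Finset.sum_le_sum fun e _ => Finset.sum_le_sum fun e' _ =>
    mul_le_mul_of_nonneg_left (hfg _) (mul_nonneg (pe_nonneg72 h e) (pe_nonneg72 h e'))

lemma Ad_nonneg30 (h : Vec d) {f : Site d → ℝ} (hf : ∀ z, 0 ≤ f z) (z : Site d) :
    0 ≤ Ad h f z :=
  Finset.sum_nonneg fun e _ => Finset.sum_nonneg fun e' _ =>
    mul_nonneg (mul_nonneg (pe_nonneg72 h e) (pe_nonneg72 h e')) (hf _)

lemma Ad_const30 (hd : 0 < d) (h : Vec d) (c : ℝ) (z : Site d) : Ad h (fun _ => c) z = c := by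
  unfold Ad
  simp only [← Finset.sum_mul, ← Finset.mul_sum]
  rw [sum_pe72 hd h]
  simp

lemma Ad_le30 (hd : 0 < d) (h : Vec d) {f : Site d → ℝ} {c : ℝ} (hf : ∀ z, f z ≤ c)
    (z : Site d) : Ad h f z ≤ c :=
  (Ad_mono30 h hf z).trans (Ad_const30 hd h c z).le

lemma Ad_neg30 (h : Vec d) {f : Site d → ℝ} (hf : ∀ z, f (-z) = f z) (z : Site d) :
    Ad h f (-z) = Ad h f z := by
  unfold Ad
  rw [Finset.sum_comm]
  refine Finset.sum_congr rfl fun e _ => Finset.sum_congr rfl fun e' _ => ?_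
  rw [mul_comm (pe h e'), ← hf (z + vec e - vec e')]
  congr 2
  abel

/-! ### The functions `gk` -/

lemma gk_nonneg30 (h : Vec d) (k : ℕ) (z : Site d) : 0 ≤ gk h k z := by
  induction k generalizing z with
  | zero => unfold gk; split_ifs <;> norm_num
  | succ k ih =>
    unfold gk
    split_ifs
    · norm_num
    · exact Ad_nonneg30 h ih z

lemma gk_le_one30 (hd : 0 < d) (h : Vec d) (k : ℕ) (z : Site d) : gk h k z ≤ 1 := by
  induction k generalizing z with
  | zero => unfold gk; split_ifs <;> norm_num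
  | succ k ih =>
    unfold gk
    split_ifs
    · exact le_refl _
    · exact Ad_le30 hd h ih z

lemma gk_self30 (h : Vec d) (k : ℕ) : gk h k 0 = 1 := by
  cases k <;> simp [gk]

lemma gk_succ30 (h : Vec d) (k : ℕ) {z : Site d} (hz : z ≠ 0) :
    gk h (k + 1) z = Ad h (gk h k) z := by
  rw [gk, if_neg hz]

lemma gk_mono30 (h : Vec d) (k : ℕ) (z : Site d) : gk h k z ≤ gk h (k + 1) z := by
  induction k generalizing z with
  | zero =>
    by_cases hz : z = 0
    · rw [hz, gk_self30, gk_self30]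
    · rw [show gk h 0 z = 0 by simp [gk, hz]]
      exact gk_nonneg30 h _ _
  | succ k ih =>
    by_cases hz : z = 0
    · rw [hz, gk_self30, gk_self30]
    · rw [gk_succ30 h k hz, gk_succ30 h (k + 1) hz]
      exact Ad_mono30 h ih z

lemma gk_le_Ad30 (h : Vec d) (k : ℕ) {z : Site d} (hz : z ≠ 0) :
    gk h k z ≤ Ad h (gk h k) z :=
  (gk_mono30 h k z).trans (gk_succ30 h k hz).le

lemma gk_neg30 (h : Vec d) (k : ℕ) (z : Site d) : gk h k (-z) = gk h k z := by
  induction k generalizing z with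
  | zero => simp [gk]
  | succ k ih =>
    by_cases hz : z = 0
    · rw [hz, neg_zero]
    · rw [gk_succ30 h k hz, gk_succ30 h k (neg_ne_zero.2 hz), Ad_neg30 h ih]

lemma box_two30 {m : ℕ} {z : Site d} {e e' : Step d} (hz : z + vec e - vec e' ∈ boxF d m) :
    z ∈ boxF d (m + 2) := by
  have h1 : z + vec e ∈ boxF d (m + 1) := box_sub72 (e := e') hz
  have h2 := mem_boxF.1 (vec_box72 e)
  rw [mem_boxF] at h1 ⊢
  intro i
  have h3 := h1 i
  have h4 := h2 i
  rw [Pi.add_apply, abs_le] at h3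
  rw [abs_le] at h4 ⊢
  push_cast at h3 h4 ⊢
  omega

lemma Ad_out30 (h : Vec d) {f : Site d → ℝ} {m : ℕ} (hf : ∀ z, z ∉ boxF d m → f z = 0)
    {z : Site d} (hz : z ∉ boxF d (m + 2)) : Ad h f z = 0 :=
  Finset.sum_eq_zero fun e _ => Finset.sum_eq_zero fun e' _ => by
    rw [hf _ (fun hb => hz (box_two30 hb)), mul_zero]

lemma gk_out30 (h : Vec d) (k : ℕ) {z : Site d} (hz : z ∉ boxF d (2 * k)) : gk h k z = 0 := by
  induction k generalizing z with
  | zero =>
    have h0 : z ≠ 0 := by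
      rintro rfl
      refine hz ?_
      rw [mem_boxF]
      intro i
      simp
    simp [gk, h0]
  | succ k ih =>
    have h0 : z ≠ 0 := by
      rintro rfl
      refine hz ?_
      rw [mem_boxF]
      intro i
      simp only [Pi.zero_apply, abs_zero]
      positivity
    rw [gk_succ30 h k h0]
    exact Ad_out30 h (fun z hz => ih hz) (by rwa [show 2 * (k + 1) = 2 * k + 2 by ring] at hz)

lemma Ad_gk_out30 (h : Vec d) (k : ℕ) {z : Site d} (hz : z ∉ boxF d (2 * k + 2)) :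
    Ad h (gk h k) z = 0 :=
  Ad_out30 h (fun z hz => gk_out30 h k hz) hz

lemma Ad_gk_nonneg30 (h : Vec d) (k : ℕ) (z : Site d) : 0 ≤ Ad h (gk h k) z :=
  Ad_nonneg30 h (gk_nonneg30 h k) z

lemma Ad_gk_le_one30 (hd : 0 < d) (h : Vec d) (k : ℕ) (z : Site d) : Ad h (gk h k) z ≤ 1 :=
  Ad_le30 hd h (gk_le_one30 hd h k) z

lemma Ad_gk_neg30 (h : Vec d) (k : ℕ) (z : Site d) : Ad h (gk h k) (-z) = Ad h (gk h k) z :=
  Ad_neg30 h (gk_neg30 h k) z

lemma rt_nonneg30 (h : Vec d) (k : ℕ) : 0 ≤ rt h k := Ad_gk_nonneg30 h k 0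

lemma rt_le_one30 (hd : 0 < d) (h : Vec d) (k : ℕ) : rt h k ≤ 1 := Ad_gk_le_one30 hd h k 0

/-- The sum over the near sites. -/
lemma near30 (hd : 0 < d) (h : Vec d) (k : ℕ) (S : Finset (Site d)) {a : Site d → ℝ} {c : ℝ}
    (ha : ∀ y ∈ S, 0 ≤ a y) (hac : ∀ y ∈ S, a y ≤ c) (hc : 0 ≤ c) (x : Site d) :
    ∑ y ∈ S, a y * Ad h (gk h k) (x - y) ≤ c * ((boxF d (2 * k + 2)).card : ℝ) := by
  classical
  have h1 : ∑ y ∈ S, a y * Ad h (gk h k) (x - y) =
      ∑ y ∈ S.filter (fun y => x - y ∈ boxF d (2 * k + 2)), a y * Ad h (gk h k) (x - y) := by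
    symm
    refine Finset.sum_subset (Finset.filter_subset _ _) fun y hy hn => ?_
    rw [Ad_gk_out30 h k (fun hb => hn (Finset.mem_filter.2 ⟨hy, hb⟩)), mul_zero]
  rw [h1]
  have h2 : (S.filter (fun y => x - y ∈ boxF d (2 * k + 2))).card ≤
      (boxF d (2 * k + 2)).card := by
    refine Finset.card_le_card_of_injOn (fun y => x - y) (fun y hy => ?_) (fun y _ _ _ hyz => ?_)
    · exact (Finset.mem_filter.1 hy).2
    · simpa using hyz
  calc ∑ y ∈ S.filter (fun y => x - y ∈ boxF d (2 * k + 2)), a y * Ad h (gk h k) (x - y)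
      ≤ ∑ y ∈ S.filter (fun y => x - y ∈ boxF d (2 * k + 2)), c := by
        refine Finset.sum_le_sum fun y hy => ?_
        have hy' := (Finset.mem_filter.1 hy).1
        have h3 := Ad_gk_le_one30 hd h k (x - y)
        have h4 := Ad_gk_nonneg30 h k (x - y)
        calc a y * Ad h (gk h k) (x - y) ≤ a y * 1 := mul_le_mul_of_nonneg_left h3 (ha y hy')
          _ ≤ c := by rw [mul_one]; exact hac y hy'
    _ = (S.filter (fun y => x - y ∈ boxF d (2 * k + 2))).card * c := by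
        rw [Finset.sum_const, nsmul_eq_mul]
    _ ≤ c * ((boxF d (2 * k + 2)).card : ℝ) := by
        rw [mul_comm]
        exact mul_le_mul_of_nonneg_left (by exact_mod_cast h2) hc

/-! ### Two replicas -/

/-- The transport of a function of the difference. -/
theorem two30 (ρ : Measure ℝ) (β : ℝ) (h : Vec d) (η : Env d) (n : ℕ) (g : Site d → ℝ) :
    ∑ x ∈ boxF d (n + 1), ∑ y ∈ boxF d (n + 1), nu ρ β h η n x * nu ρ β h η n y * g (x - y) =
      ∑ x ∈ boxF d n, ∑ y ∈ boxF d n, w ρ β h η n x * w ρ β h η n y * Ad h g (x - y) := by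
  have h1 : ∀ x, ∑ y ∈ boxF d (n + 1), nu ρ β h η n x * nu ρ β h η n y * g (x - y) =
      nu ρ β h η n x * ∑ y ∈ boxF d n, w ρ β h η n y *
        ∑ e' : Step d, pe h e' * g (x - (y + vec e')) := by
    intro x
    have h2 := sum_nu72 ρ β h η n fun y => g (x - y)
    rw [← h2, Finset.mul_sum]
    exact Finset.sum_congr rfl fun y _ => by ring
  rw [Finset.sum_congr rfl fun x _ => h1 x,
    sum_nu72 ρ β h η n fun x => ∑ y ∈ boxF d n, w ρ β h η n y *
        ∑ e' : Step d, pe h e' * g (x - (y + vec e'))]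
  refine Finset.sum_congr rfl fun x _ => ?_
  have h3 : ∑ e : Step d, pe h e * ∑ y ∈ boxF d n, w ρ β h η n y *
      ∑ e' : Step d, pe h e' * g (x + vec e - (y + vec e')) =
      ∑ y ∈ boxF d n, w ρ β h η n y * Ad h g (x - y) := by
    simp only [Finset.mul_sum]
    rw [Finset.sum_comm]
    refine Finset.sum_congr rfl fun y _ => ?_
    unfold Ad
    rw [Finset.mul_sum]
    refine Finset.sum_congr rfl fun e _ => ?_
    rw [Finset.mul_sum]
    refine Finset.sum_congr rfl fun e' _ => ?_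
    rw [show x + vec e - (y + vec e') = x - y + vec e - vec e' by abel]
    ring
  rw [h3, Finset.mul_sum]
  exact Finset.sum_congr rfl fun y _ => by ring

/-- The functional as a sum over the row `n + 1`. -/
lemma yk30 (hd : 0 < d) (ρ : Measure ℝ) (β : ℝ) (h : Vec d) (k : ℕ) (η : Env d) (n : ℕ) :
    Yk ρ β h k η n * wt ρ β h η n = ∑ x ∈ boxF d (n + 1), ∑ y ∈ boxF d (n + 1),
      nu ρ β h η n x * nu ρ β h η n y * gk h k (x - y) := by
  unfold Yk
  rw [div_mul_cancel₀ _ (wt_pos72 hd ρ β h η n).ne', two30]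

/-- The diagonal. -/
lemma diag30 (ρ : Measure ℝ) (β : ℝ) (h : Vec d) (k : ℕ) (η : Env d) (n : ℕ) :
    ∑ x ∈ boxF d (n + 1), ∑ y ∈ boxF d (n + 1),
      nu ρ β h η n x * nu ρ β h η n y * gk h k (x - y) +
        (rt h k - 1) * ∑ x ∈ boxF d (n + 1), nu ρ β h η n x ^ 2 ≤
    ∑ x ∈ boxF d (n + 1), ∑ y ∈ boxF d (n + 1),
      nu ρ β h η n x * nu ρ β h η n y * Ad h (gk h k) (x - y) := by
  classical
  have h1 : (rt h k - 1) * ∑ x ∈ boxF d (n + 1), nu ρ β h η n x ^ 2 =
      ∑ x ∈ boxF d (n + 1), ∑ y ∈ boxF d (n + 1),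
        (if x = y then nu ρ β h η n x * nu ρ β h η n y * (rt h k - 1) else 0) := by
    rw [Finset.mul_sum]
    refine Finset.sum_congr rfl fun x hx => ?_
    rw [Finset.sum_ite_eq, if_pos hx]
    ring
  rw [h1, ← Finset.sum_add_distrib]
  refine Finset.sum_le_sum fun x _ => ?_
  rw [← Finset.sum_add_distrib]
  refine Finset.sum_le_sum fun y _ => ?_
  have h2 := mul_nonneg (nu_nonneg72 ρ β h η n x) (nu_nonneg72 ρ β h η n y)
  by_cases hxy : x = y
  · rw [if_pos hxy, hxy, sub_self, gk_self30]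
    rw [show Ad h (gk h k) 0 = rt h k from rfl]
    linarith
  · rw [if_neg hxy, add_zero]
    exact mul_le_mul_of_nonneg_left (gk_le_Ad30 h k (sub_ne_zero.2 hxy)) h2

end Pool.Agent.W_7d29a1_SD
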