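import Pool.Agent.W_7d29a1_SD.RowE77
import Pool.Agent.W_7d29a1_SD.Two30

/-!
Strong disorder is very strong disorder: the leaf A2 (the drift of the functional of two replicas).
-/

namespace Pool.Agent.W_7d29a1_SD

open MeasureTheory ProbabilityTheory Filter Topology Pool.Agent.W_MP_7d29a1_pr
  Pool.Agent.W_7d29a1_h46 Pool.Agent.W_7d29a1_h46u Pool.Agent.W_7d29a1_D2.B35
  Pool.Agent.W_7d29a1_Q29 Pool.Agent.W_7d29a1_P89

variable {d : ℕ} {ρ : Measure ℝ}

/-! ### The deterministic part -/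

lemma schur77 (hd : 0 < d) (ρ : Measure ℝ) (β : ℝ) (h : Vec d) (k : ℕ) (η : Env d) (n : ℕ) :
    ∑ x ∈ boxF d (n + 1), ∑ y ∈ boxF d (n + 1),
      nu ρ β h η n x * nu ρ β h η n y * Ad h (gk h k) (x - y) ≤
    ((boxF d (2 * k + 2)).card : ℝ) * ∑ x ∈ boxF d (n + 1), nu ρ β h η n x ^ 2 := by
  have h1 : ∀ x y : Site d, nu ρ β h η n x * nu ρ β h η n y * Ad h (gk h k) (x - y) ≤
      nu ρ β h η n x ^ 2 / 2 * Ad h (gk h k) (x - y) +
        nu ρ β h η n y ^ 2 / 2 * Ad h (gk h k) (x - y) := by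
    intro x y
    have e1 := Ad_gk_nonneg30 h k (x - y)
    have e2 : nu ρ β h η n x * nu ρ β h η n y ≤ nu ρ β h η n x ^ 2 / 2 + nu ρ β h η n y ^ 2 / 2 := by
      nlinarith [sq_nonneg (nu ρ β h η n x - nu ρ β h η n y)]
    have e3 := mul_le_mul_of_nonneg_right e2 e1
    linarith
  have h2 : ∀ x : Site d, ∑ y ∈ boxF d (n + 1), Ad h (gk h k) (x - y) ≤
      ((boxF d (2 * k + 2)).card : ℝ) := by
    intro x
    have e1 := near30 hd h k (boxF d (n + 1)) (a := fun _ => 1) (c := 1)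
      (fun _ _ => zero_le_one) (fun _ _ => le_rfl) zero_le_one x
    simpa using e1
  have h3 : ∀ y : Site d, ∑ x ∈ boxF d (n + 1), Ad h (gk h k) (x - y) ≤
      ((boxF d (2 * k + 2)).card : ℝ) := by
    intro y
    have e1 : ∀ x : Site d, Ad h (gk h k) (x - y) = Ad h (gk h k) (y - x) := by
      intro x
      rw [← Ad_gk_neg30, neg_sub]
    simp only [e1]
    exact h2 y
  have h4 : ∑ x ∈ boxF d (n + 1), ∑ y ∈ boxF d (n + 1),
      nu ρ β h η n x ^ 2 / 2 * Ad h (gk h k) (x - y) ≤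
      ∑ x ∈ boxF d (n + 1), nu ρ β h η n x ^ 2 / 2 * ((boxF d (2 * k + 2)).card : ℝ) := by
    refine Finset.sum_le_sum fun x _ => ?_
    rw [← Finset.mul_sum]
    exact mul_le_mul_of_nonneg_left (h2 x) (by positivity)
  have h5 : ∑ x ∈ boxF d (n + 1), ∑ y ∈ boxF d (n + 1),
      nu ρ β h η n y ^ 2 / 2 * Ad h (gk h k) (x - y) ≤
      ∑ y ∈ boxF d (n + 1), nu ρ β h η n y ^ 2 / 2 * ((boxF d (2 * k + 2)).card : ℝ) := by
    rw [Finset.sum_comm]
    refine Finset.sum_le_sum fun y _ => ?_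
    rw [← Finset.mul_sum]
    exact mul_le_mul_of_nonneg_left (h3 y) (by positivity)
  calc ∑ x ∈ boxF d (n + 1), ∑ y ∈ boxF d (n + 1),
        nu ρ β h η n x * nu ρ β h η n y * Ad h (gk h k) (x - y)
      ≤ ∑ x ∈ boxF d (n + 1), ∑ y ∈ boxF d (n + 1),
        (nu ρ β h η n x ^ 2 / 2 * Ad h (gk h k) (x - y) +
          nu ρ β h η n y ^ 2 / 2 * Ad h (gk h k) (x - y)) :=
        Finset.sum_le_sum fun x _ => Finset.sum_le_sum fun y _ => h1 x y
    _ = ∑ x ∈ boxF d (n + 1), ∑ y ∈ boxF d (n + 1),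
          nu ρ β h η n x ^ 2 / 2 * Ad h (gk h k) (x - y) +
        ∑ x ∈ boxF d (n + 1), ∑ y ∈ boxF d (n + 1),
          nu ρ β h η n y ^ 2 / 2 * Ad h (gk h k) (x - y) := by
        simp only [Finset.sum_add_distrib]
    _ ≤ ∑ x ∈ boxF d (n + 1), nu ρ β h η n x ^ 2 / 2 * ((boxF d (2 * k + 2)).card : ℝ) +
        ∑ y ∈ boxF d (n + 1), nu ρ β h η n y ^ 2 / 2 * ((boxF d (2 * k + 2)).card : ℝ) :=
        add_le_add h4 h5
    _ = ((boxF d (2 * k + 2)).card : ℝ) * ∑ x ∈ boxF d (n + 1), nu ρ β h η n x ^ 2 := by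
        rw [← Finset.sum_add_distrib, Finset.mul_sum]
        exact Finset.sum_congr rfl fun x _ => by ring

open Classical in
lemma sum_c377 (hd : 0 < d) (ρ : Measure ℝ) (β : ℝ) (h : Vec d) (η : Env d) (n : ℕ) {x y : Site d}
    (hx : x ∈ boxF d (n + 1)) (hy : y ∈ boxF d (n + 1)) :
    ∑ z ∈ boxF d (n + 1), c377 ρ β x y z * nu ρ β h η n z =
      c277 ρ β x y * wt ρ β h η n + (kap ρ β - 1) * (nu ρ β h η n x + nu ρ β h η n y) +
        m377 ρ β * ((if x = y then 1 else 0) * nu ρ β h η n x) := by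
  have e1 : ∀ v ∈ boxF d (n + 1), ∑ z ∈ boxF d (n + 1),
      (if z = v then (1 : ℝ) else 0) * nu ρ β h η n z = nu ρ β h η n v := by
    intro v hv
    simp only [ite_mul, one_mul, zero_mul]
    rw [Finset.sum_ite_eq' , if_pos hv]
  have e2 : ∀ z, c377 ρ β x y z * nu ρ β h η n z =
      c277 ρ β x y * nu ρ β h η n z +
      (kap ρ β - 1) * ((if z = x then (1 : ℝ) else 0) * nu ρ β h η n z +
        (if z = y then (1 : ℝ) else 0) * nu ρ β h η n z) +
      m377 ρ β * ((if x = y then 1 else 0) * ((if z = x then (1 : ℝ) else 0) *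
        nu ρ β h η n z)) := by
    intro z
    unfold c377
    ring
  simp only [e2]
  rw [Finset.sum_add_distrib, Finset.sum_add_distrib, ← Finset.mul_sum, ← Finset.mul_sum,
    ← Finset.mul_sum, ← Finset.mul_sum, Finset.sum_add_distrib, e1 x hx, e1 y hy,
    sum_nu_wt72 hd]

open Classical in
lemma sum_eq77 (h : Vec d) (k : ℕ) (ρ : Measure ℝ) (β : ℝ) (η : Env d) (n : ℕ) :
    ∑ x ∈ boxF d (n + 1), ∑ y ∈ boxF d (n + 1),
      nu ρ β h η n x * nu ρ β h η n y * Ad h (gk h k) (x - y) * (if x = y then 1 else 0) =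
    rt h k * ∑ x ∈ boxF d (n + 1), nu ρ β h η n x ^ 2 := by
  rw [Finset.mul_sum]
  refine Finset.sum_congr rfl fun x hx => ?_
  simp only [mul_ite, mul_one, mul_zero]
  rw [Finset.sum_ite_eq, if_pos hx, sub_self]
  rw [show Ad h (gk h k) 0 = rt h k from rfl]
  ring

open Classical in
/-- The pointwise bound of the row expectation. -/
lemma point77 (hd : 0 < d) (ρ : Measure ℝ) (β : ℝ) (h : Vec d) (k : ℕ) (η : Env d) (n : ℕ)
    {δ g : ℝ} (hδ : 0 < δ) (hg : 0 ≤ g) (hk : 1 ≤ kap ρ β) (hm : 0 ≤ m377 ρ β) :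
    g * Yk ρ β h k η n + (kap ρ β * rt h k - 1 -
      (2 * (kap ρ β - 1) * ((boxF d (2 * k + 2)).card : ℝ) + m377 ρ β) * δ) *
        (g * S2 ρ β h η n) ≤
    ∑ x ∈ boxF d (n + 1), ∑ y ∈ boxF d (n + 1), Ad h (gk h k) (x - y) *
      ((c277 ρ β x y - δ * (2 * (kap ρ β - 1) + m377 ρ β * (if x = y then 1 else 0))) *
        (g * (nu ρ β h η n x * nu ρ β h η n y / wt ρ β h η n))) := by
  have ha := wt_pos72 hd ρ β h η n
  have h1 := yk30 hd ρ β h k η n
  have h2 := diag30 ρ β h k η n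
  have h3 := schur77 hd ρ β h k η n
  have h4 := sum_eq77 h k ρ β η n
  have h5 : ∀ x y : Site d, Ad h (gk h k) (x - y) *
      ((c277 ρ β x y - δ * (2 * (kap ρ β - 1) + m377 ρ β * (if x = y then 1 else 0))) *
        (g * (nu ρ β h η n x * nu ρ β h η n y / wt ρ β h η n))) =
      g / wt ρ β h η n * ((1 - 2 * δ * (kap ρ β - 1)) *
        (nu ρ β h η n x * nu ρ β h η n y * Ad h (gk h k) (x - y)) +
      (kap ρ β - 1 - δ * m377 ρ β) *
        (nu ρ β h η n x * nu ρ β h η n y * Ad h (gk h k) (x - y) * (if x = y then 1 else 0))) := by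
    intro x y
    have e1 : c277 ρ β x y = 1 + (kap ρ β - 1) * (if x = y then 1 else 0) := by
      unfold c277
      split_ifs <;> ring
    rw [e1]
    ring
  simp only [h5]
  have h6 : ∑ x ∈ boxF d (n + 1), ∑ y ∈ boxF d (n + 1),
      g / wt ρ β h η n * ((1 - 2 * δ * (kap ρ β - 1)) *
        (nu ρ β h η n x * nu ρ β h η n y * Ad h (gk h k) (x - y)) +
      (kap ρ β - 1 - δ * m377 ρ β) *
        (nu ρ β h η n x * nu ρ β h η n y * Ad h (gk h k) (x - y) *
          (if x = y then 1 else 0))) =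
      g / wt ρ β h η n * ((1 - 2 * δ * (kap ρ β - 1)) *
        (∑ x ∈ boxF d (n + 1), ∑ y ∈ boxF d (n + 1),
          nu ρ β h η n x * nu ρ β h η n y * Ad h (gk h k) (x - y)) +
      (kap ρ β - 1 - δ * m377 ρ β) * (rt h k * ∑ x ∈ boxF d (n + 1), nu ρ β h η n x ^ 2)) := by
    rw [← h4]
    simp only [Finset.mul_sum, Finset.sum_add_distrib, mul_add]
  rw [h6]
  unfold S2
  obtain ⟨s, hs⟩ : ∃ s, s = ∑ x ∈ boxF d (n + 1), nu ρ β h η n x ^ 2 := ⟨_, rfl⟩
  obtain ⟨S, hS⟩ : ∃ S, S = ∑ x ∈ boxF d (n + 1), ∑ y ∈ boxF d (n + 1),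
      nu ρ β h η n x * nu ρ β h η n y * Ad h (gk h k) (x - y) := ⟨_, rfl⟩
  have hs0 : 0 ≤ s := by
    rw [hs]
    exact Finset.sum_nonneg fun x _ => sq_nonneg _
  have hr0 := rt_nonneg30 h k
  have hr1 := rt_le_one30 hd h k
  rw [← h1, ← hs, ← hS] at h2
  rw [← hS, ← hs] at h3
  rw [← hs, ← hS]
  have h7 : g * Yk ρ β h k η n = g / wt ρ β h η n * (Yk ρ β h k η n * wt ρ β h η n) := by
    field_simp
  have h8 : g * (s / wt ρ β h η n) = g / wt ρ β h η n * s := by ring
  rw [h7, h8]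
  have h9 : g / wt ρ β h η n * (Yk ρ β h k η n * wt ρ β h η n) +
      (kap ρ β * rt h k - 1 -
        (2 * (kap ρ β - 1) * ((boxF d (2 * k + 2)).card : ℝ) + m377 ρ β) * δ) *
        (g / wt ρ β h η n * s) =
      g / wt ρ β h η n * (Yk ρ β h k η n * wt ρ β h η n + (kap ρ β * rt h k - 1 -
        (2 * (kap ρ β - 1) * ((boxF d (2 * k + 2)).card : ℝ) + m377 ρ β) * δ) * s) := by ring
  rw [h9]
  refine mul_le_mul_of_nonneg_left ?_ (div_nonneg hg ha.le)
  have h10 : 2 * δ * (kap ρ β - 1) * S ≤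
      2 * δ * (kap ρ β - 1) * (((boxF d (2 * k + 2)).card : ℝ) * s) :=
    mul_le_mul_of_nonneg_left h3 (mul_nonneg (by linarith) (by linarith))
  have h11 : δ * m377 ρ β * (rt h k * s) ≤ δ * m377 ρ β * (1 * s) :=
    mul_le_mul_of_nonneg_left (mul_le_mul_of_nonneg_right hr1 hs0) (mul_nonneg hδ.le hm)
  nlinarith

/-! ### The probabilistic part -/

variable [IsProbabilityMeasure ρ]

/-- The tangent of `1 / b`. -/
lemma tangent77 {a b N : ℝ} (ha : 0 < a) (hb : 0 < b) (hN : 0 ≤ N) :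
    (2 / a - b / a ^ 2) * N ≤ N / b := by
  have h1 : N / b - (2 / a - b / a ^ 2) * N = N / b * (1 - b / a) ^ 2 := by
    field_simp
    ring
  have h2 : 0 ≤ N / b * (1 - b / a) ^ 2 := mul_nonneg (div_nonneg hN hb.le) (sq_nonneg _)
  linarith

/-- The lower bound of the functional at time `n + 1`. -/
lemma yk_lower77 (hd : 0 < d) (hρ : EM ρ) (β : ℝ) (h : Vec d) (k : ℕ) (η : Env d) (n : ℕ) {g : ℝ}
    (hg : 0 ≤ g) :
    ∑ x ∈ boxF d (n + 1), ∑ y ∈ boxF d (n + 1), Ad h (gk h k) (x - y) *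
      (2 * (g * (nu ρ β h η n x * nu ρ β h η n y / wt ρ β h η n) *
        (X77 ρ β n η x * X77 ρ β n η y)) -
      g * (nu ρ β h η n x * nu ρ β h η n y / wt ρ β h η n ^ 2) *
        (X77 ρ β n η x * X77 ρ β n η y * wt ρ β h η (n + 1))) ≤ g * Yk ρ β h k η (n + 1) := by
  have ha := wt_pos72 hd ρ β h η n
  have hb := wt_pos72 hd ρ β h η (n + 1)
  have h1 : ∀ x y : Site d, Ad h (gk h k) (x - y) *
      (2 * (g * (nu ρ β h η n x * nu ρ β h η n y / wt ρ β h η n) *
        (X77 ρ β n η x * X77 ρ β n η y)) -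
      g * (nu ρ β h η n x * nu ρ β h η n y / wt ρ β h η n ^ 2) *
        (X77 ρ β n η x * X77 ρ β n η y * wt ρ β h η (n + 1))) =
      g * (2 / wt ρ β h η n - wt ρ β h η (n + 1) / wt ρ β h η n ^ 2) *
        (w ρ β h η (n + 1) x * w ρ β h η (n + 1) y * Ad h (gk h k) (x - y)) := by
    intro x y
    rw [step72 hd hρ, step72 hd hρ]
    unfold X77
    field_simp
  simp only [h1]
  simp only [← Finset.mul_sum]
  unfold Yk
  obtain ⟨N, hN⟩ : ∃ N, N = ∑ x ∈ boxF d (n + 1), ∑ y ∈ boxF d (n + 1),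
      w ρ β h η (n + 1) x * w ρ β h η (n + 1) y * Ad h (gk h k) (x - y) := ⟨_, rfl⟩
  rw [← hN]
  have hN0 : 0 ≤ N := by
    rw [hN]
    exact Finset.sum_nonneg fun x _ => Finset.sum_nonneg fun y _ =>
      mul_nonneg (mul_nonneg (w_nonneg72 _ _ _ _ _ _) (w_nonneg72 _ _ _ _ _ _))
        (Ad_gk_nonneg30 h k _)
  have h2 := mul_le_mul_of_nonneg_left (tangent77 ha hb hN0) hg
  linarith

lemma frac_le77 (hd : 0 < d) (ρ : Measure ℝ) (β : ℝ) (h : Vec d) (η : Env d) (n : ℕ)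
    (x y z : Site d) : nu ρ β h η n x * nu ρ β h η n y * nu ρ β h η n z / wt ρ β h η n ^ 2 ≤
      wt ρ β h η n := by
  have ha := wt_pos72 hd ρ β h η n
  have e1 := nu_le_wt72 hd ρ β h η n x
  have e2 := nu_le_wt72 hd ρ β h η n y
  have e3 := nu_le_wt72 hd ρ β h η n z
  have e4 := nu_nonneg72 ρ β h η n x
  have e5 := nu_nonneg72 ρ β h η n y
  have e6 := nu_nonneg72 ρ β h η n z
  rw [div_le_iff₀ (by positivity)]
  calc nu ρ β h η n x * nu ρ β h η n y * nu ρ β h η n z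
      ≤ wt ρ β h η n * wt ρ β h η n * wt ρ β h η n :=
        mul_le_mul (mul_le_mul e1 e2 e5 ha.le) e3 e6 (by positivity)
    _ = wt ρ β h η n * wt ρ β h η n ^ 2 := by ring

lemma frac_two77 (hd : 0 < d) (ρ : Measure ℝ) (β : ℝ) (h : Vec d) (η : Env d) (n : ℕ)
    (x y : Site d) : nu ρ β h η n x * nu ρ β h η n y / wt ρ β h η n ≤ wt ρ β h η n := by
  have ha := wt_pos72 hd ρ β h η n
  have e1 := nu_le_wt72 hd ρ β h η n x
  have e2 := nu_le_wt72 hd ρ β h η n y
  have e5 := nu_nonneg72 ρ β h η n y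
  rw [div_le_iff₀ ha]
  exact mul_le_mul e1 e2 e5 ha.le

section Pair

variable (hd : 0 < d) (hρ : EM ρ) (β : ℝ) (h : Vec d) (n : ℕ) {G : Env d → ℝ}
  (hG : Measurable G) (dG : DependsOn G {p | p.1 ≤ n}) (G0 : ∀ η, G η = 0 ∨ G η = 1)

include G0 in
lemma G_nonneg77 (η : Env d) : 0 ≤ G η := by
  rcases G0 η with h1 | h1 <;> rw [h1]
  norm_num

include G0 in
lemma G_le77 (η : Env d) : G η ≤ 1 := by
  rcases G0 η with h1 | h1 <;> rw [h1]
  norm_num

omit [IsProbabilityMeasure ρ] in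
include hG in
lemma measurable_H277 (x y : Site d) :
    Measurable fun η => G η * (nu ρ β h η n x * nu ρ β h η n y / wt ρ β h η n) :=
  hG.mul (((measurable_nu72 ρ β h n x).mul (measurable_nu72 ρ β h n y)).div
    (measurable_wt72 ρ β h n))

omit [IsProbabilityMeasure ρ] in
include hG in
lemma measurable_H377 (x y z : Site d) :
    Measurable fun η => G η * (nu ρ β h η n x * nu ρ β h η n y * nu ρ β h η n z /
      wt ρ β h η n ^ 2) :=
  hG.mul ((((measurable_nu72 ρ β h n x).mul (measurable_nu72 ρ β h n y)).mul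
    (measurable_nu72 ρ β h n z)).div ((measurable_wt72 ρ β h n).pow_const 2))

omit [IsProbabilityMeasure ρ] in
include dG in
lemma dep_H277 (x y : Site d) :
    DependsOn (fun η => G η * (nu ρ β h η n x * nu ρ β h η n y / wt ρ β h η n))
      {p | p.1 ≤ n} := by
  intro η η' hη
  have e1 := dG hη
  have e2 := nu_dep72 ρ β h n x hη
  have e3 := nu_dep72 ρ β h n y hη
  have e4 := wt_dep72 ρ β h n hη
  simp only at e1 e2 e3 e4 ⊢
  rw [e1, e2, e3, e4]

omit [IsProbabilityMeasure ρ] in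
include dG in
lemma dep_H377 (x y z : Site d) :
    DependsOn (fun η => G η * (nu ρ β h η n x * nu ρ β h η n y * nu ρ β h η n z /
      wt ρ β h η n ^ 2)) {p | p.1 ≤ n} := by
  intro η η' hη
  have e1 := dG hη
  have e2 := nu_dep72 ρ β h n x hη
  have e3 := nu_dep72 ρ β h n y hη
  have e5 := nu_dep72 ρ β h n z hη
  have e4 := wt_dep72 ρ β h n hη
  simp only at e1 e2 e3 e4 e5 ⊢
  rw [e1, e2, e3, e4, e5]

omit [IsProbabilityMeasure ρ] in
include hd G0 in
lemma H2_nonneg77 (η : Env d) (x y : Site d) :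
    0 ≤ G η * (nu ρ β h η n x * nu ρ β h η n y / wt ρ β h η n) :=
  mul_nonneg (G_nonneg77 G0 η) (div_nonneg (mul_nonneg (nu_nonneg72 _ _ _ _ _ _)
    (nu_nonneg72 _ _ _ _ _ _)) (wt_pos72 hd ρ β h η n).le)

omit [IsProbabilityMeasure ρ] in
include hd G0 in
lemma H2_le77 (η : Env d) (x y : Site d) :
    G η * (nu ρ β h η n x * nu ρ β h η n y / wt ρ β h η n) ≤ wt ρ β h η n :=
  (mul_le_of_le_one_left (div_nonneg (mul_nonneg (nu_nonneg72 _ _ _ _ _ _)
    (nu_nonneg72 _ _ _ _ _ _)) (wt_pos72 hd ρ β h η n).le) (G_le77 G0 η)).trans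
    (frac_two77 hd ρ β h η n x y)

omit [IsProbabilityMeasure ρ] in
include G0 in
lemma H3_nonneg77 (η : Env d) (x y z : Site d) :
    0 ≤ G η * (nu ρ β h η n x * nu ρ β h η n y * nu ρ β h η n z / wt ρ β h η n ^ 2) :=
  mul_nonneg (G_nonneg77 G0 η) (div_nonneg (mul_nonneg (mul_nonneg (nu_nonneg72 _ _ _ _ _ _)
    (nu_nonneg72 _ _ _ _ _ _)) (nu_nonneg72 _ _ _ _ _ _)) (sq_nonneg _))

omit [IsProbabilityMeasure ρ] in
include hd G0 in
lemma H3_le77 (η : Env d) (x y z : Site d) :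
    G η * (nu ρ β h η n x * nu ρ β h η n y * nu ρ β h η n z / wt ρ β h η n ^ 2) ≤
      wt ρ β h η n :=
  (mul_le_of_le_one_left (div_nonneg (mul_nonneg (mul_nonneg (nu_nonneg72 _ _ _ _ _ _)
    (nu_nonneg72 _ _ _ _ _ _)) (nu_nonneg72 _ _ _ _ _ _)) (sq_nonneg _)) (G_le77 G0 η)).trans
    (frac_le77 hd ρ β h η n x y z)

include hd hρ hG G0 in
lemma integrable_H277 (x y : Site d) :
    Integrable (fun η => G η * (nu ρ β h η n x * nu ρ β h η n y / wt ρ β h η n)) (law d ρ) :=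
  (integrable_wt43 hd hρ h n).mono' (measurable_H277 β h n hG x y).aestronglyMeasurable
    (Eventually.of_forall fun η => by
      rw [Real.norm_eq_abs, abs_of_nonneg (H2_nonneg77 hd β h n G0 η x y)]
      exact H2_le77 hd β h n G0 η x y)

include hd hρ hG G0 in
lemma integrable_H377 (x y z : Site d) :
    Integrable (fun η => G η * (nu ρ β h η n x * nu ρ β h η n y * nu ρ β h η n z /
      wt ρ β h η n ^ 2)) (law d ρ) :=
  (integrable_wt43 hd hρ h n).mono' (measurable_H377 β h n hG x y z).aestronglyMeasurable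
    (Eventually.of_forall fun η => by
      rw [Real.norm_eq_abs, abs_of_nonneg (H3_nonneg77 β h n G0 η x y z)]
      exact H3_le77 hd β h n G0 η x y z)

include hd hρ in
lemma expand77 (η : Env d) (x y : Site d) :
    G η * (nu ρ β h η n x * nu ρ β h η n y / wt ρ β h η n ^ 2) *
      (X77 ρ β n η x * X77 ρ β n η y * wt ρ β h η (n + 1)) =
    ∑ z ∈ boxF d (n + 1), G η * (nu ρ β h η n x * nu ρ β h η n y * nu ρ β h η n z /
      wt ρ β h η n ^ 2) * (X77 ρ β n η x * X77 ρ β n η y * X77 ρ β n η z) := by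
  rw [wt_succ72 hd hρ, Finset.mul_sum, Finset.mul_sum]
  refine Finset.sum_congr rfl fun z _ => ?_
  unfold X77
  ring

include hd hρ hG G0 in
lemma integrable_expand77 (x y : Site d) :
    Integrable (fun η => G η * (nu ρ β h η n x * nu ρ β h η n y / wt ρ β h η n ^ 2) *
      (X77 ρ β n η x * X77 ρ β n η y * wt ρ β h η (n + 1))) (law d ρ) := by
  simp only [expand77 hd hρ]
  exact integrable_finsetSum _ fun z _ => integrable_three77 hd hρ β h n
    (measurable_H377 β h n hG x y z) (fun η => H3_nonneg77 β h n G0 η x y z)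
    (fun η => H3_le77 hd β h n G0 η x y z) x y z

open Classical in
include hd hρ hG dG G0 in
/-- The pair. -/
lemma pair77 {δ : ℝ} (hGδ : ∀ η, G η = 1 → ∀ x, w ρ β h η n x ≤ δ * wt ρ β h η n)
    {x y : Site d} (hx : x ∈ boxF d (n + 1)) (hy : y ∈ boxF d (n + 1)) :
    ∫ η, G η * (nu ρ β h η n x * nu ρ β h η n y / wt ρ β h η n ^ 2) *
      (X77 ρ β n η x * X77 ρ β n η y * wt ρ β h η (n + 1)) ∂(law d ρ) ≤
    (c277 ρ β x y + δ * (2 * (kap ρ β - 1) + m377 ρ β * (if x = y then 1 else 0))) *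
      ∫ η, G η * (nu ρ β h η n x * nu ρ β h η n y / wt ρ β h η n) ∂(law d ρ) := by
  have hk := one_le_kap72 hρ β
  have hm := m377_nonneg hρ β
  have i3 := integrable_H377 hd hρ β h n hG G0
  simp only [expand77 hd hρ]
  rw [integral_finsetSum _ fun z _ => integrable_three77 hd hρ β h n
    (measurable_H377 β h n hG x y z) (fun η => H3_nonneg77 β h n G0 η x y z)
    (fun η => H3_le77 hd β h n G0 η x y z) x y z]
  have h1 : ∑ z ∈ boxF d (n + 1), ∫ η, G η * (nu ρ β h η n x * nu ρ β h η n y *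
      nu ρ β h η n z / wt ρ β h η n ^ 2) *
        (X77 ρ β n η x * X77 ρ β n η y * X77 ρ β n η z) ∂(law d ρ) ≤
      ∑ z ∈ boxF d (n + 1), c377 ρ β x y z * ∫ η, G η * (nu ρ β h η n x * nu ρ β h η n y *
      nu ρ β h η n z / wt ρ β h η n ^ 2) ∂(law d ρ) :=
    Finset.sum_le_sum fun z _ => row_three77 hρ β n (measurable_H377 β h n hG x y z)
      (dep_H377 β h n dG x y z) (fun η => H3_nonneg77 β h n G0 η x y z) x y z
  refine h1.trans ?_
  have h2 : ∑ z ∈ boxF d (n + 1), c377 ρ β x y z * ∫ η, G η * (nu ρ β h η n x *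
      nu ρ β h η n y * nu ρ β h η n z / wt ρ β h η n ^ 2) ∂(law d ρ) =
      ∫ η, ∑ z ∈ boxF d (n + 1), c377 ρ β x y z * (G η * (nu ρ β h η n x * nu ρ β h η n y *
        nu ρ β h η n z / wt ρ β h η n ^ 2)) ∂(law d ρ) := by
    rw [integral_finsetSum _ fun z _ => (i3 x y z).const_mul _]
    exact Finset.sum_congr rfl fun z _ => (integral_const_mul _ _).symm
  rw [h2, ← integral_const_mul]
  refine integral_mono (integrable_finsetSum _ fun z _ => (i3 x y z).const_mul _)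
    ((integrable_H277 hd hρ β h n hG G0 x y).const_mul _) fun η => ?_
  simp only
  have ha := wt_pos72 hd ρ β h η n
  have e1 : ∑ z ∈ boxF d (n + 1), c377 ρ β x y z * (G η * (nu ρ β h η n x *
      nu ρ β h η n y * nu ρ β h η n z / wt ρ β h η n ^ 2)) =
      G η * (nu ρ β h η n x * nu ρ β h η n y / wt ρ β h η n ^ 2) *
        ∑ z ∈ boxF d (n + 1), c377 ρ β x y z * nu ρ β h η n z := by
    rw [Finset.mul_sum]
    exact Finset.sum_congr rfl fun z _ => by ring
  rw [e1, sum_c377 hd ρ β h η n hx hy]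
  rcases G0 η with h0 | h0
  · rw [h0]
    simp
  · rw [h0, one_mul, one_mul]
    have e2 := nu_le_max72 hd ρ β h η n (hGδ η h0) x
    have e3 := nu_le_max72 hd ρ β h η n (hGδ η h0) y
    have e4 := nu_nonneg72 ρ β h η n x
    have e5 := nu_nonneg72 ρ β h η n y
    have e6 : (c277 ρ β x y + δ * (2 * (kap ρ β - 1) + m377 ρ β * (if x = y then 1 else 0))) *
        (nu ρ β h η n x * nu ρ β h η n y / wt ρ β h η n) =
        nu ρ β h η n x * nu ρ β h η n y / wt ρ β h η n ^ 2 *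
          (c277 ρ β x y * wt ρ β h η n + (kap ρ β - 1) * (δ * wt ρ β h η n + δ * wt ρ β h η n) +
            m377 ρ β * ((if x = y then 1 else 0) * (δ * wt ρ β h η n))) := by
      field_simp
      ring
    rw [e6]
    refine mul_le_mul_of_nonneg_left ?_ (by positivity)
    have e7 : (kap ρ β - 1) * (nu ρ β h η n x + nu ρ β h η n y) ≤
        (kap ρ β - 1) * (δ * wt ρ β h η n + δ * wt ρ β h η n) :=
      mul_le_mul_of_nonneg_left (add_le_add e2 e3) (by linarith)
    have e8 : m377 ρ β * ((if x = y then 1 else 0) * nu ρ β h η n x) ≤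
        m377 ρ β * ((if x = y then 1 else 0) * (δ * wt ρ β h η n)) :=
      mul_le_mul_of_nonneg_left (mul_le_mul_of_nonneg_left e2 (by split_ifs <;> norm_num)) hm
    linarith

end Pair

/-- **Leaf A2**: the drift. -/
theorem drL77 (hd : 0 < d) (hρ : EM ρ) (β : ℝ) : DrL d ρ β := by
  classical
  intro h k
  have hk := one_le_kap72 hρ β
  have hm := m377_nonneg hρ β
  refine ⟨2 * (kap ρ β - 1) * ((boxF d (2 * k + 2)).card : ℝ) + m377 ρ β, ?_, ?_⟩
  · have : 0 ≤ 2 * (kap ρ β - 1) * ((boxF d (2 * k + 2)).card : ℝ) :=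
      mul_nonneg (by linarith) (by positivity)
    linarith
  intro n δ G hδ hG dG G0 hGδ
  have i2 := integrable_H277 hd hρ β h n hG G0
  have i4 := integrable_expand77 hd hρ β h n hG G0
  have i5 : ∀ x y : Site d, Integrable (fun η => G η * (nu ρ β h η n x * nu ρ β h η n y /
      wt ρ β h η n) * (X77 ρ β n η x * X77 ρ β n η y)) (law d ρ) := fun x y =>
    integrable_two77 hd hρ β h n (measurable_H277 β h n hG x y)
      (fun η => H2_nonneg77 hd β h n G0 η x y) (fun η => H2_le77 hd β h n G0 η x y) x y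
  have i6 : ∀ x y : Site d, Integrable (fun η => Ad h (gk h k) (x - y) *
      (2 * (G η * (nu ρ β h η n x * nu ρ β h η n y / wt ρ β h η n) *
        (X77 ρ β n η x * X77 ρ β n η y)) -
      G η * (nu ρ β h η n x * nu ρ β h η n y / wt ρ β h η n ^ 2) *
        (X77 ρ β n η x * X77 ρ β n η y * wt ρ β h η (n + 1)))) (law d ρ) := fun x y =>
    (((i5 x y).const_mul 2).sub (i4 x y)).const_mul _
  have i7 : ∀ x y : Site d, Integrable (fun η => Ad h (gk h k) (x - y) *
      ((c277 ρ β x y - δ * (2 * (kap ρ β - 1) + m377 ρ β * (if x = y then 1 else 0))) *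
        (G η * (nu ρ β h η n x * nu ρ β h η n y / wt ρ β h η n)))) (law d ρ) := fun x y =>
    ((i2 x y).const_mul _).const_mul _
  -- the functionals are integrable
  have iy : ∀ m, Integrable (fun η => Yk ρ β h k η m) (law d ρ) := by
    intro m
    refine (integrable_wt43 (β := β) hd hρ h m).mono' ?_ (Eventually.of_forall fun η => ?_)
    · have : Measurable fun η : Env d => Yk ρ β h k η m := by
        unfold Yk
        refine Measurable.div ?_ (measurable_wt72 ρ β h m)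
        exact Finset.measurable_sum _ fun x _ => Finset.measurable_sum _ fun y _ =>
          ((measurable_w72 ρ β h m x).mul (measurable_w72 ρ β h m y)).mul_const _
      exact this.aestronglyMeasurable
    · have hw := wt_pos72 hd ρ β h η m
      have e0 : 0 ≤ Yk ρ β h k η m := div_nonneg (Finset.sum_nonneg fun x _ =>
        Finset.sum_nonneg fun y _ => mul_nonneg (mul_nonneg (w_nonneg72 _ _ _ _ _ _)
          (w_nonneg72 _ _ _ _ _ _)) (Ad_gk_nonneg30 h k _)) hw.le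
      rw [Real.norm_eq_abs, abs_of_nonneg e0]
      unfold Yk
      rw [div_le_iff₀ hw]
      have h1 : wt ρ β h η m * wt ρ β h η m =
          ∑ x ∈ boxF d m, ∑ y ∈ boxF d m, w ρ β h η m x * w ρ β h η m y := by
        rw [wt_sum72, Finset.sum_mul_sum]
      rw [h1]
      exact Finset.sum_le_sum fun x _ => Finset.sum_le_sum fun y _ =>
        mul_le_of_le_one_right (mul_nonneg (w_nonneg72 _ _ _ _ _ _) (w_nonneg72 _ _ _ _ _ _))
          (Ad_gk_le_one30 hd h k _)
  have ig : ∀ {F : Env d → ℝ}, Integrable F (law d ρ) →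
      Integrable (fun η => G η * F η) (law d ρ) := by
    intro F hF
    refine hF.norm.mono' (hG.aestronglyMeasurable.mul hF.1) (Eventually.of_forall fun η => ?_)
    rw [norm_mul, Real.norm_eq_abs (G η), abs_of_nonneg (G_nonneg77 G0 η)]
    exact mul_le_of_le_one_left (norm_nonneg _) (G_le77 G0 η)
  have is : Integrable (fun η => S2 ρ β h η n) (law d ρ) := by
    have e1 : (fun η => S2 ρ β h η n) = fun η => ∑ x ∈ boxF d (n + 1),
        (fun _ => (1 : ℝ)) η * (nu ρ β h η n x * nu ρ β h η n x / wt ρ β h η n) := by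
      funext η
      unfold S2
      rw [Finset.sum_div]
      exact Finset.sum_congr rfl fun x _ => by ring
    rw [e1]
    exact integrable_finsetSum _ fun x _ => integrable_H277 hd hρ β h n
      (G := fun _ => (1 : ℝ)) measurable_const (fun _ => Or.inr rfl) x x
  -- from below
  have h1 : ∫ η, ∑ x ∈ boxF d (n + 1), ∑ y ∈ boxF d (n + 1), Ad h (gk h k) (x - y) *
      (2 * (G η * (nu ρ β h η n x * nu ρ β h η n y / wt ρ β h η n) *
        (X77 ρ β n η x * X77 ρ β n η y)) -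
      G η * (nu ρ β h η n x * nu ρ β h η n y / wt ρ β h η n ^ 2) *
        (X77 ρ β n η x * X77 ρ β n η y * wt ρ β h η (n + 1))) ∂(law d ρ) ≤
      ∫ η, G η * Yk ρ β h k η (n + 1) ∂(law d ρ) :=
    integral_mono (integrable_finsetSum _ fun x _ => integrable_finsetSum _ fun y _ => i6 x y)
      (ig (iy (n + 1)))
      fun η => yk_lower77 hd hρ β h k η n (G_nonneg77 G0 η)
  refine le_trans ?_ h1
  rw [integral_finsetSum _ fun x _ => integrable_finsetSum _ fun y _ => i6 x y]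
  have h2 : ∀ x ∈ boxF d (n + 1), ∑ y ∈ boxF d (n + 1), ∫ η, Ad h (gk h k) (x - y) *
      ((c277 ρ β x y - δ * (2 * (kap ρ β - 1) + m377 ρ β * (if x = y then 1 else 0))) *
        (G η * (nu ρ β h η n x * nu ρ β h η n y / wt ρ β h η n))) ∂(law d ρ) ≤
      ∫ η, ∑ y ∈ boxF d (n + 1), Ad h (gk h k) (x - y) *
      (2 * (G η * (nu ρ β h η n x * nu ρ β h η n y / wt ρ β h η n) *
        (X77 ρ β n η x * X77 ρ β n η y)) -
      G η * (nu ρ β h η n x * nu ρ β h η n y / wt ρ β h η n ^ 2) *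
        (X77 ρ β n η x * X77 ρ β n η y * wt ρ β h η (n + 1))) ∂(law d ρ) := by
    intro x hx
    rw [integral_finsetSum _ fun y _ => i6 x y]
    refine Finset.sum_le_sum fun y hy => ?_
    rw [integral_const_mul, integral_const_mul, integral_const_mul,
      integral_sub ((i5 x y).const_mul 2) (i4 x y), integral_const_mul,
      row_two77 hρ β n (measurable_H277 β h n hG x y) (dep_H277 β h n dG x y) x y]
    refine mul_le_mul_of_nonneg_left ?_ (Ad_gk_nonneg30 h k _)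
    have e1 := pair77 hd hρ β h n hG dG G0 hGδ hx hy
    linarith
  refine le_trans ?_ (Finset.sum_le_sum h2)
  have h3 : ∑ x ∈ boxF d (n + 1), ∑ y ∈ boxF d (n + 1), ∫ η, Ad h (gk h k) (x - y) *
      ((c277 ρ β x y - δ * (2 * (kap ρ β - 1) + m377 ρ β * (if x = y then 1 else 0))) *
        (G η * (nu ρ β h η n x * nu ρ β h η n y / wt ρ β h η n))) ∂(law d ρ) =
      ∫ η, ∑ x ∈ boxF d (n + 1), ∑ y ∈ boxF d (n + 1), Ad h (gk h k) (x - y) *
      ((c277 ρ β x y - δ * (2 * (kap ρ β - 1) + m377 ρ β * (if x = y then 1 else 0))) *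
        (G η * (nu ρ β h η n x * nu ρ β h η n y / wt ρ β h η n))) ∂(law d ρ) := by
    rw [integral_finsetSum _ fun x _ => integrable_finsetSum _ fun y _ => i7 x y]
    refine Finset.sum_congr rfl fun x _ => ?_
    rw [integral_finsetSum _ fun y _ => i7 x y]
  rw [h3, ← integral_const_mul, ← integral_add (ig (iy n)) ((ig is).const_mul _)]
  exact integral_mono ((ig (iy n)).add ((ig is).const_mul _))
    (integrable_finsetSum _ fun x _ => integrable_finsetSum _ fun y _ => i7 x y)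
    fun η => point77 hd ρ β h k η n hδ (G_nonneg77 G0 η) hk hm

end Pool.Agent.W_7d29a1_SD
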