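import Pool.Agent.W_7d29a1_SD.Sec62

/-!
Strong disorder is very strong disorder: monotonicity in the inverse temperature. The fractional
moment decreases (convex order), the weight `kap` increases strictly, and strong disorder at a
smaller inverse temperature puts us beyond the second moment line.
-/

namespace Pool.Agent.W_7d29a1_SD.M98

open MeasureTheory ProbabilityTheory Filter Topology Pool.Agent.W_MP_7d29a1_pr
  Pool.Agent.W_7d29a1_h46 Pool.Agent.W_7d29a1_h46u Pool.Agent.W_7d29a1_D2.B35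
  Pool.Agent.W_7d29a1_Q29 Pool.Agent.W_7d29a1_P89 Pool.Agent.W_7d29a1_SD

variable {d : ℕ} {ρ : Measure ℝ}

/-! ### One site -/

/-- The two weights cross once. -/
lemma cross [IsProbabilityMeasure ρ] (hρ : EM ρ) {β' β : ℝ} (hβ : β' < β) :
    ∃ r₀ : ℝ, ∀ r : ℝ, (r₀ ≤ r → xi ρ β' r ≤ xi ρ β r) ∧ (r ≤ r₀ → xi ρ β r ≤ xi ρ β' r) ∧
      (xi ρ β r = xi ρ β' r → r = r₀) := by
  have hM := intExp72 hρ β
  have hM' := intExp72 hρ β'
  have hxi : ∀ (b r : ℝ), 0 < ∫ t, Real.exp (b * t) ∂ρ →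
      xi ρ b r = Real.exp (b * r - Real.log (∫ t, Real.exp (b * t) ∂ρ)) := by
    intro b r hb
    unfold xi
    rw [Real.exp_sub, Real.exp_log hb]
  set L := Real.log (∫ t, Real.exp (β * t) ∂ρ)
  set L' := Real.log (∫ t, Real.exp (β' * t) ∂ρ)
  have hb : 0 < β - β' := by linarith
  refine ⟨(L - L') / (β - β'), fun r => ⟨fun h => ?_, fun h => ?_, fun h => ?_⟩⟩
  · rw [hxi β r hM, hxi β' r hM', Real.exp_le_exp]
    rw [div_le_iff₀ hb] at h
    change β' * r - L' ≤ β * r - L
    nlinarith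
  · rw [hxi β r hM, hxi β' r hM', Real.exp_le_exp]
    rw [le_div_iff₀ hb] at h
    change β * r - L ≤ β' * r - L'
    nlinarith
  · rw [hxi β r hM, hxi β' r hM'] at h
    have h1 := Real.exp_injective h
    rw [eq_div_iff hb.ne']
    change β * r - L = β' * r - L' at h1
    linarith

lemma xi_mono [IsProbabilityMeasure ρ] (hρ : EM ρ) {b : ℝ} (hb : 0 ≤ b) {r s : ℝ} (h : r ≤ s) :
    xi ρ b r ≤ xi ρ b s := by
  unfold xi
  refine div_le_div_of_nonneg_right ?_ (intExp72 hρ b).le
  exact Real.exp_le_exp.2 (mul_le_mul_of_nonneg_left h hb)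

lemma int_diff [IsProbabilityMeasure ρ] (hρ : EM ρ) (β' β : ℝ) :
    ∫ r, (xi ρ β r - xi ρ β' r) ∂ρ = 0 := by
  rw [integral_sub (integrable_xi72 hρ β) (integrable_xi72 hρ β'), int_xi72 hρ, int_xi72 hρ,
    sub_self]

/-- Convex order, for the square root. -/
lemma scal [IsProbabilityMeasure ρ] (hρ : EM ρ) {β' β : ℝ} (h0 : 0 ≤ β') (hβ : β' < β) {a c : ℝ}
    (ha : 0 ≤ a) (hc : 0 ≤ c) :
    ∫ r, Real.sqrt (a + c * xi ρ β r) ∂ρ ≤ ∫ r, Real.sqrt (a + c * xi ρ β' r) ∂ρ := by
  rcases eq_or_lt_of_le hc with hc0 | hc0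
  · rw [← hc0]
    simp
  obtain ⟨r₀, hr⟩ := cross hρ hβ
  have hx := fun r => xi_pos72 hρ β r
  have hx' := fun r => xi_pos72 hρ β' r
  have hint : ∀ b : ℝ, Integrable (fun r => Real.sqrt (a + c * xi ρ b r)) ρ := by
    intro b
    have h1 : Integrable (fun r => 1 + (a + c * xi ρ b r)) ρ :=
      (integrable_const (1 : ℝ)).add ((integrable_const a).add ((integrable_xi72 hρ b).const_mul c))
    refine h1.mono' ?_ (Eventually.of_forall fun r => ?_)
    · exact (Real.continuous_sqrt.measurable.comp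
        (((measurable_xi72 ρ b).const_mul c).const_add a)).aestronglyMeasurable
    · rw [Real.norm_eq_abs, abs_of_nonneg (Real.sqrt_nonneg _)]
      have h2 : 0 ≤ a + c * xi ρ b r := by
        have := xi_pos72 hρ b r
        positivity
      have h3 := Real.sq_sqrt h2
      have h4 := Real.sqrt_nonneg (a + c * xi ρ b r)
      nlinarith [sq_nonneg (Real.sqrt (a + c * xi ρ b r) - 1)]
  set K : ℝ := c / (2 * Real.sqrt (a + c * xi ρ β' r₀)) with hK
  have hpos : ∀ r, 0 < Real.sqrt (a + c * xi ρ β' r) := fun r =>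
    Real.sqrt_pos.2 (by have := mul_pos hc0 (hx' r); linarith)
  have hpt : ∀ r, Real.sqrt (a + c * xi ρ β r) ≤
      Real.sqrt (a + c * xi ρ β' r) + K * (xi ρ β r - xi ρ β' r) := by
    intro r
    have hy := hpos r
    have hy0 := hpos r₀
    have e1 : Real.sqrt (a + c * xi ρ β' r) ^ 2 = a + c * xi ρ β' r :=
      Real.sq_sqrt (by have := mul_pos hc0 (hx' r); linarith)
    have e2 : Real.sqrt (a + c * xi ρ β r) ^ 2 = a + c * xi ρ β r :=
      Real.sq_sqrt (by have := mul_pos hc0 (hx r); linarith)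
    -- the tangent at the point `xi ρ β' r`
    have h1 : Real.sqrt (a + c * xi ρ β r) ≤ Real.sqrt (a + c * xi ρ β' r) +
        c / (2 * Real.sqrt (a + c * xi ρ β' r)) * (xi ρ β r - xi ρ β' r) := by
      have h2 : c / (2 * Real.sqrt (a + c * xi ρ β' r)) * (xi ρ β r - xi ρ β' r) =
          (Real.sqrt (a + c * xi ρ β r) ^ 2 - Real.sqrt (a + c * xi ρ β' r) ^ 2) /
            (2 * Real.sqrt (a + c * xi ρ β' r)) := by
        rw [e1, e2]
        ring
      rw [h2, ← sub_le_iff_le_add', le_div_iff₀ (by linarith)]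
      nlinarith [sq_nonneg (Real.sqrt (a + c * xi ρ β r) - Real.sqrt (a + c * xi ρ β' r))]
    refine h1.trans (add_le_add le_rfl ?_)
    rcases le_total r₀ r with h | h
    · have h2 := (hr r).1 h
      refine mul_le_mul_of_nonneg_right ?_ (by linarith)
      rw [hK]
      refine div_le_div_of_nonneg_left hc (by linarith) ?_
      refine mul_le_mul_of_nonneg_left (Real.sqrt_le_sqrt ?_) (by norm_num)
      have := mul_le_mul_of_nonneg_left (xi_mono hρ h0 h) hc
      linarith
    · have h2 := (hr r).2.1 h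
      refine mul_le_mul_of_nonpos_right ?_ (by linarith)
      rw [hK]
      refine div_le_div_of_nonneg_left hc (by linarith) ?_
      refine mul_le_mul_of_nonneg_left (Real.sqrt_le_sqrt ?_) (by norm_num)
      have := mul_le_mul_of_nonneg_left (xi_mono hρ h0 h) hc
      linarith
  have hD : Integrable (fun r => K * (xi ρ β r - xi ρ β' r)) ρ :=
    ((integrable_xi72 hρ β).sub (integrable_xi72 hρ β')).const_mul K
  have h1 := integral_mono (hint β) ((hint β').add hD) hpt
  refine h1.trans (le_of_eq ?_)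
  have h2 : ∫ r, (fun r => Real.sqrt (a + c * xi ρ β' r) + K * (xi ρ β r - xi ρ β' r)) r ∂ρ =
      ∫ r, Real.sqrt (a + c * xi ρ β' r) ∂ρ := by
    simp only
    rw [integral_add (hint β') hD, integral_const_mul, int_diff hρ, mul_zero, add_zero]
  exact h2

/-- The second moment of the weight increases strictly. -/
theorem kap98 [IsProbabilityMeasure ρ] (hρ : EM ρ) (hnc : ∀ c : ℝ, ρ {c} ≠ 1) {β' β : ℝ}
    (h0 : 0 ≤ β') (hβ : β' < β) : kap ρ β' < kap ρ β := by
  obtain ⟨r₀, hr⟩ := cross hρ hβ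
  have i1 := integrable_xi_sq72 hρ β
  have i2 := integrable_xi_sq72 hρ β'
  have i3 : Integrable (fun r => xi ρ β r - xi ρ β' r) ρ :=
    (integrable_xi72 hρ β).sub (integrable_xi72 hρ β')
  have hpt : ∀ r, (xi ρ β r - xi ρ β' r) ^ 2 ≤ xi ρ β r * xi ρ β r - xi ρ β' r * xi ρ β' r -
      2 * xi ρ β' r₀ * (xi ρ β r - xi ρ β' r) := by
    intro r
    have h1 : 0 ≤ (xi ρ β' r - xi ρ β' r₀) * (xi ρ β r - xi ρ β' r) := by
      rcases le_total r₀ r with h | h
      · have h2 := (hr r).1 h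
        have h3 := xi_mono hρ h0 h
        exact mul_nonneg (by linarith) (by linarith)
      · have h2 := (hr r).2.1 h
        have h3 := xi_mono hρ h0 h
        exact mul_nonneg_of_nonpos_of_nonpos (by linarith) (by linarith)
    nlinarith
  have i6 : Integrable (fun r => xi ρ β r * xi ρ β r - xi ρ β' r * xi ρ β' r) ρ := i1.sub i2
  have i4 : Integrable (fun r => xi ρ β r * xi ρ β r - xi ρ β' r * xi ρ β' r -
      2 * xi ρ β' r₀ * (xi ρ β r - xi ρ β' r)) ρ := i6.sub (i3.const_mul _)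
  have i5 : Integrable (fun r => (xi ρ β r - xi ρ β' r) ^ 2) ρ := by
    refine i4.mono' ?_ (Eventually.of_forall fun r => ?_)
    · exact (((measurable_xi72 ρ β).sub (measurable_xi72 ρ β')).pow_const 2).aestronglyMeasurable
    · rw [Real.norm_eq_abs, abs_of_nonneg (sq_nonneg _)]
      exact hpt r
  have h1 := integral_mono i5 i4 hpt
  have h2 : ∫ r, (xi ρ β r * xi ρ β r - xi ρ β' r * xi ρ β' r -
      2 * xi ρ β' r₀ * (xi ρ β r - xi ρ β' r)) ∂ρ = kap ρ β - kap ρ β' := by
    rw [integral_sub i6 (i3.const_mul _), integral_sub i1 i2, integral_const_mul,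
      int_diff hρ, mul_zero, sub_zero, int_xi_sq72, int_xi_sq72]
  have h3 : 0 < ∫ r, (xi ρ β r - xi ρ β' r) ^ 2 ∂ρ := by
    refine lt_of_le_of_ne (integral_nonneg fun r => sq_nonneg _) fun h => hnc r₀ ?_
    have h4 := (integral_eq_zero_iff_of_nonneg (fun r => sq_nonneg _) i5).1 h.symm
    rw [← mem_ae_iff_prob_eq_one (measurableSet_singleton r₀)]
    filter_upwards [h4] with r hr'
    have h5 : (xi ρ β r - xi ρ β' r) ^ 2 = 0 := hr'
    have h6 : xi ρ β r - xi ρ β' r = 0 := pow_eq_zero_iff (two_ne_zero) |>.1 h5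
    exact Set.mem_singleton_iff.2 ((hr r).2.2 (by linarith))
  have h4 : ∫ r, (xi ρ β r * xi ρ β r - xi ρ β' r * xi ρ β' r -
      2 * xi ρ β' r₀ * (xi ρ β r - xi ρ β' r)) ∂ρ = kap ρ β - kap ρ β' := h2
  linarith

/-! ### All sites -/

/-- The probability of the walk `s`. -/
noncomputable def qs (h : Vec d) {n : ℕ} (s : Fin n → Step d) : ℝ :=
  Real.exp (inner ℝ h (emb (pos s n))) / Phi h ^ n

/-- The partition function with the weights `ζ`. -/
noncomputable def GG (h : Vec d) (n : ℕ) (ζ : ℕ × Site d → ℝ) : ℝ :=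
  ∑ s : Fin n → Step d, qs h s * ∏ i : Fin n, ζ ((i : ℕ) + 1, pos s ((i : ℕ) + 1))

lemma qs_nonneg (h : Vec d) {n : ℕ} (s : Fin n → Step d) : 0 ≤ qs h s :=
  div_nonneg (Real.exp_pos _).le (pow_nonneg (Finset.sum_nonneg fun _ _ => (Real.exp_pos _).le) _)

open Classical in
/-- The partition function is affine in the weight of one site. -/
lemma affine (h : Vec d) (n : ℕ) (ζ : ℕ × Site d → ℝ) (hζ : ∀ p, 0 ≤ ζ p) (p : ℕ × Site d) :
    ∃ a c : ℝ, 0 ≤ a ∧ 0 ≤ c ∧ ∀ v : ℝ, GG h n (Function.update ζ p v) = a + c * v := by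
  have hs : ∀ s : Fin n → Step d, ∃ a c : ℝ, 0 ≤ a ∧ 0 ≤ c ∧ ∀ v : ℝ,
      ∏ i : Fin n, Function.update ζ p v ((i : ℕ) + 1, pos s ((i : ℕ) + 1)) = a + c * v := by
    intro s
    by_cases hp : ∃ i : Fin n, ((i : ℕ) + 1, pos s ((i : ℕ) + 1)) = p
    · obtain ⟨i₀, hi₀⟩ := hp
      refine ⟨0, ∏ i ∈ Finset.univ.erase i₀, ζ ((i : ℕ) + 1, pos s ((i : ℕ) + 1)), le_rfl,
        Finset.prod_nonneg fun i _ => hζ _, fun v => ?_⟩
      rw [← Finset.mul_prod_erase Finset.univ _ (Finset.mem_univ i₀), hi₀, Function.update_self,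
        zero_add, mul_comm]
      congr 1
      refine Finset.prod_congr rfl fun i hi => ?_
      rw [Function.update_of_ne]
      intro h1
      have h2 : (i : ℕ) + 1 = (i₀ : ℕ) + 1 := by
        have := congrArg Prod.fst (h1.trans hi₀.symm)
        simpa using this
      exact (Finset.ne_of_mem_erase hi) (Fin.ext (by omega))
    · refine ⟨∏ i : Fin n, ζ ((i : ℕ) + 1, pos s ((i : ℕ) + 1)), 0,
        Finset.prod_nonneg fun i _ => hζ _, le_rfl, fun v => ?_⟩
      rw [zero_mul, add_zero]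
      refine Finset.prod_congr rfl fun i _ => ?_
      rw [Function.update_of_ne]
      exact fun h1 => hp ⟨i, h1⟩
  choose a c ha hc hv using hs
  refine ⟨∑ s, qs h s * a s, ∑ s, qs h s * c s,
    Finset.sum_nonneg fun s _ => mul_nonneg (qs_nonneg h s) (ha s),
    Finset.sum_nonneg fun s _ => mul_nonneg (qs_nonneg h s) (hc s), fun v => ?_⟩
  unfold GG
  rw [Finset.sum_mul, ← Finset.sum_add_distrib]
  refine Finset.sum_congr rfl fun s _ => ?_
  rw [hv s v]
  ring

open Classical in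
/-- The weights: `β` on the sites of `S`, `β'` on the other sites. -/
noncomputable def zS (ρ : Measure ℝ) (β' β : ℝ) (S : Finset (ℕ × Site d)) (η : Env d) :
    ℕ × Site d → ℝ := fun p => if p ∈ S then xi ρ β (η p) else xi ρ β' (η p)

section Int

variable [IsProbabilityMeasure ρ]

lemma zS_nonneg (hρ : EM ρ) (β' β : ℝ) (S : Finset (ℕ × Site d)) (η : Env d)
    (p : ℕ × Site d) : 0 ≤ zS ρ β' β S η p := by
  unfold zS
  split_ifs
  · exact (xi_pos72 hρ _ _).le
  · exact (xi_pos72 hρ _ _).le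

omit [IsProbabilityMeasure ρ] in
lemma measurable_zS (β' β : ℝ) (S : Finset (ℕ × Site d)) (p : ℕ × Site d) :
    Measurable fun η : Env d => zS ρ β' β S η p := by
  unfold zS
  split_ifs
  · exact (measurable_xi72 ρ β).comp (measurable_pi_apply p)
  · exact (measurable_xi72 ρ β').comp (measurable_pi_apply p)

omit [IsProbabilityMeasure ρ] in
lemma measurable_GG (β' β : ℝ) (h : Vec d) (n : ℕ) (S : Finset (ℕ × Site d)) :
    Measurable fun η : Env d => GG h n (zS ρ β' β S η) := by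
  unfold GG
  exact Finset.measurable_fun_sum _ fun s _ => (Finset.measurable_fun_prod _ fun i _ =>
    measurable_zS β' β S _).const_mul _

lemma GG_nonneg (hρ : EM ρ) (β' β : ℝ) (h : Vec d) (n : ℕ) (S : Finset (ℕ × Site d))
    (η : Env d) : 0 ≤ GG h n (zS ρ β' β S η) :=
  Finset.sum_nonneg fun s _ => mul_nonneg (qs_nonneg h s)
    (Finset.prod_nonneg fun i _ => zS_nonneg hρ β' β S η _)

open Classical in
lemma integrable_GG (hρ : EM ρ) (β' β : ℝ) (h : Vec d) (n : ℕ) (S : Finset (ℕ × Site d)) :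
    Integrable (fun η : Env d => GG h n (zS ρ β' β S η)) (law d ρ) := by
  unfold GG
  refine integrable_finsetSum _ fun s _ => Integrable.const_mul ?_ _
  have hf : Function.Injective fun i : Fin n => ((i : ℕ) + 1, pos s ((i : ℕ) + 1)) := by
    intro i j hij
    have := congrArg Prod.fst hij
    simp only at this
    exact Fin.ext (by omega)
  have h1 : MeasurePreserving (fun (η : Env d) (i : Fin n) =>
      η ((i : ℕ) + 1, pos s ((i : ℕ) + 1))) (law d ρ) (Measure.pi fun _ : Fin n => ρ) := by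
    have := LawU_reindex (ρ := ρ) hf
    rw [← Measure.infinitePi_eq_pi]
    exact this
  have h2 : Integrable (fun x : Fin n → ℝ => ∏ i : Fin n,
      (if (((i : ℕ) + 1, pos s ((i : ℕ) + 1)) : ℕ × Site d) ∈ S then xi ρ β (x i) else
        xi ρ β' (x i))) (Measure.pi fun _ : Fin n => ρ) := by
    refine Integrable.fintype_prod (f := fun (i : Fin n) (r : ℝ) =>
      if (((i : ℕ) + 1, pos s ((i : ℕ) + 1)) : ℕ × Site d) ∈ S then xi ρ β r else xi ρ β' r)
      fun i => ?_
    split_ifs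
    · exact integrable_xi72 hρ β
    · exact integrable_xi72 hρ β'
  exact h1.integrable_comp_of_integrable h2

lemma integrable_sqrt (hρ : EM ρ) (β' β : ℝ) (h : Vec d) (n : ℕ) (S : Finset (ℕ × Site d)) :
    Integrable (fun η : Env d => Real.sqrt (GG h n (zS ρ β' β S η))) (law d ρ) := by
  refine ((integrable_const (1 : ℝ)).add (integrable_GG hρ β' β h n S)).mono'
    (Real.continuous_sqrt.measurable.comp (measurable_GG β' β h n S)).aestronglyMeasurable
    (Eventually.of_forall fun η => ?_)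
  rw [Real.norm_eq_abs, abs_of_nonneg (Real.sqrt_nonneg _)]
  have h2 := GG_nonneg hρ β' β h n S η
  have h3 := Real.sq_sqrt h2
  show Real.sqrt (GG h n (zS ρ β' β S η)) ≤ 1 + GG h n (zS ρ β' β S η)
  nlinarith [sq_nonneg (Real.sqrt (GG h n (zS ρ β' β S η)) - 1)]

open Classical in
/-- Replacing one site. -/
lemma one_site (hρ : EM ρ) {β' β : ℝ} (h0 : 0 ≤ β') (hβ : β' < β) (h : Vec d) (n : ℕ)
    (S : Finset (ℕ × Site d)) (p : ℕ × Site d) (hp : p ∉ S) :
    ∫ η, Real.sqrt (GG h n (zS ρ β' β (insert p S) η)) ∂(law d ρ) ≤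
      ∫ η, Real.sqrt (GG h n (zS ρ β' β S η)) ∂(law d ρ) := by
  have hi := integrable_sqrt (ρ := ρ) hρ β' β h n (insert p S)
  have hi' := integrable_sqrt (ρ := ρ) hρ β' β h n S
  rw [D85.integral_upd p hi, D85.integral_upd p hi']
  refine integral_mono (D85.integrable_upd p hi) (D85.integrable_upd p hi') fun η => ?_
  obtain ⟨a, c, ha, hc, hv⟩ := affine h n (zS ρ β' β S η) (zS_nonneg hρ β' β S η) p
  have e1 : ∀ r : ℝ, zS ρ β' β (insert p S) (Function.update η p r) =
      Function.update (zS ρ β' β S η) p (xi ρ β r) := by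
    intro r
    funext q
    by_cases hq : q = p
    · subst hq
      simp [zS]
    · simp [zS, hq]
  have e2 : ∀ r : ℝ, zS ρ β' β S (Function.update η p r) =
      Function.update (zS ρ β' β S η) p (xi ρ β' r) := by
    intro r
    funext q
    by_cases hq : q = p
    · subst hq
      simp [zS, hp]
    · simp [zS, hq]
  simp only [e1, e2, hv]
  exact scal hρ h0 hβ ha hc

open Classical in
lemma all_sites (hρ : EM ρ) {β' β : ℝ} (h0 : 0 ≤ β') (hβ : β' < β) (h : Vec d) (n : ℕ)
    (S : Finset (ℕ × Site d)) :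
    ∫ η, Real.sqrt (GG h n (zS ρ β' β S η)) ∂(law d ρ) ≤
      ∫ η, Real.sqrt (GG h n (zS ρ β' β ∅ η)) ∂(law d ρ) := by
  induction S using Finset.induction_on with
  | empty => exact le_rfl
  | insert p S hp ih => exact (one_site hρ h0 hβ h n S p hp).trans ih

/-- The partition function with the weights `xi`. -/
lemma wt_GG (hd : 0 < d) (hρ : EM ρ) (β : ℝ) (h : Vec d) (η : Env d) (n : ℕ) :
    wt ρ β h η n = GG h n fun p => xi ρ β (η p) := by
  have hM := intExp72 hρ β
  have hP := Phi_pos61 hd h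
  have hN : Real.exp (-((n : ℝ) * (Real.log (Phi h) +
      Real.log (∫ t, Real.exp (β * t) ∂ρ)))) =
      (Phi h ^ n)⁻¹ * ((∫ t, Real.exp (β * t) ∂ρ) ^ n)⁻¹ := by
    rw [← Real.log_mul hP.ne' hM.ne', Real.exp_neg, ← Real.log_pow,
      Real.exp_log (pow_pos (mul_pos hP hM) n), mul_pow, mul_inv]
  rw [wt_def43, hN, Z_eq]
  unfold GG qs xi
  rw [Finset.mul_sum]
  refine Finset.sum_congr rfl fun s _ => ?_
  rw [Finset.prod_div_distrib, Finset.prod_const, Finset.card_univ, Fintype.card_fin,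
    ← Real.exp_sum]
  unfold wgt energy
  rw [Real.exp_add, Finset.mul_sum]
  field_simp

/-- The fractional moment decreases in the inverse temperature. -/
theorem mono98 (hd : 0 < d) (hρ : EM ρ) {β' β : ℝ} (h0 : 0 ≤ β') (hβ : β' < β) (h : Vec d)
    (n : ℕ) : ∫ η, Real.sqrt (wt ρ β h η n) ∂(law d ρ) ≤
      ∫ η, Real.sqrt (wt ρ β' h η n) ∂(law d ρ) := by
  classical
  set S : Finset (ℕ × Site d) := Finset.Icc 1 n ×ˢ boxF d n with hS
  have h1 := all_sites (ρ := ρ) hρ h0 hβ h n S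
  have e1 : ∀ η : Env d, GG h n (zS ρ β' β S η) = wt ρ β h η n := by
    intro η
    rw [wt_GG hd hρ]
    unfold GG
    refine Finset.sum_congr rfl fun s _ => ?_
    congr 1
    refine Finset.prod_congr rfl fun i _ => ?_
    unfold zS
    rw [if_pos]
    rw [hS, Finset.mem_product]
    refine ⟨Finset.mem_Icc.2 ⟨by simp, ?_⟩, ?_⟩
    · have := i.2
      show (i : ℕ) + 1 ≤ n
      omega
    · exact pos_mem_box s _
  have e2 : ∀ η : Env d, GG h n (zS ρ β' β ∅ η) = wt ρ β' h η n := by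
    intro η
    rw [wt_GG hd hρ]
    congr 1
  simp only [e1, e2] at h1
  exact h1

/-! ### Below the second moment line -/

/-- Strictly below the line the second moments are bounded. -/
lemma sec_bd (hd : 0 < d) (hρ : EM ρ) {β : ℝ} (h : Vec d) {θ : ℝ} (hθ : θ < 1)
    (hk : ∀ k : ℕ, kap ρ β * rt h k ≤ θ) (n : ℕ) :
    ∫ η, wt ρ β h η n ^ 2 ∂(law d ρ) ≤ 1 + (kap ρ β - 1) / (1 - θ) := by
  have hθ' : 0 < 1 - θ := by linarith
  set Lm : ℕ → ℕ → ℝ := fun n k => ∫ η, S62.rp ρ β h η n (Ad h (gk h k)) ∂(law d ρ) with hLm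
  have h0 : ∀ n k, 0 ≤ Lm n k := fun n k => integral_nonneg fun η =>
    S62.rp_nonneg62 hd h η n (S62.Ad_nonneg62 h fun z => (S62.gk_bd62 hd h k z).1)
  have hstep : ∀ n k, Lm (n + 1) k + (1 - θ) * Lm n 0 ≤ Lm n (k + 1) := by
    intro n k
    have h1 : Ad h (Ad h (gk h k)) = fun z => Ad h (gk h (k + 1)) z -
        (1 - rt h k) * Ad h (gk h 0) z := by
      funext z
      rw [← S62.Ad_lin62]
      congr 1
      funext y
      exact S62.Ad_gk62 h k y
    have h2 : ∫ η, S62.rp ρ β h η n (fun z => Ad h (gk h (k + 1)) z -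
        (1 - rt h k) * Ad h (gk h 0) z) ∂(law d ρ) =
        Lm n (k + 1) - (1 - rt h k) * Lm n 0 := by
      simp only [S62.rp_lin62]
      rw [integral_sub (S62.int_rp62 hd hρ h n _) ((S62.int_rp62 hd hρ h n _).const_mul _),
        integral_const_mul]
    have h3 : Lm (n + 1) k = Lm n (k + 1) - (1 - rt h k) * Lm n 0 +
        (kap ρ β - 1) * rt h k * Lm n 0 := by
      show ∫ η, S62.rp ρ β h η (n + 1) (Ad h (gk h k)) ∂(law d ρ) = _
      rw [S62.rec62 hd hρ, h1, h2]
      rfl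
    have h4 := mul_le_mul_of_nonneg_right (hk k) (h0 n 0)
    rw [h3]
    nlinarith
  have hind : ∀ N k, Lm N k + (1 - θ) * ∑ n ∈ Finset.range N, Lm n 0 ≤ Lm 0 (k + N) := by
    intro N
    induction N with
    | zero => intro k; simp
    | succ N ih =>
      intro k
      have h1 := hstep N k
      have h2 := ih (k + 1)
      rw [Finset.sum_range_succ, mul_add]
      have e : k + 1 + N = k + (N + 1) := by omega
      rw [e] at h2
      linarith
  have h1 : ∀ k, Lm 0 k ≤ 1 := by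
    intro k
    have h1 : ∀ η : Env d, S62.rp ρ β h η 0 (Ad h (gk h k)) ≤ 1 := by
      intro η
      have h2 := S62.wt_sq62 (ρ := ρ) (β := β) h η 0
      rw [S62.wt_zero62] at h2
      have h3 : S62.rp ρ β h η 0 (Ad h (gk h k)) ≤ S62.rp ρ β h η 0 fun _ => 1 :=
        Finset.sum_le_sum fun x _ => Finset.sum_le_sum fun y _ =>
          mul_le_mul_of_nonneg_left (S62.Ad_le_one62 hd h (fun z => (S62.gk_bd62 hd h _ z).2) _)
            (mul_nonneg (w_nonneg72 ρ β h η 0 x) (w_nonneg72 ρ β h η 0 y))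
      rw [← h2] at h3
      simpa using h3
    have h4 := integral_mono (S62.int_rp62 (ρ := ρ) (β := β) hd hρ h 0 (Ad h (gk h k)))
      (integrable_const (1 : ℝ)) h1
    simpa using h4
  have hsum : ∀ N, ∑ n ∈ Finset.range N, Lm n 0 ≤ 1 / (1 - θ) := by
    intro N
    rw [le_div_iff₀ hθ']
    have h2 := hind N 0
    have h3 := h1 (0 + N)
    have h4 := h0 N 0
    linarith
  have hrec : ∀ n, ∫ η, wt ρ β h η n ^ 2 ∂(law d ρ) =
      1 + (kap ρ β - 1) * ∑ m ∈ Finset.range n, Lm m 0 := by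
    intro n
    induction n with
    | zero =>
      simp only [S62.wt_zero62]
      simp
    | succ n ih =>
      have h1 : ∫ η, wt ρ β h η (n + 1) ^ 2 ∂(law d ρ) = ∫ η, wt ρ β h η n ^ 2 ∂(law d ρ) +
          (kap ρ β - 1) * Lm n 0 := by
        simp only [S62.wt_sq62]
        rw [S62.rec62 hd hρ]
        have h2 : Ad h (fun _ : Site d => (1 : ℝ)) = fun _ => 1 := by
          funext z
          unfold Ad
          simp only [mul_one]
          rw [← Finset.sum_mul_sum, sum_pe72 hd h, one_mul]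
        rw [h2, mul_one]
      rw [h1, ih, Finset.sum_range_succ]
      ring
  rw [hrec n]
  have h3 := one_le_kap72 hρ β
  have h4 := mul_le_mul_of_nonneg_left (hsum n) (by linarith : (0 : ℝ) ≤ kap ρ β - 1)
  have h5 : (kap ρ β - 1) * (1 / (1 - θ)) = (kap ρ β - 1) / (1 - θ) := by ring
  rw [h5] at h4
  linarith

/-- Bounded second moments exclude strong disorder. -/
lemma not_sdm (hd : 0 < d) (hρ : EM ρ) {β : ℝ} {h : Vec d} {C : ℝ}
    (hC : ∀ n : ℕ, ∫ η, wt ρ β h η n ^ 2 ∂(law d ρ) ≤ C) : ¬ SDm ρ β h := by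
  intro hS
  have hC1 : 1 ≤ C := by
    have h1 := hC 0
    simp only [S62.wt_zero62] at h1
    simpa using h1
  set L : ℝ := 4 * C with hL
  have hL0 : 0 < L := by linarith
  have hpt : ∀ (n : ℕ) (η : Env d), wt ρ β h η n ≤
      Real.sqrt L * Real.sqrt (wt ρ β h η n) + 1 / L * wt ρ β h η n ^ 2 := by
    intro n η
    have hw := wt_pos43 hd ρ β h η n
    rcases le_total (wt ρ β h η n) L with h1 | h1
    · have h2 : wt ρ β h η n = Real.sqrt (wt ρ β h η n) * Real.sqrt (wt ρ β h η n) :=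
        (Real.mul_self_sqrt hw.le).symm
      have h3 : Real.sqrt (wt ρ β h η n) ≤ Real.sqrt L := Real.sqrt_le_sqrt h1
      have h4 := mul_le_mul_of_nonneg_right h3 (Real.sqrt_nonneg (wt ρ β h η n))
      have h5 : 0 ≤ 1 / L * wt ρ β h η n ^ 2 := by positivity
      linarith
    · have h2 : wt ρ β h η n ≤ 1 / L * wt ρ β h η n ^ 2 := by
        rw [one_div, inv_mul_eq_div, le_div_iff₀ hL0]
        nlinarith
      have h3 : 0 ≤ Real.sqrt L * Real.sqrt (wt ρ β h η n) := by positivity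
      linarith
  have i1 : ∀ n : ℕ, Integrable (fun η => Real.sqrt (wt ρ β h η n)) (law d ρ) := by
    intro n
    refine int_of43 hd hρ β h n (q := 1) le_rfl
      (Real.continuous_sqrt.measurable.comp (measurable_wt43 ρ β h n)) 1 fun η => ?_
    rw [abs_of_nonneg (Real.sqrt_nonneg _), pow_one, one_mul]
    have h2 := (wt_pos43 hd ρ β h η n).le
    have h3 := Real.sq_sqrt h2
    nlinarith [sq_nonneg (Real.sqrt (wt ρ β h η n) - 1)]
  have i2 : ∀ n : ℕ, Integrable (fun η => wt ρ β h η n ^ 2) (law d ρ) := fun n =>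
    integrable_wt_pow43 hd hρ β h n (by norm_num)
  have h1 : ∀ n : ℕ, 1 ≤ Real.sqrt L * ∫ η, Real.sqrt (wt ρ β h η n) ∂(law d ρ) + 1 / 4 := by
    intro n
    have h2 := integral_mono (integrable_wt43 hd hρ h n)
      (((i1 n).const_mul (Real.sqrt L)).add ((i2 n).const_mul (1 / L))) (hpt n)
    have h3 : ∫ η, (fun η => Real.sqrt L * Real.sqrt (wt ρ β h η n)) η +
        (fun η => 1 / L * wt ρ β h η n ^ 2) η ∂(law d ρ) =
        Real.sqrt L * ∫ η, Real.sqrt (wt ρ β h η n) ∂(law d ρ) +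
          1 / L * ∫ η, wt ρ β h η n ^ 2 ∂(law d ρ) := by
      rw [integral_add ((i1 n).const_mul _) ((i2 n).const_mul _), integral_const_mul,
        integral_const_mul]
    rw [integral_wt43 hd hρ] at h2
    have h4 : 1 / L * ∫ η, wt ρ β h η n ^ 2 ∂(law d ρ) ≤ 1 / 4 := by
      have h5 := mul_le_mul_of_nonneg_left (hC n) (by positivity : (0 : ℝ) ≤ 1 / L)
      have h6 : 1 / L * C = 1 / 4 := by
        rw [hL]
        field_simp
      linarith
    have h7 : (1 : ℝ) ≤ ∫ η, (fun η => Real.sqrt L * Real.sqrt (wt ρ β h η n)) η +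
        (fun η => 1 / L * wt ρ β h η n ^ 2) η ∂(law d ρ) := h2
    rw [h3] at h7
    linarith
  have h2 := (hS.const_mul (Real.sqrt L)).add_const (1 / 4 : ℝ)
  rw [mul_zero, zero_add] at h2
  have h3 := ge_of_tendsto' h2 h1
  norm_num at h3

/-- Strong disorder at a smaller inverse temperature: strong disorder beyond the second moment
line. -/
theorem bc98 (hd : 0 < d) (hρ : EM ρ) (hnc : ∀ c : ℝ, ρ {c} ≠ 1) {β' β : ℝ} (h0 : 0 ≤ β')
    (hβ : β' < β) {h : Vec d} (hS : SDm ρ β' h) :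
    SDm ρ β h ∧ ∃ k : ℕ, 1 < kap ρ β * rt h k := by
  constructor
  · refine tendsto_of_tendsto_of_tendsto_of_le_of_le tendsto_const_nhds hS (fun n => ?_)
      (fun n => ?_)
    · exact integral_nonneg fun η => Real.sqrt_nonneg _
    · exact mono98 hd hρ h0 hβ h n
  · by_contra hc
    push Not at hc
    have hk := kap98 hρ hnc h0 hβ
    have hk1 := one_le_kap72 hρ β
    have hk1' := one_le_kap72 hρ β'
    have hθ : kap ρ β' / kap ρ β < 1 := by
      rw [div_lt_one (by linarith)]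
      exact hk
    refine not_sdm hd hρ (sec_bd hd hρ h hθ fun k => ?_) hS
    have h1 := hc k
    have h2 : kap ρ β' * rt h k = kap ρ β' / kap ρ β * (kap ρ β * rt h k) := by
      field_simp
    rw [h2]
    have h3 : 0 ≤ kap ρ β' / kap ρ β := by positivity
    calc kap ρ β' / kap ρ β * (kap ρ β * rt h k) ≤ kap ρ β' / kap ρ β * 1 :=
          mul_le_mul_of_nonneg_left h1 h3
      _ = _ := mul_one _

end Int

end Pool.Agent.W_7d29a1_SD.M98
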