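import Pool.Agent.W_7d29a1_SD.FinC43
import Pool.Agent.W_7d29a1_SD.DrL77
import Pool.Agent.W_7d29a1_SD.Mono98
import Pool.Agent.W_7d29a1_SD.AsC19

/-!
Strong disorder is very strong disorder: the theorem, no hypothesis left.
-/

namespace Pool.Agent.W_7d29a1_SD

open MeasureTheory ProbabilityTheory Filter Topology Pool.Agent.W_MP_7d29a1_pr
  Pool.Agent.W_7d29a1_h46 Pool.Agent.W_7d29a1_h46u Pool.Agent.W_7d29a1_D2.B35
  Pool.Agent.W_7d29a1_Q29 Pool.Agent.W_7d29a1_P89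

/-- Strong disorder at a smaller inverse temperature gives very strong disorder. -/
theorem vsd43 {d : ℕ} {ρ : Measure ℝ} [IsProbabilityMeasure ρ] {β : ℝ}
    (hd : 0 < d) (hρ : EM ρ) (hnc : ∀ c : ℝ, ρ {c} ≠ 1) {b : ℝ} (hb : 0 < b) (hbβ : b < β)
    (h : Vec d) (hs : SDm ρ b h) : VSD ρ β h :=
  sdk43 (drL77 hd hρ β) expL73 hd hρ h (Pool.Agent.W_7d29a1_SD.M98.bc98 hd hρ hnc hb.le hbβ hs).2
    (Pool.Agent.W_7d29a1_SD.M98.bc98 hd hρ hnc hb.le hbβ hs).1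

/-- Strong disorder above the second moment line is very strong disorder, and conversely. -/
theorem iff43 {d : ℕ} {ρ : Measure ℝ} [IsProbabilityMeasure ρ] {β : ℝ}
    (hd : 0 < d) (hρ : EM ρ) (h : Vec d)
    (h12 : (∀ᵐ η ∂(law d ρ), Tendsto (fun n : ℕ => wt ρ β h η n) atTop (𝓝 0)) → SDm ρ β h) :
    VSD ρ β h ↔ SDm ρ β h ∧
      ∀ C : ℝ, ∃ n : ℕ, C * (n + 1) < ∫ η, wt ρ β h η n ^ 2 ∂(law d ρ) :=
  sdi43 (drL77 hd hρ β) expL73 hd hρ h h12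

/-- The clause for an arbitrary environment. -/
theorem clauseD43 {Ω : Type*} [MeasurableSpace Ω] {μ : Measure Ω} [IsProbabilityMeasure μ] {d : ℕ}
    {ρ : Measure ℝ} [IsProbabilityMeasure ρ] {ω : ℕ × Site d → Ω → ℝ} {β : ℝ}
    (hd : 0 < d) (hω : IID μ ρ ω) (hρ : EM ρ) (hnc : ∀ c : ℝ, ρ {c} ≠ 1) :
    ∀ (h : Vec d) (b : ℝ), 0 < b → b < β →
      (∀ᵐ x ∂μ, Tendsto (fun n : ℕ => Zn b h (fun p => ω p x) n /
        ∫ y, Zn b h (fun p => ω p y) n ∂μ) atTop (𝓝 0)) → lamN ρ β h < annN ρ β h :=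
  clause19 hd hω hρ fun h _ hb hbβ hs => vsd43 hd hρ hnc hb hbβ h hs

end Pool.Agent.W_7d29a1_SD
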