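import Pool.Agent.W_7d29a1_SD.DenU2
import Pool.Agent.W_7d29a1_SD.Fin67
import Pool.Agent.W_7d29a1_SD.TrSD80
import Pool.Agent.W_7d29a1_v.Final

/-!
Theorem SDU, no hypothesis left: in every dimension every nonempty open set of tilts of very strong
disorder contains uncountably many tilts at which the polymer is not diffusive around any line.
-/

namespace Pool.Agent.W_7d29a1_SD

open MeasureTheory ProbabilityTheory Filter Topology Pool.Agent.W_MP_7d29a1_pr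
  Pool.Agent.W_7d29a1_h46 Pool.Agent.W_7d29a1_h46u Pool.Agent.W_7d29a1_D2.B35
  Pool.Agent.W_7d29a1_Q29 Pool.Agent.W_7d29a1_NV

variable {d : ℕ} {ρ : Measure ℝ} [IsProbabilityMeasure ρ] {β : ℝ}

/-- **Theorem SDU.** -/
theorem mainSDUF2 (hd : 0 < d) (hρ : EM ρ) (hnc : ∀ c : ℝ, ρ {c} ≠ 1) (hβ : 0 < β) :
    Den2.MainSDUc d ρ β :=
  Den2.mainSDUcU hd hρ (nvr67 hd hρ hnc hβ) (subD20 hd hρ) fun _ hU hne v c =>
    Pool.Agent.W_7d29a1_v.not_affine hρ hnc hβ hd hU hne v c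

variable {Ω : Type*} [MeasurableSpace Ω] {μ : Measure Ω} [IsProbabilityMeasure μ]
  {ω : ℕ × Site d → Ω → ℝ}

/-- **Theorem SDU** for an arbitrary i.i.d. environment. -/
theorem trSDU2 (hd : 0 < d) (hω : IID μ ρ ω) (hM : Den2.MainSDUc d ρ β) :
    ∀ U : Set (Vec d), IsOpen U → U.Nonempty → (∀ h ∈ U, VSD ρ β h) →
      ¬ {h : Vec d | h ∈ U ∧ ∀ v : Vec d, ∃ ε : ℝ, 0 < ε ∧ ∀ R : ℝ, ∃ᶠ n : ℕ in atTop,
        ε < ∫ x, PolT β h (fun p => ω p x) {s : Fin n → Step d | ∃ i ≤ n,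
          R * Real.sqrt n < ‖emb (pos s i) - (i : ℝ) • v‖} ∂μ}.Countable := by
  intro U hU hne hV hc
  refine hM U hU hne hV (hc.mono ?_)
  rintro h ⟨hh, H⟩
  refine ⟨hh, fun v => ?_⟩
  obtain ⟨ε, hε, H'⟩ := TrSD80.not_dif80 hd (H v)
  refine ⟨ε, hε, fun R => (H' R).mono fun n hn => ?_⟩
  rw [TrSD80.tb_int80 hd hω h v R n]
  exact hn

end Pool.Agent.W_7d29a1_SD
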