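import Pool.Agent.W_7d29a1_SD.DefsSD
import Pool.Agent.W_7d29a1_Q29.Ce39
import Pool.Agent.W_7d29a1_h46.Flu

/-!
Leaf P: two close directions whose polymers are in disjoint tubes after the time `p`.
-/

namespace Pool.Agent.W_7d29a1_SD.Pair80

open MeasureTheory ProbabilityTheory Filter Topology Pool.Agent.W_MP_7d29a1_pr
  Pool.Agent.W_7d29a1_h46 Pool.Agent.W_7d29a1_h46u Pool.Agent.W_7d29a1_D2.B35
  Pool.Agent.W_7d29a1_Q29 Pool.Agent.W_7d29a1_NV

variable {d : ℕ}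

/-- A set of walks with at least half of the mass. -/
lemma near80 {n : ℕ} (hd : 0 < d) {β : ℝ} {h : Vec d} {η : Env d}
    {T : Set (Fin n → Step d)} (hP : 1 / 2 ≤ PolT β h η T) :
    X β h η n - Real.log 2 ≤ Real.log (ZT β h η T) ∧ Real.log (ZT β h η T) ≤ X β h η n := by
  have hZ : 0 < ZT β h η (Set.univ : Set (Fin n → Step d)) := ZT_univ_pos hd β h η
  have h1 := le_ZT_of_PolT hd hP
  have h2 : ZT β h η T ≤ ZT β h η (Set.univ : Set (Fin n → Step d)) :=
    ZT_mono β h η (Set.subset_univ T)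
  have h3 : 0 < ZT β h η T := lt_of_lt_of_le (by positivity) h1
  refine ⟨?_, Real.log_le_log h3 h2⟩
  have h4 := Real.log_le_log (by positivity) h1
  rw [Real.log_mul (by norm_num) hZ.ne', one_div, Real.log_inv] at h4
  unfold X Z
  linarith

/-- Changing the tilt, seen through a set with at least half of the mass. -/
lemma one80 {n : ℕ} (hd : 0 < d) {β : ℝ} {h h' : Vec d} {η : Env d}
    {T : Set (Fin n → Step d)} {A₀ : ℝ} (hP : 1 / 2 ≤ PolT β h η T)
    (hA : ∀ s ∈ T, A₀ ≤ inner ℝ (h' - h) (emb (pos s n))) :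
    A₀ + X β h η n - Real.log 2 ≤ X β h' η n := by
  have hZ : 0 < ZT β h η (Set.univ : Set (Fin n → Step d)) := ZT_univ_pos hd β h η
  have hpos : 0 < PolT β h η T := lt_of_lt_of_le (by norm_num) hP
  have h3 : 0 < ZT β h η T := ZT_pos β h η (nonempty_of_PolT hpos)
  have t1 : Real.exp A₀ * ZT β h η T ≤ ZT β h' η T := ZT_tilt_ge β h h' η hA
  have m1 : ZT β h' η T ≤ ZT β h' η (Set.univ : Set (Fin n → Step d)) :=
    ZT_mono _ _ _ (Set.subset_univ _)
  have l1 := Real.log_le_log (by positivity) (t1.trans m1)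
  rw [Real.log_mul (Real.exp_pos _).ne' h3.ne', Real.log_exp] at l1
  have l2 := (near80 hd hP).1
  have l3 : X β h' η n = Real.log (ZT β h' η (Set.univ : Set (Fin n → Step d))) := rfl
  rw [l3]
  linarith

/-- The difference of the two free energies is in a nonrandom interval. -/
lemma det80 {n : ℕ} (hd : 0 < d) {β : ℝ} {h₁ h₂ v₁ v₂ : Vec d} {η : Env d} {r : ℝ}
    (h1 : 1 / 2 ≤ PolT β h₁ η (tube d n v₁ r)) (h2 : 1 / 2 ≤ PolT β h₂ η (tube d n v₂ r)) :
    n * inner ℝ (h₂ - h₁) v₁ - ‖h₂ - h₁‖ * r - Real.log 2 ≤ X β h₂ η n - X β h₁ η n ∧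
      X β h₂ η n - X β h₁ η n ≤ n * inner ℝ (h₂ - h₁) v₂ + ‖h₂ - h₁‖ * r + Real.log 2 := by
  constructor
  · have := one80 (h' := h₂) (A₀ := n * inner ℝ (h₂ - h₁) v₁ - ‖h₂ - h₁‖ * r) hd h1
      (fun s hs => by
        have := abs_le.1 (tube_end hs (h₂ - h₁))
        linarith [this.1])
    linarith
  · have := one80 (h' := h₁) (A₀ := -(n * inner ℝ (h₂ - h₁) v₂ + ‖h₂ - h₁‖ * r)) hd h2
      (fun s hs => by
        have h3 := abs_le.1 (tube_end hs (h₂ - h₁))
        have h4 : inner ℝ (h₁ - h₂) (emb (pos s n)) = - inner ℝ (h₂ - h₁) (emb (pos s n)) := by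
          rw [← inner_neg_left, neg_sub]
        rw [h4]
        linarith [h3.2])
    linarith

/-- The sites of the environment which are not renewed. -/
def Sp (d p : ℕ) (v : Vec d) (r : ℝ) : Set (ℕ × Site d) :=
  {q | ¬ (p < q.1 ∧ ‖emb q.2 - (q.1 : ℝ) • v‖ ≤ r)}

/-- The sites of a walk in a tube. -/
lemma site80 {n : ℕ} {v : Vec d} {r : ℝ} {s : Fin n → Step d} (hs : s ∈ tube d n v r)
    {q : ℕ × Site d} (hq : q ∈ sites s) : ‖emb q.2 - (q.1 : ℝ) • v‖ ≤ r := by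
  obtain ⟨i, _, rfl⟩ := Finset.mem_image.1 hq
  exact hs ((i : ℕ) + 1) i.2

lemma zt_one80 {n : ℕ} (β : ℝ) (h v : Vec d) (r : ℝ) (p : ℕ) (η ξ : Env d) :
    ZT β h (spl (Pa d p) η ξ) (tube d n v r) = ZT β h (spl (Sp d p v r) η ξ) (tube d n v r) := by
  refine ZT_congr fun s hs q hq => ?_
  have h1 := site80 hs hq
  by_cases hp : q.1 ≤ p
  · have h2 : q ∈ Pa d p := hp
    have h3 : q ∈ Sp d p v r := fun hc => by
      have := hc.1
      omega
    rw [spl_mem _ _ h2, spl_mem _ _ h3]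
  · have h2 : q ∉ Pa d p := hp
    have h3 : q ∉ Sp d p v r := fun hc => hc ⟨by omega, h1⟩
    rw [spl_not_mem _ _ h2, spl_not_mem _ _ h3]

lemma zt_two80 {n : ℕ} (β : ℝ) (h v w : Vec d) (r : ℝ) (p : ℕ) (hr : 2 * r < p * ‖w - v‖)
    (η ξ : Env d) :
    ZT β h η (tube d n w r) = ZT β h (spl (Sp d p v r) η ξ) (tube d n w r) := by
  refine ZT_congr fun s hs q hq => ?_
  have h1 := site80 hs hq
  have h3 : q ∈ Sp d p v r := fun hc => by
    have h4 := hc.2
    have h5 : ((q.1 : ℝ) • w - (q.1 : ℝ) • v) =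
        (emb q.2 - (q.1 : ℝ) • v) - (emb q.2 - (q.1 : ℝ) • w) := by abel
    have h6 : ‖(q.1 : ℝ) • w - (q.1 : ℝ) • v‖ ≤ 2 * r := by
      rw [h5]
      refine (norm_sub_le _ _).trans ?_
      linarith
    rw [← smul_sub, norm_smul, Real.norm_eq_abs, abs_of_nonneg (Nat.cast_nonneg q.1)] at h6
    have h7 : (p : ℝ) ≤ q.1 := by exact_mod_cast hc.1.le
    have h8 := mul_le_mul_of_nonneg_right h7 (norm_nonneg (w - v))
    linarith
  rw [spl_mem _ _ h3]

variable {ρ : Measure ℝ} [IsProbabilityMeasure ρ]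

/-- Markov. -/
lemma mk80 {β : ℝ} {h v : Vec d} {R ε : ℝ} {n : ℕ} (hT : Tb ρ β h v R n ≤ ε) :
    (law d ρ).real {η | PolT β h η (tube d n v (R * Real.sqrt n)) < 1 / 2} ≤ 2 * ε := by
  have hm : Measurable fun η : Env d => 1 - PolT β h η (tube d n v (R * Real.sqrt n)) :=
    (measurable_PolT β h _).const_sub 1
  have hI : Integrable (fun η : Env d => 1 - PolT β h η (tube d n v (R * Real.sqrt n)))
      (law d ρ) := by
    refine Integrable.mono' (integrable_const (1 : ℝ)) hm.aestronglyMeasurable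
      (Filter.Eventually.of_forall fun η => ?_)
    rw [Real.norm_eq_abs, abs_le]
    have := PolT_nonneg β h η (tube d n v (R * Real.sqrt n))
    have := PolT_le_one β h η (tube d n v (R * Real.sqrt n))
    constructor <;> linarith
  have h1 := mul_meas_ge_le_integral_of_nonneg (μ := law d ρ)
    (f := fun η : Env d => 1 - PolT β h η (tube d n v (R * Real.sqrt n)))
    (Filter.Eventually.of_forall fun η => by
      have := PolT_le_one β h η (tube d n v (R * Real.sqrt n))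
      change (0 : ℝ) ≤ 1 - _
      linarith) hI (1 / 2)
  have h2 : (law d ρ).real {η | PolT β h η (tube d n v (R * Real.sqrt n)) < 1 / 2} ≤
      (law d ρ).real {η | 1 / 2 ≤ 1 - PolT β h η (tube d n v (R * Real.sqrt n))} := by
    refine measureReal_mono fun η hη => ?_
    have hη' : PolT β h η (tube d n v (R * Real.sqrt n)) < 1 / 2 := hη
    change (1 : ℝ) / 2 ≤ 1 - _
    linarith
  unfold Tb at hT
  linarith

/-- Markov, for a copy of the environment. -/
lemma mkc80 {β : ℝ} {h v : Vec d} {R ε : ℝ} {n : ℕ} (hT : Tb ρ β h v R n ≤ ε)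
    {φ : Env d × Env d → Env d}
    (hφ : MeasurePreserving φ ((law d ρ).prod (law d ρ)) (law d ρ)) :
    ((law d ρ).prod (law d ρ)).real
      {w | PolT β h (φ w) (tube d n v (R * Real.sqrt n)) < 1 / 2} ≤ 2 * ε := by
  have hm : MeasurableSet {η : Env d | PolT β h η (tube d n v (R * Real.sqrt n)) < 1 / 2} :=
    measurableSet_lt (measurable_PolT β h _) measurable_const
  have h1 := hφ.measureReal_preimage hm.nullMeasurableSet
  have h2 := mk80 hT
  rw [← h1] at h2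
  exact h2

/-- Leaf P. -/
theorem pairs80 (hd : 0 < d) (β : ℝ) : PairS d ρ β := by
  intro h₁ h₂ v₁ v₂ n p R a C ε hR ha hC hv hh hp hT₁ hT₂
  set r : ℝ := R * Real.sqrt n with hr
  have hlog : Real.log 2 < 0.7 := by
    have := Real.log_two_lt_d9
    linarith
  have hlog0 : 0 < Real.log 2 := Real.log_pos (by norm_num)
  have hp' : 2 * r < p * ‖v₂ - v₁‖ := by
    rw [hr]
    linarith
  have hfst : MeasurePreserving (Prod.fst : Env d × Env d → Env d) ((law d ρ).prod (law d ρ))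
      (law d ρ) := measurePreserving_fst
  have b1 := mkc80 hT₁ hfst
  have b2 := mkc80 hT₂ hfst
  have b3 := mkc80 hT₁ (mp_spl (ρ := ρ) (Sp d p v₁ r))
  have b4 := mkc80 hT₂ (mp_spl (ρ := ρ) (Sp d p v₁ r))
  have b5 := mkc80 hT₁ (mp_spl (ρ := ρ) (Pa d p))
  rw [← hr] at b1 b2 b3 b4 b5
  set B1 : Set (Env d × Env d) := {w | PolT β h₁ w.1 (tube d n v₁ r) < 1 / 2} with hB1
  set B2 : Set (Env d × Env d) := {w | PolT β h₂ w.1 (tube d n v₂ r) < 1 / 2} with hB2
  set B3 : Set (Env d × Env d) :=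
    {w | PolT β h₁ (spl (Sp d p v₁ r) w.1 w.2) (tube d n v₁ r) < 1 / 2} with hB3
  set B4 : Set (Env d × Env d) :=
    {w | PolT β h₂ (spl (Sp d p v₁ r) w.1 w.2) (tube d n v₂ r) < 1 / 2} with hB4
  set B5 : Set (Env d × Env d) :=
    {w | PolT β h₁ (spl (Pa d p) w.1 w.2) (tube d n v₁ r) < 1 / 2} with hB5
  have hsub : {w : Env d × Env d | C * a + 2 * C * R + 6 <
      |X β h₁ w.1 n - X β h₁ (spl (Pa d p) w.1 w.2) n|} ⊆ (((B1 ∪ B2) ∪ B3) ∪ B4) ∪ B5 := by
    intro w hw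
    by_contra hcon
    simp only [Set.mem_union, not_or] at hcon
    obtain ⟨⟨⟨⟨c1, c2⟩, c3⟩, c4⟩, c5⟩ := hcon
    have g1 : 1 / 2 ≤ PolT β h₁ w.1 (tube d n v₁ r) := not_lt.1 c1
    have g2 : 1 / 2 ≤ PolT β h₂ w.1 (tube d n v₂ r) := not_lt.1 c2
    have g3 : 1 / 2 ≤ PolT β h₁ (spl (Sp d p v₁ r) w.1 w.2) (tube d n v₁ r) := not_lt.1 c3
    have g4 : 1 / 2 ≤ PolT β h₂ (spl (Sp d p v₁ r) w.1 w.2) (tube d n v₂ r) := not_lt.1 c4
    have g5 : 1 / 2 ≤ PolT β h₁ (spl (Pa d p) w.1 w.2) (tube d n v₁ r) := not_lt.1 c5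
    have d1 := det80 hd g1 g2
    have d2 := det80 hd g3 g4
    have n2 := near80 hd g2
    have n3 := near80 hd g3
    have n4 := near80 hd g4
    have n5 := near80 hd g5
    rw [zt_one80 β h₁ v₁ r p w.1 w.2] at n5
    rw [zt_two80 β h₂ v₁ v₂ r p hp' w.1 w.2] at n2
    have e1 : ‖h₂ - h₁‖ * r ≤ C * R := by
      calc ‖h₂ - h₁‖ * r = (‖h₂ - h₁‖ * Real.sqrt n) * R := by rw [hr]; ring
        _ ≤ C * R := mul_le_mul_of_nonneg_right hh hR
    have e2 : (n : ℝ) * inner ℝ (h₂ - h₁) v₂ - n * inner ℝ (h₂ - h₁) v₁ ≤ C * a := by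
      rw [← mul_sub, ← inner_sub_right]
      have h0 : (0 : ℝ) ≤ n := Nat.cast_nonneg n
      calc (n : ℝ) * inner ℝ (h₂ - h₁) (v₂ - v₁) ≤ n * (‖h₂ - h₁‖ * ‖v₂ - v₁‖) :=
            mul_le_mul_of_nonneg_left (real_inner_le_norm _ _) h0
        _ = (‖h₂ - h₁‖ * Real.sqrt n) * (‖v₂ - v₁‖ * Real.sqrt n) := by
            have := Real.mul_self_sqrt h0
            calc (n : ℝ) * (‖h₂ - h₁‖ * ‖v₂ - v₁‖) =
                (Real.sqrt n * Real.sqrt n) * (‖h₂ - h₁‖ * ‖v₂ - v₁‖) := by rw [this]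
              _ = _ := by ring
        _ ≤ C * a := mul_le_mul hh hv (by positivity) hC
    have hw' : C * a + 2 * C * R + 6 <
        |X β h₁ w.1 n - X β h₁ (spl (Pa d p) w.1 w.2) n| := hw
    refine absurd hw' (not_lt.2 ?_)
    rw [abs_le]
    constructor
    · linarith [d1.1, d1.2, d2.1, d2.2, n2.1, n2.2, n3.1, n3.2, n4.1, n4.2, n5.1, n5.2]
    · linarith [d1.1, d1.2, d2.1, d2.2, n2.1, n2.2, n3.1, n3.2, n4.1, n4.2, n5.1, n5.2]
  unfold RS
  have u0 := measureReal_mono (μ := (law d ρ).prod (law d ρ)) hsub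
  have u1 := measureReal_union_le (μ := (law d ρ).prod (law d ρ)) (((B1 ∪ B2) ∪ B3) ∪ B4) B5
  have u2 := measureReal_union_le (μ := (law d ρ).prod (law d ρ)) ((B1 ∪ B2) ∪ B3) B4
  have u3 := measureReal_union_le (μ := (law d ρ).prod (law d ρ)) (B1 ∪ B2) B3
  have u4 := measureReal_union_le (μ := (law d ρ).prod (law d ρ)) B1 B2
  linarith

end Pool.Agent.W_7d29a1_SD.Pair80
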