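import Pool.Agent.W_7d29a1_SD.MainS70
import Pool.Agent.W_7d29a1_SD.Pair80
import Pool.Agent.W_7d29a1_h46u.ConcV
import Pool.Agent.W_7d29a1_h46u.LamU

/-!
Theorem SD in affine families of tilts: for every linear map `M : R^k → R^d` and every `h₀`, for
almost every `v` in `R^k` and every `x` such that the tilt `h₀ + M x` is in very strong disorder,
the maximum of `‖M^* S_t - t v‖`, divided by `√n`, is not tight.
-/

namespace Pool.Agent.W_7d29a1_SD

open MeasureTheory ProbabilityTheory Filter Topology Pool.Agent.W_MP_7d29a1_pr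
  Pool.Agent.W_7d29a1_h46 Pool.Agent.W_7d29a1_h46u Pool.Agent.W_7d29a1_D2.B35
  Pool.Agent.W_7d29a1_Q29 Pool.Agent.W_7d29a1_NV

/-- The walks `s` such that `M^* s_i` stays at distance at most `r` from `i v`. -/
def tubA {d k : ℕ} (n : ℕ) (M : Vec k →ₗ[ℝ] Vec d) (v : Vec k) (r : ℝ) :
    Set (Fin n → Step d) :=
  {s | ∀ i ≤ n, ‖LinearMap.adjoint M (emb (pos s i)) - (i : ℝ) • v‖ ≤ r}

/-- The mean mass outside of the tube of `M^* S`. -/
noncomputable def TbA {d k : ℕ} (ρ : Measure ℝ) (β : ℝ) (M : Vec k →ₗ[ℝ] Vec d) (h : Vec d)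
    (v : Vec k) (R : ℝ) (n : ℕ) : ℝ :=
  ∫ η, (1 - PolT β h η (tubA n M v (R * Real.sqrt n))) ∂(law d ρ)

/-- **The theorem, in all affine families of tilts.** -/
def MainSDA (d : ℕ) (ρ : Measure ℝ) (β : ℝ) : Prop :=
  ∀ k : ℕ, 0 < k → ∀ (M : Vec k →ₗ[ℝ] Vec d) (h₀ : Vec d), ∀ᵐ v : Vec k, ∀ x : Vec k,
    VSD ρ β (h₀ + M x) →
      ¬ ∀ ε : ℝ, 0 < ε → ∃ R : ℝ, ∀ n : ℕ, TbA ρ β M (h₀ + M x) v R n ≤ ε

namespace Aff70

variable {d k : ℕ} {M : Vec k →ₗ[ℝ] Vec d}

lemma tubA_mono {n : ℕ} (v : Vec k) {r r' : ℝ} (hr : r ≤ r') : tubA n M v r ⊆ tubA n M v r' :=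
  fun _ hs i hi => (hs i hi).trans hr

/-- The tilt on the walks of the tube. -/
lemma tubA_end {n : ℕ} {v : Vec k} {r : ℝ} {s : Fin n → Step d} (hs : s ∈ tubA n M v r)
    (x : Vec k) : |inner ℝ (M x) (emb (pos s n)) - n * inner ℝ x v| ≤ ‖x‖ * r := by
  have h1 : ‖LinearMap.adjoint M (emb (pos s n)) - (n : ℝ) • v‖ ≤ r := hs n le_rfl
  have h2 : inner ℝ (M x) (emb (pos s n)) - n * inner ℝ x v =
      inner ℝ x (LinearMap.adjoint M (emb (pos s n)) - (n : ℝ) • v) := by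
    rw [inner_sub_right, inner_smul_right, LinearMap.adjoint_inner_right]
  rw [h2]
  exact (abs_real_inner_le_norm _ _).trans (mul_le_mul_of_nonneg_left h1 (norm_nonneg x))

/-- The difference of the two free energies is in a nonrandom interval. -/
lemma det70 {n : ℕ} (hd : 0 < d) {β : ℝ} {h₀ : Vec d} {x₁ x₂ v₁ v₂ : Vec k} {η : Env d} {r : ℝ}
    (h1 : 1 / 2 ≤ PolT β (h₀ + M x₁) η (tubA n M v₁ r))
    (h2 : 1 / 2 ≤ PolT β (h₀ + M x₂) η (tubA n M v₂ r)) :
    n * inner ℝ (x₂ - x₁) v₁ - ‖x₂ - x₁‖ * r - Real.log 2 ≤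
        X β (h₀ + M x₂) η n - X β (h₀ + M x₁) η n ∧
      X β (h₀ + M x₂) η n - X β (h₀ + M x₁) η n ≤
        n * inner ℝ (x₂ - x₁) v₂ + ‖x₂ - x₁‖ * r + Real.log 2 := by
  have e1 : (h₀ + M x₂) - (h₀ + M x₁) = M (x₂ - x₁) := by
    rw [map_sub]
    abel
  have e2 : (h₀ + M x₁) - (h₀ + M x₂) = -M (x₂ - x₁) := by
    rw [map_sub]
    abel
  constructor
  · have := Pair80.one80 (h' := h₀ + M x₂) (A₀ := n * inner ℝ (x₂ - x₁) v₁ - ‖x₂ - x₁‖ * r) hd h1
      (fun s hs => by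
        have := abs_le.1 (tubA_end hs (x₂ - x₁))
        rw [e1]
        linarith [this.1])
    linarith
  · have := Pair80.one80 (h' := h₀ + M x₁)
      (A₀ := -(n * inner ℝ (x₂ - x₁) v₂ + ‖x₂ - x₁‖ * r)) hd h2
      (fun s hs => by
        have h3 := abs_le.1 (tubA_end hs (x₂ - x₁))
        rw [e2, inner_neg_left]
        linarith [h3.2])
    linarith

/-- The sites of the environment which are not renewed. -/
def Sa (p : ℕ) (M : Vec k →ₗ[ℝ] Vec d) (v : Vec k) (r : ℝ) : Set (ℕ × Site d) :=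
  {q | ¬ (p < q.1 ∧ ‖LinearMap.adjoint M (emb q.2) - (q.1 : ℝ) • v‖ ≤ r)}

/-- The sites of a walk in a tube. -/
lemma siteA {n : ℕ} {v : Vec k} {r : ℝ} {s : Fin n → Step d} (hs : s ∈ tubA n M v r)
    {q : ℕ × Site d} (hq : q ∈ sites s) :
    ‖LinearMap.adjoint M (emb q.2) - (q.1 : ℝ) • v‖ ≤ r := by
  obtain ⟨i, _, rfl⟩ := Finset.mem_image.1 hq
  exact hs ((i : ℕ) + 1) i.2

lemma zt_oneA {n : ℕ} (β : ℝ) (h : Vec d) (v : Vec k) (r : ℝ) (p : ℕ) (η ξ : Env d) :
    ZT β h (spl (Pa d p) η ξ) (tubA n M v r) = ZT β h (spl (Sa p M v r) η ξ) (tubA n M v r) := by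
  refine ZT_congr fun s hs q hq => ?_
  have h1 := siteA hs hq
  by_cases hp : q.1 ≤ p
  · have h2 : q ∈ Pa d p := hp
    have h3 : q ∈ Sa p M v r := fun hc => by
      have := hc.1
      omega
    rw [spl_mem _ _ h2, spl_mem _ _ h3]
  · have h2 : q ∉ Pa d p := hp
    have h3 : q ∉ Sa p M v r := fun hc => hc ⟨by omega, h1⟩
    rw [spl_not_mem _ _ h2, spl_not_mem _ _ h3]

lemma zt_twoA {n : ℕ} (β : ℝ) (h : Vec d) (v w : Vec k) (r : ℝ) (p : ℕ)
    (hr : 2 * r < p * ‖w - v‖) (η ξ : Env d) :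
    ZT β h η (tubA n M w r) = ZT β h (spl (Sa p M v r) η ξ) (tubA n M w r) := by
  refine ZT_congr fun s hs q hq => ?_
  have h1 := siteA hs hq
  have h3 : q ∈ Sa p M v r := fun hc => by
    have h4 := hc.2
    have h5 : ((q.1 : ℝ) • w - (q.1 : ℝ) • v) =
        (LinearMap.adjoint M (emb q.2) - (q.1 : ℝ) • v) -
          (LinearMap.adjoint M (emb q.2) - (q.1 : ℝ) • w) := by abel
    have h6 : ‖(q.1 : ℝ) • w - (q.1 : ℝ) • v‖ ≤ 2 * r := by
      rw [h5]
      refine (norm_sub_le _ _).trans ?_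
      linarith
    rw [← smul_sub, norm_smul, Real.norm_eq_abs, abs_of_nonneg (Nat.cast_nonneg q.1)] at h6
    have h7 : (p : ℝ) ≤ q.1 := by exact_mod_cast hc.1.le
    have h8 := mul_le_mul_of_nonneg_right h7 (norm_nonneg (w - v))
    linarith
  rw [spl_mem _ _ h3]

variable {ρ : Measure ℝ} [IsProbabilityMeasure ρ]

/-- Markov, for a copy of the environment. -/
lemma mkA {β : ℝ} {h : Vec d} {v : Vec k} {R ε : ℝ} {n : ℕ} (hT : TbA ρ β M h v R n ≤ ε)
    {φ : Env d × Env d → Env d}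
    (hφ : MeasurePreserving φ ((law d ρ).prod (law d ρ)) (law d ρ)) :
    ((law d ρ).prod (law d ρ)).real
      {w | PolT β h (φ w) (tubA n M v (R * Real.sqrt n)) < 1 / 2} ≤ 2 * ε := by
  set T := tubA n M v (R * Real.sqrt n) with hTd
  have hm : Measurable fun η : Env d => 1 - PolT β h η T := (measurable_PolT β h _).const_sub 1
  have hI : Integrable (fun η : Env d => 1 - PolT β h η T) (law d ρ) := by
    refine Integrable.mono' (integrable_const (1 : ℝ)) hm.aestronglyMeasurable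
      (Filter.Eventually.of_forall fun η => ?_)
    rw [Real.norm_eq_abs, abs_le]
    have := PolT_nonneg β h η T
    have := PolT_le_one β h η T
    constructor <;> linarith
  have h1 := mul_meas_ge_le_integral_of_nonneg (μ := law d ρ)
    (f := fun η : Env d => 1 - PolT β h η T)
    (Filter.Eventually.of_forall fun η => by
      have := PolT_le_one β h η T
      change (0 : ℝ) ≤ 1 - _
      linarith) hI (1 / 2)
  have h2 : (law d ρ).real {η | PolT β h η T < 1 / 2} ≤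
      (law d ρ).real {η | 1 / 2 ≤ 1 - PolT β h η T} := by
    refine measureReal_mono fun η hη => ?_
    have hη' : PolT β h η T < 1 / 2 := hη
    change (1 : ℝ) / 2 ≤ 1 - _
    linarith
  have h3 : (law d ρ).real {η | PolT β h η T < 1 / 2} ≤ 2 * ε := by
    unfold TbA at hT
    linarith
  have hms : MeasurableSet {η : Env d | PolT β h η T < 1 / 2} :=
    measurableSet_lt (measurable_PolT β h _) measurable_const
  have h4 := hφ.measureReal_preimage hms.nullMeasurableSet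
  rw [← h4] at h3
  exact h3

/-- Two close tilts of the family whose polymers are in disjoint tubes after the time `p`. -/
theorem pairA (hd : 0 < d) (β : ℝ) (h₀ : Vec d) (x₁ x₂ v₁ v₂ : Vec k) (n p : ℕ) (R a C ε : ℝ)
    (hR : 0 ≤ R) (_ha : 0 ≤ a) (hC : 0 ≤ C) (hv : ‖v₂ - v₁‖ * Real.sqrt n ≤ a)
    (hh : ‖x₂ - x₁‖ * Real.sqrt n ≤ C) (hp : 2 * R * Real.sqrt n < p * ‖v₂ - v₁‖)
    (hT₁ : TbA ρ β M (h₀ + M x₁) v₁ R n ≤ ε) (hT₂ : TbA ρ β M (h₀ + M x₂) v₂ R n ≤ ε) :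
    RS ρ β (h₀ + M x₁) n p (C * a + 2 * C * R + 6) (10 * ε) := by
  set h₁ : Vec d := h₀ + M x₁ with hh₁
  set h₂ : Vec d := h₀ + M x₂ with hh₂
  set r : ℝ := R * Real.sqrt n with hr
  have hlog : Real.log 2 < 0.7 := by
    have := Real.log_two_lt_d9
    linarith
  have hlog0 : 0 < Real.log 2 := Real.log_pos (by norm_num)
  have hp' : 2 * r < p * ‖v₂ - v₁‖ := by
    rw [hr]
    linarith
  have hfst : MeasurePreserving (Prod.fst : Env d × Env d → Env d) ((law d ρ).prod (law d ρ))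
      (law d ρ) := measurePreserving_fst
  have b1 := mkA hT₁ hfst
  have b2 := mkA hT₂ hfst
  have b3 := mkA hT₁ (mp_spl (ρ := ρ) (Sa p M v₁ r))
  have b4 := mkA hT₂ (mp_spl (ρ := ρ) (Sa p M v₁ r))
  have b5 := mkA hT₁ (mp_spl (ρ := ρ) (Pa d p))
  rw [← hr] at b1 b2 b3 b4 b5
  set B1 : Set (Env d × Env d) := {w | PolT β h₁ w.1 (tubA n M v₁ r) < 1 / 2} with hB1
  set B2 : Set (Env d × Env d) := {w | PolT β h₂ w.1 (tubA n M v₂ r) < 1 / 2} with hB2
  set B3 : Set (Env d × Env d) :=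
    {w | PolT β h₁ (spl (Sa p M v₁ r) w.1 w.2) (tubA n M v₁ r) < 1 / 2} with hB3
  set B4 : Set (Env d × Env d) :=
    {w | PolT β h₂ (spl (Sa p M v₁ r) w.1 w.2) (tubA n M v₂ r) < 1 / 2} with hB4
  set B5 : Set (Env d × Env d) :=
    {w | PolT β h₁ (spl (Pa d p) w.1 w.2) (tubA n M v₁ r) < 1 / 2} with hB5
  have hsub : {w : Env d × Env d | C * a + 2 * C * R + 6 <
      |X β h₁ w.1 n - X β h₁ (spl (Pa d p) w.1 w.2) n|} ⊆ (((B1 ∪ B2) ∪ B3) ∪ B4) ∪ B5 := by
    intro w hw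
    by_contra hcon
    simp only [Set.mem_union, not_or] at hcon
    obtain ⟨⟨⟨⟨c1, c2⟩, c3⟩, c4⟩, c5⟩ := hcon
    have g1 : 1 / 2 ≤ PolT β h₁ w.1 (tubA n M v₁ r) := not_lt.1 c1
    have g2 : 1 / 2 ≤ PolT β h₂ w.1 (tubA n M v₂ r) := not_lt.1 c2
    have g3 : 1 / 2 ≤ PolT β h₁ (spl (Sa p M v₁ r) w.1 w.2) (tubA n M v₁ r) := not_lt.1 c3
    have g4 : 1 / 2 ≤ PolT β h₂ (spl (Sa p M v₁ r) w.1 w.2) (tubA n M v₂ r) := not_lt.1 c4
    have g5 : 1 / 2 ≤ PolT β h₁ (spl (Pa d p) w.1 w.2) (tubA n M v₁ r) := not_lt.1 c5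
    have d1 := det70 hd g1 g2
    have d2 := det70 hd g3 g4
    have n2 := Pair80.near80 hd g2
    have n3 := Pair80.near80 hd g3
    have n4 := Pair80.near80 hd g4
    have n5 := Pair80.near80 hd g5
    rw [zt_oneA β h₁ v₁ r p w.1 w.2] at n5
    rw [zt_twoA β h₂ v₁ v₂ r p hp' w.1 w.2] at n2
    have e1 : ‖x₂ - x₁‖ * r ≤ C * R := by
      calc ‖x₂ - x₁‖ * r = (‖x₂ - x₁‖ * Real.sqrt n) * R := by rw [hr]; ring
        _ ≤ C * R := mul_le_mul_of_nonneg_right hh hR
    have e2 : (n : ℝ) * inner ℝ (x₂ - x₁) v₂ - n * inner ℝ (x₂ - x₁) v₁ ≤ C * a := by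
      rw [← mul_sub, ← inner_sub_right]
      have h0 : (0 : ℝ) ≤ n := Nat.cast_nonneg n
      calc (n : ℝ) * inner ℝ (x₂ - x₁) (v₂ - v₁) ≤ n * (‖x₂ - x₁‖ * ‖v₂ - v₁‖) :=
            mul_le_mul_of_nonneg_left (real_inner_le_norm _ _) h0
        _ = (‖x₂ - x₁‖ * Real.sqrt n) * (‖v₂ - v₁‖ * Real.sqrt n) := by
            have := Real.mul_self_sqrt h0
            calc (n : ℝ) * (‖x₂ - x₁‖ * ‖v₂ - v₁‖) =
                (Real.sqrt n * Real.sqrt n) * (‖x₂ - x₁‖ * ‖v₂ - v₁‖) := by rw [this]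
              _ = _ := by ring
        _ ≤ C * a := mul_le_mul hh hv (by positivity) hC
    have hw' : C * a + 2 * C * R + 6 <
        |X β h₁ w.1 n - X β h₁ (spl (Pa d p) w.1 w.2) n| := hw
    refine absurd hw' (not_lt.2 ?_)
    rw [abs_le]
    constructor
    · linarith [d1.1, d1.2, d2.1, d2.2, n2.1, n2.2, n3.1, n3.2, n4.1, n4.2, n5.1, n5.2]
    · linarith [d1.1, d1.2, d2.1, d2.2, n2.1, n2.2, n3.1, n3.2, n4.1, n4.2, n5.1, n5.2]
  unfold RS
  have u0 := measureReal_mono (μ := (law d ρ).prod (law d ρ)) hsub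
  have u1 := measureReal_union_le (μ := (law d ρ).prod (law d ρ)) (((B1 ∪ B2) ∪ B3) ∪ B4) B5
  have u2 := measureReal_union_le (μ := (law d ρ).prod (law d ρ)) ((B1 ∪ B2) ∪ B3) B4
  have u3 := measureReal_union_le (μ := (law d ρ).prod (law d ρ)) (B1 ∪ B2) B3
  have u4 := measureReal_union_le (μ := (law d ρ).prod (law d ρ)) B1 B2
  linarith

/-! ### The velocity is a slope -/

/-- A uniform exponential gain on sets of mass `≥ 3 / 4` gives a bound for the free energies. -/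
theorem slope_gen (hd : 0 < d) (hρ : EM ρ) {β : ℝ} {h h' : Vec d} {c b : ℝ}
    (T : (n : ℕ) → Set (Fin n → Step d))
    (hT : ∀ n : ℕ, ∫ η, (1 - PolT β h η (T n)) ∂(law d ρ) ≤ 1 / 4)
    (hA : ∀ n : ℕ, ∀ s ∈ T n, n * c - b * Real.sqrt n ≤ inner ℝ (h' - h) (emb (pos s n))) :
    lam ρ β h + c ≤ lam ρ β h' := by
  obtain ⟨C, hC0, hC⟩ := momU (ρ := ρ) hd hρ β 1
  have key : ∀ n : ℕ, 1 ≤ n → A ρ β h n / n + c ≤
      A ρ β h' n / n + (4 * C + b) / Real.sqrt n + Real.log 2 / n := by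
    intro n hn
    have hn' : (0 : ℝ) < n := by exact_mod_cast hn
    have hs : 0 < Real.sqrt n := Real.sqrt_pos.2 hn'
    have hsq : Real.sqrt n * Real.sqrt n = n := Real.mul_self_sqrt hn'.le
    set G : Set (Env d) := {η | 1 / 2 ≤ PolT β h η (T n)} with hG
    have hPG : 1 / 2 ≤ (law d ρ).real G := by
      have hm : Measurable fun η : Env d => 1 - PolT β h η (T n) :=
        measurable_const.sub (measurable_PolT β h _)
      have h0 : ∀ η : Env d, 0 ≤ 1 - PolT β h η (T n) := fun η =>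
        sub_nonneg.2 (PolT_le_one β h η _)
      have hi : Integrable (fun η : Env d => 1 - PolT β h η (T n)) (law d ρ) := by
        refine Integrable.mono' (integrable_const (1 : ℝ)) hm.aestronglyMeasurable
          (ae_of_all _ fun η => ?_)
        rw [Real.norm_eq_abs, abs_of_nonneg (h0 η)]
        linarith [PolT_nonneg β h η (T n)]
      have h1 := mul_meas_ge_le_integral_of_nonneg (ae_of_all _ h0) hi (1 / 2)
      have h2 : Gᶜ ⊆ {η : Env d | 1 / 2 ≤ 1 - PolT β h η (T n)} := by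
        intro η hη
        have h3 : ¬ 1 / 2 ≤ PolT β h η (T n) := hη
        show 1 / 2 ≤ 1 - PolT β h η (T n)
        linarith [not_le.1 h3]
      have h3 := measureReal_mono (μ := law d ρ) h2
      have hms : MeasurableSet G := measurableSet_le measurable_const (measurable_PolT β h _)
      rw [probReal_compl_eq_one_sub hms] at h3
      have h4 := hT n
      linarith
    have hG0 : law d ρ G ≠ 0 := by
      intro h1
      rw [Measure.real, h1] at hPG
      norm_num at hPG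
    obtain ⟨i1, m1⟩ := hC h n hn
    obtain ⟨i2, m2⟩ := hC h' n hn
    have hpw : (n : ℝ) ^ ((1 / 2 : ℝ) * (1 : ℕ)) = Real.sqrt n := by
      rw [Real.sqrt_eq_rpow]
      norm_num
    rw [hpw] at m1 m2
    have hi : Integrable (fun η => |X β h η n - A ρ β h n| ^ 1 +
      |X β h' η n - A ρ β h' n| ^ 1) (law d ρ) := i1.add i2
    obtain ⟨η, hη, hle⟩ := exists_le_setAverage hG0 (measure_ne_top _ _) hi.integrableOn
    have h3 : ∫ η in G, (|X β h η n - A ρ β h n| ^ 1 +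
        |X β h' η n - A ρ β h' n| ^ 1) ∂(law d ρ) ≤ 2 * (C * Real.sqrt n) := by
      refine (setIntegral_le_integral hi (ae_of_all _ fun η => by positivity)).trans ?_
      rw [integral_add i1 i2]
      linarith
    have h4 : (|X β h η n - A ρ β h n| ^ 1 + |X β h' η n - A ρ β h' n| ^ 1) ≤
        4 * (C * Real.sqrt n) := by
      refine hle.trans ?_
      rw [setAverage_eq, smul_eq_mul]
      have h5 : ((law d ρ).real G)⁻¹ ≤ 2 := by
        rw [inv_le_comm₀ (by linarith) (by norm_num)]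
        norm_num at hPG ⊢
        exact hPG
      have h6 : 0 ≤ 2 * (C * Real.sqrt n) := by positivity
      have h7 : 0 ≤ ((law d ρ).real G)⁻¹ := by positivity
      calc ((law d ρ).real G)⁻¹ * _ ≤ ((law d ρ).real G)⁻¹ * (2 * (C * Real.sqrt n)) :=
            mul_le_mul_of_nonneg_left h3 h7
        _ ≤ 2 * (2 * (C * Real.sqrt n)) := mul_le_mul_of_nonneg_right h5 h6
        _ = _ := by ring
    rw [pow_one, pow_one] at h4
    have h5 := Pair80.one80 (h' := h') hd hη (hA n)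
    have h7 := neg_abs_le (X β h η n - A ρ β h n)
    have h8 := le_abs_self (X β h' η n - A ρ β h' n)
    have h9 : A ρ β h n + n * c ≤ A ρ β h' n + (4 * C + b) * Real.sqrt n + Real.log 2 := by
      have e1 : (4 * C + b) * Real.sqrt n = 4 * (C * Real.sqrt n) + b * Real.sqrt n := by ring
      rw [e1]
      linarith
    have h10 := div_le_div_of_nonneg_right h9 hn'.le
    rw [add_div, add_div, add_div, mul_div_cancel_left₀ _ hn'.ne'] at h10
    have h11 : (4 * C + b) * Real.sqrt n / n = (4 * C + b) / Real.sqrt n := by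
      rw [div_eq_div_iff hn'.ne' hs.ne', mul_assoc, hsq]
    rw [h11] at h10
    exact h10
  have hsq : Tendsto (fun n : ℕ => Real.sqrt n) atTop atTop :=
    Real.tendsto_sqrt_atTop.comp tendsto_natCast_atTop_atTop
  have t1 : Tendsto (fun n : ℕ => (4 * C + b) / Real.sqrt n) atTop (𝓝 0) :=
    hsq.const_div_atTop _
  have t2 : Tendsto (fun n : ℕ => Real.log 2 / (n : ℝ)) atTop (𝓝 0) :=
    tendsto_natCast_atTop_atTop.const_div_atTop _
  have t3 : Tendsto (fun n : ℕ => A ρ β h n / n + c) atTop (𝓝 (lam ρ β h + c)) :=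
    (tendsto_A hd hρ β h).add_const _
  have t4 : Tendsto (fun n : ℕ => A ρ β h' n / n + (4 * C + b) / Real.sqrt n +
      Real.log 2 / n) atTop (𝓝 (lam ρ β h' + 0 + 0)) :=
    ((tendsto_A hd hρ β h').add t1).add t2
  rw [add_zero, add_zero] at t4
  exact le_of_tendsto_of_tendsto t3 t4 ((eventually_ge_atTop 1).mono key)

/-- The velocity of a diffusive component is a slope. -/
theorem subA (hd : 0 < d) (hρ : EM ρ) {β : ℝ} {h₀ : Vec d} {x v : Vec k}
    (hD : ∀ ε : ℝ, 0 < ε → ∃ R : ℝ, ∀ n : ℕ, TbA ρ β M (h₀ + M x) v R n ≤ ε) (y : Vec k) :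
    lam ρ β (h₀ + M x) + inner ℝ v y ≤ lam ρ β (h₀ + M (x + y)) := by
  obtain ⟨R, hR⟩ := hD (1 / 4) (by norm_num)
  refine slope_gen hd hρ (b := ‖y‖ * R) (fun n => tubA n M v (R * Real.sqrt n)) hR
    fun n s hs => ?_
  have e1 : (h₀ + M (x + y)) - (h₀ + M x) = M y := by
    rw [map_add]
    abel
  have h1 := abs_le.1 (tubA_end hs y)
  rw [e1, real_inner_comm y v]
  have e2 : ‖y‖ * R * Real.sqrt n = ‖y‖ * (R * Real.sqrt n) := by ring
  rw [e2]
  linarith [h1.1]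

/-- The mass outside of the tube decreases with its radius. -/
lemma TbA_anti (β : ℝ) (h : Vec d) (v : Vec k) {R R' : ℝ} (n : ℕ) (hR : R ≤ R') :
    TbA ρ β M h v R' n ≤ TbA ρ β M h v R n := by
  have hint : ∀ E : Set (Fin n → Step d), Integrable (fun η => 1 - PolT β h η E) (law d ρ) := by
    intro E
    refine (integrable_const 1).sub (Integrable.of_bound
      (measurable_PolT β h E).aestronglyMeasurable 1 (Filter.Eventually.of_forall fun η => ?_))
    rw [Real.norm_eq_abs, abs_of_nonneg (PolT_nonneg β h η E)]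
    exact PolT_le_one β h η E
  refine integral_mono (hint _) (hint _) fun η => ?_
  have h1 := PolT_mono β h η
    (tubA_mono (n := n) (M := M) v (mul_le_mul_of_nonneg_right hR (Real.sqrt_nonneg n)))
  simp only
  linarith

end Aff70

/-- **Theorem SD in all affine families of tilts**, from the leaf `NVR`. -/
theorem mainSDA70 {d : ℕ} {ρ : Measure ℝ} [IsProbabilityMeasure ρ] (hd : 0 < d) (hρ : EM ρ)
    (β : ℝ) (hN : NVR d ρ β) : MainSDA d ρ β := by
  intro k hk M h₀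
  have hconv : ConvexOn ℝ Set.univ fun x : Vec k => lam ρ β (h₀ + M x) := by
    refine ⟨convex_univ, fun x _ y _ a b ha hb hab => ?_⟩
    have h1 := (lam_convex (ρ := ρ) hd hρ β).2 (Set.mem_univ (h₀ + M x))
      (Set.mem_univ (h₀ + M y)) ha hb hab
    have e : a • (h₀ + M x) + b • (h₀ + M y) = h₀ + M (a • x + b • y) := by
      rw [smul_add, smul_add, map_add, map_smul, map_smul]
      have h2 : a • h₀ + b • h₀ = h₀ := by rw [← add_smul, hab, one_smul]
      calc a • h₀ + a • M x + (b • h₀ + b • M y) = (a • h₀ + b • h₀) + (a • M x + b • M y) := by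
            abel
        _ = _ := by rw [h2]
    rw [e] at h1
    exact h1
  exact Sel70.sel70 (T := fun x v R n => TbA ρ β M (h₀ + M x) v R n)
    (V := fun x => VSD ρ β (h₀ + M x)) (RS := fun x => RS ρ β (h₀ + M x)) hk hconv
    (fun x v _ _ n hR => Aff70.TbA_anti β (h₀ + M x) v n hR)
    (fun x v hD y => Aff70.subA hd hρ hD y)
    (fun x₁ x₂ v₁ v₂ n p R a C ε hR ha hC hv hh hp h1 h2 =>
      Aff70.pairA hd β h₀ x₁ x₂ v₁ v₂ n p R a C ε hR ha hC hv hh hp h1 h2)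
    (fun _ _ _ _ _ _ hδ H => RS_mono hδ H) (fun x hx => hN (h₀ + M x) hx)

end Pool.Agent.W_7d29a1_SD
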