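import Pool.Agent.W_7d29a1_SD.AffT70
import Pool.Agent.W_7d29a1_SD.Fin67

/-!
Theorem SD in affine families of tilts: the final wiring, no hypothesis left.
-/

namespace Pool.Agent.W_7d29a1_SD

open MeasureTheory ProbabilityTheory Filter Topology Pool.Agent.W_MP_7d29a1_pr
  Pool.Agent.W_7d29a1_h46 Pool.Agent.W_7d29a1_h46u Pool.Agent.W_7d29a1_D2.B35
  Pool.Agent.W_7d29a1_Q29 Pool.Agent.W_7d29a1_NV

/-- **Theorem SD in affine families of tilts**, no hypothesis left. -/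
theorem mainSDAF70 {d : ℕ} {ρ : Measure ℝ} [IsProbabilityMeasure ρ] {β : ℝ} (hd : 0 < d)
    (hρ : EM ρ) (hnc : ∀ c : ℝ, ρ {c} ≠ 1) (hβ : 0 < β) : MainSDA d ρ β :=
  mainSDA70 hd hρ β (nvr67 hd hρ hnc hβ)

end Pool.Agent.W_7d29a1_SD
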