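import Pool.Agent.W_7d29a1_SD.Aff70
import Pool.Agent.W_7d29a1_SD.TrSD80

/-!
Theorem SD in affine families of tilts, for an arbitrary i.i.d. environment; the case of one
component of the polymer, on the lines of tilts.
-/

namespace Pool.Agent.W_7d29a1_SD

open MeasureTheory ProbabilityTheory Filter Topology Pool.Agent.W_MP_7d29a1_pr
  Pool.Agent.W_7d29a1_h46 Pool.Agent.W_7d29a1_h46u Pool.Agent.W_7d29a1_D2.B35
  Pool.Agent.W_7d29a1_Q29 Pool.Agent.W_7d29a1_NV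

namespace AffT70

variable {d k : ℕ} {ρ : Measure ℝ} [IsProbabilityMeasure ρ] {β : ℝ}

lemma tubA_univ {n : ℕ} {M : Vec k →ₗ[ℝ] Vec d} (v : Vec k) {r B : ℝ}
    (hB : ∀ y : Vec d, ‖LinearMap.adjoint M y‖ ≤ B * ‖y‖) (hB0 : 0 ≤ B)
    (hr : (n : ℝ) * (B + ‖v‖) ≤ r) : tubA n M v r = Set.univ := by
  refine Set.eq_univ_of_forall fun s i hi => ?_
  have hin : (i : ℝ) ≤ n := by exact_mod_cast hi
  have h0 : ‖emb (pos s i)‖ ≤ (n : ℝ) := by
    rw [norm_emb]
    exact nrm_pos_le s i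
  have h1 : ‖LinearMap.adjoint M (emb (pos s i))‖ ≤ B * n :=
    (hB _).trans (mul_le_mul_of_nonneg_left h0 hB0)
  have h2 : ‖(i : ℝ) • v‖ ≤ n * ‖v‖ := by
    rw [norm_smul, Real.norm_natCast]
    exact mul_le_mul_of_nonneg_right hin (norm_nonneg v)
  calc ‖LinearMap.adjoint M (emb (pos s i)) - (i : ℝ) • v‖
      ≤ ‖LinearMap.adjoint M (emb (pos s i))‖ + ‖(i : ℝ) • v‖ := norm_sub_le _ _
    _ ≤ B * n + n * ‖v‖ := add_le_add h1 h2
    _ = (n : ℝ) * (B + ‖v‖) := by ring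
    _ ≤ r := hr

/-- Not diffusive: for some `ε` every tube of radius `R √n` is missed with mean probability more
than `ε` for infinitely many `n`. -/
theorem not_difA (hd : 0 < d) {M : Vec k →ₗ[ℝ] Vec d} {h : Vec d} {v : Vec k}
    (hD : ¬ ∀ ε : ℝ, 0 < ε → ∃ R : ℝ, ∀ n : ℕ, TbA ρ β M h v R n ≤ ε) :
    ∃ ε : ℝ, 0 < ε ∧ ∀ R : ℝ, ∃ᶠ n : ℕ in atTop, ε < TbA ρ β M h v R n := by
  push Not at hD
  obtain ⟨ε, hε, H⟩ := hD
  obtain ⟨B, hB0, hB⟩ : ∃ B : ℝ, 0 ≤ B ∧ ∀ y : Vec d, ‖LinearMap.adjoint M y‖ ≤ B * ‖y‖ :=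
    ⟨‖LinearMap.toContinuousLinearMap (LinearMap.adjoint M)‖, norm_nonneg _, fun y =>
      (LinearMap.toContinuousLinearMap (LinearMap.adjoint M)).le_opNorm y⟩
  refine ⟨ε, hε, fun R hcon => ?_⟩
  rw [eventually_atTop] at hcon
  obtain ⟨N, hN⟩ := hcon
  obtain ⟨n, hn⟩ := H (max R (Real.sqrt N * (B + ‖v‖)))
  rcases le_or_gt N n with h1 | h1
  · have h2 := not_lt.1 (hN n h1)
    have h3 := Aff70.TbA_anti (ρ := ρ) (M := M) β h v n
      (le_max_left R (Real.sqrt N * (B + ‖v‖)))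
    linarith
  · have hn0 : (0 : ℝ) ≤ n := Nat.cast_nonneg n
    have hNn : (n : ℝ) ≤ N := by exact_mod_cast h1.le
    have h2 : (n : ℝ) * (B + ‖v‖) ≤ max R (Real.sqrt N * (B + ‖v‖)) * Real.sqrt n := by
      have hv : 0 ≤ B + ‖v‖ := by positivity
      calc (n : ℝ) * (B + ‖v‖) = (Real.sqrt n * (B + ‖v‖)) * Real.sqrt n := by
            calc (n : ℝ) * (B + ‖v‖) = (Real.sqrt n * Real.sqrt n) * (B + ‖v‖) := by
                  rw [Real.mul_self_sqrt hn0]
              _ = _ := by ring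
        _ ≤ (Real.sqrt N * (B + ‖v‖)) * Real.sqrt n :=
            mul_le_mul_of_nonneg_right
              (mul_le_mul_of_nonneg_right (Real.sqrt_le_sqrt hNn) hv) (Real.sqrt_nonneg _)
        _ ≤ _ := mul_le_mul_of_nonneg_right (le_max_right _ _) (Real.sqrt_nonneg _)
    have h3 : TbA ρ β M h v (max R (Real.sqrt N * (B + ‖v‖))) n = 0 := by
      unfold TbA
      have h4 := tubA_univ (n := n) v hB hB0 h2
      simp only [h4, PolT_univ hd, sub_self, integral_zero]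
    linarith

/-- The complement of a set of walks. -/
lemma pol_compl (hd : 0 < d) (β : ℝ) (h : Vec d) (n : ℕ) (η : Env d)
    (A B : Set (Fin n → Step d)) (hAB : ∀ s, s ∈ B ↔ s ∉ A) :
    PolT β h η B = 1 - PolT β h η A := by
  classical
  have hpos := ZT_univ_pos (n := n) hd β h η
  unfold PolT
  rw [eq_sub_iff_add_eq, ← add_div, div_eq_one_iff_eq hpos.ne']
  unfold ZT
  rw [← Finset.sum_add_distrib]
  refine Finset.sum_congr rfl fun s _ => ?_
  rw [if_pos (Set.mem_univ s)]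
  by_cases hs : s ∈ A
  · rw [if_neg (fun h1 => (hAB s).1 h1 hs), if_pos hs, zero_add]
  · rw [if_pos ((hAB s).2 hs), if_neg hs, add_zero]

end AffT70

variable {d : ℕ} {ρ : Measure ℝ} [IsProbabilityMeasure ρ] {β : ℝ}
  {Ω : Type*} [MeasurableSpace Ω] {μ : Measure Ω} [IsProbabilityMeasure μ]
  {ω : ℕ × Site d → Ω → ℝ}

/-- The mean mass outside of the tube, for an arbitrary i.i.d. environment. -/
theorem tbA_int70 {k : ℕ} (hd : 0 < d) (hω : IID μ ρ ω) (M : Vec k →ₗ[ℝ] Vec d) (h : Vec d)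
    (v : Vec k) (R : ℝ) (n : ℕ) :
    ∫ x, PolT β h (fun p => ω p x) {s : Fin n → Step d | ∃ i ≤ n,
      R * Real.sqrt n < ‖LinearMap.adjoint M (emb (pos s i)) - (i : ℝ) • v‖} ∂μ =
      TbA ρ β M h v R n := by
  unfold TbA
  have hm : Measurable fun η : Env d => 1 - PolT β h η (tubA n M v (R * Real.sqrt n)) :=
    measurable_const.sub (measurable_PolT β h _)
  rw [← StrA_int hω hm]
  refine integral_congr_ae (Filter.Eventually.of_forall fun x => ?_)
  refine AffT70.pol_compl hd β h n _ _ _ fun s => ?_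
  constructor
  · rintro ⟨i, hi, hlt⟩ hs
    exact absurd hlt (not_lt.2 (hs i hi))
  · intro hs
    by_contra hcon
    refine hs fun i hi => ?_
    by_contra hlt
    exact hcon ⟨i, hi, not_le.1 hlt⟩

/-- **Theorem SD in affine families of tilts**, for an arbitrary i.i.d. environment. -/
theorem trSDA70 (hd : 0 < d) (hω : IID μ ρ ω) (hM : MainSDA d ρ β) {k : ℕ} (hk : 0 < k)
    (M : Vec k →ₗ[ℝ] Vec d) (h : Vec d) :
    ∀ᵐ v : Vec k, ∀ x : Vec k, VSD ρ β (h + M x) → ∃ ε : ℝ, 0 < ε ∧ ∀ R : ℝ,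
      ∃ᶠ n : ℕ in atTop, ε < ∫ y, PolT β (h + M x) (fun p => ω p y) {s : Fin n → Step d |
        ∃ i ≤ n, R * Real.sqrt n <
          ‖LinearMap.adjoint M (emb (pos s i)) - (i : ℝ) • v‖} ∂μ := by
  filter_upwards [hM k hk M h] with v hv x hV
  obtain ⟨ε, hε, H⟩ := AffT70.not_difA hd (hv x hV)
  refine ⟨ε, hε, fun R => (H R).mono fun n hn => ?_⟩
  rw [tbA_int70 hd hω M (h + M x) v R n]
  exact hn

/-- **One component of the polymer**: on every line `h + r u` of tilts, for almost every slope `a`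
and every tilt `h + r u` of very strong disorder, the maximum of `|⟨u, S_i⟩ - i a|`, divided by
`√n`, is not tight. -/
theorem trSDL70 (hd : 0 < d) (hω : IID μ ρ ω) (hM : MainSDA d ρ β) (h u : Vec d) :
    ∀ᵐ a : ℝ, ∀ r : ℝ, VSD ρ β (h + r • u) → ∃ ε : ℝ, 0 < ε ∧ ∀ R : ℝ,
      ∃ᶠ n : ℕ in atTop, ε < ∫ y, PolT β (h + r • u) (fun p => ω p y) {s : Fin n → Step d |
        ∃ i ≤ n, R * Real.sqrt n < |inner ℝ u (emb (pos s i)) - (i : ℝ) * a|} ∂μ := by
  set M : Vec 1 →ₗ[ℝ] Vec d :=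
    (EuclideanSpace.proj (0 : Fin 1) : Vec 1 →L[ℝ] ℝ).toLinearMap.smulRight u with hMdef
  have hMx : ∀ x : Vec 1, M x = x 0 • u := fun x => rfl
  have hmp : MeasurePreserving (fun a : ℝ => (WithLp.toLp 2 (fun _ : Fin 1 => a) : Vec 1)) :=
    (PiLp.volume_preserving_toLp (Fin 1)).comp (volume_preserving_funUnique (Fin 1) ℝ).symm
  have h1 := hmp.quasiMeasurePreserving.ae (trSDA70 hd hω hM Nat.one_pos M h)
  filter_upwards [h1] with a ha r hV
  have h2 := ha (WithLp.toLp 2 (fun _ : Fin 1 => r))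
  have e1 : M (WithLp.toLp 2 (fun _ : Fin 1 => r)) = r • u := hMx _
  rw [e1] at h2
  obtain ⟨ε, hε, H⟩ := h2 hV
  refine ⟨ε, hε, fun R => (H R).mono fun n hn => ?_⟩
  have e2 : ∀ (y : Vec d) (i : ℕ),
      ‖LinearMap.adjoint M y - (i : ℝ) • (WithLp.toLp 2 (fun _ : Fin 1 => a) : Vec 1)‖ =
        |inner ℝ u y - (i : ℝ) * a| := by
    intro y i
    have h3 : (LinearMap.adjoint M y) 0 = inner ℝ u y := by
      have h4 : inner ℝ (EuclideanSpace.single (0 : Fin 1) (1 : ℝ)) (LinearMap.adjoint M y) =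
          inner ℝ (M (EuclideanSpace.single (0 : Fin 1) (1 : ℝ))) y :=
        LinearMap.adjoint_inner_right _ _ _
      rw [EuclideanSpace.inner_single_left, hMx] at h4
      simpa using h4
    rw [EuclideanSpace.norm_eq, Fin.sum_univ_one]
    have h5 : (LinearMap.adjoint M y - (i : ℝ) • (WithLp.toLp 2 (fun _ : Fin 1 => a) : Vec 1)) 0 =
        inner ℝ u y - (i : ℝ) * a := by
      rw [← h3]
      rfl
    rw [h5, Real.norm_eq_abs, Real.sqrt_sq (abs_nonneg _)]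
  simp only [e2] at hn
  exact hn

end Pool.Agent.W_7d29a1_SD
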