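import Pool.Agent.W_7d29a1_SD.AffT70

/-!
Theorem SD in affine families of tilts, for several components of the polymer, without adjoints: the
tilts `h + ∑ x_j u_j` and the components `⟨u_j, S_i⟩`.
-/

namespace Pool.Agent.W_7d29a1_SD

open MeasureTheory ProbabilityTheory Filter Topology Pool.Agent.W_MP_7d29a1_pr
  Pool.Agent.W_7d29a1_h46 Pool.Agent.W_7d29a1_h46u Pool.Agent.W_7d29a1_D2.B35
  Pool.Agent.W_7d29a1_Q29 Pool.Agent.W_7d29a1_NV

variable {d : ℕ} {ρ : Measure ℝ} [IsProbabilityMeasure ρ] {β : ℝ}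
  {Ω : Type*} [MeasurableSpace Ω] {μ : Measure Ω} [IsProbabilityMeasure μ]
  {ω : ℕ × Site d → Ω → ℝ}

/-- **Several components of the polymer**: for every `h` and every `u_1, …, u_k`, for almost every
`v` in `R^k` and every tilt `h + ∑ x_j u_j` of very strong disorder, the maximum over `i ≤ n` and
`j` of `|⟨u_j, S_i⟩ - i v_j|`, divided by `√n`, is not tight. -/
theorem trSDV70 (hd : 0 < d) (hω : IID μ ρ ω) (hM : MainSDA d ρ β) {k : ℕ} (hk : 0 < k)
    (h : Vec d) (u : Fin k → Vec d) :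
    ∀ᵐ v : Fin k → ℝ, ∀ x : Fin k → ℝ, VSD ρ β (h + ∑ j, x j • u j) →
      ∃ ε : ℝ, 0 < ε ∧ ∀ R : ℝ, ∃ᶠ n : ℕ in atTop,
        ε < ∫ y, PolT β (h + ∑ j, x j • u j) (fun p => ω p y) {s : Fin n → Step d |
          ∃ i ≤ n, ∃ j, R * Real.sqrt n < |inner ℝ (u j) (emb (pos s i)) - (i : ℝ) * v j|} ∂μ := by
  classical
  set M : Vec k →ₗ[ℝ] Vec d := ∑ j : Fin k,
    (EuclideanSpace.proj j : Vec k →L[ℝ] ℝ).toLinearMap.smulRight (u j) with hMdef
  have hMx : ∀ x : Vec k, M x = ∑ j, x j • u j := fun x => by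
    rw [hMdef, LinearMap.sum_apply]
    rfl
  have hadj : ∀ (y : Vec d) (j : Fin k), (LinearMap.adjoint M y) j = inner ℝ (u j) y := by
    intro y j
    have h4 : inner ℝ (EuclideanSpace.single j (1 : ℝ)) (LinearMap.adjoint M y) =
        inner ℝ (M (EuclideanSpace.single j (1 : ℝ))) y :=
      LinearMap.adjoint_inner_right _ _ _
    have h5 : M (EuclideanSpace.single j (1 : ℝ)) = u j := by
      rw [hMx, Finset.sum_eq_single j]
      · simp
      · intro i _ hij
        simp [hij]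
      · intro hj
        exact absurd (Finset.mem_univ j) hj
    rw [EuclideanSpace.inner_single_left, h5] at h4
    simpa using h4
  have hmp : MeasurePreserving (fun v : Fin k → ℝ => (WithLp.toLp 2 v : Vec k)) :=
    PiLp.volume_preserving_toLp (Fin k)
  have h1 := hmp.quasiMeasurePreserving.ae (trSDA70 hd hω hM hk M h)
  filter_upwards [h1] with v hv x hV
  have h2 := hv (WithLp.toLp 2 x)
  have e1 : M (WithLp.toLp 2 x) = ∑ j, x j • u j := hMx _
  rw [e1] at h2
  obtain ⟨ε, hε, H⟩ := h2 hV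
  refine ⟨ε, hε, fun R => (H (R * Real.sqrt k)).mono fun n hn => hn.trans_le ?_⟩
  have hsub : {s : Fin n → Step d | ∃ i ≤ n, R * Real.sqrt k * Real.sqrt n <
        ‖LinearMap.adjoint M (emb (pos s i)) - (i : ℝ) • (WithLp.toLp 2 v : Vec k)‖} ⊆
      {s : Fin n → Step d | ∃ i ≤ n, ∃ j,
        R * Real.sqrt n < |inner ℝ (u j) (emb (pos s i)) - (i : ℝ) * v j|} := by
    rintro s ⟨i, hi, hlt⟩
    refine ⟨i, hi, ?_⟩
    by_contra hcon
    push Not at hcon
    have hc : ∀ j, |(LinearMap.adjoint M (emb (pos s i)) -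
        (i : ℝ) • (WithLp.toLp 2 v : Vec k)) j| ≤ R * Real.sqrt n := fun j => by
      have e2 : (LinearMap.adjoint M (emb (pos s i)) - (i : ℝ) • (WithLp.toLp 2 v : Vec k)) j =
          inner ℝ (u j) (emb (pos s i)) - (i : ℝ) * v j := by
        rw [← hadj]
        rfl
      rw [e2]
      exact hcon j
    have hR0 : 0 ≤ R * Real.sqrt n := (abs_nonneg _).trans (hc ⟨0, hk⟩)
    have h6 : ‖LinearMap.adjoint M (emb (pos s i)) - (i : ℝ) • (WithLp.toLp 2 v : Vec k)‖ ≤
        Real.sqrt k * (R * Real.sqrt n) := by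
      rw [EuclideanSpace.norm_eq]
      refine Real.sqrt_le_iff.2 ⟨by positivity, ?_⟩
      calc ∑ j, ‖(LinearMap.adjoint M (emb (pos s i)) -
            (i : ℝ) • (WithLp.toLp 2 v : Vec k)) j‖ ^ 2 ≤
            ∑ _j : Fin k, (R * Real.sqrt n) ^ 2 := Finset.sum_le_sum fun j _ => by
              rw [Real.norm_eq_abs]
              exact pow_le_pow_left₀ (abs_nonneg _) (hc j) 2
        _ = (Real.sqrt k * (R * Real.sqrt n)) ^ 2 := by
            rw [Finset.sum_const, Finset.card_univ, Fintype.card_fin, nsmul_eq_mul,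
              mul_pow (Real.sqrt k), Real.sq_sqrt (Nat.cast_nonneg k)]
    nlinarith
  have hi : ∀ A : Set (Fin n → Step d), Integrable (fun y =>
      PolT β (h + ∑ j, x j • u j) (fun p => ω p y) A) μ := fun A => by
    have hm : Measurable fun y => PolT β (h + ∑ j, x j • u j) (fun p => ω p y) A :=
      (measurable_PolT β _ A).comp (measurable_pi_lambda _ fun p => hω.meas p)
    exact Integrable.mono' (integrable_const (1 : ℝ)) hm.aestronglyMeasurable
      (ae_of_all _ fun y => by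
        rw [Real.norm_eq_abs, abs_of_nonneg (PolT_nonneg β _ _ _)]
        exact PolT_le_one β _ _ _)
  exact integral_mono (hi _) (hi _) fun y => PolT_mono β _ _ hsub

end Pool.Agent.W_7d29a1_SD
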