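import Pool.Agent.W_7d29a1_SD.DefsS43

/-!
Growth from the renewal inequality.
-/

namespace Pool.Agent.W_7d29a1_SD

/-- B2: growth from the renewal inequality. -/
theorem expL73 : ExpL := by
  intro M α N T hN hNT hα hM hs hren
  have hT : 0 < T := by omega
  have hT0 : (T : ℝ) ≠ 0 := by exact_mod_cast hT.ne'
  set r : ℝ := (2 : ℝ) ^ ((1 : ℝ) / T) with hr
  have hr1 : 1 < r := Real.one_lt_rpow one_lt_two (by positivity)
  have hrT : r ^ T = 2 := by
    rw [hr, ← Real.rpow_natCast, ← Real.rpow_mul two_pos.le, one_div, inv_mul_cancel₀ hT0,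
      Real.rpow_one]
  have hne : (Finset.range T).Nonempty := ⟨0, Finset.mem_range.2 hT⟩
  obtain ⟨m₀, hm₀, hmin⟩ := Finset.exists_min_image (Finset.range T) M hne
  refine ⟨M m₀ / 2, r, half_pos (hM m₀), hr1, ?_⟩
  intro m
  induction m using Nat.strong_induction_on with
  | _ m ih =>
    by_cases hm : m < T
    · have h1 : M m₀ ≤ M m := hmin m (Finset.mem_range.2 hm)
      have h2 : r ^ m ≤ 2 := by
        rw [← hrT]
        exact pow_le_pow_right₀ hr1.le hm.le
      have h3 : M m₀ / 2 * r ^ m ≤ M m₀ / 2 * 2 :=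
        mul_le_mul_of_nonneg_left h2 (half_pos (hM m₀)).le
      linarith
    · have hm' : T ≤ m := not_lt.1 hm
      refine le_trans ?_ (hren m hm')
      have h1 : ∀ n ∈ Finset.Ico N T, α n * (M m₀ / 2 * r ^ (m - T)) ≤ α n * M (m - n) := by
        intro n hn
        have hn' := Finset.mem_Ico.1 hn
        refine mul_le_mul_of_nonneg_left ?_ (hα n)
        refine le_trans ?_ (ih (m - n) (by omega))
        refine mul_le_mul_of_nonneg_left ?_ (half_pos (hM m₀)).le
        exact pow_le_pow_right₀ hr1.le (by omega)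
      refine le_trans ?_ (Finset.sum_le_sum h1)
      rw [← Finset.sum_mul]
      have h2 : M m₀ / 2 * r ^ m = 2 * (M m₀ / 2 * r ^ (m - T)) := by
        have h3 : r ^ m = r ^ (m - T) * r ^ T := by
          rw [← pow_add]
          congr 1
          omega
        rw [h3, hrT]
        ring
      rw [h2]
      exact mul_le_mul_of_nonneg_right hs
        (mul_nonneg (half_pos (hM m₀)).le (pow_nonneg (by linarith) _))

end Pool.Agent.W_7d29a1_SD
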