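import Pool.Agent.W_7d29a1_SD.FinB43
import Pool.Agent.W_7d29a1_SD.Exp73
import Pool.Agent.W_7d29a1_SD.Mono98
import Pool.Agent.W_7d29a1_SD.AsC19
import Pool.Agent.W_7d29a1_SD.DrL77

/-!
Strong disorder is very strong disorder: the theorem.
-/

namespace Pool.Agent.W_7d29a1_SD

open MeasureTheory ProbabilityTheory Filter Topology Pool.Agent.W_MP_7d29a1_pr
  Pool.Agent.W_7d29a1_h46 Pool.Agent.W_7d29a1_h46u Pool.Agent.W_7d29a1_D2.B35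
  Pool.Agent.W_7d29a1_Q29 Pool.Agent.W_7d29a1_P89

/-- Strong disorder at a smaller inverse temperature gives very strong disorder. -/
theorem bc77 {d : ℕ} {ρ : Measure ℝ} [IsProbabilityMeasure ρ] (hd : 0 < d) (hρ : EM ρ)
    (hnc : ∀ c : ℝ, ρ {c} ≠ 1) {b β : ℝ} (hb : 0 ≤ b) (hbβ : b < β) {h : Vec d}
    (hS : SDm ρ b h) : VSD ρ β h :=
  sdk43 (drL77 hd hρ β) expL73 hd hρ h (M98.bc98 hd hρ hnc hb hbβ hS).2
    (M98.bc98 hd hρ hnc hb hbβ hS).1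

/-- The clause for an arbitrary environment. -/
theorem clause77 {Ω : Type*} [MeasurableSpace Ω] {μ : Measure Ω} [IsProbabilityMeasure μ] {d : ℕ}
    {ρ : Measure ℝ} [IsProbabilityMeasure ρ] {ω : ℕ × Site d → Ω → ℝ} (hd : 0 < d)
    (hω : IID μ ρ ω) (hρ : EM ρ) (hnc : ∀ c : ℝ, ρ {c} ≠ 1) {b β : ℝ} (hb : 0 ≤ b) (hbβ : b < β)
    (h : Vec d) (hS : ∀ᵐ x ∂μ, Tendsto (fun n : ℕ => Zn b h (fun p => ω p x) n /
      Real.exp (n * annN ρ b h)) atTop (𝓝 0)) : lamN ρ β h < annN ρ β h :=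
  (vsd29 h).2 (bc77 hd hρ hnc hb hbβ (sdm19 hd hω hρ h hS))

end Pool.Agent.W_7d29a1_SD
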