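import Pool.Agent.W_7d29a1_SD.DefsS43
import Pool.Agent.W_7d29a1_L2.Rec27

/-!
Leaf B4 of helper43's strong = very strong disorder: the blocks.
-/

set_option autoImplicit false

namespace Pool.Agent.W_7d29a1_SD.Blk27

open MeasureTheory ProbabilityTheory Filter Topology Pool.Agent.W_MP_7d29a1_pr
  Pool.Agent.W_7d29a1_h46 Pool.Agent.W_7d29a1_h46u Pool.Agent.W_7d29a1_D2.B35
  Pool.Agent.W_7d29a1_Q29 Pool.Agent.W_7d29a1_P89 Pool.Agent.W_7d29a1_L2.Rec27

variable {d : ℕ}

open Classical in
/-- The small weights. -/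
noncomputable def Kf (P : Prm d) (m : ℕ) (u : ℝ) (η : Env d) (z : Site d) : ℝ :=
  if W P η m z < u then W P η m z else 0

open Classical in
/-- The large weights. -/
noncomputable def Lf (P : Prm d) (m : ℕ) (u : ℝ) (η : Env d) (z : Site d) : ℝ :=
  if W P η m z < u then 0 else W P η m z

lemma Kf_add_Lf (P : Prm d) (m : ℕ) (u : ℝ) (η : Env d) (z : Site d) :
    W P η m z = Kf P m u η z + Lf P m u η z := by
  unfold Kf Lf
  split_ifs <;> simp

lemma Kf_nonneg (P : Prm d) (m : ℕ) (u : ℝ) (η : Env d) (z : Site d) : 0 ≤ Kf P m u η z := by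
  unfold Kf
  split_ifs
  · exact W_nonneg _ _ _ _
  · exact le_rfl

lemma Lf_nonneg (P : Prm d) (m : ℕ) (u : ℝ) (η : Env d) (z : Site d) : 0 ≤ Lf P m u η z := by
  unfold Lf
  split_ifs
  · exact le_rfl
  · exact W_nonneg _ _ _ _

lemma Kf_le (P : Prm d) (m : ℕ) (u : ℝ) (η : Env d) (z : Site d) : Kf P m u η z ≤ W P η m z := by
  rw [Kf_add_Lf P m u η z]
  linarith [Lf_nonneg P m u η z]

/-- The chain of small weights. -/
noncomputable def Uc (P : Prm d) (m : ℕ) (u : ℝ) : ℕ → Env d → ℝ
  | 0, _ => 1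
  | j + 1, η => ∑ z ∈ boxF d m, Kf P m u η z * Uc P m u j (sh m z η)

/-- The paths with a large weight in the block `j`, and `l` blocks after it. -/
noncomputable def Tc (P : Prm d) (m : ℕ) (u : ℝ) (l j : ℕ) (η : Env d) : ℝ :=
  ∑ x ∈ boxF d (j * m), W P η (j * m) x * ∑ z ∈ boxF d m, Lf P m u (sh (j * m) x η) z *
    ZH P (sh m z (sh (j * m) x η)) (l * m)

lemma box_add {m n : ℕ} {z x : Site d} (hz : z ∈ boxF d m) (hx : x ∈ boxF d n) :
    z + x ∈ boxF d (m + n) := by
  rw [mem_boxF] at hz hx ⊢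
  intro j
  have h1 := hz j
  have h2 := hx j
  have h3 := abs_add_le (z j) (x j)
  simp only [Pi.add_apply]
  push_cast
  omega

lemma W_push (P : Prm d) (η : Env d) (m n : ℕ) (G : Site d → ℝ) :
    ∑ x ∈ boxF d (m + n), W P η (m + n) x * G x =
      ∑ z ∈ boxF d m, W P η m z * ∑ x ∈ boxF d n, W P (sh m z η) n x * G (z + x) := by
  classical
  have h1 : ∀ x ∈ boxF d (m + n), W P η (m + n) x * G x =
      ∑ z ∈ boxF d m, W P η m z * (W P (sh m z η) n (x - z) * G x) := by
    intro x _
    rw [W_split, Finset.sum_mul]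
    exact Finset.sum_congr rfl fun z _ => by ring
  rw [Finset.sum_congr rfl h1, Finset.sum_comm]
  refine Finset.sum_congr rfl fun z hz => ?_
  rw [← Finset.mul_sum]
  congr 1
  have h2 : ∑ x ∈ boxF d n, W P (sh m z η) n x * G (z + x) =
      ∑ v ∈ (boxF d n).image fun x => z + x, W P (sh m z η) n (v - z) * G v := by
    rw [Finset.sum_image]
    · exact Finset.sum_congr rfl fun x _ => by rw [add_sub_cancel_left]
    · intro x _ y _ hxy
      exact add_left_cancel hxy
  rw [h2]
  symm
  refine Finset.sum_subset ?_ fun v _ hv => ?_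
  · intro v hv
    obtain ⟨x, hx, rfl⟩ := Finset.mem_image.1 hv
    exact box_add hz hx
  · rw [W_zero P _ n, zero_mul]
    intro hc
    exact hv (Finset.mem_image.2 ⟨v - z, hc, by rw [add_sub_cancel]⟩)

lemma ZH_zero (P : Prm d) (η : Env d) : ZH P η 0 = 1 := by
  unfold ZH
  simp [Z_zero]

lemma Tc_zero (P : Prm d) (m : ℕ) (u : ℝ) (l : ℕ) (η : Env d) :
    Tc P m u l 0 η = ∑ z ∈ boxF d m, Lf P m u η z * ZH P (sh m z η) (l * m) := by
  have h0 : sh 0 (0 : Site d) η = η := by
    funext p
    change η (p.1 + 0, p.2 + 0) = η p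
    rw [add_zero, add_zero]
  have h1 : ∀ x ∈ boxF d 0, x = 0 := by
    intro x hx
    rw [mem_boxF] at hx
    funext j
    have := hx j
    simpa using this
  unfold Tc
  rw [zero_mul]
  have h2 : ∀ x ∈ boxF d 0, W P η 0 x * ∑ z ∈ boxF d m, Lf P m u (sh 0 x η) z *
      ZH P (sh m z (sh 0 x η)) (l * m) = W P η 0 x * ∑ z ∈ boxF d m, Lf P m u η z *
      ZH P (sh m z η) (l * m) := by
    intro x hx
    rw [h1 x hx, h0]
  rw [Finset.sum_congr rfl h2, ← Finset.sum_mul, ← ZH_eq, ZH_zero, one_mul]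

lemma Tc_succ (P : Prm d) (m : ℕ) (u : ℝ) (l j : ℕ) (η : Env d) :
    Tc P m u l (j + 1) η = ∑ w ∈ boxF d m, W P η m w * Tc P m u l j (sh m w η) := by
  have e : (j + 1) * m = m + j * m := by ring
  unfold Tc
  rw [e, W_push P η m (j * m) fun x => ∑ z ∈ boxF d m, Lf P m u (sh (m + j * m) x η) z *
    ZH P (sh m z (sh (m + j * m) x η)) (l * m)]
  refine Finset.sum_congr rfl fun w _ => ?_
  congr 1
  refine Finset.sum_congr rfl fun x _ => ?_
  rw [S98.sh_sh m (j * m) w x η]

lemma Tc_nonneg (hd : 0 < d) (P : Prm d) (m : ℕ) (u : ℝ) (l j : ℕ) (η : Env d) :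
    0 ≤ Tc P m u l j η :=
  Finset.sum_nonneg fun _ _ => mul_nonneg (W_nonneg _ _ _ _)
    (Finset.sum_nonneg fun _ _ => mul_nonneg (Lf_nonneg _ _ _ _ _) (ZH_pos hd _ _ _).le)

/-- The decomposition. -/
lemma dec27 (hd : 0 < d) (P : Prm d) (m : ℕ) (u : ℝ) (B : ℕ) : ∀ η : Env d,
    ZH P η (B * m) ≤ Uc P m u B η + ∑ j ∈ Finset.range B, Tc P m u (B - 1 - j) j η := by
  induction B with
  | zero =>
    intro η
    rw [zero_mul, ZH_zero]
    simp [Uc]
  | succ B ih =>
    intro η
    have e : (B + 1) * m = m + B * m := by ring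
    rw [e, ZH_split, Finset.sum_range_succ']
    have h1 : ∀ w ∈ boxF d m, W P η m w * ZH P (sh m w η) (B * m) ≤
        Kf P m u η w * Uc P m u B (sh m w η) +
          ∑ j ∈ Finset.range B, W P η m w * Tc P m u (B - 1 - j) j (sh m w η) +
          Lf P m u η w * ZH P (sh m w η) (B * m) := by
      intro w _
      have hK := Kf_nonneg P m u η w
      have h2 := mul_le_mul_of_nonneg_left (ih (sh m w η)) hK
      have h3 : 0 ≤ ∑ j ∈ Finset.range B, Tc P m u (B - 1 - j) j (sh m w η) :=
        Finset.sum_nonneg fun j _ => Tc_nonneg hd _ _ _ _ _ _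
      have h4 := mul_le_mul_of_nonneg_right (Kf_le P m u η w) h3
      rw [Finset.mul_sum] at h4
      have h5 : W P η m w * ∑ j ∈ Finset.range B, Tc P m u (B - 1 - j) j (sh m w η) =
          ∑ j ∈ Finset.range B, W P η m w * Tc P m u (B - 1 - j) j (sh m w η) :=
        Finset.mul_sum _ _ _
      rw [Finset.mul_sum] at h5
      rw [← Finset.mul_sum] at h4
      have h6 : W P η m w * ZH P (sh m w η) (B * m) = Kf P m u η w * ZH P (sh m w η) (B * m) +
          Lf P m u η w * ZH P (sh m w η) (B * m) := by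
        rw [Kf_add_Lf P m u η w, add_mul]
      rw [h6, ← Finset.mul_sum]
      rw [mul_add] at h2
      linarith
    refine (Finset.sum_le_sum h1).trans (le_of_eq ?_)
    rw [Finset.sum_add_distrib, Finset.sum_add_distrib, Finset.sum_comm]
    have h7 : ∀ j ∈ Finset.range B, Tc P m u (B + 1 - 1 - (j + 1)) (j + 1) η =
        ∑ w ∈ boxF d m, W P η m w * Tc P m u (B - 1 - j) j (sh m w η) := by
      intro j _
      rw [Tc_succ, show B + 1 - 1 - (j + 1) = B - 1 - j by omega]
    rw [Finset.sum_congr rfl h7, show B + 1 - 1 - 0 = B by omega, Tc_zero]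
    rw [add_assoc]
    rfl

/-- On the event of a small partition function. -/
lemma evt27 (hd : 0 < d) (P : Prm d) (m : ℕ) {u y : ℝ} (hu : 0 < u) (hy : 0 < y) (l j : ℕ)
    (η : Env d) (hη : ZH P η (j * m + m + l * m) < y * y * u) :
    Tc P m u l j η ≤ y * ∑ x ∈ boxF d (j * m), ZH P (sh (j * m) x η) (m + l * m) +
      y * ZH P η (j * m + m) := by
  have key : ∀ x ∈ boxF d (j * m), ∀ z ∈ boxF d m, W P η (j * m) x *
      (Lf P m u (sh (j * m) x η) z * ZH P (sh m z (sh (j * m) x η)) (l * m)) ≤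
      y * (W P (sh (j * m) x η) m z * ZH P (sh m z (sh (j * m) x η)) (l * m)) +
        y * (W P η (j * m) x * W P (sh (j * m) x η) m z) := by
    intro x _ z _
    set a := W P η (j * m) x with ha
    set c := W P (sh (j * m) x η) m z with hc
    set b := ZH P (sh m z (sh (j * m) x η)) (l * m) with hb
    have a0 : 0 ≤ a := W_nonneg _ _ _ _
    have c0 : 0 ≤ c := W_nonneg _ _ _ _
    have b0 : 0 < b := ZH_pos hd _ _ _
    have r1 : 0 ≤ y * (c * b) := by positivity
    have r2 : 0 ≤ y * (a * c) := by positivity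
    unfold Lf
    rw [← hc]
    split_ifs with hcu
    · rw [zero_mul, mul_zero]
      linarith
    · rw [not_lt] at hcu
      have h1 : a * c ≤ W P η (j * m + m) (x + z) := W_chain P η (j * m) m x z
      have h2 : W P η (j * m + m) (x + z) * b ≤ ZH P η (j * m + m + l * m) := by
        have h3 := chainZ P η (j * m + m) (l * m) (x + z)
        rwa [← S98.sh_sh (j * m) m x z η] at h3
      have h3 : a * c * b < y * y * u :=
        lt_of_le_of_lt ((mul_le_mul_of_nonneg_right h1 b0.le).trans h2) hη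
      have h4 : a * b * u ≤ a * c * b := by
        have : a * b * u ≤ a * b * c := mul_le_mul_of_nonneg_left hcu (by positivity)
        linarith
      have h5 : a * b < y * y := by
        have h6 := h4.trans_lt h3
        exact lt_of_mul_lt_mul_right h6 hu.le
      rcases lt_or_ge a y with h6 | h6
      · have : a * (c * b) ≤ y * (c * b) := mul_le_mul_of_nonneg_right h6.le (by positivity)
        linarith
      · have h7 : b ≤ y := by
          by_contra h8
          rw [not_le] at h8
          have := mul_le_mul h6 h8.le hy.le a0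
          linarith
        have h8 : a * (c * b) ≤ y * (a * c) := by
          have := mul_le_mul_of_nonneg_left h7 (show 0 ≤ a * c by positivity)
          linarith
        linarith
  have h1 : Tc P m u l j η ≤ ∑ x ∈ boxF d (j * m), ∑ z ∈ boxF d m,
      (y * (W P (sh (j * m) x η) m z * ZH P (sh m z (sh (j * m) x η)) (l * m)) +
        y * (W P η (j * m) x * W P (sh (j * m) x η) m z)) := by
    unfold Tc
    refine Finset.sum_le_sum fun x hx => ?_
    rw [Finset.mul_sum]
    exact Finset.sum_le_sum fun z hz => key x hx z hz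
  refine h1.trans (le_of_eq ?_)
  have h2 : ∀ x ∈ boxF d (j * m), ∑ z ∈ boxF d m,
      (y * (W P (sh (j * m) x η) m z * ZH P (sh m z (sh (j * m) x η)) (l * m)) +
        y * (W P η (j * m) x * W P (sh (j * m) x η) m z)) =
      y * ZH P (sh (j * m) x η) (m + l * m) + y * (W P η (j * m) x * ZH P (sh (j * m) x η) m) := by
    intro x _
    rw [Finset.sum_add_distrib, ← Finset.mul_sum, ← Finset.mul_sum, ← Finset.mul_sum,
      ZH_split P (sh (j * m) x η) m (l * m), ZH_eq P (sh (j * m) x η) m]
  rw [Finset.sum_congr rfl h2, Finset.sum_add_distrib, ← Finset.mul_sum, ← Finset.mul_sum,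
    ZH_split P η (j * m) m]

/-! ### Measurability, dependence and integrals -/

lemma measurable_Kf (P : Prm d) (m : ℕ) (u : ℝ) (z : Site d) :
    Measurable fun η : Env d => Kf P m u η z := by
  unfold Kf
  exact Measurable.ite (measurableSet_lt (measurable_W P m z) measurable_const)
    (measurable_W P m z) measurable_const

lemma measurable_Uc (P : Prm d) (m : ℕ) (u : ℝ) (j : ℕ) : Measurable (Uc P m u j) := by
  induction j with
  | zero => exact measurable_const
  | succ j ih =>
    have : Uc P m u (j + 1) = fun η => ∑ z ∈ boxF d m, Kf P m u η z * Uc P m u j (sh m z η) := rfl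
    rw [this]
    exact Finset.measurable_sum _ fun z _ =>
      (measurable_Kf P m u z).mul (ih.comp (measurable_sh m z))

lemma Uc_nonneg (P : Prm d) (m : ℕ) (u : ℝ) (j : ℕ) : ∀ η, 0 ≤ Uc P m u j η := by
  induction j with
  | zero => exact fun _ => zero_le_one
  | succ j ih =>
    exact fun η => Finset.sum_nonneg fun z _ => mul_nonneg (Kf_nonneg _ _ _ _ _) (ih _)

lemma Uc_le (P : Prm d) (m : ℕ) (u : ℝ) (j : ℕ) : ∀ η, Uc P m u j η ≤ ZH P η (j * m) := by
  induction j with
  | zero =>
    intro η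
    rw [zero_mul, ZH_zero]
    exact le_rfl
  | succ j ih =>
    intro η
    have e : (j + 1) * m = m + j * m := by ring
    rw [e, ZH_split]
    exact Finset.sum_le_sum fun z _ => mul_le_mul (Kf_le _ _ _ _ _) (ih _) (Uc_nonneg _ _ _ _ _)
      (W_nonneg _ _ _ _)

lemma dependsOn_Kf (P : Prm d) (m : ℕ) (u : ℝ) (z : Site d) :
    DependsOn (fun η : Env d => Kf P m u η z) {p | p.1 ≤ m} := by
  intro η η' hη
  have h : W P η m z = W P η' m z := dependsOn_Wr P m z hη
  simp only
  unfold Kf
  rw [h]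

lemma dependsOn_Uc (P : Prm d) (m : ℕ) (u : ℝ) (j : ℕ) :
    DependsOn (Uc P m u j) {p | 1 ≤ p.1} := by
  induction j with
  | zero => exact fun _ _ _ => rfl
  | succ j ih =>
    intro η η' hη
    refine Finset.sum_congr rfl fun z _ => ?_
    have h1 : Kf P m u η z = Kf P m u η' z := by
      have h : W P η m z = W P η' m z := dependsOn_W P m z fun p hp => hη p hp.1
      unfold Kf
      rw [h]
    have h2 : Uc P m u j (sh m z η) = Uc P m u j (sh m z η') := by
      refine ih fun p hp => hη (p.1 + m, p.2 + z) ?_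
      have : 1 ≤ p.1 := hp
      change 1 ≤ p.1 + m
      omega
    rw [h1, h2]

variable {ρ : Measure ℝ} [IsProbabilityMeasure ρ]

/-- The mean of the normalised partition function is one. -/
lemma intZH27 (hd : 0 < d) (hρ : EM ρ) (β : ℝ) (h : Vec d) (a : ℝ) (n : ℕ) :
    ∫ η, ZH (Pn ρ β h a) η n ∂(law d ρ) = 1 := by
  have h1 := (annealed61 (d := d) hρ β h n).2
  have h2 : 0 < ∫ t, Real.exp (β * t) ∂ρ := integral_exp_pos (hρ β)
  have h3 : 0 < Phi h := by
    have : Nonempty (Step d) := ⟨(⟨0, hd⟩, true)⟩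
    exact Finset.sum_pos (fun e _ => Real.exp_pos _) Finset.univ_nonempty
  unfold ZH Pn
  simp only
  rw [integral_const_mul, h1, ← Real.log_mul h3.ne' h2.ne', ← Real.exp_log (pow_pos (mul_pos h3 h2) n),
    ← Real.exp_add, Real.log_pow, neg_add_cancel, Real.exp_zero]

lemma intZHsh27 (hd : 0 < d) (hρ : EM ρ) (β : ℝ) (h : Vec d) (a : ℝ) (n k : ℕ) (x : Site d) :
    Integrable (fun η : Env d => ZH (Pn ρ β h a) (sh k x η) n) (law d ρ) ∧
      ∫ η, ZH (Pn ρ β h a) (sh k x η) n ∂(law d ρ) = 1 := by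
  refine ⟨(mp_sh k x).integrable_comp_of_integrable (integrable_ZH hd hρ _ n), ?_⟩
  rw [integral_sh k x (measurable_ZH (Pn ρ β h a) n)]
  exact intZH27 hd hρ β h a n

/-- The chain of small weights has mean `(1 - Q) ^ j`. -/
lemma intUc27 (hd : 0 < d) (hρ : EM ρ) (β : ℝ) (h : Vec d) (m : ℕ) (u : ℝ) (j : ℕ) :
    Integrable (Uc (Pn ρ β h 1) m u j) (law d ρ) ∧
      ∫ η, Uc (Pn ρ β h 1) m u j η ∂(law d ρ) = (1 - Qm ρ β h m u) ^ j := by
  classical
  set P : Prm d := Pn ρ β h 1 with hP
  have hUi : ∀ j, Integrable (Uc P m u j) (law d ρ) := by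
    intro j
    refine (integrable_ZH hd hρ P (j * m)).mono' (measurable_Uc P m u j).aestronglyMeasurable
      (Eventually.of_forall fun η => ?_)
    rw [Real.norm_eq_abs, abs_of_nonneg (Uc_nonneg P m u j η)]
    exact Uc_le P m u j η
  have hWi : ∀ z, Integrable (fun η : Env d => W P η m z) (law d ρ) := by
    intro z
    refine (integrable_ZH hd hρ P m).mono' (measurable_W P m z).aestronglyMeasurable
      (Eventually.of_forall fun η => ?_)
    rw [Real.norm_eq_abs, abs_of_nonneg (W_nonneg P η m z)]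
    exact W_le_ZH P η m z
  have hKi : ∀ z, Integrable (fun η : Env d => Kf P m u η z) (law d ρ) := by
    intro z
    refine (hWi z).mono' (measurable_Kf P m u z).aestronglyMeasurable
      (Eventually.of_forall fun η => ?_)
    rw [Real.norm_eq_abs, abs_of_nonneg (Kf_nonneg P m u η z)]
    exact Kf_le P m u η z
  have hsumK : ∑ z ∈ boxF d m, ∫ η, Kf P m u η z ∂(law d ρ) = 1 - Qm ρ β h m u := by
    have h1 : ∀ z, (fun η : Env d => if u ≤ w ρ β h η m z then w ρ β h η m z else 0) =
        fun η => W P η m z - Kf P m u η z := by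
      intro z
      funext η
      change (if u ≤ W P η m z then W P η m z else 0) = _
      unfold Kf
      by_cases hc : W P η m z < u
      · rw [if_neg (not_le.2 hc), if_pos hc, sub_self]
      · rw [if_pos (not_lt.1 hc), if_neg hc, sub_zero]
    unfold Qm
    rw [integral_finsetSum _ fun z _ => by rw [h1 z]; exact (hWi z).sub (hKi z)]
    have h2 : ∀ z ∈ boxF d m, ∫ η, (if u ≤ w ρ β h η m z then w ρ β h η m z else 0) ∂(law d ρ) =
        ∫ η, W P η m z ∂(law d ρ) - ∫ η, Kf P m u η z ∂(law d ρ) := by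
      intro z _
      rw [h1 z, integral_sub (hWi z) (hKi z)]
    rw [Finset.sum_congr rfl h2, Finset.sum_sub_distrib, ← integral_finsetSum _ fun z _ => hWi z]
    have h3 : ∫ η, ∑ z ∈ boxF d m, W P η m z ∂(law d ρ) = 1 := by
      rw [← intZH27 hd hρ β h 1 m]
      refine integral_congr_ae (Eventually.of_forall fun η => ?_)
      exact (ZH_eq P η m).symm
    rw [h3]
    ring
  refine ⟨hUi j, ?_⟩
  induction j with
  | zero =>
    rw [pow_zero]
    have : Uc P m u 0 = fun _ => (1 : ℝ) := rfl
    rw [this, integral_const]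
    simp
  | succ j ih =>
    have e1 : ∫ η, Uc P m u (j + 1) η ∂(law d ρ) =
        ∫ η, ∑ z ∈ boxF d m, Kf P m u η z * Uc P m u j (sh m z η) ∂(law d ρ) := rfl
    have hKU : ∀ z ∈ boxF d m, Integrable (fun η : Env d =>
        Kf P m u η z * Uc P m u j (sh m z η)) (law d ρ) := by
      intro z _
      refine (integrable_ZH hd hρ P (m + j * m)).mono' ((measurable_Kf P m u z).mul
        ((measurable_Uc P m u j).comp (measurable_sh m z))).aestronglyMeasurable
        (Eventually.of_forall fun η => ?_)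
      rw [Real.norm_eq_abs, abs_of_nonneg (mul_nonneg (Kf_nonneg _ _ _ _ _)
        (Uc_nonneg _ _ _ _ _))]
      exact (mul_le_mul (Kf_le _ _ _ _ _) (Uc_le _ _ _ _ _) (Uc_nonneg _ _ _ _ _)
        (W_nonneg _ _ _ _)).trans (chainZ P η m (j * m) z)
    rw [e1, integral_finsetSum _ hKU]
    have e2 : ∀ z ∈ boxF d m, ∫ η, Kf P m u η z * Uc P m u j (sh m z η) ∂(law d ρ) =
        (∫ η, Kf P m u η z ∂(law d ρ)) * (1 - Qm ρ β h m u) ^ j := by
      intro z _
      have e := integral_indep (ρ := ρ) {p : ℕ × Site d | p.1 ≤ m} (F := fun η => Kf P m u η z)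
        (G := fun η => Uc P m u j (sh m z η)) (measurable_Kf P m u z)
        ((measurable_Uc P m u j).comp (measurable_sh m z)) (dependsOn_Kf P m u z)
        (dependsOn_sh (dependsOn_Uc P m u j) m z)
      rw [e, integral_sh m z (measurable_Uc P m u j), ih]
    rw [Finset.sum_congr rfl e2, ← Finset.sum_mul, hsumK, pow_succ]
    ring

/-- Leaf B4. -/
theorem blkL27 (hd : 0 < d) (hρ : EM ρ) (β : ℝ) : BlkL d ρ β := by
  classical
  intro h m B u y hm hu hy
  set P : Prm d := Pn ρ β h 1 with hP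
  set n : ℕ := B * m with hn
  obtain ⟨iU, eU⟩ := intUc27 (d := d) hd hρ β h m u B
  rw [← hP] at iU eU
  -- the bound of every block
  set R : ℕ → Env d → ℝ := fun j η =>
    y * ∑ x ∈ boxF d (j * m), ZH P (sh (j * m) x η) (m + (B - 1 - j) * m) +
      y * ZH P η (j * m + m) with hR
  have iR1 : ∀ j x, Integrable (fun η : Env d => ZH P (sh (j * m) x η) (m + (B - 1 - j) * m))
      (law d ρ) := fun j x => (intZHsh27 hd hρ β h 1 _ _ x).1
  have iR2 : ∀ j : ℕ, Integrable (fun η : Env d => ZH P η (j * m + m)) (law d ρ) := fun j =>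
    integrable_ZH hd hρ P _
  have iR : ∀ j, Integrable (R j) (law d ρ) := fun j =>
    ((integrable_finsetSum _ fun x _ => iR1 j x).const_mul y).add ((iR2 j).const_mul y)
  have eR : ∀ j ∈ Finset.range B, ∫ η, R j η ∂(law d ρ) ≤
      ((2 * (n : ℝ) + 1) ^ d + 1) * y := by
    intro j hj
    have hj' := Finset.mem_range.1 hj
    have h1 : ∫ η, R j η ∂(law d ρ) = y * (boxF d (j * m)).card + y := by
      simp only [hR]
      rw [integral_add ((integrable_finsetSum _ fun x _ => iR1 j x).const_mul y)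
        ((iR2 j).const_mul y), integral_const_mul, integral_const_mul,
        integral_finsetSum _ fun x _ => iR1 j x, intZH27 hd hρ β h 1]
      have h2 : ∀ x ∈ boxF d (j * m), ∫ η, ZH P (sh (j * m) x η) (m + (B - 1 - j) * m)
          ∂(law d ρ) = 1 := fun x _ => (intZHsh27 hd hρ β h 1 _ _ x).2
      rw [Finset.sum_congr rfl h2]
      simp
    rw [h1, card_boxF]
    have h2 : j * m ≤ n := Nat.mul_le_mul_right m hj'.le
    have h3 : ((j * m : ℕ) : ℝ) ≤ n := by exact_mod_cast h2
    have h4 : ((2 * (j * m) + 1 : ℕ) : ℝ) ^ d ≤ (2 * (n : ℝ) + 1) ^ d := by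
      refine pow_le_pow_left₀ (by positivity) ?_ d
      push_cast at h3 ⊢
      linarith
    push_cast at h4 ⊢
    nlinarith
  have hle : ∀ η : Env d, (if wt ρ β h η n < y * y * u then wt ρ β h η n else 0) ≤
      Uc P m u B η + ∑ j ∈ Finset.range B, R j η := by
    intro η
    have hR0 : ∀ j, 0 ≤ R j η := fun j => add_nonneg
      (mul_nonneg hy.le (Finset.sum_nonneg fun x _ => (ZH_pos hd _ _ _).le))
      (mul_nonneg hy.le (ZH_pos hd _ _ _).le)
    split_ifs with hc
    · refine (dec27 hd P m u B η).trans (add_le_add le_rfl (Finset.sum_le_sum fun j hj => ?_))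
      have hj' := Finset.mem_range.1 hj
      refine evt27 hd P m hu hy (B - 1 - j) j η ?_
      have e : j * m + m + (B - 1 - j) * m = n := by
        have h1 : B = j + 1 + (B - 1 - j) := by omega
        rw [hn]
        conv_rhs => rw [h1]
        ring
      rw [e]
      exact hc
    · exact add_nonneg (Uc_nonneg P m u B η) (Finset.sum_nonneg fun j _ => hR0 j)
  have iL : Integrable (fun η : Env d => if wt ρ β h η n < y * y * u then wt ρ β h η n else 0)
      (law d ρ) := by
    have hm1 : Measurable fun η : Env d => wt ρ β h η n := measurable_ZH P n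
    refine (integrable_ZH hd hρ P n).mono' (Measurable.ite (measurableSet_lt hm1
      measurable_const) hm1 measurable_const).aestronglyMeasurable
      (Eventually.of_forall fun η => ?_)
    have h1 : 0 < wt ρ β h η n := ZH_pos hd _ _ _
    have h2 : wt ρ β h η n = ZH P η n := rfl
    rw [Real.norm_eq_abs]
    split_ifs
    · rw [abs_of_pos h1, h2]
    · rw [abs_zero]
      exact (ZH_pos hd _ _ _).le
  refine (integral_mono iL (iU.add (integrable_finsetSum _ fun j _ => iR j)) hle).trans ?_
  have e3 : ∫ η, (Uc P m u B + fun η => ∑ j ∈ Finset.range B, R j η) η ∂(law d ρ) =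
      (∫ η, Uc P m u B η ∂(law d ρ)) + ∑ j ∈ Finset.range B, ∫ η, R j η ∂(law d ρ) := by
    have : (fun η => (Uc P m u B + fun η => ∑ j ∈ Finset.range B, R j η) η) =
        fun η => Uc P m u B η + ∑ j ∈ Finset.range B, R j η := rfl
    rw [this, integral_add iU (integrable_finsetSum _ fun j _ => iR j),
      integral_finsetSum _ fun j _ => iR j]
  rw [e3, eU]
  have h5 := Finset.sum_le_card_nsmul _ _ _ eR
  rw [Finset.card_range, nsmul_eq_mul] at h5
  refine add_le_add le_rfl (h5.trans (le_of_eq ?_))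
  ring

end Pool.Agent.W_7d29a1_SD.Blk27
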