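import Pool.Agent.W_7d29a1_SD.Int43

/-!
Very strong disorder: the partition function tends to zero exponentially fast and its second moment
grows exponentially.
-/

namespace Pool.Agent.W_7d29a1_SD

open MeasureTheory ProbabilityTheory Filter Topology Pool.Agent.W_MP_7d29a1_pr
  Pool.Agent.W_7d29a1_h46 Pool.Agent.W_7d29a1_h46u Pool.Agent.W_7d29a1_D2.B35
  Pool.Agent.W_7d29a1_Q29 Pool.Agent.W_7d29a1_P89

variable {d : ℕ} {ρ : Measure ℝ} [IsProbabilityMeasure ρ] {β : ℝ}

/-- The moments of small order decay exponentially. -/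
lemma dec43 (hd : 0 < d) (hρ : EM ρ) (β : ℝ) (h : Vec d) (hV : VSD ρ β h) :
    ∃ b c : ℝ, 0 < b ∧ b < 1 ∧ 0 < c ∧ ∀ n : ℕ,
      Integrable (fun η => wt ρ β h η n ^ b) (law d ρ) ∧
      ∫ η, wt ρ β h η n ^ b ∂(law d ρ) ≤ Real.exp (-(c * n)) := by
  obtain ⟨a, had⟩ : ∃ a : ℝ, a = Real.log (Phi h) + Real.log (∫ t, Real.exp (β * t) ∂ρ) := ⟨_, rfl⟩
  have hg : 0 < a - lam ρ β h := by
    have : lam ρ β h < a := by rw [had]; exact hV
    linarith
  obtain ⟨g, hgd⟩ : ∃ g : ℝ, g = a - lam ρ β h := ⟨_, rfl⟩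
  rw [← hgd] at hg
  obtain ⟨K, hK⟩ : ∃ K : ℝ, K = Kc β ρ ^ 2 := ⟨_, rfl⟩
  have hK0 : 0 ≤ K := by rw [hK]; positivity
  obtain ⟨b, hbd⟩ : ∃ b : ℝ, b = min (1 / 2) (g / (2 * (K + 1))) := ⟨_, rfl⟩
  have hb0 : 0 < b := by rw [hbd]; exact lt_min (by norm_num) (by positivity)
  have hb1 : b ≤ 1 / 2 := by rw [hbd]; exact min_le_left _ _
  have hb2 : K * b ≤ g / 2 := by
    have h1 : b ≤ g / (2 * (K + 1)) := by rw [hbd]; exact min_le_right _ _
    rw [le_div_iff₀ (by positivity)] at h1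
    nlinarith
  refine ⟨b, b * (g / 2), hb0, by linarith, by positivity, fun n => ?_⟩
  obtain ⟨hi, hc⟩ := (concU hd hρ β h n).2 b (by rw [abs_of_pos hb0]; linarith)
  have hpt : ∀ η : Env d, wt ρ β h η n ^ b =
      Real.exp (b * (X β h η n - A ρ β h n)) * Real.exp (b * (A ρ β h n - n * a)) := by
    intro η
    have h3 : Z β h η n = Real.exp (X β h η n) := (Real.exp_log (Z_pos hd _ _ _ _)).symm
    rw [wt_def43, h3, ← had, ← Real.exp_add, ← Real.exp_mul, ← Real.exp_add]
    congr 1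
    ring
  refine ⟨?_, ?_⟩
  · simp only [hpt]
    exact hi.mul_const _
  · simp only [hpt]
    rw [integral_mul_const]
    have h4 : A ρ β h n ≤ n * lam ρ β h := A_le_lam hd hρ β h n
    calc (∫ η, Real.exp (b * (X β h η n - A ρ β h n)) ∂(law d ρ)) *
          Real.exp (b * (A ρ β h n - n * a))
        ≤ Real.exp (Kc β ρ ^ 2 * b ^ 2 * n) * Real.exp (b * (A ρ β h n - n * a)) :=
          mul_le_mul_of_nonneg_right hc (Real.exp_pos _).le
      _ ≤ Real.exp (-(b * (g / 2) * n)) := by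
          rw [← Real.exp_add, Real.exp_le_exp, ← hK]
          have hn : (0 : ℝ) ≤ n := Nat.cast_nonneg n
          have h5 : K * b ^ 2 * n ≤ b * (g / 2) * n := by
            refine mul_le_mul_of_nonneg_right ?_ hn
            nlinarith
          have h6 : b * (A ρ β h n - n * a) ≤ b * (-(g * n)) := by
            refine mul_le_mul_of_nonneg_left ?_ hb0.le
            rw [hgd]
            nlinarith
          nlinarith

/-- Very strong disorder implies strong disorder. -/
theorem as43 (hd : 0 < d) (hρ : EM ρ) (β : ℝ) (h : Vec d) (hV : VSD ρ β h) :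
    ∀ᵐ η ∂(law d ρ), Tendsto (fun n : ℕ => wt ρ β h η n) atTop (𝓝 0) := by
  obtain ⟨b, c, hb0, hb1, hc, hdec⟩ := dec43 hd hρ β h hV
  have hm : ∀ n : ℕ, Measurable fun η : Env d => ENNReal.ofReal (wt ρ β h η n ^ b) := fun n =>
    ((measurable_wt43 ρ β h n).pow_const b).ennreal_ofReal
  have h1 : ∫⁻ η, ∑' n : ℕ, ENNReal.ofReal (wt ρ β h η n ^ b) ∂(law d ρ) ≠ ⊤ := by
    rw [lintegral_tsum fun n => (hm n).aemeasurable]
    have h2 : ∀ n : ℕ, ∫⁻ η, ENNReal.ofReal (wt ρ β h η n ^ b) ∂(law d ρ) ≤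
        ENNReal.ofReal (Real.exp (-c) ^ n) := by
      intro n
      rw [← ofReal_integral_eq_lintegral_ofReal (hdec n).1
        (Eventually.of_forall fun η => Real.rpow_nonneg (wt_pos43 hd ρ β h η n).le _)]
      refine ENNReal.ofReal_le_ofReal ((hdec n).2.trans (le_of_eq ?_))
      rw [← Real.exp_nat_mul]
      congr 1
      ring
    have h3 : Summable fun n : ℕ => Real.exp (-c) ^ n :=
      summable_geometric_of_lt_one (Real.exp_pos _).le (by rw [Real.exp_lt_one_iff]; linarith)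
    refine ne_top_of_le_ne_top ?_ (ENNReal.tsum_le_tsum h2)
    rw [← ENNReal.ofReal_tsum_of_nonneg (fun n => pow_nonneg (Real.exp_pos _).le n) h3]
    exact ENNReal.ofReal_ne_top
  have h4 := ae_lt_top (Measurable.tsum hm) h1
  filter_upwards [h4] with η hη
  have h5 := ENNReal.tendsto_atTop_zero_of_tsum_ne_top hη.ne
  have h6 : Tendsto (fun n : ℕ => wt ρ β h η n ^ b) atTop (𝓝 0) := by
    have h7 := (ENNReal.tendsto_toReal ENNReal.zero_ne_top).comp h5
    simp only [ENNReal.toReal_zero] at h7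
    refine h7.congr fun n => ?_
    simp only [Function.comp]
    exact ENNReal.toReal_ofReal (Real.rpow_nonneg (wt_pos43 hd ρ β h η n).le _)
  have h8 : Tendsto (fun n : ℕ => (wt ρ β h η n ^ b) ^ b⁻¹) atTop (𝓝 ((0 : ℝ) ^ b⁻¹)) :=
    h6.rpow_const (Or.inr (inv_nonneg.2 hb0.le))
  rw [Real.zero_rpow (inv_ne_zero hb0.ne')] at h8
  refine h8.congr fun n => ?_
  rw [← Real.rpow_mul (wt_pos43 hd ρ β h η n).le, mul_inv_cancel₀ hb0.ne', Real.rpow_one]

/-- Very strong disorder implies that the second moment grows exponentially. -/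
theorem sec43 (hd : 0 < d) (hρ : EM ρ) (β : ℝ) (h : Vec d) (hV : VSD ρ β h) (C : ℝ) :
    ∃ n : ℕ, C * (n + 1) < ∫ η, wt ρ β h η n ^ 2 ∂(law d ρ) := by
  obtain ⟨b, c, hb0, hb1, hc, hdec⟩ := dec43 hd hρ β h hV
  have key : ∀ n : ℕ, 1 ≤ Real.exp (c * n) / 2 →
      Real.exp (c * n) / 4 ≤ ∫ η, wt ρ β h η n ^ 2 ∂(law d ρ) := by
    intro n hn
    obtain ⟨T, hT⟩ : ∃ T : ℝ, T = Real.exp (c * n) / 2 := ⟨_, rfl⟩
    rw [← hT] at hn
    have hT0 : 0 < T := by linarith
    have hpt : ∀ η : Env d, wt ρ β h η n ≤ T * wt ρ β h η n ^ b + T⁻¹ * wt ρ β h η n ^ 2 := by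
      intro η
      have hw := wt_pos43 hd ρ β h η n
      rcases le_or_gt (wt ρ β h η n) T with h1 | h1
      · have h2 : wt ρ β h η n ≤ T * wt ρ β h η n ^ b := by
          have h3 : wt ρ β h η n = wt ρ β h η n ^ (1 - b) * wt ρ β h η n ^ b := by
            rw [← Real.rpow_add hw, sub_add_cancel, Real.rpow_one]
          have h4 : wt ρ β h η n ^ (1 - b) ≤ T := by
            calc wt ρ β h η n ^ (1 - b) ≤ T ^ (1 - b) :=
                  Real.rpow_le_rpow hw.le h1 (by linarith)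
              _ ≤ T ^ (1 : ℝ) := Real.rpow_le_rpow_of_exponent_le hn (by linarith)
              _ = T := Real.rpow_one T
          nth_rewrite 1 [h3]
          exact mul_le_mul_of_nonneg_right h4 (Real.rpow_nonneg hw.le _)
        have h5 : 0 ≤ T⁻¹ * wt ρ β h η n ^ 2 := by positivity
        linarith
      · have h2 : wt ρ β h η n ≤ T⁻¹ * wt ρ β h η n ^ 2 := by
          rw [inv_mul_eq_div, le_div_iff₀ hT0]
          nlinarith
        have h5 : 0 ≤ T * wt ρ β h η n ^ b :=
          mul_nonneg hT0.le (Real.rpow_nonneg hw.le _)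
        linarith
    have i2 := integrable_wt_pow43 hd hρ β h n (q := 2) (by norm_num)
    have h6 := integral_mono (integrable_wt43 hd hρ h n)
      (((hdec n).1.const_mul T).add (i2.const_mul T⁻¹)) hpt
    rw [integral_wt43 hd hρ β h n, integral_add' ((hdec n).1.const_mul T) (i2.const_mul T⁻¹),
      integral_const_mul, integral_const_mul] at h6
    have h7 : T * ∫ η, wt ρ β h η n ^ b ∂(law d ρ) ≤ 1 / 2 := by
      calc T * ∫ η, wt ρ β h η n ^ b ∂(law d ρ) ≤ T * Real.exp (-(c * n)) :=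
            mul_le_mul_of_nonneg_left (hdec n).2 hT0.le
        _ = 1 / 2 := by
            rw [hT, div_mul_eq_mul_div, ← Real.exp_add, add_neg_cancel, Real.exp_zero]
    have h8 : 1 / 2 ≤ T⁻¹ * ∫ η, wt ρ β h η n ^ 2 ∂(law d ρ) := by linarith
    rw [inv_mul_eq_div, le_div_iff₀ hT0] at h8
    rw [hT] at h8
    linarith
  have h1 : Tendsto (fun n : ℕ => Real.exp (c * n) / 4 - |C| * (n + 1)) atTop atTop := by
    have h2 : Tendsto (fun x : ℝ => Real.exp x / x) atTop atTop := by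
      simpa using Real.tendsto_exp_div_pow_atTop 1
    have h3 : Tendsto (fun n : ℕ => c * (n : ℝ)) atTop atTop :=
      tendsto_natCast_atTop_atTop.const_mul_atTop hc
    have h4 := (tendsto_atTop.1 (h2.comp h3)) (4 * (2 * |C| + 1) / c)
    refine tendsto_atTop_mono' atTop (f₁ := fun n : ℕ => (n : ℝ)) ?_ tendsto_natCast_atTop_atTop
    filter_upwards [h4, eventually_ge_atTop 1] with n h5 h6
    have hn : (1 : ℝ) ≤ n := by exact_mod_cast h6
    simp only [Function.comp] at h5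
    rw [div_le_div_iff₀ hc (by positivity)] at h5
    have h7 : 4 * (2 * |C| + 1) * n ≤ Real.exp (c * n) := by
      have : (4 * (2 * |C| + 1) * n) * c ≤ Real.exp (c * n) * c := by nlinarith
      exact le_of_mul_le_mul_right this hc
    have hC := abs_nonneg C
    nlinarith
  have h2 : Tendsto (fun n : ℕ => Real.exp (c * n) / 2) atTop atTop := by
    refine (Real.tendsto_exp_atTop.comp ?_).atTop_div_const (by norm_num)
    exact tendsto_natCast_atTop_atTop.const_mul_atTop hc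
  obtain ⟨n, h3, h4⟩ := (((tendsto_atTop.1 h1) 1).and ((tendsto_atTop.1 h2) 1)).exists
  refine ⟨n, ?_⟩
  have h5 := key n h4
  have h6 : C * (n + 1) ≤ |C| * (n + 1) :=
    mul_le_mul_of_nonneg_right (le_abs_self C) (by positivity)
  linarith

end Pool.Agent.W_7d29a1_SD
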