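import Pool.Agent.W_7d29a1_SD.Sec62

/-!
Strong disorder at a smaller inverse temperature puts the model beyond the second moment line.
-/

namespace Pool.Agent.W_7d29a1_SD

open MeasureTheory ProbabilityTheory Filter Topology Pool.Agent.W_MP_7d29a1_pr
  Pool.Agent.W_7d29a1_h46 Pool.Agent.W_7d29a1_h46u Pool.Agent.W_7d29a1_D2.B35
  Pool.Agent.W_7d29a1_Q29 Pool.Agent.W_7d29a1_P89 Pool.Agent.W_7d29a1_SD.S62

variable {d : ℕ} {ρ : Measure ℝ} [IsProbabilityMeasure ρ]

/-- Two independent variables with the law `ρ` are different with positive probability. -/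
lemma off_diag72 (hnc : ∀ c : ℝ, ρ {c} ≠ 1) : 0 < (ρ.prod ρ) {p : ℝ × ℝ | p.1 ≠ p.2} := by
  rw [pos_iff_ne_zero]
  intro h0
  have hm : MeasurableSet {p : ℝ × ℝ | p.1 ≠ p.2} :=
    (measurableSet_eq_fun measurable_fst measurable_snd).compl
  rw [Measure.prod_apply hm, lintegral_eq_zero_iff (measurable_measure_prodMk_left hm)] at h0
  obtain ⟨t, ht⟩ := h0.exists
  have h1 : Prod.mk t ⁻¹' {p : ℝ × ℝ | p.1 ≠ p.2} = ({t} : Set ℝ)ᶜ := by
    ext s
    simp only [Set.mem_preimage, Set.mem_ofPred_eq, Set.mem_compl_iff, Set.mem_singleton_iff]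
    exact ⟨fun h e => h e.symm, fun h e => h e.symm⟩
  simp only [Pi.zero_apply] at ht
  rw [h1] at ht
  refine hnc t ?_
  exact (prob_compl_eq_zero_iff (measurableSet_singleton t)).1 ht

/-- The association inequality for two exponentials, strict. -/
lemma cheb72 (hρ : EM ρ) (hnc : ∀ c : ℝ, ρ {c} ≠ 1) {a δ : ℝ} (ha : 0 < a) (hδ : 0 < δ) (b : ℝ) :
    (∫ t, Real.exp ((a + b) * t) ∂ρ) * (∫ t, Real.exp ((δ + b) * t) ∂ρ) <
      (∫ t, Real.exp ((a + δ + b) * t) ∂ρ) * ∫ t, Real.exp (b * t) ∂ρ := by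
  have i : ∀ x y : ℝ, Integrable (fun p : ℝ × ℝ => Real.exp (x * p.1) * Real.exp (y * p.2))
      (ρ.prod ρ) := fun x y => (hρ x).mul_prod (hρ y)
  have e : ∀ x y : ℝ, ∫ p : ℝ × ℝ, Real.exp (x * p.1) * Real.exp (y * p.2) ∂(ρ.prod ρ) =
      (∫ t, Real.exp (x * t) ∂ρ) * ∫ t, Real.exp (y * t) ∂ρ := fun x y =>
    integral_prod_mul (fun t => Real.exp (x * t)) fun t => Real.exp (y * t)
  have hF : ∀ p : ℝ × ℝ,
      (Real.exp (a * p.1) - Real.exp (a * p.2)) * (Real.exp (δ * p.1) - Real.exp (δ * p.2)) *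
        (Real.exp (b * p.1) * Real.exp (b * p.2)) =
      (Real.exp ((a + δ + b) * p.1) * Real.exp (b * p.2) +
        Real.exp (b * p.1) * Real.exp ((a + δ + b) * p.2)) -
      (Real.exp ((a + b) * p.1) * Real.exp ((δ + b) * p.2) +
        Real.exp ((δ + b) * p.1) * Real.exp ((a + b) * p.2)) := by
    intro p
    simp only [add_mul, Real.exp_add]
    ring
  have hpos : 0 < ∫ p : ℝ × ℝ,
      (Real.exp (a * p.1) - Real.exp (a * p.2)) * (Real.exp (δ * p.1) - Real.exp (δ * p.2)) *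
        (Real.exp (b * p.1) * Real.exp (b * p.2)) ∂(ρ.prod ρ) := by
    have hsign : ∀ p : ℝ × ℝ, p.1 ≠ p.2 →
        0 < (Real.exp (a * p.1) - Real.exp (a * p.2)) *
          (Real.exp (δ * p.1) - Real.exp (δ * p.2)) *
          (Real.exp (b * p.1) * Real.exp (b * p.2)) := by
      intro p hp
      refine mul_pos ?_ (mul_pos (Real.exp_pos _) (Real.exp_pos _))
      rcases lt_or_gt_of_ne hp with h | h
      · have h1 := Real.exp_lt_exp.2 (mul_lt_mul_of_pos_left h ha)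
        have h2 := Real.exp_lt_exp.2 (mul_lt_mul_of_pos_left h hδ)
        nlinarith
      · have h1 := Real.exp_lt_exp.2 (mul_lt_mul_of_pos_left h ha)
        have h2 := Real.exp_lt_exp.2 (mul_lt_mul_of_pos_left h hδ)
        nlinarith
    have hnn : ∀ p : ℝ × ℝ, 0 ≤ (Real.exp (a * p.1) - Real.exp (a * p.2)) *
          (Real.exp (δ * p.1) - Real.exp (δ * p.2)) *
          (Real.exp (b * p.1) * Real.exp (b * p.2)) := by
      intro p
      by_cases hp : p.1 = p.2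
      · rw [hp]
        simp
      · exact (hsign p hp).le
    rw [integral_pos_iff_support_of_nonneg hnn]
    · exact (off_diag72 hnc).trans_le (measure_mono fun p hp => (hsign p hp).ne')
    · simp only [hF]
      exact ((i _ _).add (i _ _)).sub ((i _ _).add (i _ _))
  simp only [hF] at hpos
  have i1 : Integrable (fun p : ℝ × ℝ => Real.exp ((a + δ + b) * p.1) * Real.exp (b * p.2) +
        Real.exp (b * p.1) * Real.exp ((a + δ + b) * p.2)) (ρ.prod ρ) := (i _ _).add (i _ _)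
  have i2 : Integrable (fun p : ℝ × ℝ => Real.exp ((a + b) * p.1) * Real.exp ((δ + b) * p.2) +
        Real.exp ((δ + b) * p.1) * Real.exp ((a + b) * p.2)) (ρ.prod ρ) := (i _ _).add (i _ _)
  rw [integral_sub i1 i2, integral_add (i _ _) (i _ _), integral_add (i _ _) (i _ _), e, e, e, e]
    at hpos
  nlinarith

/-- The second moment of the weight of a site is strictly increasing. -/
theorem kap_lt72 (hρ : EM ρ) (hnc : ∀ c : ℝ, ρ {c} ≠ 1) {b β : ℝ} (hb : 0 < b) (hbβ : b < β) :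
    kap ρ b < kap ρ β := by
  have h1 := cheb72 hρ hnc hb (sub_pos.2 hbβ) b
  have h2 := cheb72 hρ hnc (hb.trans hbβ) (sub_pos.2 hbβ) b
  have p1 := intExp72 hρ b
  have p2 := intExp72 hρ β
  have e1 : b + b = 2 * b := by ring
  have e2 : β - b + b = β := by ring
  have e3 : b + (β - b) + b = b + β := by ring
  have e4 : β + b = b + β := by ring
  have e5 : β + (β - b) + b = 2 * β := by ring
  rw [e1, e2, e3] at h1
  rw [e4, e2, e5] at h2
  unfold kap
  rw [div_lt_div_iff₀ (pow_pos p1 2) (pow_pos p2 2)]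
  have h3 := mul_lt_mul_of_pos_right h1 p2
  have h4 := mul_lt_mul_of_pos_right h2 p1
  calc (∫ t, Real.exp (2 * b * t) ∂ρ) * (∫ t, Real.exp (β * t) ∂ρ) ^ 2
      = (∫ t, Real.exp (2 * b * t) ∂ρ) * (∫ t, Real.exp (β * t) ∂ρ) *
          ∫ t, Real.exp (β * t) ∂ρ := by ring
    _ < (∫ t, Real.exp ((b + β) * t) ∂ρ) * (∫ t, Real.exp (b * t) ∂ρ) *
          ∫ t, Real.exp (β * t) ∂ρ := h3
    _ = (∫ t, Real.exp ((b + β) * t) ∂ρ) * (∫ t, Real.exp (β * t) ∂ρ) *
          ∫ t, Real.exp (b * t) ∂ρ := by ring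
    _ < (∫ t, Real.exp (2 * β * t) ∂ρ) * (∫ t, Real.exp (b * t) ∂ρ) *
          ∫ t, Real.exp (b * t) ∂ρ := h4
    _ = _ := by ring

/-! ### The second moment below the line -/

variable {β : ℝ}

lemma lam0_nonneg72 (hd : 0 < d) (h : Vec d) (n k : ℕ) :
    0 ≤ ∫ η, rp ρ β h η n (Ad h (gk h k)) ∂(law d ρ) :=
  integral_nonneg fun η => rp_nonneg62 hd h η n (Ad_nonneg62 h fun z => (gk_bd62 hd h k z).1)

lemma hitg72 (hd : 0 < d) (hρ : EM ρ) (h : Vec d) {γ : ℝ}
    (hk : ∀ k : ℕ, kap ρ β * rt h k ≤ 1 - γ) (n k : ℕ) :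
    ∫ η, rp ρ β h η (n + 1) (Ad h (gk h k)) ∂(law d ρ) +
        γ * ∫ η, rp ρ β h η n (Ad h (gk h 0)) ∂(law d ρ) ≤
      ∫ η, rp ρ β h η n (Ad h (gk h (k + 1))) ∂(law d ρ) := by
  have h0 := lam0_nonneg72 (ρ := ρ) (β := β) hd h n 0
  have h1 : Ad h (Ad h (gk h k)) = fun z => Ad h (gk h (k + 1)) z -
      (1 - rt h k) * Ad h (gk h 0) z := by
    funext z
    rw [← Ad_lin62]
    congr 1
    funext y
    exact Ad_gk62 h k y
  rw [rec62 hd hρ, h1]
  have h2 : ∫ η, rp ρ β h η n (fun z => Ad h (gk h (k + 1)) z -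
      (1 - rt h k) * Ad h (gk h 0) z) ∂(law d ρ) =
      ∫ η, rp ρ β h η n (Ad h (gk h (k + 1))) ∂(law d ρ) -
        (1 - rt h k) * ∫ η, rp ρ β h η n (Ad h (gk h 0)) ∂(law d ρ) := by
    simp only [rp_lin62]
    rw [integral_sub (int_rp62 hd hρ h n _) ((int_rp62 hd hρ h n _).const_mul _),
      integral_const_mul]
  rw [h2]
  have h3 : Ad h (gk h k) 0 = rt h k := rfl
  rw [h3]
  have h4 := mul_le_mul_of_nonneg_right (hk k) h0
  nlinarith

lemma hitng72 (hd : 0 < d) (hρ : EM ρ) (h : Vec d) {γ : ℝ}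
    (hk : ∀ k : ℕ, kap ρ β * rt h k ≤ 1 - γ) (n : ℕ) :
    ∀ k : ℕ, ∫ η, rp ρ β h η n (Ad h (gk h k)) ∂(law d ρ) +
        γ * ∑ j ∈ Finset.range n, ∫ η, rp ρ β h η j (Ad h (gk h 0)) ∂(law d ρ) ≤
      ∫ η, rp ρ β h η 0 (Ad h (gk h (k + n))) ∂(law d ρ) := by
  induction n with
  | zero => intro k; simp
  | succ n ih =>
    intro k
    have h1 := hitg72 hd hρ h hk n k
    have h2 := ih (k + 1)
    have h3 : k + 1 + n = k + (n + 1) := by omega
    rw [h3] at h2
    rw [Finset.sum_range_succ, mul_add]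
    linarith

/-- The second moment is bounded below the line. -/
theorem sec_bd72 (hd : 0 < d) (hρ : EM ρ) (h : Vec d) {γ : ℝ} (hγ : 0 < γ)
    (hk : ∀ k : ℕ, kap ρ β * rt h k ≤ 1 - γ) (n : ℕ) :
    ∫ η, wt ρ β h η n ^ 2 ∂(law d ρ) ≤ 1 + (kap ρ β - 1) / γ := by
  have h0 : ∀ n : ℕ, ∫ η, wt ρ β h η n ^ 2 ∂(law d ρ) = 1 + (kap ρ β - 1) *
      ∑ j ∈ Finset.range n, ∫ η, rp ρ β h η j (Ad h (gk h 0)) ∂(law d ρ) := by
    intro n
    induction n with
    | zero =>
      simp only [wt_zero62]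
      simp
    | succ n ih =>
      have h1 : ∫ η, wt ρ β h η (n + 1) ^ 2 ∂(law d ρ) = ∫ η, wt ρ β h η n ^ 2 ∂(law d ρ) +
          (kap ρ β - 1) * ∫ η, rp ρ β h η n (Ad h (gk h 0)) ∂(law d ρ) := by
        simp only [wt_sq62]
        rw [rec62 hd hρ]
        have h2 : Ad h (fun _ : Site d => (1 : ℝ)) = fun _ => 1 := by
          funext z
          unfold Ad
          simp only [mul_one]
          rw [← Finset.sum_mul_sum, sum_pe72 hd h, one_mul]
        rw [h2, mul_one]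
      rw [h1, ih, Finset.sum_range_succ]
      ring
  have h1 : ∫ η, rp ρ β h η 0 (Ad h (gk h (0 + n))) ∂(law d ρ) ≤ 1 := by
    have h1 : ∀ η : Env d, rp ρ β h η 0 (Ad h (gk h (0 + n))) ≤ 1 := by
      intro η
      have h2 := wt_sq62 (ρ := ρ) (β := β) h η 0
      rw [wt_zero62] at h2
      have h3 : rp ρ β h η 0 (Ad h (gk h (0 + n))) ≤ rp ρ β h η 0 fun _ => 1 :=
        Finset.sum_le_sum fun x _ => Finset.sum_le_sum fun y _ =>
          mul_le_mul_of_nonneg_left (Ad_le_one62 hd h (fun z => (gk_bd62 hd h _ z).2) _)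
            (mul_nonneg (w_nonneg72 ρ β h η 0 x) (w_nonneg72 ρ β h η 0 y))
      rw [← h2] at h3
      simpa using h3
    have h4 := integral_mono (int_rp62 (ρ := ρ) (β := β) hd hρ h 0 (Ad h (gk h (0 + n))))
      (integrable_const (1 : ℝ)) h1
    simpa using h4
  have h2 := hitng72 hd hρ h hk n 0
  have h3 := lam0_nonneg72 (ρ := ρ) (β := β) hd h n 0
  have h4 := one_le_kap72 hρ β
  have h5 : ∑ j ∈ Finset.range n, ∫ η, rp ρ β h η j (Ad h (gk h 0)) ∂(law d ρ) ≤ 1 / γ := by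
    rw [le_div_iff₀ hγ]
    linarith
  rw [h0 n, div_eq_mul_one_div (kap ρ β - 1) γ]
  have := mul_le_mul_of_nonneg_left h5 (by linarith : 0 ≤ kap ρ β - 1)
  linarith

/-- A bounded second moment excludes strong disorder. -/
theorem not_sdm72 (hd : 0 < d) (hρ : EM ρ) (h : Vec d) {C : ℝ}
    (hC : ∀ n : ℕ, ∫ η, wt ρ β h η n ^ 2 ∂(law d ρ) ≤ C) : ¬ SDm ρ β h := by
  intro hS
  have hC1 : 0 < 1 + |C| := by positivity
  set a : ℝ := Real.sqrt (2 * (1 + |C|)) with ha
  have ha0 : 0 < a := Real.sqrt_pos.2 (by linarith)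
  have ha2 : a ^ 2 = 2 * (1 + |C|) := Real.sq_sqrt (by linarith)
  have key : ∀ n : ℕ, 1 / (2 * a) ≤ ∫ η, Real.sqrt (wt ρ β h η n) ∂(law d ρ) := by
    intro n
    have isq : Integrable (fun η => wt ρ β h η n ^ 2) (law d ρ) :=
      integrable_wt_pow43 hd hρ β h n (q := 2) (by norm_num)
    have iw := integrable_wt43 (ρ := ρ) (β := β) hd hρ h n
    have isr : Integrable (fun η => Real.sqrt (wt ρ β h η n)) (law d ρ) := by
      refine ((integrable_const (1 : ℝ)).add iw).mono'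
        (measurable_wt43 ρ β h n).sqrt.aestronglyMeasurable (Eventually.of_forall fun η => ?_)
      have h1 := (wt_pos43 hd ρ β h η n).le
      rw [Real.norm_of_nonneg (Real.sqrt_nonneg _)]
      simp only [Pi.add_apply]
      nlinarith [Real.sq_sqrt h1, sq_nonneg (Real.sqrt (wt ρ β h η n) - 1)]
    have hpt : ∀ η, wt ρ β h η n ≤ a * Real.sqrt (wt ρ β h η n) + wt ρ β h η n ^ 2 / a ^ 2 := by
      intro η
      have hw := wt_pos43 hd ρ β h η n
      set y := Real.sqrt (wt ρ β h η n) with hy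
      have hy0 : 0 ≤ y := Real.sqrt_nonneg _
      have hy2 : wt ρ β h η n = y ^ 2 := (Real.sq_sqrt hw.le).symm
      rw [hy2]
      have ha2' : 0 < a ^ 2 := pow_pos ha0 2
      rcases le_total y a with hya | hya
      · have h1 : 0 ≤ (y ^ 2) ^ 2 / a ^ 2 := by positivity
        nlinarith
      · have h1 : y ^ 2 ≤ (y ^ 2) ^ 2 / a ^ 2 := by
          rw [le_div_iff₀ ha2']
          have h2 : a ^ 2 ≤ y ^ 2 := pow_le_pow_left₀ ha0.le hya 2
          nlinarith [sq_nonneg y]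
        have h2 : 0 ≤ a * y := mul_nonneg ha0.le hy0
        linarith
    have h1 := integral_mono iw ((isr.const_mul a).add (isq.div_const (a ^ 2))) hpt
    rw [integral_wt43 hd hρ] at h1
    have h2 : ∫ η, (a * Real.sqrt (wt ρ β h η n) + wt ρ β h η n ^ 2 / a ^ 2) ∂(law d ρ) =
        a * (∫ η, Real.sqrt (wt ρ β h η n) ∂(law d ρ)) +
          (∫ η, wt ρ β h η n ^ 2 ∂(law d ρ)) / a ^ 2 := by
      rw [integral_add (isr.const_mul a) (isq.div_const (a ^ 2)), integral_const_mul,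
        integral_div]
    simp only [Pi.add_apply] at h1
    rw [h2] at h1
    have h3 : (∫ η, wt ρ β h η n ^ 2 ∂(law d ρ)) / a ^ 2 ≤ 1 / 2 := by
      rw [ha2, div_le_div_iff₀ (by linarith) (by norm_num)]
      have h4 := hC n
      have h5 := le_abs_self C
      linarith
    rw [div_le_iff₀ (by positivity)]
    nlinarith
  have h1 := ge_of_tendsto' hS key
  have h2 : 0 < 1 / (2 * a) := by positivity
  linarith

/-- **Strong disorder at `b < β` puts `β` beyond the second moment line.** -/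
theorem crit72 (hd : 0 < d) (hρ : EM ρ) (hnc : ∀ c : ℝ, ρ {c} ≠ 1) {b β : ℝ} (hb : 0 < b)
    (hbβ : b < β) (h : Vec d) (hs : SDm ρ b h) : ∃ k : ℕ, 1 < kap ρ β * rt h k := by
  by_contra hc
  push Not at hc
  have hk := kap_lt72 hρ hnc hb hbβ
  have hb1 := one_le_kap72 hρ b
  have hβ0 : 0 < kap ρ β := by linarith
  have hγ : 0 < 1 - kap ρ b / kap ρ β := by
    rw [sub_pos, div_lt_one hβ0]
    exact hk
  refine not_sdm72 hd hρ h (sec_bd72 (β := b) hd hρ h hγ fun k => ?_) hs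
  have h1 : rt h k ≤ 1 / kap ρ β := by
    rw [le_div_iff₀ hβ0, mul_comm]
    exact hc k
  have h2 := mul_le_mul_of_nonneg_left h1 (by linarith : 0 ≤ kap ρ b)
  rw [mul_one_div] at h2
  linarith

end Pool.Agent.W_7d29a1_SD
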