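import Pool.Agent.W_7d29a1_Q29.Defs29
import Pool.Agent.W_7d29a1_P89.Basic

/-!
Strong disorder is very strong disorder: definitions and frozen statements of the leaves.
-/

namespace Pool.Agent.W_7d29a1_SD

open MeasureTheory ProbabilityTheory Filter Topology Pool.Agent.W_MP_7d29a1_pr
  Pool.Agent.W_7d29a1_h46 Pool.Agent.W_7d29a1_h46u Pool.Agent.W_7d29a1_D2.B35
  Pool.Agent.W_7d29a1_Q29 Pool.Agent.W_7d29a1_P89

variable {d : ℕ}

/-- The parameters with the annealed normalisation. -/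
noncomputable def Pn (ρ : Measure ℝ) (β : ℝ) (h : Vec d) (a : ℝ) : Prm d :=
  ⟨Real.log (Phi h) + Real.log (∫ t, Real.exp (β * t) ∂ρ), β, h, a⟩

/-- The normalised point to point partition function: mean one after summation over `x`. -/
noncomputable def w (ρ : Measure ℝ) (β : ℝ) (h : Vec d) (η : Env d) (n : ℕ) (x : Site d) : ℝ :=
  W (Pn ρ β h 1) η n x

/-- The normalised partition function: mean one. -/
noncomputable def wt (ρ : Measure ℝ) (β : ℝ) (h : Vec d) (η : Env d) (n : ℕ) : ℝ :=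
  ZH (Pn ρ β h 1) η n

/-- The probability of a step. -/
noncomputable def pe (h : Vec d) (e : Step d) : ℝ := Real.exp (inner ℝ h (emb (vec e))) / Phi h

/-- The transition operator of the difference of two independent walks. -/
noncomputable def Ad (h : Vec d) (f : Site d → ℝ) (z : Site d) : ℝ :=
  ∑ e : Step d, ∑ e' : Step d, pe h e * pe h e' * f (z + vec e - vec e')

/-- The probability that the difference walk from `z` is in `0` at a time `≤ k`. -/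
noncomputable def gk (h : Vec d) : ℕ → Site d → ℝ
  | 0, z => if z = 0 then 1 else 0
  | k + 1, z => if z = 0 then 1 else Ad h (gk h k) z

/-- The probability of a return of the difference walk to `0` in the times `1, …, k + 1`. -/
noncomputable def rt (h : Vec d) (k : ℕ) : ℝ := Ad h (gk h k) 0

/-- The second moment of the weight of a site. -/
noncomputable def kap (ρ : Measure ℝ) (β : ℝ) : ℝ :=
  (∫ t, Real.exp (2 * β * t) ∂ρ) / (∫ t, Real.exp (β * t) ∂ρ) ^ 2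

/-- The weight of a site. -/
noncomputable def xi (ρ : Measure ℝ) (β : ℝ) (t : ℝ) : ℝ :=
  Real.exp (β * t) / ∫ r, Real.exp (β * r) ∂ρ

/-- The mass at `x` after the step `n + 1`, before the weights of the row `n + 1`. -/
noncomputable def nu (ρ : Measure ℝ) (β : ℝ) (h : Vec d) (η : Env d) (n : ℕ) (x : Site d) : ℝ :=
  ∑ e : Step d, pe h e * w ρ β h η n (x - vec e)

/-- The overlap (times the partition function). -/
noncomputable def S2 (ρ : Measure ℝ) (β : ℝ) (h : Vec d) (η : Env d) (n : ℕ) : ℝ :=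
  (∑ x ∈ boxF d (n + 1), nu ρ β h η n x ^ 2) / wt ρ β h η n

/-- The functional of the two replicas (times the partition function). -/
noncomputable def Yk (ρ : Measure ℝ) (β : ℝ) (h : Vec d) (k : ℕ) (η : Env d) (n : ℕ) : ℝ :=
  (∑ x ∈ boxF d n, ∑ y ∈ boxF d n, w ρ β h η n x * w ρ β h η n y * Ad h (gk h k) (x - y)) /
    wt ρ β h η n

/-- No localisation at the times `N ≤ n < T`. -/
def NLoc (ρ : Measure ℝ) (β : ℝ) (h : Vec d) (δ : ℝ) (N T : ℕ) (η : Env d) : Prop :=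
  ∀ n, N ≤ n → n < T → ∀ x, w ρ β h η n x < δ * wt ρ β h η n

/-- The moment of order `1 + ε`. -/
noncomputable def Mo (ρ : Measure ℝ) (β : ℝ) (h : Vec d) (ε : ℝ) (m : ℕ) : ℝ :=
  ∫ η, ∑ x ∈ boxF d m, w ρ β h η m x ^ (1 + ε) ∂(law d ρ)

open Classical in
/-- The probability under the size biased law that the weight along the spine is at least `u`. -/
noncomputable def Qm (ρ : Measure ℝ) (β : ℝ) (h : Vec d) (m : ℕ) (u : ℝ) : ℝ :=
  ∫ η, ∑ x ∈ boxF d m, (if u ≤ w ρ β h η m x then w ρ β h η m x else 0) ∂(law d ρ)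

/-- Strong disorder. -/
def SDm (ρ : Measure ℝ) (β : ℝ) (h : Vec d) : Prop :=
  Tendsto (fun n : ℕ => ∫ η, Real.sqrt (wt ρ β h η n) ∂(law d ρ)) atTop (𝓝 0)

open Classical in
/-- Localisation under the size biased law. -/
def LocC (ρ : Measure ℝ) (β : ℝ) (h : Vec d) : Prop := ∃ δ : ℝ, 0 < δ ∧ ∀ N : ℕ,
  Tendsto (fun T : ℕ => ∫ η, (if NLoc ρ β h δ N T η then wt ρ β h η T else 0) ∂(law d ρ)) atTop
    (𝓝 0)

/-- Exponential growth of the moments. -/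
def GroC (ρ : Measure ℝ) (β : ℝ) (h : Vec d) : Prop := ∀ ε : ℝ, 0 < ε → ∃ c r : ℝ, 0 < c ∧ 1 < r ∧
  ∀ m : ℕ, c * r ^ m ≤ Mo ρ β h ε m

/-- Luck at small price. -/
def LucC (ρ : Measure ℝ) (β : ℝ) (h : Vec d) : Prop := ∀ ε : ℝ, 0 < ε → ∃ c : ℝ, 0 < c ∧
  ∀ᶠ m : ℕ in atTop, ∃ u : ℝ, Real.exp (c * m) ≤ u ∧ u ^ (-ε) ≤ Qm ρ β h m u

section Leaves

variable (d : ℕ) (ρ : Measure ℝ) (β : ℝ)

/-- A1: the martingale. -/
def MarS : Prop := ∀ (h : Vec d) (n m : ℕ) (F : Env d → ℝ), Measurable F →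
  DependsOn F {p | p.1 ≤ n} → ∫ η, F η * wt ρ β h η (n + m) ∂(law d ρ) =
    ∫ η, F η * wt ρ β h η n ∂(law d ρ)

/-- A2: the drift. -/
def DrL : Prop := ∀ (h : Vec d) (k : ℕ), ∃ C : ℝ, 0 ≤ C ∧ ∀ (n : ℕ) (δ : ℝ) (G : Env d → ℝ),
  0 < δ → Measurable G → DependsOn G {p | p.1 ≤ n} → (∀ η, G η = 0 ∨ G η = 1) →
  (∀ η, G η = 1 → ∀ x, w ρ β h η n x ≤ δ * wt ρ β h η n) →
    ∫ η, G η * Yk ρ β h k η n ∂(law d ρ) +
      (kap ρ β * rt h k - 1 - C * δ) * ∫ η, G η * S2 ρ β h η n ∂(law d ρ) ≤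
      ∫ η, G η * Yk ρ β h k η (n + 1) ∂(law d ρ)

/-- A3: the entropy. -/
def EnL : Prop := ∀ (h : Vec d) (n : ℕ) (G : Env d → ℝ), Measurable G →
  DependsOn G {p | p.1 ≤ n} → (∀ η, G η = 0 ∨ G η = 1) →
    ∫ η, G η * (wt ρ β h η (n + 1) * Real.log (wt ρ β h η (n + 1))) ∂(law d ρ) ≤
      ∫ η, G η * (wt ρ β h η n * Real.log (wt ρ β h η n)) ∂(law d ρ) +
        (kap ρ β - 1) * ∫ η, G η * S2 ρ β h η n ∂(law d ρ)

/-- A4: `0 ≤ Yk ≤ wt`. -/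
def YbL : Prop := ∀ (h : Vec d) (k n : ℕ) (η : Env d),
  0 ≤ Yk ρ β h k η n ∧ Yk ρ β h k η n ≤ wt ρ β h η n

/-- A5: localisation. -/
def LocS : Prop := ∀ h : Vec d, (∃ k : ℕ, 1 < kap ρ β * rt h k) → SDm ρ β h → LocC ρ β h

/-- B1: the renewal inequality. -/
def RenL : Prop := ∀ h : Vec d, SDm ρ β h → LocC ρ β h → ∀ ε : ℝ, 0 < ε →
  ∃ (N T : ℕ) (α : ℕ → ℝ), 1 ≤ N ∧ N < T ∧ (∀ n, 0 ≤ α n) ∧ 2 ≤ ∑ n ∈ Finset.Ico N T, α n ∧
    ∀ m : ℕ, T ≤ m → ∑ n ∈ Finset.Ico N T, α n * Mo ρ β h ε (m - n) ≤ Mo ρ β h ε m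

/-- B3: luck. -/
def LucL : Prop := ∀ h : Vec d, GroC ρ β h → LucC ρ β h

open Classical in
/-- B4: the blocks. -/
def BlkL : Prop := ∀ (h : Vec d) (m B : ℕ) (u y : ℝ), 1 ≤ m → 0 < u → 0 < y →
  ∫ η, (if wt ρ β h η (B * m) < y * y * u then wt ρ β h η (B * m) else 0) ∂(law d ρ) ≤
    (1 - Qm ρ β h m u) ^ B + B * ((2 * ((B * m : ℕ) : ℝ) + 1) ^ d + 1) * y

/-- B5: the fractional moment. -/
def FraL : Prop := ∀ h : Vec d, (∃ n : ℕ, 1 ≤ n ∧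
  (2 * (n : ℝ) + 1) ^ d * ∫ η, Real.sqrt (wt ρ β h η n) ∂(law d ρ) < 1) → VSD ρ β h

/-- B6: from luck to the fractional moment. -/
def EndL : Prop := ∀ h : Vec d, LucC ρ β h → ∃ n : ℕ, 1 ≤ n ∧
  (2 * (n : ℝ) + 1) ^ d * ∫ η, Real.sqrt (wt ρ β h η n) ∂(law d ρ) < 1

/-- C1: the second moment. -/
def SecS : Prop := ∀ h : Vec d, (∀ k : ℕ, kap ρ β * rt h k ≤ 1) → ∀ n : ℕ,
  ∫ η, wt ρ β h η n ^ 2 ∂(law d ρ) ≤ 1 + (kap ρ β - 1) * n

end Leaves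

/-- B2: growth from the renewal inequality. -/
def ExpL : Prop := ∀ (M α : ℕ → ℝ) (N T : ℕ), 1 ≤ N → N < T → (∀ n, 0 ≤ α n) → (∀ m, 0 < M m) →
  2 ≤ ∑ n ∈ Finset.Ico N T, α n →
  (∀ m : ℕ, T ≤ m → ∑ n ∈ Finset.Ico N T, α n * M (m - n) ≤ M m) →
    ∃ c r : ℝ, 0 < c ∧ 1 < r ∧ ∀ m : ℕ, c * r ^ m ≤ M m

end Pool.Agent.W_7d29a1_SD
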