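import Pool.Agent.W_7d29a1_h46.Model

/-!
Convex geometry: if a convex function has a continuous field of slopes on a ball and is not affine
there, then on some segment the slope along the segment can be used as the parameter.
-/

namespace Pool.Agent.W_7d29a1_SD.Den2

open MeasureTheory Set Filter Topology Metric Pool.Agent.W_MP_7d29a1_pr Pool.Agent.W_7d29a1_h46

variable {d : ℕ}

/-- Slopes are monotone. -/
lemma mono2 {L : Vec d → ℝ} {h k p q : Vec d} (hp : ∀ x, L h + inner ℝ p (x - h) ≤ L x)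
    (hq : ∀ x, L k + inner ℝ q (x - k) ≤ L x) : 0 ≤ inner ℝ (q - p) (k - h) := by
  have h1 := hp k
  have h2 := hq h
  have h3 : inner ℝ q (h - k) = - inner ℝ q (k - h) := by rw [← inner_neg_right, neg_sub]
  rw [inner_sub_left]
  linarith

/-- Not affine: the field of slopes is not constant. -/
lemma nonconst2 {L : Vec d → ℝ} {w : Vec d → Vec d} {x₀ : Vec d} {r : ℝ} (hr : 0 < r)
    (hs : ∀ h ∈ ball x₀ r, ∀ x, L h + inner ℝ (w h) (x - h) ≤ L x)
    (hna : ∀ (v : Vec d) (c : ℝ), ∃ h ∈ ball x₀ r, L h ≠ c + inner ℝ h v) :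
    ∃ h ∈ ball x₀ r, w h ≠ w x₀ := by
  by_contra hcon
  push Not at hcon
  obtain ⟨h, hh, hne⟩ := hna (w x₀) (L x₀ - inner ℝ x₀ (w x₀))
  have hx : x₀ ∈ ball x₀ r := mem_ball_self hr
  have h1 := hs h hh x₀
  have h2 := hs x₀ hx h
  rw [hcon h hh] at h1
  refine hne ?_
  rw [inner_sub_right] at h1 h2
  rw [real_inner_comm (w x₀) h, real_inner_comm (w x₀) x₀]
  linarith

/-- Different slopes are different along the segment. -/
lemma strict2 {L : Vec d → ℝ} {w : Vec d → Vec d} {x₀ : Vec d} {r : ℝ}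
    (hs : ∀ h ∈ ball x₀ r, ∀ x, L h + inner ℝ (w h) (x - h) ≤ L x)
    (hc : ∀ h ∈ ball x₀ r, ∀ ε : ℝ, 0 < ε → ∃ δ : ℝ, 0 < δ ∧ ∀ k ∈ ball x₀ r, ‖h - k‖ < δ →
      ‖w h - w k‖ ≤ ε)
    {h k : Vec d} (hh : h ∈ ball x₀ r) (hk : k ∈ ball x₀ r) (hne : w h ≠ w k) :
    0 < inner ℝ (w k - w h) (k - h) := by
  by_contra hcon
  push Not at hcon
  -- the slope of `h` is a slope at `k`
  have hsk : ∀ x, L k + inner ℝ (w h) (x - k) ≤ L x := by
    intro x
    have h1 := hs k hk h
    have h2 := hs h hh x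
    have h3 : inner ℝ (w k) (h - k) = - inner ℝ (w k) (k - h) := by
      rw [← inner_neg_right, neg_sub]
    have h4 : inner ℝ (w h) (x - h) = inner ℝ (w h) (x - k) + inner ℝ (w h) (k - h) := by
      rw [← inner_add_right]
      congr 1
      abel
    rw [inner_sub_left] at hcon
    linarith
  set u : Vec d := w h - w k with hu
  have hu0 : 0 < ‖u‖ := norm_pos_iff.2 (sub_ne_zero.2 hne)
  obtain ⟨δ, hδ, H⟩ := hc k hk (‖u‖ / 2) (by positivity)
  rw [mem_ball, dist_eq_norm] at hk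
  have hg : 0 < r - ‖k - x₀‖ := by linarith
  set t : ℝ := min (δ / (2 * ‖u‖)) ((r - ‖k - x₀‖) / (2 * ‖u‖)) with ht
  have ht0 : 0 < t := lt_min (by positivity) (by positivity)
  have htu1 : t * ‖u‖ ≤ δ / 2 := by
    calc t * ‖u‖ ≤ δ / (2 * ‖u‖) * ‖u‖ :=
          mul_le_mul_of_nonneg_right (min_le_left _ _) hu0.le
      _ = δ / 2 := by field_simp
  have htu2 : t * ‖u‖ ≤ (r - ‖k - x₀‖) / 2 := by
    calc t * ‖u‖ ≤ (r - ‖k - x₀‖) / (2 * ‖u‖) * ‖u‖ :=
          mul_le_mul_of_nonneg_right (min_le_right _ _) hu0.le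
      _ = (r - ‖k - x₀‖) / 2 := by field_simp
  have hn : ‖t • u‖ = t * ‖u‖ := by rw [norm_smul, Real.norm_eq_abs, abs_of_pos ht0]
  have hkt : k + t • u ∈ ball x₀ r := by
    rw [mem_ball, dist_eq_norm]
    have e : k + t • u - x₀ = (k - x₀) + t • u := by abel
    rw [e]
    refine lt_of_le_of_lt (norm_add_le _ _) ?_
    rw [hn]
    linarith
  have h1 := H (k + t • u) hkt (by
    rw [sub_add_cancel_left, norm_neg, hn]
    linarith)
  have h2 := mono2 hsk (hs (k + t • u) hkt)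
  rw [add_sub_cancel_left, inner_smul_right] at h2
  have h3 : 0 ≤ inner ℝ (w (k + t • u) - w h) u := by
    by_contra hneg
    push Not at hneg
    have := mul_neg_of_pos_of_neg ht0 hneg
    linarith
  have h4 : w (k + t • u) - w h = -(w k - w (k + t • u)) - u := by rw [hu]; abel
  rw [h4, inner_sub_left, inner_neg_left, real_inner_self_eq_norm_sq] at h3
  have h5 : - inner ℝ (w k - w (k + t • u)) u ≤ ‖u‖ / 2 * ‖u‖ := by
    have h6 := abs_real_inner_le_norm (w k - w (k + t • u)) u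
    have h7 := (abs_le.1 h6).1
    have h8 : ‖w k - w (k + t • u)‖ * ‖u‖ ≤ ‖u‖ / 2 * ‖u‖ :=
      mul_le_mul_of_nonneg_right h1 hu0.le
    linarith
  nlinarith

/-- **The slope as a parameter.** -/
theorem geo2 {L : Vec d → ℝ} (hL : Continuous L) {w : Vec d → Vec d} {x₀ : Vec d} {r : ℝ}
    (hr : 0 < r) (hs : ∀ h ∈ ball x₀ r, ∀ x, L h + inner ℝ (w h) (x - h) ≤ L x)
    (hc : ∀ h ∈ ball x₀ r, ∀ ε : ℝ, 0 < ε → ∃ δ : ℝ, 0 < δ ∧ ∀ k ∈ ball x₀ r, ‖h - k‖ < δ →
      ‖w h - w k‖ ≤ ε)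
    (hna : ∀ (v : Vec d) (c : ℝ), ∃ h ∈ ball x₀ r, L h ≠ c + inner ℝ h v) :
    ∃ (h e : Vec d) (a₀ a₁ : ℝ) (s : ℝ → ℝ), (∀ t ∈ Icc (0 : ℝ) 1, h + t • e ∈ ball x₀ r) ∧
      a₀ < a₁ ∧ MonotoneOn s (Ioo a₀ a₁) ∧
      ∀ a ∈ Ioo a₀ a₁, s a ∈ Icc (0 : ℝ) 1 ∧ inner ℝ (w (h + s a • e)) e = a := by
  obtain ⟨k, hk, hne⟩ := nonconst2 hr hs hna
  set h := x₀ with hh
  have hx : h ∈ ball x₀ r := mem_ball_self hr
  set e : Vec d := k - h with he
  have hb : ∀ t ∈ Icc (0 : ℝ) 1, h + t • e ∈ ball x₀ r := by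
    intro t ht
    have h1 := (convex_ball x₀ r) hx hk (sub_nonneg.2 ht.2) ht.1 (by ring)
    have e1 : (1 - t) • h + t • k = h + t • e := by
      rw [he, sub_smul, one_smul, smul_sub]
      abel
    rwa [e1] at h1
  have hst := strict2 hs hc hx hk (Ne.symm hne)
  -- the slopes along the segment
  set g : ℝ → ℝ := fun t => inner ℝ (w (h + t • e)) e with hg
  have hgm : ∀ t ∈ Icc (0 : ℝ) 1, ∀ t' ∈ Icc (0 : ℝ) 1, t ≤ t' → g t ≤ g t' := by
    intro t ht t' ht' htt
    rcases htt.eq_or_lt with h1 | h1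
    · rw [h1]
    have h2 := mono2 (hs _ (hb t ht)) (hs _ (hb t' ht'))
    have e1 : h + t' • e - (h + t • e) = (t' - t) • e := by
      rw [sub_smul]
      abel
    rw [e1, inner_smul_right, inner_sub_left] at h2
    have h3 : 0 < t' - t := by linarith
    have h4 := nonneg_of_mul_nonneg_right h2 h3
    change inner ℝ (w (h + t • e)) e ≤ inner ℝ (w (h + t' • e)) e
    linarith
  have hg0 : g 0 = inner ℝ (w h) e := by
    change inner ℝ (w (h + (0 : ℝ) • e)) e = _
    rw [zero_smul, add_zero]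
  have hg1 : g 1 = inner ℝ (w k) e := by
    change inner ℝ (w (h + (1 : ℝ) • e)) e = _
    rw [one_smul, he, add_sub_cancel]
  have hlt : g 0 < g 1 := by
    rw [hg0, hg1]
    rw [inner_sub_left] at hst
    linarith
  -- continuity of the slope
  have hgc : ∀ t ∈ Icc (0 : ℝ) 1, ∀ ε : ℝ, 0 < ε → ∃ δ : ℝ, 0 < δ ∧ ∀ t' ∈ Icc (0 : ℝ) 1,
      |t - t'| < δ → |g t - g t'| ≤ ε := by
    intro t ht ε hε
    obtain ⟨δ, hδ, H⟩ := hc _ (hb t ht) (ε / (‖e‖ + 1)) (by positivity)
    refine ⟨δ / (‖e‖ + 1), by positivity, fun t' ht' htt => ?_⟩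
    have h1 := H _ (hb t' ht') (by
      have e1 : h + t • e - (h + t' • e) = (t - t') • e := by
        rw [sub_smul]
        abel
      rw [e1, norm_smul, Real.norm_eq_abs]
      rw [lt_div_iff₀ (by positivity)] at htt
      have : |t - t'| * ‖e‖ ≤ |t - t'| * (‖e‖ + 1) :=
        mul_le_mul_of_nonneg_left (by linarith) (abs_nonneg _)
      linarith)
    have h2 : g t - g t' = inner ℝ (w (h + t • e) - w (h + t' • e)) e := by
      rw [inner_sub_left]
    rw [h2]
    refine (abs_real_inner_le_norm _ _).trans ?_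
    have h3 : ‖w (h + t • e) - w (h + t' • e)‖ * ‖e‖ ≤ ε / (‖e‖ + 1) * (‖e‖ + 1) := by
      refine mul_le_mul h1 (by linarith) (norm_nonneg _) (by positivity)
    rwa [div_mul_cancel₀ _ (by positivity)] at h3
  -- every slope is attained
  have hex : ∀ a ∈ Ioo (g 0) (g 1), ∃ t ∈ Icc (0 : ℝ) 1, g t = a := by
    intro a ha
    have hφ : ContinuousOn (fun t : ℝ => L (h + t • e) - a * t) (Icc 0 1) := by
      apply Continuous.continuousOn
      fun_prop
    obtain ⟨t, ht, hmin⟩ := isCompact_Icc.exists_isMinOn (nonempty_Icc.2 zero_le_one) hφ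
    have hle : ∀ t' ∈ Icc (0 : ℝ) 1, t < t' → a ≤ g t' := by
      intro t' ht' htt
      have h1 : L (h + t • e) - a * t ≤ L (h + t' • e) - a * t' := hmin ht'
      have h2 := hs _ (hb t' ht') (h + t • e)
      have e1 : h + t • e - (h + t' • e) = -((t' - t) • e) := by
        rw [sub_smul]
        abel
      rw [e1, inner_neg_right, inner_smul_right] at h2
      have h3 : a * (t' - t) ≤ g t' * (t' - t) := by
        change a * (t' - t) ≤ inner ℝ (w (h + t' • e)) e * (t' - t)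
        nlinarith
      exact le_of_mul_le_mul_right h3 (by linarith)
    have hge : ∀ t' ∈ Icc (0 : ℝ) 1, t' < t → g t' ≤ a := by
      intro t' ht' htt
      have h1 : L (h + t • e) - a * t ≤ L (h + t' • e) - a * t' := hmin ht'
      have h2 := hs _ (hb t' ht') (h + t • e)
      have e1 : h + t • e - (h + t' • e) = (t - t') • e := by
        rw [sub_smul]
        abel
      rw [e1, inner_smul_right] at h2
      have h3 : g t' * (t - t') ≤ a * (t - t') := by
        change inner ℝ (w (h + t' • e)) e * (t - t') ≤ a * (t - t')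
        nlinarith
      exact le_of_mul_le_mul_right h3 (by linarith)
    have hA : t < 1 → a ≤ g t := by
      intro h1
      refine le_of_forall_pos_le_add fun ε hε => ?_
      obtain ⟨δ, hδ, H⟩ := hgc t ht ε hε
      set t' : ℝ := min 1 (t + δ / 2) with ht'
      have h2 : t < t' := lt_min h1 (by linarith)
      have h3 : t' ≤ 1 := min_le_left _ _
      have h4 : t' ≤ t + δ / 2 := min_le_right _ _
      have h5 : t' ∈ Icc (0 : ℝ) 1 := ⟨ht.1.trans h2.le, h3⟩
      have h6 := H t' h5 (by rw [abs_sub_comm, abs_of_pos (by linarith)]; linarith)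
      have h7 := hle t' h5 h2
      have h8 := (abs_le.1 h6).1
      linarith
    have hB : 0 < t → g t ≤ a := by
      intro h1
      refine le_of_forall_pos_le_add fun ε hε => ?_
      obtain ⟨δ, hδ, H⟩ := hgc t ht ε hε
      set t' : ℝ := max 0 (t - δ / 2) with ht'
      have h2 : t' < t := max_lt h1 (by linarith)
      have h3 : 0 ≤ t' := le_max_left _ _
      have h4 : t - δ / 2 ≤ t' := le_max_right _ _
      have h5 : t' ∈ Icc (0 : ℝ) 1 := ⟨h3, h2.le.trans ht.2⟩
      have h6 := H t' h5 (by rw [abs_of_pos (by linarith)]; linarith)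
      have h7 := hge t' h5 h2
      have h8 := (abs_le.1 h6).2
      linarith
    refine ⟨t, ht, ?_⟩
    rcases ht.1.eq_or_lt with h1 | h1
    · have h2 := hA (by rw [← h1]; norm_num)
      rw [← h1] at h2
      exact absurd ha.1 (not_lt.2 h2)
    · rcases ht.2.eq_or_lt with h3 | h3
      · have h4 := hB h1
        rw [h3] at h4
        exact absurd ha.2 (not_lt.2 h4)
      · exact le_antisymm (hB h1) (hA h3)
  choose! s hs1 hs2 using hex
  refine ⟨h, e, g 0, g 1, s, hb, hlt, ?_, fun a ha => ⟨hs1 a ha, hs2 a ha⟩⟩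
  intro a ha a' ha' haa
  by_contra hcon
  push Not at hcon
  have h1 := hgm (s a') (hs1 a' ha') (s a) (hs1 a ha) hcon.le
  rw [hs2 a ha, hs2 a' ha'] at h1
  have h2 : a = a' := le_antisymm haa h1
  rw [h2] at hcon
  exact lt_irrefl _ hcon

end Pool.Agent.W_7d29a1_SD.Den2
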