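import Pool.Agent.W_7d29a1_SD.Pair80

/-!
Tubes at two close tilts meet, and the pair lemma with the inner product.
-/

namespace Pool.Agent.W_7d29a1_SD.Den2

open MeasureTheory ProbabilityTheory Filter Topology Pool.Agent.W_MP_7d29a1_pr
  Pool.Agent.W_7d29a1_h46 Pool.Agent.W_7d29a1_h46u Pool.Agent.W_7d29a1_D2.B35
  Pool.Agent.W_7d29a1_Q29 Pool.Agent.W_7d29a1_NV Pool.Agent.W_7d29a1_SD.Pair80

variable {d : ℕ} {ρ : Measure ℝ} [IsProbabilityMeasure ρ] {β : ℝ}

/-- The end point is at distance at most `n`. -/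
lemma end2 {n : ℕ} (g : Vec d) (s : Fin n → Step d) :
    -(n * ‖g‖) ≤ inner ℝ g (emb (pos s n)) := by
  have h1 := (abs_le.1 (abs_real_inner_le_norm g (emb (pos s n)))).1
  have h2 : ‖emb (pos s n)‖ ≤ n := by
    rw [norm_emb]
    exact nrm_pos_le s n
  have h3 := mul_le_mul_of_nonneg_left h2 (norm_nonneg g)
  linarith

/-- The polymer measure depends mildly on the tilt. -/
lemma PolT_tilt2 (hd : 0 < d) {n : ℕ} (β : ℝ) (h k : Vec d) (η : Env d)
    (A : Set (Fin n → Step d)) :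
    PolT β k η A ≤ Real.exp (2 * (n * ‖h - k‖)) * PolT β h η A := by
  have hk0 := ZT_univ_pos (n := n) hd β k η
  have hh0 := ZT_univ_pos (n := n) hd β h η
  have h1 : Real.exp (-(n * ‖h - k‖)) * ZT β k η A ≤ ZT β h η A :=
    ZT_tilt_ge β k h η fun s _ => end2 (h - k) s
  have h2 : Real.exp (-(n * ‖h - k‖)) * ZT β h η (Set.univ : Set (Fin n → Step d)) ≤
      ZT β k η (Set.univ : Set (Fin n → Step d)) :=
    ZT_tilt_ge β h k η fun s _ => by
      have := end2 (k - h) s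
      rwa [norm_sub_rev k h] at this
  unfold PolT
  set x : ℝ := n * ‖h - k‖ with hx
  have e1 : Real.exp (-x) * Real.exp x = 1 := by rw [← Real.exp_add]; simp
  have h3 : ZT β k η A ≤ Real.exp x * ZT β h η A := by
    have := mul_le_mul_of_nonneg_left h1 (Real.exp_pos x).le
    calc ZT β k η A = Real.exp x * (Real.exp (-x) * ZT β k η A) := by
          rw [← mul_assoc, mul_comm (Real.exp x), e1, one_mul]
      _ ≤ _ := this
  have h4 : (ZT β k η (Set.univ : Set (Fin n → Step d)))⁻¹ ≤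
      Real.exp x * (ZT β h η (Set.univ : Set (Fin n → Step d)))⁻¹ := by
    have h5 := inv_anti₀ (by positivity) h2
    rw [mul_inv, ← Real.exp_neg, neg_neg] at h5
    exact h5
  have hA : 0 ≤ ZT β h η A := by
    unfold ZT
    refine Finset.sum_nonneg fun s _ => ?_
    split_ifs
    · exact (Real.exp_pos _).le
    · exact le_rfl
  rw [div_eq_mul_inv, div_eq_mul_inv]
  calc ZT β k η A * (ZT β k η (Set.univ : Set (Fin n → Step d)))⁻¹ ≤
      (Real.exp x * ZT β h η A) *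
        (Real.exp x * (ZT β h η (Set.univ : Set (Fin n → Step d)))⁻¹) :=
        mul_le_mul h3 h4 (inv_nonneg.2 hk0.le) (by positivity)
    _ = Real.exp (2 * x) * (ZT β h η A * (ZT β h η (Set.univ : Set (Fin n → Step d)))⁻¹) := by
        rw [two_mul, Real.exp_add]
        ring

lemma intP2 {n : ℕ} (h : Vec d) (A : Set (Fin n → Step d)) :
    Integrable (fun η : Env d => PolT β h η A) (law d ρ) :=
  Integrable.of_bound (measurable_PolT β h A).aestronglyMeasurable 1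
    (Filter.Eventually.of_forall fun η => by
      rw [Real.norm_eq_abs, abs_of_nonneg (PolT_nonneg β h η A)]
      exact PolT_le_one β h η A)

/-- The tubes of two close tilts meet. -/
lemma meet2 (hd : 0 < d) {h k v w : Vec d} {R R' : ℝ} {n : ℕ} (hn : 0 < n)
    (h1 : Tb ρ β h v R n ≤ 1 / 8) (h2 : Tb ρ β k w R' n ≤ 1 / 8)
    (hk : 4 * (n * ‖h - k‖) ≤ 1) : ‖v - w‖ * Real.sqrt n ≤ R + R' := by
  have hn0 : (0 : ℝ) < n := by exact_mod_cast hn
  have hs0 : 0 < Real.sqrt n := Real.sqrt_pos.2 hn0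
  have hss : Real.sqrt n * Real.sqrt n = n := Real.mul_self_sqrt hn0.le
  by_contra hcon
  push Not at hcon
  have hdis : Disjoint (tube d n w (R' * Real.sqrt n)) (tube d n v (R * Real.sqrt n)) := by
    rw [Set.disjoint_left]
    intro s hs1 hs2
    have g1 := hs1 n le_rfl
    have g2 := hs2 n le_rfl
    have g3 : (n : ℝ) • (v - w) =
        (emb (pos s n) - (n : ℝ) • w) - (emb (pos s n) - (n : ℝ) • v) := by
      rw [smul_sub]
      abel
    have g4 : ‖(n : ℝ) • (v - w)‖ ≤ R' * Real.sqrt n + R * Real.sqrt n := by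
      rw [g3]
      exact (norm_sub_le _ _).trans (add_le_add g1 g2)
    rw [norm_smul, Real.norm_eq_abs, abs_of_pos hn0] at g4
    have g5 : (R + R') * Real.sqrt n < (‖v - w‖ * Real.sqrt n) * Real.sqrt n :=
      mul_lt_mul_of_pos_right hcon hs0
    rw [mul_assoc, hss] at g5
    linarith
  have hle : ∀ η : Env d, PolT β k η (tube d n w (R' * Real.sqrt n)) ≤
      Real.exp (1 / 2) * (1 - PolT β h η (tube d n v (R * Real.sqrt n))) := by
    intro η
    have g1 := PolT_tilt2 hd β h k η (tube d n w (R' * Real.sqrt n))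
    have g2 : Real.exp (2 * (n * ‖h - k‖)) ≤ Real.exp (1 / 2) :=
      Real.exp_le_exp.2 (by linarith)
    have g3 : PolT β h η (tube d n w (R' * Real.sqrt n)) ≤
        1 - PolT β h η (tube d n v (R * Real.sqrt n)) := by
      have g4 := ZT_disjoint β h η hdis
      have g5 := ZT_univ_pos (n := n) hd β h η
      unfold PolT
      rw [le_sub_iff_add_le, ← add_div, div_le_one g5]
      exact g4
    refine g1.trans (mul_le_mul g2 g3 (PolT_nonneg β h η _) (Real.exp_pos _).le)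
  have hI := integral_mono (intP2 (ρ := ρ) (β := β) k (tube d n w (R' * Real.sqrt n)))
    (((integrable_const (1 : ℝ)).sub
      (intP2 (ρ := ρ) (β := β) h (tube d n v (R * Real.sqrt n)))).const_mul
        (Real.exp (1 / 2))) hle
  have e1 : ∫ η, (1 - PolT β k η (tube d n w (R' * Real.sqrt n))) ∂(law d ρ) =
      1 - ∫ η, PolT β k η (tube d n w (R' * Real.sqrt n)) ∂(law d ρ) := by
    rw [integral_sub (integrable_const _) (intP2 _ _)]
    simp
  unfold Tb at h1 h2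
  rw [e1] at h2
  have e2 : ∫ η, Real.exp (1 / 2) * (1 - PolT β h η (tube d n v (R * Real.sqrt n)))
      ∂(law d ρ) = Real.exp (1 / 2) *
        ∫ η, (1 - PolT β h η (tube d n v (R * Real.sqrt n))) ∂(law d ρ) := by
    rw [integral_const_mul]
  simp only [Pi.sub_apply] at hI
  rw [e2] at hI
  have e3 : Real.exp (1 / 2) ≤ 2 := by
    have g1 : Real.exp (1 / 2) * Real.exp (1 / 2) = Real.exp 1 := by
      rw [← Real.exp_add]
      norm_num
    have g2 := Real.exp_one_lt_d9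
    by_contra g3
    push Not at g3
    have g4 : (2 : ℝ) * 2 < Real.exp (1 / 2) * Real.exp (1 / 2) :=
      mul_lt_mul'' g3 g3 (by norm_num) (by norm_num)
    rw [g1] at g4
    linarith
  have e4 : Real.exp (1 / 2) *
      ∫ η, (1 - PolT β h η (tube d n v (R * Real.sqrt n))) ∂(law d ρ) ≤ 2 * (1 / 8) :=
    (mul_le_mul_of_nonneg_left h1 (Real.exp_pos _).le).trans
      (mul_le_mul_of_nonneg_right e3 (by norm_num))
  linarith

/-- The pair lemma with the inner product in place of the norms. -/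
theorem pairs2 (hd : 0 < d) (β : ℝ) {h₁ h₂ v₁ v₂ : Vec d} {n p : ℕ} {R K C ε : ℝ} (hR : 0 ≤ R)
    (hK : n * inner ℝ (h₂ - h₁) (v₂ - v₁) ≤ K) (hh : ‖h₂ - h₁‖ * Real.sqrt n ≤ C)
    (hp : 2 * R * Real.sqrt n < p * ‖v₂ - v₁‖) (hT₁ : Tb ρ β h₁ v₁ R n ≤ ε)
    (hT₂ : Tb ρ β h₂ v₂ R n ≤ ε) :
    RS ρ β h₁ n p (K + 2 * C * R + 6) (10 * ε) := by
  set r : ℝ := R * Real.sqrt n with hr
  have hlog : Real.log 2 < 0.7 := by
    have := Real.log_two_lt_d9
    linarith
  have hlog0 : 0 < Real.log 2 := Real.log_pos (by norm_num)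
  have hp' : 2 * r < p * ‖v₂ - v₁‖ := by
    rw [hr]
    linarith
  have hfst : MeasurePreserving (Prod.fst : Env d × Env d → Env d) ((law d ρ).prod (law d ρ))
      (law d ρ) := measurePreserving_fst
  have b1 := mkc80 hT₁ hfst
  have b2 := mkc80 hT₂ hfst
  have b3 := mkc80 hT₁ (mp_spl (ρ := ρ) (Sp d p v₁ r))
  have b4 := mkc80 hT₂ (mp_spl (ρ := ρ) (Sp d p v₁ r))
  have b5 := mkc80 hT₁ (mp_spl (ρ := ρ) (Pa d p))
  rw [← hr] at b1 b2 b3 b4 b5
  set B1 : Set (Env d × Env d) := {w | PolT β h₁ w.1 (tube d n v₁ r) < 1 / 2} with hB1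
  set B2 : Set (Env d × Env d) := {w | PolT β h₂ w.1 (tube d n v₂ r) < 1 / 2} with hB2
  set B3 : Set (Env d × Env d) :=
    {w | PolT β h₁ (spl (Sp d p v₁ r) w.1 w.2) (tube d n v₁ r) < 1 / 2} with hB3
  set B4 : Set (Env d × Env d) :=
    {w | PolT β h₂ (spl (Sp d p v₁ r) w.1 w.2) (tube d n v₂ r) < 1 / 2} with hB4
  set B5 : Set (Env d × Env d) :=
    {w | PolT β h₁ (spl (Pa d p) w.1 w.2) (tube d n v₁ r) < 1 / 2} with hB5
  have hsub : {w : Env d × Env d | K + 2 * C * R + 6 <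
      |X β h₁ w.1 n - X β h₁ (spl (Pa d p) w.1 w.2) n|} ⊆ (((B1 ∪ B2) ∪ B3) ∪ B4) ∪ B5 := by
    intro w hw
    by_contra hcon
    simp only [Set.mem_union, not_or] at hcon
    obtain ⟨⟨⟨⟨c1, c2⟩, c3⟩, c4⟩, c5⟩ := hcon
    have g1 : 1 / 2 ≤ PolT β h₁ w.1 (tube d n v₁ r) := not_lt.1 c1
    have g2 : 1 / 2 ≤ PolT β h₂ w.1 (tube d n v₂ r) := not_lt.1 c2
    have g3 : 1 / 2 ≤ PolT β h₁ (spl (Sp d p v₁ r) w.1 w.2) (tube d n v₁ r) := not_lt.1 c3
    have g4 : 1 / 2 ≤ PolT β h₂ (spl (Sp d p v₁ r) w.1 w.2) (tube d n v₂ r) := not_lt.1 c4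
    have g5 : 1 / 2 ≤ PolT β h₁ (spl (Pa d p) w.1 w.2) (tube d n v₁ r) := not_lt.1 c5
    have d1 := det80 hd g1 g2
    have d2 := det80 hd g3 g4
    have n2 := near80 hd g2
    have n3 := near80 hd g3
    have n4 := near80 hd g4
    have n5 := near80 hd g5
    rw [zt_one80 β h₁ v₁ r p w.1 w.2] at n5
    rw [zt_two80 β h₂ v₁ v₂ r p hp' w.1 w.2] at n2
    have e1 : ‖h₂ - h₁‖ * r ≤ C * R := by
      calc ‖h₂ - h₁‖ * r = (‖h₂ - h₁‖ * Real.sqrt n) * R := by rw [hr]; ring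
        _ ≤ C * R := mul_le_mul_of_nonneg_right hh hR
    have e2 : (n : ℝ) * inner ℝ (h₂ - h₁) v₂ - n * inner ℝ (h₂ - h₁) v₁ ≤ K := by
      rw [← mul_sub, ← inner_sub_right]
      exact hK
    have hw' : K + 2 * C * R + 6 <
        |X β h₁ w.1 n - X β h₁ (spl (Pa d p) w.1 w.2) n| := hw
    refine absurd hw' (not_lt.2 ?_)
    rw [abs_le]
    constructor
    · linarith [d1.1, d1.2, d2.1, d2.2, n2.1, n2.2, n3.1, n3.2, n4.1, n4.2, n5.1, n5.2]
    · linarith [d1.1, d1.2, d2.1, d2.2, n2.1, n2.2, n3.1, n3.2, n4.1, n4.2, n5.1, n5.2]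
  unfold RS
  have u0 := measureReal_mono (μ := (law d ρ).prod (law d ρ)) hsub
  have u1 := measureReal_union_le (μ := (law d ρ).prod (law d ρ)) (((B1 ∪ B2) ∪ B3) ∪ B4) B5
  have u2 := measureReal_union_le (μ := (law d ρ).prod (law d ρ)) ((B1 ∪ B2) ∪ B3) B4
  have u3 := measureReal_union_le (μ := (law d ρ).prod (law d ρ)) (B1 ∪ B2) B3
  have u4 := measureReal_union_le (μ := (law d ρ).prod (law d ρ)) B1 B2
  linarith

end Pool.Agent.W_7d29a1_SD.Den2
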