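import Pool.Agent.W_7d29a1_SD.DenR2
import Pool.Agent.W_7d29a1_SD.DenG2
import Pool.Agent.W_7d29a1_SD.DenP2
import Pool.Agent.W_7d29a1_SD.MainS70

/-!
Theorem SDU: in every open set of tilts of very strong disorder there is a tilt at which the polymer
is not diffusive around any line.
-/

namespace Pool.Agent.W_7d29a1_SD.Den2

open MeasureTheory ProbabilityTheory Set Filter Topology Metric Pool.Agent.W_MP_7d29a1_pr
  Pool.Agent.W_7d29a1_h46 Pool.Agent.W_7d29a1_h46u Pool.Agent.W_7d29a1_D2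
  Pool.Agent.W_7d29a1_Q29 Pool.Agent.W_7d29a1_NV

/-- Theorem SDU. -/
def MainSDU (d : ℕ) (ρ : Measure ℝ) (β : ℝ) : Prop := ∀ U : Set (Vec d), IsOpen U → U.Nonempty →
  (∀ h ∈ U, VSD ρ β h) → ∃ h ∈ U, ∀ v : Vec d, ¬ Dif ρ β h v

variable {d : ℕ} {ρ : Measure ℝ} [IsProbabilityMeasure ρ] {β : ℝ}

/-- Baire: on some ball the tilts with tubes of one radius are dense. -/
lemma baire2 {U : Set (Vec d)} (hU : IsOpen U) (hne : U.Nonempty) {w : Vec d → Vec d}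
    (hw : ∀ h ∈ U, Dif ρ β h (w h)) :
    ∃ (x₀ : Vec d) (r : ℝ) (R : ℕ), 0 < r ∧ ball x₀ r ⊆ U ∧
      ∀ h ∈ ball x₀ r, ∀ δ : ℝ, 0 < δ → ∃ k ∈ U, ‖h - k‖ < δ ∧
        ∀ n : ℕ, Tb ρ β k (w k) R n ≤ 1 / 8 := by
  set VR : ℕ → Set (Vec d) := fun R => {h | h ∈ U ∧ ∀ n : ℕ, Tb ρ β h (w h) R n ≤ 1 / 8} with hVR
  set F : Option ℕ → Set (Vec d) := fun o => match o with
    | none => Uᶜ
    | some R => closure (VR R) with hF
  have hFc : ∀ o, IsClosed (F o) := by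
    intro o
    cases o with
    | none => exact hU.isClosed_compl
    | some R => exact isClosed_closure
  have hcov : ⋃ o, F o = univ := by
    rw [eq_univ_iff_forall]
    intro h
    by_cases hh : h ∈ U
    · obtain ⟨R, hR⟩ := hw h hh (1 / 8) (by norm_num)
      obtain ⟨N, hN⟩ := exists_nat_ge R
      refine mem_iUnion.2 ⟨some N, subset_closure ⟨hh, fun n => ?_⟩⟩
      exact (Tb_anti β h (w h) n hN).trans (hR n)
    · exact mem_iUnion.2 ⟨none, hh⟩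
  obtain ⟨x₀, hx1, hx2⟩ := (dense_iUnion_interior_of_closed hFc hcov).inter_open_nonempty U hU hne
  obtain ⟨o, ho⟩ := mem_iUnion.1 hx2
  cases o with
  | none => exact absurd hx1 (interior_subset ho)
  | some R =>
    have hW : IsOpen (U ∩ interior (closure (VR R))) := hU.inter isOpen_interior
    obtain ⟨r, hr, hb⟩ := Metric.isOpen_iff.1 hW x₀ ⟨hx1, ho⟩
    refine ⟨x₀, r, R, hr, fun x hx => (hb hx).1, fun h hh δ hδ => ?_⟩
    have h1 : h ∈ closure (VR R) := interior_subset (hb hh).2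
    obtain ⟨k, hk, hkd⟩ := Metric.mem_closure_iff.1 h1 δ hδ
    rw [dist_eq_norm] at hkd
    exact ⟨k, hk.1, hkd, hk.2⟩

/-- The velocities of two close tilts. -/
lemma close2 (hd : 0 < d) {U : Set (Vec d)} {w : Vec d → Vec d}
    (hw : ∀ h ∈ U, Dif ρ β h (w h)) {x₀ : Vec d} {r : ℝ} {R : ℕ} (hb : ball x₀ r ⊆ U)
    (hde : ∀ h ∈ ball x₀ r, ∀ δ : ℝ, 0 < δ → ∃ k ∈ U, ‖h - k‖ < δ ∧
        ∀ n : ℕ, Tb ρ β k (w k) R n ≤ 1 / 8)
    {h k : Vec d} (hh : h ∈ ball x₀ r) (hk : k ∈ ball x₀ r) {n : ℕ} (hn : 0 < n)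
    (hnk : 4 * (n * ‖h - k‖) < 1) : ‖w h - w k‖ * Real.sqrt n ≤ 2 * R := by
  have hn0 : (0 : ℝ) < n := by exact_mod_cast hn
  have hs0 : 0 < Real.sqrt n := Real.sqrt_pos.2 hn0
  -- a close tilt of the dense set
  have near : ∀ x ∈ ball x₀ r, ∀ ε : ℝ, 0 < ε → ∀ δ : ℝ, 0 < δ → ∃ y ∈ U, ‖x - y‖ < δ ∧
      (∀ m : ℕ, Tb ρ β y (w y) R m ≤ 1 / 8) ∧ ‖w x - w y‖ ≤ ε := by
    intro x hx ε hε δ hδ
    obtain ⟨Rx, hRx⟩ := hw x (hb hx) (1 / 8) (by norm_num)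
    obtain ⟨m, hm⟩ := exists_nat_ge (((|Rx| + R) / ε) ^ 2 + 1)
    have hq : 0 ≤ ((|Rx| + R) / ε) ^ 2 := by positivity
    have hm0 : (0 : ℝ) < m := by linarith
    have hm1 : 0 < m := by exact_mod_cast hm0
    have hsm : (|Rx| + R) / ε ≤ Real.sqrt m := Real.le_sqrt_of_sq_le (by linarith)
    obtain ⟨y, hyU, hxy, hy⟩ := hde x hx (min δ (1 / (4 * m))) (lt_min hδ (by positivity))
    refine ⟨y, hyU, hxy.trans_le (min_le_left _ _), hy, ?_⟩
    have h1 : 4 * (m * ‖x - y‖) ≤ 1 := by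
      have h2 : ‖x - y‖ ≤ 1 / (4 * m) := hxy.le.trans (min_le_right _ _)
      rw [le_div_iff₀ (by positivity)] at h2
      linarith
    have h2 := meet2 hd hm1 (hRx m) (hy m) h1
    have h3 : Rx ≤ |Rx| := le_abs_self _
    have h4 : ‖w x - w y‖ * Real.sqrt m ≤ ε * Real.sqrt m := by
      rw [div_le_iff₀ hε] at hsm
      linarith
    exact le_of_mul_le_mul_right h4 (Real.sqrt_pos.2 hm0)
  refine le_of_forall_pos_le_add fun ε hε => ?_
  set ε' : ℝ := ε / (2 * Real.sqrt n) with hε'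
  have hε'0 : 0 < ε' := by positivity
  set δ : ℝ := (1 - 4 * (n * ‖h - k‖)) / (8 * n) with hδ
  have hδ0 : 0 < δ := div_pos (by linarith) (by positivity)
  obtain ⟨y, hy, hhy, hTy, hwy⟩ := near h hh ε' hε'0 δ hδ0
  obtain ⟨z, hz, hkz, hTz, hwz⟩ := near k hk ε' hε'0 δ hδ0
  have h1 : ‖y - z‖ ≤ ‖h - k‖ + 2 * δ := by
    have e : y - z = -(h - y) + (h - k) + (k - z) := by abel
    rw [e]
    refine (norm_add_le _ _).trans ?_
    have g1 := norm_add_le (-(h - y)) (h - k)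
    rw [norm_neg] at g1
    linarith
  have h2 : 4 * (n * ‖y - z‖) ≤ 1 := by
    have g1 : n * ‖y - z‖ ≤ n * (‖h - k‖ + 2 * δ) := mul_le_mul_of_nonneg_left h1 hn0.le
    have g2 : n * (2 * δ) = (1 - 4 * (n * ‖h - k‖)) / 4 := by
      rw [hδ]
      field_simp
      ring
    rw [mul_add, g2] at g1
    linarith
  have h3 := meet2 hd hn (hTy n) (hTz n) h2
  have h4 : ‖w h - w k‖ ≤ 2 * ε' + ‖w y - w z‖ := by
    have e : w h - w k = (w h - w y) + (w y - w z) + -(w k - w z) := by abel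
    rw [e]
    refine (norm_add_le _ _).trans ?_
    have g1 := norm_add_le (w h - w y) (w y - w z)
    rw [norm_neg]
    linarith
  have h5 := mul_le_mul_of_nonneg_right h4 hs0.le
  have h6 : (2 * ε' + ‖w y - w z‖) * Real.sqrt n = ε + ‖w y - w z‖ * Real.sqrt n := by
    rw [hε', add_mul]
    congr 1
    field_simp
  rw [h6] at h5
  linarith

/-- The velocity is continuous. -/
lemma cont2 (hd : 0 < d) {U : Set (Vec d)} {w : Vec d → Vec d}
    (hw : ∀ h ∈ U, Dif ρ β h (w h)) {x₀ : Vec d} {r : ℝ} {R : ℕ} (hb : ball x₀ r ⊆ U)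
    (hde : ∀ h ∈ ball x₀ r, ∀ δ : ℝ, 0 < δ → ∃ k ∈ U, ‖h - k‖ < δ ∧
        ∀ n : ℕ, Tb ρ β k (w k) R n ≤ 1 / 8) :
    ∀ h ∈ ball x₀ r, ∀ ε : ℝ, 0 < ε → ∃ δ : ℝ, 0 < δ ∧ ∀ k ∈ ball x₀ r, ‖h - k‖ < δ →
      ‖w h - w k‖ ≤ ε := by
  intro h hh ε hε
  obtain ⟨n, hn⟩ := exists_nat_ge ((2 * R / ε) ^ 2 + 1)
  have hq : 0 ≤ (2 * R / ε) ^ 2 := by positivity
  have hn0 : (0 : ℝ) < n := by linarith
  have hn1 : 0 < n := by exact_mod_cast hn0
  have hsn : 2 * R / ε ≤ Real.sqrt n := Real.le_sqrt_of_sq_le (by linarith)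
  refine ⟨1 / (4 * n), by positivity, fun k hk hhk => ?_⟩
  have h1 : 4 * (n * ‖h - k‖) < 1 := by
    rw [lt_div_iff₀ (by positivity)] at hhk
    linarith
  have h2 := close2 hd hw hb hde hh hk hn1 h1
  rw [div_le_iff₀ hε] at hsn
  have h3 : ‖w h - w k‖ * Real.sqrt n ≤ ε * Real.sqrt n := by linarith
  exact le_of_mul_le_mul_right h3 (Real.sqrt_pos.2 hn0)

/-- **Theorem SDU from its leaves.** -/
theorem mainSDU2 (hd : 0 < d) (hρ : EM ρ) (hN : NVR d ρ β) (hD : SubD d ρ β)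
    (hna : ∀ U : Set (Vec d), IsOpen U → U.Nonempty → ∀ (v : Vec d) (c : ℝ),
      ∃ h ∈ U, lam ρ β h ≠ c + inner ℝ h v) : MainSDU d ρ β := by
  classical
  intro U hU hne hV
  by_contra hcon
  push Not at hcon
  choose! w hw using hcon
  obtain ⟨x₀, r, R₀, hr, hb, hde⟩ := baire2 hU hne hw
  have hcv : ConvexOn ℝ Set.univ (lam ρ β : Vec d → ℝ) := lam_convex hd hρ β
  have hLc : Continuous (lam ρ β : Vec d → ℝ) := by
    rw [← continuousOn_univ]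
    exact hcv.continuousOn isOpen_univ
  have hs : ∀ h ∈ ball x₀ r, ∀ x, lam ρ β h + inner ℝ (w h) (x - h) ≤ lam ρ β x := by
    intro h hh x
    have h1 := hD h (w h) (hw h (hb hh)) (x - h)
    rwa [add_sub_cancel] at h1
  obtain ⟨h, e, a₀, a₁, s, hseg, ha, hmon, hsa⟩ := geo2 hLc hr hs (cont2 hd hw hb hde)
    (hna (ball x₀ r) isOpen_ball ⟨x₀, mem_ball_self hr⟩)
  -- the tilt of the slope `a`
  set H : ℝ → Vec d := fun a => h + s a • e with hH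
  set E : ℕ × ℕ → Set ℝ := fun q =>
    {a | a ∈ Ioo a₀ a₁ ∧ ∀ n : ℕ, Tb ρ β (H a) (w (H a)) q.2 n ≤ 1 / ((q.1 : ℝ) + 1)} with hE
  obtain ⟨a, haI, hann, C, δ, hC, hδ, hLip⟩ := exists_good ha hmon E
  have hHU : ∀ b ∈ Ioo a₀ a₁, H b ∈ U := fun b hb' => hb (hseg _ (hsa b hb').1)
  have he0 : 0 < ‖e‖ := by
    rw [norm_pos_iff]
    intro h0
    obtain ⟨b, hb1, hb2⟩ := exists_between ha
    have g1 := (hsa b ⟨hb1, hb2⟩).2
    obtain ⟨c, hc1, hc2⟩ := exists_between hb1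
    have g2 := (hsa c ⟨hc1, hc2.trans hb2⟩).2
    rw [h0, inner_zero_right] at g1 g2
    linarith
  have hDif := hw (H a) (hHU a haI)
  have hex : ∀ j : ℕ, ∃ R : ℕ, a ∈ E (j, R) := by
    intro j
    obtain ⟨R, hR⟩ := hDif (1 / ((j : ℝ) + 1)) (by positivity)
    obtain ⟨R', hR'⟩ := exists_nat_ge R
    exact ⟨R', haI, fun n => (Tb_anti β _ _ n hR').trans (hR n)⟩
  -- the resampling bound at all large times
  have key : ∀ (j R m₀ : ℕ), a ∈ E (j, R) → ∃ N : ℕ, ∀ n : ℕ, N ≤ n → ∀ m : ℕ, m ≤ m₀ →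
      RS ρ β (H a) (n + m) (n / 8)
        (C * (100 * ((R : ℝ) + 1) * ‖e‖) ^ 2 +
          2 * (C * (100 * ((R : ℝ) + 1) * ‖e‖) * ‖e‖) * R + 6) (10 * (1 / ((j : ℝ) + 1))) := by
    intro j R m₀ hjR
    obtain ⟨r₀, hr₀, hann'⟩ := hann (j, R) hjR
    set b : ℝ := 100 * ((R : ℝ) + 1) * ‖e‖ with hbdef
    have hb0 : 0 < b := by positivity
    have hmin : 0 < min r₀ δ := lt_min hr₀ hδ
    obtain ⟨N, hN'⟩ := exists_nat_ge ((b / min r₀ δ) ^ 2 + 1000 + m₀)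
    refine ⟨N, fun n hn m hm => ?_⟩
    have hnR : (N : ℝ) ≤ n := by exact_mod_cast hn
    have hmR : (m : ℝ) ≤ m₀ := by exact_mod_cast hm
    have hm0 : (0 : ℝ) ≤ m := Nat.cast_nonneg m
    have hsq : 0 ≤ (b / min r₀ δ) ^ 2 := by positivity
    have hn1000 : (1000 : ℝ) ≤ n := by linarith [Nat.cast_nonneg (α := ℝ) m₀]
    have hmn : (m : ℝ) ≤ n := by linarith
    set q : ℕ := n + m with hq
    have hqR : (q : ℝ) = n + m := by rw [hq]; push_cast; ring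
    have hq0 : (0 : ℝ) < q := by rw [hqR]; linarith
    have hs0 : 0 < Real.sqrt q := Real.sqrt_pos.2 hq0
    have hss : Real.sqrt q * Real.sqrt q = q := Real.mul_self_sqrt hq0.le
    have hr1 : b / Real.sqrt q ≤ min r₀ δ := by
      rw [div_le_iff₀ hs0, ← div_le_iff₀' hmin]
      apply Real.le_sqrt_of_sq_le
      rw [hqR]
      linarith [Nat.cast_nonneg (α := ℝ) m₀]
    obtain ⟨y, hy, hy1, hy2⟩ := hann' (b / Real.sqrt q) (by positivity)
      (hr1.trans (min_le_left _ _))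
    have hyd : |y - a| ≤ δ := hy2.trans (hr1.trans (min_le_right _ _))
    have h3 := hLip y hy.1 hyd
    have hy3 : |y - a| * Real.sqrt q ≤ b := by
      rwa [le_div_iff₀ hs0] at hy2
    have hHd : H y - H a = (s y - s a) • e := by
      change h + s y • e - (h + s a • e) = (s y - s a) • e
      rw [sub_smul]
      abel
    -- the slopes along the segment
    have hin : inner ℝ (w (H y) - w (H a)) e = y - a := by
      rw [inner_sub_left, (hsa y hy.1).2, (hsa a haI).2]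
    have hprod : inner ℝ (H y - H a) (w (H y) - w (H a)) = (s y - s a) * (y - a) := by
      rw [hHd, real_inner_smul_left, real_inner_comm, hin]
    have hvlow : |y - a| ≤ ‖w (H y) - w (H a)‖ * ‖e‖ := by
      rw [← hin]
      exact abs_real_inner_le_norm _ _
    refine pairs2 hd β (h₂ := H y) (v₂ := w (H y)) (R := R)
      (Nat.cast_nonneg R) ?_ ?_ ?_ (hjR.2 q) (hy.2 q)
    · rw [hprod]
      have h4 : (s y - s a) * (y - a) ≤ C * |y - a| * |y - a| := by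
        calc (s y - s a) * (y - a) ≤ |(s y - s a) * (y - a)| := le_abs_self _
          _ = |s y - s a| * |y - a| := abs_mul _ _
          _ ≤ C * |y - a| * |y - a| := mul_le_mul_of_nonneg_right h3 (abs_nonneg _)
      have h5 : (q : ℝ) * (C * |y - a| * |y - a|) = C * (|y - a| * Real.sqrt q) ^ 2 := by
        calc (q : ℝ) * (C * |y - a| * |y - a|) =
            (Real.sqrt q * Real.sqrt q) * (C * |y - a| * |y - a|) := by rw [hss]
          _ = _ := by ring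
      calc (q : ℝ) * ((s y - s a) * (y - a)) ≤ q * (C * |y - a| * |y - a|) :=
            mul_le_mul_of_nonneg_left h4 hq0.le
        _ = C * (|y - a| * Real.sqrt q) ^ 2 := h5
        _ ≤ C * b ^ 2 := mul_le_mul_of_nonneg_left
            (pow_le_pow_left₀ (by positivity) hy3 2) hC.le
    · rw [hHd, norm_smul, Real.norm_eq_abs]
      calc |s y - s a| * ‖e‖ * Real.sqrt q ≤ C * |y - a| * ‖e‖ * Real.sqrt q :=
            mul_le_mul_of_nonneg_right (mul_le_mul_of_nonneg_right h3 he0.le) hs0.le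
        _ = C * (|y - a| * Real.sqrt q) * ‖e‖ := by ring
        _ ≤ C * b * ‖e‖ :=
            mul_le_mul_of_nonneg_right (mul_le_mul_of_nonneg_left hy3 hC.le) he0.le
    · have h4 : (n : ℝ) / 8 - 1 ≤ ((n / 8 : ℕ) : ℝ) := by
        have h5 : n < 8 * (n / 8) + 8 := by omega
        have h6 : (n : ℝ) < 8 * ((n / 8 : ℕ) : ℝ) + 8 := by exact_mod_cast h5
        linarith
      have h5 : b / Real.sqrt q / 2 ≤ ‖w (H y) - w (H a)‖ * ‖e‖ := hy1.trans hvlow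
      have h6 : 100 * ((R : ℝ) + 1) / (2 * Real.sqrt q) ≤ ‖w (H y) - w (H a)‖ := by
        have e1 : b / Real.sqrt q / 2 = 100 * ((R : ℝ) + 1) / (2 * Real.sqrt q) * ‖e‖ := by
          rw [hbdef]
          field_simp
        rw [e1] at h5
        exact le_of_mul_le_mul_right h5 he0
      have h7 : ((n : ℝ) / 8 - 1) * (100 * ((R : ℝ) + 1) / (2 * Real.sqrt q)) ≤
          ((n / 8 : ℕ) : ℝ) * ‖w (H y) - w (H a)‖ :=
        mul_le_mul h4 h6 (by positivity) (Nat.cast_nonneg _)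
      refine lt_of_lt_of_le ?_ h7
      have e1 : ((n : ℝ) / 8 - 1) * (100 * ((R : ℝ) + 1) / (2 * Real.sqrt q)) =
          (((n : ℝ) / 8 - 1) * (100 * ((R : ℝ) + 1)) / 2) / Real.sqrt q := by
        field_simp
      rw [e1, lt_div_iff₀ hs0]
      have e2 : 2 * (R : ℝ) * Real.sqrt q * Real.sqrt q = 2 * R * q := by
        rw [mul_assoc (2 * (R : ℝ)), hss]
      rw [e2, hqR]
      have hR0 : (0 : ℝ) ≤ R := Nat.cast_nonneg R
      nlinarith [mul_nonneg hR0 (by linarith : (0 : ℝ) ≤ (n : ℝ) - m),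
        mul_nonneg hR0 (by linarith : (0 : ℝ) ≤ (n : ℝ) - 1000)]
  obtain ⟨δ₀, hδ₀, H₀⟩ := hN (H a) (hV _ (hHU a haI))
  obtain ⟨j₁, hj₁⟩ := exists_nat_ge (10 / δ₀)
  obtain ⟨R₁, hR₁⟩ := hex j₁
  obtain ⟨N₁, hN₁⟩ := key j₁ R₁ 0 hR₁
  obtain ⟨δ₂, hδ₂, H₂⟩ := H₀ (C * (100 * ((R₁ : ℝ) + 1) * ‖e‖) ^ 2 +
          2 * (C * (100 * ((R₁ : ℝ) + 1) * ‖e‖) * ‖e‖) * R₁ + 6)
  obtain ⟨j₂, hj₂⟩ := exists_nat_ge (10 / δ₂)
  obtain ⟨R₂, hR₂⟩ := hex j₂
  obtain ⟨m₀, H₃⟩ := H₂ (C * (100 * ((R₂ : ℝ) + 1) * ‖e‖) ^ 2 +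
          2 * (C * (100 * ((R₂ : ℝ) + 1) * ‖e‖) * ‖e‖) * R₂ + 6)
  obtain ⟨N₂, hN₂⟩ := key j₂ R₂ m₀ hR₂
  obtain ⟨n, hn, hcon⟩ := H₃ (max N₁ N₂)
  have hsmall : ∀ (j : ℕ) (δ : ℝ), 0 < δ → 10 / δ ≤ j → 10 * (1 / ((j : ℝ) + 1)) ≤ δ := by
    intro j δ hδ hj
    have hj0 : (0 : ℝ) < (j : ℝ) + 1 := by positivity
    rw [div_le_iff₀ hδ] at hj
    rw [mul_one_div, div_le_iff₀ hj0]
    nlinarith
  refine hcon ⟨?_, fun m hm => ?_⟩
  · have h1 := hN₁ n ((le_max_left _ _).trans hn) 0 le_rfl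
    rw [add_zero] at h1
    exact RS_mono (hsmall j₁ δ₀ hδ₀ hj₁) h1
  · exact RS_mono (hsmall j₂ δ₂ hδ₂ hj₂) (hN₂ n ((le_max_right _ _).trans hn) m hm)

end Pool.Agent.W_7d29a1_SD.Den2
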