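import Mathlib

/-!
Real variable lemmas: almost every point of an arbitrary set of reals has partners in the set at
every small distance, and a monotone function is locally Lipschitz at almost every point.
-/

namespace Pool.Agent.W_7d29a1_SD.Den2

open MeasureTheory Set Filter Topology Metric

/-- There are points of `s` in every small annulus around `v`. -/
def Ann (s : Set ℝ) (v : ℝ) : Prop :=
  ∃ r₀ : ℝ, 0 < r₀ ∧ ∀ r : ℝ, 0 < r → r ≤ r₀ → ∃ y ∈ s, r / 2 ≤ |y - v| ∧ |y - v| ≤ r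

/-- Almost every point of an arbitrary set `s` has points of `s` in every small annulus. -/
lemma ae_ann (s : Set ℝ) : ∀ᵐ v : ℝ, v ∈ s → Ann s v := by
  have h1 := Besicovitch.ae_tendsto_measure_inter_div (volume : Measure ℝ) s
  have h2 : ∀ᵐ v ∂(volume : Measure ℝ).restrict s, Ann s v := by
    filter_upwards [h1] with v hv
    have h3 : ∀ᶠ r in 𝓝[>] (0 : ℝ), (1 / 2 : ENNReal) <
        volume (s ∩ closedBall v r) / volume (closedBall v r) :=
      hv.eventually (lt_mem_nhds (by norm_num))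
    obtain ⟨r₀, hr₀, hr⟩ := mem_nhdsGT_iff_exists_Ioc_subset.1 h3
    refine ⟨r₀, hr₀, fun r h0 hr1 => ?_⟩
    have h4 : (1 / 2 : ENNReal) < volume (s ∩ closedBall v r) / volume (closedBall v r) :=
      hr ⟨h0, hr1⟩
    by_contra hcon
    push Not at hcon
    have h5 : s ∩ closedBall v r ⊆ closedBall v (r / 2) := by
      rintro y ⟨hy, hyr⟩
      rw [mem_closedBall, Real.dist_eq] at hyr ⊢
      by_contra h6
      push Not at h6
      exact absurd hyr (not_le.2 (hcon y hy h6.le))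
    have h6 : volume (closedBall v (r / 2)) ≤ (1 / 2 : ENNReal) * volume (closedBall v r) := by
      rw [Real.volume_closedBall, Real.volume_closedBall]
      have e : (1 / 2 : ENNReal) = ENNReal.ofReal (1 / 2) := by
        rw [ENNReal.ofReal_div_of_pos (by norm_num)]
        simp
      rw [e, ← ENNReal.ofReal_mul (by norm_num)]
      apply ENNReal.ofReal_le_ofReal
      linarith
    have h7 : volume (closedBall v r) ≠ 0 := (measure_closedBall_pos _ _ h0).ne'
    have h8 : volume (closedBall v r) ≠ ⊤ := measure_closedBall_lt_top.ne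
    have h9 : volume (s ∩ closedBall v r) / volume (closedBall v r) ≤ 1 / 2 := by
      rw [ENNReal.div_le_iff h7 h8]
      exact (measure_mono h5).trans h6
    exact absurd h4 (not_lt.2 h9)
  rw [ae_iff] at h2 ⊢
  refine measure_mono_null (fun v hv => ?_)
    (le_antisymm ((Measure.le_restrict_apply s {a | ¬ Ann s a}).trans h2.le) bot_le)
  rw [mem_setOf_eq, Classical.not_imp] at hv
  exact ⟨hv.2, hv.1⟩

/-- A point at which a monotone function is locally Lipschitz and which has partners in all the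
given sets which contain it. -/
lemma exists_good {ι : Type} [Countable ι] {a₀ a₁ : ℝ} (ha : a₀ < a₁) {s : ℝ → ℝ}
    (hs : MonotoneOn s (Ioo a₀ a₁)) (E : ι → Set ℝ) :
    ∃ a ∈ Ioo a₀ a₁, (∀ i, a ∈ E i → Ann (E i) a) ∧ ∃ C δ : ℝ, 0 < C ∧ 0 < δ ∧
      ∀ a' ∈ Ioo a₀ a₁, |a' - a| ≤ δ → |s a' - s a| ≤ C * |a' - a| := by
  have h1 : ∀ᵐ a : ℝ, ∀ i, a ∈ E i → Ann (E i) a := ae_all_iff.2 fun i => ae_ann (E i)
  have h2 : ∀ᵐ a : ℝ, a ∈ Ioo a₀ a₁ → DifferentiableWithinAt ℝ s (Ioo a₀ a₁) a :=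
    hs.ae_differentiableWithinAt_of_mem
  have h3 : ∀ᵐ a ∂(volume : Measure ℝ).restrict (Ioo a₀ a₁), (∀ i, a ∈ E i → Ann (E i) a) ∧
      DifferentiableWithinAt ℝ s (Ioo a₀ a₁) a ∧ a ∈ Ioo a₀ a₁ := by
    rw [ae_restrict_iff' measurableSet_Ioo]
    filter_upwards [h1, h2] with a ha1 ha2 haI
    exact ⟨ha1, ha2 haI, haI⟩
  have hne : (volume : Measure ℝ).restrict (Ioo a₀ a₁) ≠ 0 := by
    rw [Ne, Measure.restrict_eq_zero, Real.volume_Ioo]
    simp only [ENNReal.ofReal_eq_zero, not_le]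
    linarith
  haveI : NeBot (ae ((volume : Measure ℝ).restrict (Ioo a₀ a₁))) := ae_neBot.2 hne
  obtain ⟨a, ha1, ha2, haI⟩ := h3.exists
  refine ⟨a, haI, ha1, ?_⟩
  obtain ⟨s', hs'⟩ := ha2
  obtain ⟨C, hC, hbd⟩ := hs'.isBigO_sub.exists_pos
  rw [Asymptotics.isBigOWith_iff, eventually_nhdsWithin_iff, Metric.eventually_nhds_iff] at hbd
  obtain ⟨δ, hδ, H⟩ := hbd
  refine ⟨C, δ / 2, hC, by positivity, fun a' ha' hd => ?_⟩
  have h4 := H (y := a') (by rw [Real.dist_eq]; linarith) ha'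
  rwa [Real.norm_eq_abs, Real.norm_eq_abs] at h4

end Pool.Agent.W_7d29a1_SD.Den2
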