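import Pool.Agent.W_7d29a1_SD.Row30

/-!
Strong disorder is very strong disorder: leaf A2 (the drift).
-/

namespace Pool.Agent.W_7d29a1_SD

open MeasureTheory ProbabilityTheory Filter Topology Pool.Agent.W_MP_7d29a1_pr
  Pool.Agent.W_7d29a1_h46 Pool.Agent.W_7d29a1_h46u Pool.Agent.W_7d29a1_D2.B35
  Pool.Agent.W_7d29a1_Q29 Pool.Agent.W_7d29a1_P89

variable {d : ℕ} {ρ : Measure ℝ} [IsProbabilityMeasure ρ]

omit [IsProbabilityMeasure ρ] in
lemma frac30 {P a b : ℝ} (hP : 0 ≤ P) (ha : 0 < a) (hb : 0 < b) :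
    2 * P / a - P * b / a ^ 2 ≤ P / b := by
  rw [← sub_nonneg]
  have e3 : P / b - (2 * P / a - P * b / a ^ 2) = P * (a - b) ^ 2 / (b * a ^ 2) := by
    field_simp
    ring
  rw [e3]
  positivity

/-- **Leaf A2: the drift.** -/
theorem drL30 (hd : 0 < d) (hρ : EM ρ) (β : ℝ) : DrL d ρ β := by
  classical
  intro h k
  have hk := one_le_kap72 hρ β
  have hk3 := k3_nonneg30 hρ β
  refine ⟨2 * (kap ρ β + k3 ρ β) * ((boxF d (2 * k + 2)).card : ℝ), by positivity, ?_⟩
  intro n δ G hδ mG dG hG hGδ
  set g : Site d → ℝ := Ad h (gk h k) with hg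
  set K : ℝ := kap ρ β + k3 ρ β with hK
  have hK0 : 0 ≤ K := by rw [hK]; linarith
  set D : ℝ := ((boxF d (2 * k + 2)).card : ℝ) with hD
  have g0 : ∀ z, 0 ≤ g z := fun z => Ad_gk_nonneg30 h k z
  have g1 : ∀ z, g z ≤ 1 := fun z => Ad_gk_le_one30 hd h k z
  have hG0 : ∀ η, 0 ≤ G η := fun η => by rcases hG η with e | e <;> simp [e]
  have hG1 : ∀ η, G η ≤ 1 := fun η => by rcases hG η with e | e <;> simp [e]
  have Zp : ∀ η, 0 < wt ρ β h η n := fun η => wt_pos72 hd ρ β h η n
  have v0 : ∀ η x, 0 ≤ nu ρ β h η n x := fun η x => nu_nonneg72 ρ β h η n x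
  have v1 : ∀ η x, nu ρ β h η n x ≤ wt ρ β h η n := fun η x => nu_le_wt72 hd ρ β h η n x
  set q : Env d → Site d → ℝ := fun η x => nu ρ β h η n x / wt ρ β h η n with hq
  have q0 : ∀ η x, 0 ≤ q η x := fun η x => div_nonneg (v0 η x) (Zp η).le
  have q1 : ∀ η x, q η x ≤ 1 := fun η x => (div_le_one (Zp η)).2 (v1 η x)
  have qs : ∀ η, ∑ x ∈ boxF d (n + 1), q η x = 1 := fun η => by
    rw [hq]
    simp only
    rw [← Finset.sum_div, sum_nu_wt72 hd]
    exact div_self (Zp η).ne'
  have mq : ∀ x, Measurable fun η : Env d => q η x := fun x =>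
    (measurable_nu72 ρ β h n x).div (measurable_wt72 ρ β h n)
  have dq : ∀ x, DependsOn (fun η : Env d => q η x) {p : ℕ × Site d | p.1 ≤ n} := by
    intro x η η' hη
    have h1 := nu_dep72 ρ β h n x hη
    have h2 := wt_dep72 ρ β h n hη
    simp only [hq] at h1 h2 ⊢
    rw [h1, h2]
  -- the two families
  set F2 : Site d → Site d → Env d → ℝ :=
    fun x y η => G η * (g (x - y) * (nu ρ β h η n x * q η y)) with hF2
  set F3 : Site d → Site d → Site d → Env d → ℝ :=
    fun x y z η => G η * (g (x - y) * (nu ρ β h η n x * q η y)) * q η z with hF3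
  have F2n : ∀ x y η, 0 ≤ F2 x y η := fun x y η =>
    mul_nonneg (hG0 η) (mul_nonneg (g0 _) (mul_nonneg (v0 η x) (q0 η y)))
  have F3n : ∀ x y z η, 0 ≤ F3 x y z η := fun x y z η => mul_nonneg (F2n x y η) (q0 η z)
  have F2m : ∀ x y, Measurable (F2 x y) := fun x y =>
    mG.mul (((measurable_nu72 ρ β h n x).mul (mq y)).const_mul _)
  have F3m : ∀ x y z, Measurable (F3 x y z) := fun x y z => (F2m x y).mul (mq z)
  have F2d : ∀ x y, DependsOn (F2 x y) {p : ℕ × Site d | p.1 ≤ n} := by
    intro x y η η' hη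
    have h1 := dG hη
    have h2 := nu_dep72 ρ β h n x hη
    have h3 := dq y hη
    simp only [hF2] at h1 h2 h3 ⊢
    rw [h1, h2, h3]
  have F3d : ∀ x y z, DependsOn (F3 x y z) {p : ℕ × Site d | p.1 ≤ n} := by
    intro x y z η η' hη
    have h1 := F2d x y hη
    have h3 := dq z hη
    simp only [hF2, hF3] at h1 h3 ⊢
    rw [h1, h3]
  have F2le : ∀ x y η, F2 x y η ≤ wt ρ β h η n := by
    intro x y η
    have a1 : nu ρ β h η n x * q η y ≤ wt ρ β h η n := by
      calc nu ρ β h η n x * q η y ≤ wt ρ β h η n * 1 :=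
            mul_le_mul (v1 η x) (q1 η y) (q0 η y) (Zp η).le
        _ = wt ρ β h η n := mul_one _
    have a2 : g (x - y) * (nu ρ β h η n x * q η y) ≤ 1 * wt ρ β h η n :=
      mul_le_mul (g1 _) a1 (mul_nonneg (v0 η x) (q0 η y)) zero_le_one
    calc F2 x y η ≤ 1 * (1 * wt ρ β h η n) :=
          mul_le_mul (hG1 η) a2 (mul_nonneg (g0 _) (mul_nonneg (v0 η x) (q0 η y))) zero_le_one
      _ = wt ρ β h η n := by ring
  have F2i : ∀ x y, Integrable (F2 x y) (law d ρ) := fun x y =>
    (integrable_wt72 hd hρ β h n).mono (F2m x y).aestronglyMeasurable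
      (Eventually.of_forall fun η => by
        rw [Real.norm_of_nonneg (F2n x y η), Real.norm_of_nonneg (Zp η).le]
        exact F2le x y η)
  have F3i : ∀ x y z, Integrable (F3 x y z) (law d ρ) := fun x y z =>
    (F2i x y).mono (F3m x y z).aestronglyMeasurable
      (Eventually.of_forall fun η => by
        rw [Real.norm_of_nonneg (F3n x y z η), Real.norm_of_nonneg (F2n x y η)]
        exact mul_le_of_le_one_right (F2n x y η) (q1 η z))
  have R2 := fun x y => row_two72 hρ β n (F2m x y) (F2d x y) (F2i x y) x y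
  have R3 := fun x y z => row_three30 hρ β n (F3m x y z) (F3d x y z) (F3i x y z) (F3n x y z) x y z
  set B := boxF d (n + 1) with hB
  -- the lower bound of the next functional
  set L : Env d → ℝ := fun η => ∑ x ∈ B, ∑ y ∈ B,
    (2 * (F2 x y η * (xi ρ β (η (n + 1, x)) * xi ρ β (η (n + 1, y)))) -
      ∑ z ∈ B, F3 x y z η * (xi ρ β (η (n + 1, x)) * xi ρ β (η (n + 1, y)) *
        xi ρ β (η (n + 1, z)))) with hL
  have iL2 : ∀ x y, Integrable (fun η : Env d =>
      2 * (F2 x y η * (xi ρ β (η (n + 1, x)) * xi ρ β (η (n + 1, y))))) (law d ρ) :=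
    fun x y => (R2 x y).1.const_mul 2
  have iL3 : ∀ x y, Integrable (fun η : Env d => ∑ z ∈ B, F3 x y z η *
      (xi ρ β (η (n + 1, x)) * xi ρ β (η (n + 1, y)) * xi ρ β (η (n + 1, z)))) (law d ρ) :=
    fun x y => integrable_finsetSum _ fun z _ => (R3 x y z).1
  have iL : Integrable L (law d ρ) := integrable_finsetSum _ fun x _ =>
    integrable_finsetSum _ fun y _ => (iL2 x y).sub (iL3 x y)
  have iY : Integrable (fun η => G η * Yk ρ β h k η (n + 1)) (law d ρ) := by
    refine (integrable_wt72 hd hρ β h (n + 1)).mono' ?_ (Eventually.of_forall fun η => ?_)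
    · refine (mG.mul ?_).aestronglyMeasurable
      unfold Yk
      refine Measurable.div ?_ (measurable_wt72 ρ β h (n + 1))
      exact Finset.measurable_sum _ fun x _ => Finset.measurable_sum _ fun y _ =>
        ((measurable_w72 ρ β h _ x).mul (measurable_w72 ρ β h _ y)).mul_const _
    · have t := S62.ybL62 hd ρ β h k (n + 1) η
      rw [Real.norm_of_nonneg (mul_nonneg (hG0 η) t.1)]
      calc G η * Yk ρ β h k η (n + 1) ≤ 1 * wt ρ β h η (n + 1) :=
            mul_le_mul (hG1 η) t.2 t.1 zero_le_one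
        _ = _ := one_mul _
  have low : ∀ η, L η ≤ G η * Yk ρ β h k η (n + 1) := by
    intro η
    set P : ℝ := ∑ x ∈ B, ∑ y ∈ B, g (x - y) * (nu ρ β h η n x * nu ρ β h η n y) *
      (xi ρ β (η (n + 1, x)) * xi ρ β (η (n + 1, y))) with hP
    have hP0 : 0 ≤ P := Finset.sum_nonneg fun x _ => Finset.sum_nonneg fun y _ =>
      mul_nonneg (mul_nonneg (g0 _) (mul_nonneg (v0 η x) (v0 η y)))
        (mul_nonneg (xi_pos72 hρ β _).le (xi_pos72 hρ β _).le)
    have e1 : Yk ρ β h k η (n + 1) = P / wt ρ β h η (n + 1) := by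
      unfold Yk
      rw [hP]
      congr 1
      refine Finset.sum_congr rfl fun x _ => Finset.sum_congr rfl fun y _ => ?_
      rw [step72 hd hρ, step72 hd hρ]
      ring
    have e2 : L η = G η * (2 * P / wt ρ β h η n -
        P * wt ρ β h η (n + 1) / wt ρ β h η n ^ 2) := by
      rw [hL, hP, wt_succ72 hd hρ β h η n]
      simp only [mul_sub, Finset.sum_sub_distrib]
      congr 1
      · rw [Finset.mul_sum, Finset.sum_div, Finset.mul_sum]
        refine Finset.sum_congr rfl fun x _ => ?_
        rw [Finset.mul_sum, Finset.sum_div, Finset.mul_sum]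
        refine Finset.sum_congr rfl fun y _ => ?_
        simp only [hF2, hq]
        ring
      · rw [Finset.sum_mul, Finset.sum_div, Finset.mul_sum]
        refine Finset.sum_congr rfl fun x _ => ?_
        rw [Finset.sum_mul, Finset.sum_div, Finset.mul_sum]
        refine Finset.sum_congr rfl fun y _ => ?_
        rw [Finset.mul_sum, Finset.sum_div, Finset.mul_sum]
        refine Finset.sum_congr rfl fun z _ => ?_
        simp only [hF3, hq]
        ring
    rw [e1, e2]
    refine mul_le_mul_of_nonneg_left ?_ (hG0 η)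
    have a := Zp η
    have b := wt_pos72 hd ρ β h η (n + 1)
    exact frac30 hP0 a b
  -- the mean of the lower bound
  set M : Env d → ℝ := fun η => ∑ x ∈ B, ∑ y ∈ B,
    ((1 + (kap ρ β - 1) * (if x = y then 1 else 0)) * F2 x y η -
      K * (F3 x y x η + F3 x y y η)) with hM
  have iM2 : ∀ x y, Integrable (fun η : Env d =>
      (1 + (kap ρ β - 1) * (if x = y then 1 else 0)) * F2 x y η) (law d ρ) :=
    fun x y => (F2i x y).const_mul _
  have iM3 : ∀ x y, Integrable (fun η : Env d => K * (F3 x y x η + F3 x y y η)) (law d ρ) :=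
    fun x y => ((F3i x y x).add (F3i x y y)).const_mul _
  have iM23 : ∀ x y, Integrable (fun η : Env d =>
      (1 + (kap ρ β - 1) * (if x = y then 1 else 0)) * F2 x y η -
        K * (F3 x y x η + F3 x y y η)) (law d ρ) := fun x y => (iM2 x y).sub (iM3 x y)
  have iL23 : ∀ x y, Integrable (fun η : Env d =>
      (2 * (F2 x y η * (xi ρ β (η (n + 1, x)) * xi ρ β (η (n + 1, y)))) -
      ∑ z ∈ B, F3 x y z η * (xi ρ β (η (n + 1, x)) * xi ρ β (η (n + 1, y)) *
        xi ρ β (η (n + 1, z))))) (law d ρ) := fun x y => (iL2 x y).sub (iL3 x y)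
  have iM : Integrable M (law d ρ) := integrable_finsetSum _ fun x _ =>
    integrable_finsetSum _ fun y _ => iM23 x y
  have mean : ∫ η, M η ∂(law d ρ) ≤ ∫ η, L η ∂(law d ρ) := by
    rw [hM, hL]
    simp only
    rw [integral_finsetSum _ fun x _ => integrable_finsetSum _ fun y _ => iM23 x y,
      integral_finsetSum _ fun x _ => integrable_finsetSum _ fun y _ => iL23 x y]
    refine Finset.sum_le_sum fun x hx => ?_
    rw [integral_finsetSum _ fun y _ => iM23 x y, integral_finsetSum _ fun y _ => iL23 x y]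
    refine Finset.sum_le_sum fun y hy => ?_
    rw [integral_sub (iM2 x y) (iM3 x y), integral_sub (iL2 x y) (iL3 x y), integral_const_mul,
      integral_const_mul, integral_const_mul, integral_add (F3i x y x) (F3i x y y), (R2 x y).2,
      integral_finsetSum _ fun z _ => (R3 x y z).1]
    have s1 : ∑ z ∈ B, ∫ η, F3 x y z η ∂(law d ρ) = ∫ η, F2 x y η ∂(law d ρ) := by
      rw [← integral_finsetSum _ fun z _ => F3i x y z]
      refine integral_congr_ae (Eventually.of_forall fun η => ?_)
      simp only [hF3]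
      rw [← Finset.mul_sum, qs, mul_one]
    have s2 : ∑ z ∈ B, ∫ η, F3 x y z η * (xi ρ β (η (n + 1, x)) * xi ρ β (η (n + 1, y)) *
        xi ρ β (η (n + 1, z))) ∂(law d ρ) ≤
        (1 + (kap ρ β - 1) * (if x = y then 1 else 0)) * ∫ η, F2 x y η ∂(law d ρ) +
          K * (∫ η, F3 x y x η ∂(law d ρ) + ∫ η, F3 x y y η ∂(law d ρ)) := by
      refine (Finset.sum_le_sum fun z _ => (R3 x y z).2).trans (le_of_eq ?_)
      have e : ∀ z, (1 + (kap ρ β - 1) * (if x = y then 1 else 0) +
          (kap ρ β + k3 ρ β) * ((if x = z then 1 else 0) + (if y = z then 1 else 0))) *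
          ∫ η, F3 x y z η ∂(law d ρ) =
          (1 + (kap ρ β - 1) * (if x = y then 1 else 0)) * ∫ η, F3 x y z η ∂(law d ρ) +
            K * ((if x = z then ∫ η, F3 x y z η ∂(law d ρ) else 0) +
              (if y = z then ∫ η, F3 x y z η ∂(law d ρ) else 0)) := by
        intro z
        rw [hK]
        split_ifs <;> ring
      rw [Finset.sum_congr rfl fun z _ => e z, Finset.sum_add_distrib, ← Finset.mul_sum, s1,
        ← Finset.mul_sum, Finset.sum_add_distrib, Finset.sum_ite_eq, Finset.sum_ite_eq,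
        if_pos hx, if_pos hy]
    have s3 : ∀ a b c e : ℝ, e ≤ a * b + c → a * b - c ≤ 2 * (a * b) - e :=
      fun a b c e he => by linarith
    exact s3 _ _ _ _ s2
  -- the pointwise bound
  have pw : ∀ η, G η * Yk ρ β h k η n +
      (kap ρ β * rt h k - 1 - 2 * K * D * δ) * (G η * S2 ρ β h η n) ≤ M η := by
    intro η
    rcases hG η with e0 | e1
    · rw [hM]
      simp only [hF2, hF3, e0, zero_mul, mul_zero, add_zero, sub_zero, Finset.sum_const_zero]
      exact le_refl _
    · have hw := hGδ η e1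
      have hv : ∀ x, q η x ≤ δ := fun x => by
        rw [hq]
        exact (div_le_iff₀ (Zp η)).2 (nu_le_max72 hd ρ β h η n hw x)
      have hZ := Zp η
      set V : ℝ := ∑ x ∈ B, nu ρ β h η n x ^ 2 with hV
      have hV0 : 0 ≤ V := Finset.sum_nonneg fun x _ => sq_nonneg _
      have hS : S2 ρ β h η n = V / wt ρ β h η n := rfl
      have dg := diag30 ρ β h k η n
      have yk := yk30 hd ρ β h k η n
      rw [← yk, ← hB, ← hV, ← hg] at dg
      -- main part
      have m1 : ∑ x ∈ B, ∑ y ∈ B, (1 + (kap ρ β - 1) * (if x = y then 1 else 0)) * F2 x y η =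
          (∑ x ∈ B, ∑ y ∈ B, nu ρ β h η n x * nu ρ β h η n y * g (x - y)) / wt ρ β h η n +
            (kap ρ β - 1) * rt h k * (V / wt ρ β h η n) := by
        have e : ∀ x ∈ B, ∑ y ∈ B, (1 + (kap ρ β - 1) * (if x = y then 1 else 0)) * F2 x y η =
            (∑ y ∈ B, nu ρ β h η n x * nu ρ β h η n y * g (x - y)) / wt ρ β h η n +
              (kap ρ β - 1) * rt h k * (nu ρ β h η n x ^ 2 / wt ρ β h η n) := by
          intro x hx
          have e' : ∀ y, (1 + (kap ρ β - 1) * (if x = y then 1 else 0)) * F2 x y η =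
              nu ρ β h η n x * nu ρ β h η n y * g (x - y) / wt ρ β h η n +
              (if x = y then (kap ρ β - 1) * F2 x y η else 0) := by
            intro y
            have : F2 x y η = nu ρ β h η n x * nu ρ β h η n y * g (x - y) / wt ρ β h η n := by
              simp only [hF2, hq, e1]
              ring
            rw [← this]
            split_ifs <;> ring
          rw [Finset.sum_congr rfl fun y _ => e' y, Finset.sum_add_distrib, Finset.sum_ite_eq,
            if_pos hx, ← Finset.sum_div]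
          congr 1
          simp only [hF2, hq, e1, sub_self, hg]
          rw [show Ad h (gk h k) 0 = rt h k from rfl]
          ring
        rw [Finset.sum_congr rfl e, Finset.sum_add_distrib, ← Finset.sum_div, ← Finset.mul_sum,
          ← Finset.sum_div]
      -- the errors
      have near : ∀ x, ∑ y ∈ B, q η y * g (x - y) ≤ δ * D := fun x =>
        near30 hd h k B (fun y _ => q0 η y) (fun y _ => hv y) hδ.le x
      have m2 : ∑ x ∈ B, ∑ y ∈ B, F3 x y x η ≤ δ * D * (V / wt ρ β h η n) := by
        have e : ∀ x ∈ B, ∑ y ∈ B, F3 x y x η ≤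
            δ * D * (nu ρ β h η n x ^ 2 / wt ρ β h η n) := by
          intro x _
          have e' : ∑ y ∈ B, F3 x y x η =
              (∑ y ∈ B, q η y * g (x - y)) * (nu ρ β h η n x ^ 2 / wt ρ β h η n) := by
            rw [Finset.sum_mul]
            refine Finset.sum_congr rfl fun y _ => ?_
            simp only [hF3, e1, hq]
            ring
          rw [e']
          exact mul_le_mul_of_nonneg_right (near x) (div_nonneg (sq_nonneg _) hZ.le)
        refine (Finset.sum_le_sum e).trans (le_of_eq ?_)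
        rw [← Finset.mul_sum, ← Finset.sum_div]
      have m3 : ∑ x ∈ B, ∑ y ∈ B, F3 x y y η ≤ δ * D * (V / wt ρ β h η n) := by
        rw [Finset.sum_comm]
        have e : ∀ y ∈ B, ∑ x ∈ B, F3 x y y η ≤
            δ * D * (nu ρ β h η n y ^ 2 / wt ρ β h η n) := by
          intro y _
          have e' : ∑ x ∈ B, F3 x y y η =
              (∑ x ∈ B, q η x * g (y - x)) * (nu ρ β h η n y ^ 2 / wt ρ β h η n) := by
            rw [Finset.sum_mul]
            refine Finset.sum_congr rfl fun x _ => ?_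
            have e'' : g (x - y) = g (y - x) := by
              rw [hg, ← Ad_gk_neg30 h k (x - y), neg_sub]
            simp only [hF3, e1, hq]
            rw [e'']
            ring
          rw [e']
          exact mul_le_mul_of_nonneg_right (near y) (div_nonneg (sq_nonneg _) hZ.le)
        refine (Finset.sum_le_sum e).trans (le_of_eq ?_)
        rw [← Finset.mul_sum, ← Finset.sum_div]
      have eM : M η = ∑ x ∈ B, ∑ y ∈ B,
          (1 + (kap ρ β - 1) * (if x = y then 1 else 0)) * F2 x y η -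
            K * (∑ x ∈ B, ∑ y ∈ B, F3 x y x η + ∑ x ∈ B, ∑ y ∈ B, F3 x y y η) := by
        rw [hM]
        simp only [Finset.sum_sub_distrib, ← Finset.mul_sum, Finset.sum_add_distrib]
      have dg' : Yk ρ β h k η n + (rt h k - 1) * (V / wt ρ β h η n) ≤
          (∑ x ∈ B, ∑ y ∈ B, nu ρ β h η n x * nu ρ β h η n y * g (x - y)) /
            wt ρ β h η n := by
        rw [le_div_iff₀ hZ, add_mul]
        refine le_trans (le_of_eq ?_) dg
        congr 1
        rw [mul_assoc, div_mul_cancel₀ _ hZ.ne']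
      rw [eM, m1, e1, hS, one_mul, one_mul]
      have t1 : K * (∑ x ∈ B, ∑ y ∈ B, F3 x y x η + ∑ x ∈ B, ∑ y ∈ B, F3 x y y η) ≤
          K * (δ * D * (V / wt ρ β h η n) + δ * D * (V / wt ρ β h η n)) :=
        mul_le_mul_of_nonneg_left (add_le_add m2 m3) hK0
      linarith [t1, dg']
  -- end
  have iYn : Integrable (fun η => G η * Yk ρ β h k η n) (law d ρ) := by
    refine (integrable_wt72 hd hρ β h n).mono' ?_ (Eventually.of_forall fun η => ?_)
    · refine (mG.mul ?_).aestronglyMeasurable
      unfold Yk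
      refine Measurable.div ?_ (measurable_wt72 ρ β h n)
      exact Finset.measurable_sum _ fun x _ => Finset.measurable_sum _ fun y _ =>
        ((measurable_w72 ρ β h _ x).mul (measurable_w72 ρ β h _ y)).mul_const _
    · have t := S62.ybL62 hd ρ β h k n η
      rw [Real.norm_of_nonneg (mul_nonneg (hG0 η) t.1)]
      calc G η * Yk ρ β h k η n ≤ 1 * wt ρ β h η n :=
            mul_le_mul (hG1 η) t.2 t.1 zero_le_one
        _ = _ := one_mul _
  have iSn : Integrable (fun η => G η * S2 ρ β h η n) (law d ρ) := by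
    refine (integrable_wt72 hd hρ β h n).mono' ?_ (Eventually.of_forall fun η => ?_)
    · refine (mG.mul ?_).aestronglyMeasurable
      unfold S2
      refine Measurable.div ?_ (measurable_wt72 ρ β h n)
      exact Finset.measurable_sum _ fun x _ => (measurable_nu72 ρ β h n x).pow_const 2
    · have hZ := Zp η
      have s0 : 0 ≤ S2 ρ β h η n :=
        div_nonneg (Finset.sum_nonneg fun x _ => sq_nonneg _) hZ.le
      have s1 : S2 ρ β h η n ≤ wt ρ β h η n := by
        unfold S2
        rw [div_le_iff₀ hZ]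
        calc ∑ x ∈ boxF d (n + 1), nu ρ β h η n x ^ 2
            ≤ ∑ x ∈ boxF d (n + 1), nu ρ β h η n x * wt ρ β h η n := by
              refine Finset.sum_le_sum fun x _ => ?_
              rw [pow_two]
              exact mul_le_mul_of_nonneg_left (v1 η x) (v0 η x)
          _ = wt ρ β h η n * wt ρ β h η n := by rw [← Finset.sum_mul, sum_nu_wt72 hd]
      rw [Real.norm_of_nonneg (mul_nonneg (hG0 η) s0)]
      calc G η * S2 ρ β h η n ≤ 1 * wt ρ β h η n := mul_le_mul (hG1 η) s1 s0 zero_le_one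
        _ = _ := one_mul _
  calc ∫ η, G η * Yk ρ β h k η n ∂(law d ρ) +
        (kap ρ β * rt h k - 1 - 2 * K * D * δ) * ∫ η, G η * S2 ρ β h η n ∂(law d ρ)
      = ∫ η, (G η * Yk ρ β h k η n +
          (kap ρ β * rt h k - 1 - 2 * K * D * δ) * (G η * S2 ρ β h η n)) ∂(law d ρ) := by
        rw [integral_add iYn (iSn.const_mul _), integral_const_mul]
    _ ≤ ∫ η, M η ∂(law d ρ) :=
        integral_mono (iYn.add (iSn.const_mul _)) iM pw
    _ ≤ ∫ η, L η ∂(law d ρ) := mean
    _ ≤ ∫ η, G η * Yk ρ β h k η (n + 1) ∂(law d ρ) := integral_mono iL iY low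

end Pool.Agent.W_7d29a1_SD
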