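import Pool.Agent.W_7d29a1_SD.DefsS43
import Pool.Agent.W_7d29a1_Q29.Vsd61

/-!
Leaf B6: from luck to the fractional moment.
-/

namespace Pool.Agent.W_7d29a1_SD

open MeasureTheory ProbabilityTheory Filter Topology Pool.Agent.W_MP_7d29a1_pr
  Pool.Agent.W_7d29a1_h46 Pool.Agent.W_7d29a1_h46u Pool.Agent.W_7d29a1_D2.B35
  Pool.Agent.W_7d29a1_Q29 Pool.Agent.W_7d29a1_P89

variable {d : ℕ} {ρ : Measure ℝ} [IsProbabilityMeasure ρ]

omit [IsProbabilityMeasure ρ] in
lemma wt_pos61 (hd : 0 < d) (β : ℝ) (h : Vec d) (η : Env d) (n : ℕ) : 0 < wt ρ β h η n :=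
  ZH_pos hd _ η n

omit [IsProbabilityMeasure ρ] in
lemma measurable_wt61 (β : ℝ) (h : Vec d) (n : ℕ) : Measurable fun η : Env d => wt ρ β h η n :=
  measurable_ZH _ n

lemma integrable_wt61 (hd : 0 < d) (hρ : EM ρ) (β : ℝ) (h : Vec d) (n : ℕ) :
    Integrable (fun η => wt ρ β h η n) (law d ρ) := integrable_ZH hd hρ _ n

/-- The normalised partition function has mean one. -/
lemma int_wt61 (hd : 0 < d) (hρ : EM ρ) (β : ℝ) (h : Vec d) (n : ℕ) :
    ∫ η, wt ρ β h η n ∂(law d ρ) = 1 := by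
  have hP := Phi_pos61 hd h
  have hm0 : 0 < ∫ t, Real.exp (β * t) ∂ρ := integral_exp_pos (hρ β)
  have h1 := (annealed61 (d := d) hρ β h n).2
  unfold wt ZH Pn
  simp only
  rw [integral_const_mul, h1, ← Real.log_mul hP.ne' hm0.ne', ← Real.log_pow, ← Real.log_inv,
    Real.exp_log (inv_pos.2 (pow_pos (mul_pos hP hm0) _)),
    inv_mul_cancel₀ (pow_pos (mul_pos hP hm0) _).ne']

/-- The square root of the partition function. -/
lemma sqrt_wt61 (hd : 0 < d) (hρ : EM ρ) (β : ℝ) (h : Vec d) (n : ℕ) {q s : ℝ} (hq : 0 < q)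
    (hs : 0 < s) :
    open Classical in
    ∫ η, Real.sqrt (wt ρ β h η n) ∂(law d ρ) ≤
      (s + (∫ η, (if wt ρ β h η n < q then wt ρ β h η n else 0) ∂(law d ρ)) / s) / 2 +
        1 / Real.sqrt q := by
  classical
  have hI := integrable_wt61 (ρ := ρ) hd hρ β h n
  have hm := measurable_wt61 (ρ := ρ) β h n
  have hJ : Integrable (fun η => if wt ρ β h η n < q then wt ρ β h η n else 0) (law d ρ) := by
    refine hI.mono' (Measurable.ite (measurableSet_lt hm measurable_const) hm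
      measurable_const).aestronglyMeasurable (Eventually.of_forall fun η => ?_)
    have := wt_pos61 (ρ := ρ) hd β h η n
    split_ifs
    · rw [Real.norm_eq_abs, abs_of_pos this]
    · rw [norm_zero]; exact this.le
  have hS : Integrable (fun η => Real.sqrt (wt ρ β h η n)) (law d ρ) := by
    have := integrable_pow hd hρ (Pn ρ β h 1) n (t := 1 / 2) (by norm_num) (by norm_num)
    refine this.congr (Eventually.of_forall fun η => ?_)
    simp only
    rw [← Real.sqrt_eq_rpow]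
    rfl
  have hsq : 0 < Real.sqrt q := Real.sqrt_pos.2 hq
  have hpt : ∀ η, Real.sqrt (wt ρ β h η n) ≤
      (s + (if wt ρ β h η n < q then wt ρ β h η n else 0) / s) / 2 +
        wt ρ β h η n / Real.sqrt q := by
    intro η
    have hw := wt_pos61 (ρ := ρ) hd β h η n
    have hww : Real.sqrt (wt ρ β h η n) ^ 2 = wt ρ β h η n := Real.sq_sqrt hw.le
    have hw1 := Real.sqrt_pos.2 hw
    split_ifs with hlt
    · have h1 : Real.sqrt (wt ρ β h η n) ≤ (s + wt ρ β h η n / s) / 2 := by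
        have h2 : (s + wt ρ β h η n / s) / 2 - Real.sqrt (wt ρ β h η n) =
            (s - Real.sqrt (wt ρ β h η n)) ^ 2 / (2 * s) := by
          field_simp
          nlinarith [hww]
        have h3 : 0 ≤ (s - Real.sqrt (wt ρ β h η n)) ^ 2 / (2 * s) := by positivity
        linarith
      have h4 : 0 ≤ wt ρ β h η n / Real.sqrt q := by positivity
      linarith
    · have h5 : Real.sqrt q ≤ Real.sqrt (wt ρ β h η n) := Real.sqrt_le_sqrt (not_lt.1 hlt)
      have h6 : Real.sqrt (wt ρ β h η n) ≤ wt ρ β h η n / Real.sqrt q := by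
        rw [le_div_iff₀ hsq]
        calc Real.sqrt (wt ρ β h η n) * Real.sqrt q ≤
            Real.sqrt (wt ρ β h η n) * Real.sqrt (wt ρ β h η n) :=
              mul_le_mul_of_nonneg_left h5 hw1.le
          _ = wt ρ β h η n := Real.mul_self_sqrt hw.le
      have h7 : 0 ≤ (s + 0 / s) / 2 := by positivity
      linarith
  have hK0 : Integrable (fun η => s + (if wt ρ β h η n < q then wt ρ β h η n else 0) / s)
      (law d ρ) := (integrable_const s).add (hJ.div_const s)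
  have hK : Integrable (fun η => (s + (if wt ρ β h η n < q then wt ρ β h η n else 0) / s) / 2)
      (law d ρ) := hK0.div_const 2
  have hI' : Integrable (fun η => wt ρ β h η n / Real.sqrt q) (law d ρ) := hI.div_const _
  have hE0 : ∫ η, (s + (if wt ρ β h η n < q then wt ρ β h η n else 0) / s) ∂(law d ρ) =
      s + (∫ η, (if wt ρ β h η n < q then wt ρ β h η n else 0) ∂(law d ρ)) / s := by
    rw [integral_add (integrable_const s) (hJ.div_const s), integral_div]
    simp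
  calc ∫ η, Real.sqrt (wt ρ β h η n) ∂(law d ρ)
      ≤ ∫ η, ((s + (if wt ρ β h η n < q then wt ρ β h η n else 0) / s) / 2 +
        wt ρ β h η n / Real.sqrt q) ∂(law d ρ) :=
        integral_mono hS (hK.add hI') hpt
    _ = _ := by
        rw [integral_add hK hI', integral_div, integral_div, hE0, int_wt61 hd hρ β h n]

/-- The probability of luck. -/
lemma Qm_le61 (hd : 0 < d) (hρ : EM ρ) (β : ℝ) (h : Vec d) (m : ℕ) (u : ℝ) :
    Qm ρ β h m u ≤ 1 := by
  classical
  rw [← int_wt61 (ρ := ρ) hd hρ β h m]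
  unfold Qm
  have h1 : ∀ η, ∑ x ∈ boxF d m, (if u ≤ w ρ β h η m x then w ρ β h η m x else 0) ≤
      wt ρ β h η m := by
    intro η
    unfold wt
    rw [ZH_eq]
    refine Finset.sum_le_sum fun x _ => ?_
    have := W_nonneg (Pn ρ β h 1) η m x
    split_ifs
    · exact le_rfl
    · exact this
  have h0 : ∀ η, 0 ≤ ∑ x ∈ boxF d m, (if u ≤ w ρ β h η m x then w ρ β h η m x else 0) := by
    intro η
    refine Finset.sum_nonneg fun x _ => ?_
    have := W_nonneg (Pn ρ β h 1) η m x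
    split_ifs
    · exact this
    · exact le_rfl
  refine integral_mono_of_nonneg (Eventually.of_forall h0) (integrable_wt61 hd hρ β h m)
    (Eventually.of_forall h1)

/-- The numbers. -/
lemma numE61 (d : ℕ) {c : ℝ} (hc : 0 < c) : ∀ᶠ u : ℝ in atTop,
    1 ≤ u ∧ (6 * (Real.log u / c)) ^ d ≤ u ^ ((1 : ℝ) / 256) ∧
      Real.log u ≤ u ^ ((1 : ℝ) / (32 * (d + 1))) ∧ 4 < u ^ ((6 : ℝ) / 256) := by
  have hd1 : (0 : ℝ) < (d : ℝ) + 1 := by positivity
  have h1 : ∀ᶠ u : ℝ in atTop, (1 : ℝ) ≤ u := eventually_ge_atTop 1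
  have h2 : ∀ᶠ u : ℝ in atTop, Real.log u ≤ u ^ ((1 : ℝ) / (32 * (d + 1))) := by
    have h := (isLittleO_log_rpow_atTop (r := (1 : ℝ) / (32 * (d + 1))) (by positivity)).bound
      (c := 1) one_pos
    filter_upwards [h, h1] with u hu h1u
    rw [one_mul, Real.norm_eq_abs, Real.norm_eq_abs,
      abs_of_nonneg (Real.rpow_nonneg (by linarith) _)] at hu
    exact (le_abs_self _).trans hu
  have h3 : ∀ᶠ u : ℝ in atTop, 4 < u ^ ((6 : ℝ) / 256) :=
    (tendsto_rpow_atTop (by norm_num)).eventually_gt_atTop 4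
  have h4 : ∀ᶠ u : ℝ in atTop, (6 * (Real.log u / c)) ^ d ≤ u ^ ((1 : ℝ) / 256) := by
    have h := (isLittleO_log_rpow_atTop (r := (1 : ℝ) / (256 * (d + 1))) (by positivity)).bound
      (c := c / 6) (by positivity)
    filter_upwards [h, h1] with u hu h1u
    have hu0 : (0 : ℝ) < u := by linarith
    rw [Real.norm_eq_abs, Real.norm_eq_abs,
      abs_of_nonneg (Real.rpow_nonneg (by linarith) _), abs_of_nonneg (Real.log_nonneg h1u)] at hu
    have h5 : 6 * (Real.log u / c) ≤ u ^ ((1 : ℝ) / (256 * (d + 1))) := by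
      have : 6 * (Real.log u / c) = Real.log u / (c / 6) := by field_simp
      rw [this, div_le_iff₀ (by positivity)]
      linarith
    calc (6 * (Real.log u / c)) ^ d ≤ (u ^ ((1 : ℝ) / (256 * (d + 1)))) ^ d :=
          pow_le_pow_left₀ (by have := Real.log_nonneg h1u; positivity) h5 d
      _ = u ^ ((1 : ℝ) / (256 * (d + 1)) * d) := by
          rw [← Real.rpow_natCast, ← Real.rpow_mul hu0.le]
      _ ≤ u ^ ((1 : ℝ) / 256) := by
          refine Real.rpow_le_rpow_of_exponent_le h1u ?_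
          rw [div_mul_eq_mul_div, div_le_div_iff₀ (by positivity) (by norm_num)]
          nlinarith
  filter_upwards [h1, h2, h3, h4] with u a b c' d'
  exact ⟨a, d', b, c'⟩

/-- Leaf B6. -/
theorem endL61 (hd : 0 < d) (hρ : EM ρ) (β : ℝ) (hB : BlkL d ρ β) : EndL d ρ β := by
  classical
  intro h hL
  have hd1 : (0 : ℝ) < (d : ℝ) + 1 := by positivity
  obtain ⟨c, hc, hm⟩ := hL (1 / (32 * (d + 1))) (by positivity)
  obtain ⟨u₀, hu₀⟩ := eventually_atTop.1 (numE61 d hc)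
  have hE : ∀ᶠ m : ℕ in atTop, u₀ ≤ Real.exp (c * m) :=
    (Real.tendsto_exp_atTop.comp (tendsto_natCast_atTop_atTop.const_mul_atTop hc)).eventually_ge_atTop
      u₀
  obtain ⟨m, ⟨⟨u, hu1, hu2⟩, hm0⟩, hm1⟩ := ((hm.and hE).and (eventually_ge_atTop 1)).exists
  obtain ⟨ha, hb, hl, h4⟩ := hu₀ u (hm0.trans hu1)
  have hu0 : 0 < u := by linarith
  have hmR : (1 : ℝ) ≤ m := by exact_mod_cast hm1
  obtain ⟨ε, hε⟩ : ∃ ε : ℝ, ε = 1 / (32 * (d + 1)) := ⟨_, rfl⟩
  have hε0 : 0 < ε := by rw [hε]; positivity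
  rw [← hε] at hu2 hl
  -- the number of blocks
  obtain ⟨B, hBdef⟩ : ∃ B : ℕ, B = ⌈u ^ (2 * ε)⌉₊ := ⟨_, rfl⟩
  have hB1 : u ^ (2 * ε) ≤ B := by rw [hBdef]; exact Nat.le_ceil _
  have hone : 1 ≤ u ^ (2 * ε) := Real.one_le_rpow ha (by positivity)
  have hB2 : (B : ℝ) ≤ 2 * u ^ (2 * ε) := by
    have := Nat.ceil_lt_add_one (Real.rpow_nonneg hu0.le (2 * ε))
    rw [← hBdef] at this
    linarith
  have hB3 : 1 ≤ B := by
    have : (1 : ℝ) ≤ B := hone.trans hB1
    exact_mod_cast this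
  have hB3R : (1 : ℝ) ≤ B := by exact_mod_cast hB3
  obtain ⟨n, hn⟩ : ∃ n : ℕ, n = B * m := ⟨_, rfl⟩
  have hn1 : 1 ≤ n := by rw [hn]; exact Nat.one_le_iff_ne_zero.2 (by positivity)
  have hn1R : (1 : ℝ) ≤ n := by exact_mod_cast hn1
  refine ⟨n, hn1, ?_⟩
  -- the size of the box
  have hlog : (m : ℝ) ≤ Real.log u / c := by
    rw [le_div_iff₀ hc]
    have := (Real.le_log_iff_exp_le hu0).2 hu1
    linarith
  obtain ⟨N, hN⟩ : ∃ N : ℝ, N = (2 * (n : ℝ) + 1) ^ d := ⟨_, rfl⟩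
  have hN1 : 1 ≤ N := by rw [hN]; exact one_le_pow₀ (by linarith)
  have hNle : N ≤ u ^ (2 * ε * d) * u ^ ((1 : ℝ) / 256) := by
    rw [hN]
    have h1 : 2 * (n : ℝ) + 1 ≤ u ^ (2 * ε) * (6 * (Real.log u / c)) := by
      have h2 : (n : ℝ) = B * m := by rw [hn]; push_cast; ring
      have h3 : (n : ℝ) ≤ 2 * u ^ (2 * ε) * (Real.log u / c) := by
        rw [h2]
        exact mul_le_mul hB2 hlog (by positivity) (by positivity)
      linarith
    calc (2 * (n : ℝ) + 1) ^ d ≤ (u ^ (2 * ε) * (6 * (Real.log u / c))) ^ d :=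
          pow_le_pow_left₀ (by positivity) h1 d
      _ = u ^ (2 * ε * d) * (6 * (Real.log u / c)) ^ d := by
          rw [mul_pow, ← Real.rpow_natCast (u ^ (2 * ε)), ← Real.rpow_mul hu0.le]
      _ ≤ _ := mul_le_mul_of_nonneg_left hb (Real.rpow_nonneg hu0.le _)
  have hed : 2 * ε * (d + 1) = 1 / 16 := by rw [hε]; field_simp; norm_num
  have hNle' : N ≤ u ^ ((17 : ℝ) / 256) := by
    refine hNle.trans ?_
    rw [← Real.rpow_add hu0]
    refine Real.rpow_le_rpow_of_exponent_le ha ?_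
    nlinarith
  have hBN : (B : ℝ) * N ≤ 2 * u ^ ((17 : ℝ) / 256) := by
    calc (B : ℝ) * N ≤ (2 * u ^ (2 * ε)) * (u ^ (2 * ε * d) * u ^ ((1 : ℝ) / 256)) :=
          mul_le_mul hB2 hNle (by linarith) (by positivity)
      _ = 2 * u ^ ((17 : ℝ) / 256) := by
          rw [mul_assoc, ← Real.rpow_add hu0, ← Real.rpow_add hu0]
          congr 2
          linarith
  -- the blocks
  obtain ⟨y, hy⟩ : ∃ y : ℝ, y = u ^ (-((64 : ℝ) / 256)) := ⟨_, rfl⟩
  have hy0 : 0 < y := by rw [hy]; positivity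
  have hq : y * y * u = u ^ ((128 : ℝ) / 256) := by
    rw [hy, ← Real.rpow_add hu0]
    nth_rewrite 2 [← Real.rpow_one u]
    rw [← Real.rpow_add hu0]
    norm_num
  have hblk := hB h m B u y hm1 hu0 hy0
  rw [← hn] at hblk
  -- the exponential term
  have hQ1 := Qm_le61 (ρ := ρ) hd hρ β h m u
  have hpow : (1 - Qm ρ β h m u) ^ B ≤ u ^ (-((256 : ℝ) / 256)) := by
    have h1 : (1 - Qm ρ β h m u) ^ B ≤ Real.exp (-Qm ρ β h m u) ^ B :=
      pow_le_pow_left₀ (by linarith) (by have := Real.add_one_le_exp (-Qm ρ β h m u); linarith) B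
    refine h1.trans ?_
    rw [← Real.exp_nat_mul]
    have h2 : (B : ℝ) * -Qm ρ β h m u ≤ -Real.log u := by
      have h3 : u ^ ε ≤ B * Qm ρ β h m u := by
        calc u ^ ε = u ^ (2 * ε) * u ^ (-ε) := by
              rw [← Real.rpow_add hu0]; congr 1; ring
          _ ≤ B * Qm ρ β h m u := mul_le_mul hB1 hu2 (by positivity) (by positivity)
      nlinarith
    calc Real.exp (B * -Qm ρ β h m u) ≤ Real.exp (-Real.log u) := Real.exp_le_exp.2 h2
      _ = u ^ (-((256 : ℝ) / 256)) := by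
          rw [Real.rpow_def_of_pos hu0]; congr 1; ring
  -- the bound of the truncated mean
  have hb1 : (∫ η, (if wt ρ β h η n < y * y * u then wt ρ β h η n else 0) ∂(law d ρ)) ≤
      5 * u ^ (-((47 : ℝ) / 256)) := by
    refine hblk.trans ?_
    have h1 : (B : ℝ) * ((2 * (n : ℝ) + 1) ^ d + 1) * y ≤ 4 * u ^ (-((47 : ℝ) / 256)) := by
      rw [← hN]
      calc (B : ℝ) * (N + 1) * y ≤ (B : ℝ) * (N + N) * y := by
            have : (B : ℝ) * (N + 1) ≤ (B : ℝ) * (N + N) :=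
              mul_le_mul_of_nonneg_left (by linarith) (by linarith)
            exact mul_le_mul_of_nonneg_right this hy0.le
        _ = 2 * (B * N) * y := by ring
        _ ≤ 2 * (2 * u ^ ((17 : ℝ) / 256)) * y :=
            mul_le_mul_of_nonneg_right (by linarith) hy0.le
        _ = 4 * (u ^ ((17 : ℝ) / 256) * y) := by ring
        _ = 4 * u ^ (-((47 : ℝ) / 256)) := by
            rw [hy, ← Real.rpow_add hu0]; congr 2; norm_num
    have h2 : u ^ (-((256 : ℝ) / 256)) ≤ u ^ (-((47 : ℝ) / 256)) :=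
      Real.rpow_le_rpow_of_exponent_le ha (by norm_num)
    linarith
  -- the end
  have hs0 : 0 < u ^ (-((24 : ℝ) / 256)) := Real.rpow_pos_of_pos hu0 _
  have hfin := sqrt_wt61 (ρ := ρ) hd hρ β h n (q := y * y * u) (s := u ^ (-((24 : ℝ) / 256)))
    (by positivity) hs0
  have h5 : (∫ η, (if wt ρ β h η n < y * y * u then wt ρ β h η n else 0) ∂(law d ρ)) /
      u ^ (-((24 : ℝ) / 256)) ≤ 5 * u ^ (-((23 : ℝ) / 256)) := by
    rw [div_le_iff₀ hs0]
    refine hb1.trans (le_of_eq ?_)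
    rw [mul_assoc 5, ← Real.rpow_add hu0]
    norm_num
  have h6 : 1 / Real.sqrt (y * y * u) ≤ u ^ (-((23 : ℝ) / 256)) := by
    rw [hq, Real.sqrt_eq_rpow, ← Real.rpow_mul hu0.le, one_div, ← Real.rpow_neg hu0.le]
    exact Real.rpow_le_rpow_of_exponent_le ha (by norm_num)
  have h7 : u ^ (-((24 : ℝ) / 256)) ≤ u ^ (-((23 : ℝ) / 256)) :=
    Real.rpow_le_rpow_of_exponent_le ha (by norm_num)
  have h8 : ∫ η, Real.sqrt (wt ρ β h η n) ∂(law d ρ) ≤ 4 * u ^ (-((23 : ℝ) / 256)) := by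
    linarith
  have h9 : 0 < u ^ ((6 : ℝ) / 256) := Real.rpow_pos_of_pos hu0 _
  rw [← hN]
  calc N * ∫ η, Real.sqrt (wt ρ β h η n) ∂(law d ρ)
      ≤ u ^ ((17 : ℝ) / 256) * (4 * u ^ (-((23 : ℝ) / 256))) :=
        mul_le_mul hNle' h8 (integral_nonneg fun _ => Real.sqrt_nonneg _) (by positivity)
    _ = 4 * (u ^ ((6 : ℝ) / 256))⁻¹ := by
        rw [← Real.rpow_neg hu0.le, mul_left_comm, ← Real.rpow_add hu0]
        congr 2
        norm_num
    _ < 1 := by
        rw [← div_eq_mul_inv, div_lt_one h9]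
        exact h4

end Pool.Agent.W_7d29a1_SD
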