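import Pool.Agent.W_7d29a1_SD.DefsS43
import Pool.Agent.W_7d29a1_Q29.Vsd61

/-!
Strong disorder is very strong disorder: the assembly over the leaves.
-/

namespace Pool.Agent.W_7d29a1_SD

open MeasureTheory ProbabilityTheory Filter Topology Pool.Agent.W_MP_7d29a1_pr
  Pool.Agent.W_7d29a1_h46 Pool.Agent.W_7d29a1_h46u Pool.Agent.W_7d29a1_D2.B35
  Pool.Agent.W_7d29a1_Q29 Pool.Agent.W_7d29a1_P89

variable {d : ℕ} {ρ : Measure ℝ} [IsProbabilityMeasure ρ] {β : ℝ}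

lemma w_nonneg43 (ρ : Measure ℝ) (β : ℝ) (h : Vec d) (η : Env d) (n : ℕ) (x : Site d) :
    0 ≤ w ρ β h η n x := W_nonneg _ _ _ _

lemma wt_pos43 (hd : 0 < d) (ρ : Measure ℝ) (β : ℝ) (h : Vec d) (η : Env d) (n : ℕ) :
    0 < wt ρ β h η n := ZH_pos hd _ _ _

lemma wt_eq43 (ρ : Measure ℝ) (β : ℝ) (h : Vec d) (η : Env d) (n : ℕ) :
    wt ρ β h η n = ∑ x ∈ boxF d n, w ρ β h η n x := ZH_eq _ _ _

lemma measurable_w43 (ρ : Measure ℝ) (β : ℝ) (h : Vec d) (n : ℕ) (x : Site d) :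
    Measurable fun η : Env d => w ρ β h η n x := measurable_W _ _ _

lemma measurable_wt43 (ρ : Measure ℝ) (β : ℝ) (h : Vec d) (n : ℕ) :
    Measurable fun η : Env d => wt ρ β h η n := measurable_ZH _ _

lemma integrable_wt43 (hd : 0 < d) (hρ : EM ρ) (h : Vec d) (n : ℕ) :
    Integrable (fun η => wt ρ β h η n) (law d ρ) := integrable_ZH hd hρ _ _

/-- The mean of the normalised partition function. -/
lemma integral_wt43 (hd : 0 < d) (hρ : EM ρ) (β : ℝ) (h : Vec d) (n : ℕ) :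
    ∫ η, wt ρ β h η n ∂(law d ρ) = 1 := by
  have hm : 0 < ∫ t, Real.exp (β * t) ∂ρ := integral_exp_pos (hρ β)
  have hP := Phi_pos61 hd h
  have h1 : ∀ η : Env d, wt ρ β h η n =
      Real.exp (-((n : ℝ) * (Real.log (Phi h) + Real.log (∫ t, Real.exp (β * t) ∂ρ)))) *
        Z β h η n := fun η => rfl
  simp only [h1]
  rw [integral_const_mul, (annealed61 hρ β h n).2, ← Real.log_mul hP.ne' hm.ne',
    ← Real.exp_log (pow_pos (mul_pos hP hm) n), Real.log_pow, ← Real.exp_add]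
  rw [neg_add_cancel, Real.exp_zero]

/-- The moments are positive. -/
lemma Mo_pos43 (hd : 0 < d) (hI : ∀ (h : Vec d) (ε : ℝ) (m : ℕ), 0 < ε → Integrable
      (fun η => ∑ x ∈ boxF d m, w ρ β h η m x ^ (1 + ε)) (law d ρ)) (h : Vec d) {ε : ℝ}
    (hε : 0 < ε) (m : ℕ) : 0 < Mo ρ β h ε m := by
  unfold Mo
  rw [integral_pos_iff_support_of_nonneg (fun η => Finset.sum_nonneg fun x _ =>
    Real.rpow_nonneg (w_nonneg43 ρ β h η m x) _) (hI h ε m hε)]
  have h1 : Function.support (fun η : Env d => ∑ x ∈ boxF d m, w ρ β h η m x ^ (1 + ε)) =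
      Set.univ := by
    ext η
    simp only [Function.mem_support, Set.mem_univ, iff_true]
    apply ne_of_gt
    have h2 := wt_pos43 hd ρ β h η m
    rw [wt_eq43] at h2
    obtain ⟨x, hx, hx0⟩ := Finset.exists_lt_of_sum_lt (s := boxF d m) (f := fun _ => (0 : ℝ))
      (g := fun x => w ρ β h η m x) (by simpa using h2)
    refine Finset.sum_pos' (fun x _ => Real.rpow_nonneg (w_nonneg43 ρ β h η m x) _) ⟨x, hx, ?_⟩
    exact Real.rpow_pos_of_pos hx0 _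
  rw [h1]
  simp

/-- Strong disorder beyond the second moment line is very strong disorder. -/
theorem sd43 (hI : ∀ (h : Vec d) (ε : ℝ) (m : ℕ), 0 < ε → Integrable
      (fun η => ∑ x ∈ boxF d m, w ρ β h η m x ^ (1 + ε)) (law d ρ)) (hd : 0 < d)
    (h5 : LocS d ρ β) (h6 : RenL d ρ β) (h7 : ExpL) (h8 : LucL d ρ β) (h9 : EndL d ρ β)
    (h10 : FraL d ρ β) (h : Vec d) (hk : ∃ k : ℕ, 1 < kap ρ β * rt h k) (hS : SDm ρ β h) :
    VSD ρ β h := by
  have hL := h5 h hk hS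
  have hG : GroC ρ β h := by
    intro ε hε
    obtain ⟨N, T, α, h1, h2, h3, h4, h11⟩ := h6 h hS hL ε hε
    exact h7 (Mo ρ β h ε) α N T h1 h2 h3 (fun m => Mo_pos43 hd hI h hε m) h4 h11
  exact h10 h (h9 h (h8 h hG))

/-- The form with the second moment. -/
theorem sdm43 (hI : ∀ (h : Vec d) (ε : ℝ) (m : ℕ), 0 < ε → Integrable
      (fun η => ∑ x ∈ boxF d m, w ρ β h η m x ^ (1 + ε)) (law d ρ)) (hd : 0 < d)
    (h5 : LocS d ρ β) (h6 : RenL d ρ β) (h7 : ExpL) (h8 : LucL d ρ β) (h9 : EndL d ρ β)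
    (h10 : FraL d ρ β) (h11 : SecS d ρ β) (h : Vec d)
    (hk : ∀ C : ℝ, ∃ n : ℕ, C * (n + 1) < ∫ η, wt ρ β h η n ^ 2 ∂(law d ρ)) (hS : SDm ρ β h) :
    VSD ρ β h := by
  refine sd43 hI hd h5 h6 h7 h8 h9 h10 h ?_ hS
  by_contra hc
  push Not at hc
  obtain ⟨n, hn⟩ := hk (1 + |kap ρ β - 1|)
  have h1 := h11 h hc n
  have h4 := le_abs_self (kap ρ β - 1)
  have h5 := abs_nonneg (kap ρ β - 1)
  have h6 : (0 : ℝ) ≤ n := Nat.cast_nonneg n
  nlinarith

end Pool.Agent.W_7d29a1_SD
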