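import Pool.Agent.W_7d29a1_SD.DefsS43
import Pool.Agent.W_7d29a1_L2.Rec27

/-!
Leaf B5 of helper43's strong = very strong disorder: the fractional moment.
-/

set_option autoImplicit false

namespace Pool.Agent.W_7d29a1_SD.Fra27

open MeasureTheory ProbabilityTheory Filter Topology Pool.Agent.W_MP_7d29a1_pr
  Pool.Agent.W_7d29a1_h46 Pool.Agent.W_7d29a1_h46u Pool.Agent.W_7d29a1_D2.B35
  Pool.Agent.W_7d29a1_Q29 Pool.Agent.W_7d29a1_P89 Pool.Agent.W_7d29a1_L2.Rec27

variable {d : ℕ} {ρ : Measure ℝ} [IsProbabilityMeasure ρ]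

/-- Leaf B5. -/
theorem fraL27 (hd : 0 < d) (hρ : EM ρ) (β : ℝ) : FraL d ρ β := by
  classical
  rintro h ⟨n, hn, hlt⟩
  set P : Prm d := Pn ρ β h 1 with hP
  set κ : ℝ := (2 * (n : ℝ) + 1) ^ d * ∫ η, Real.sqrt (wt ρ β h η n) ∂(law d ρ) with hκ
  have hint : Integrable (fun η => Real.sqrt (wt ρ β h η n)) (law d ρ) :=
    integrable_sqrt (measurable_ZH _ _) (integrable_ZH hd hρ _ _)
      (fun η => (ZH_pos hd _ η _).le) fun η => le_rfl
  have hκ1 : max κ (1 / 2) < 1 := max_lt hlt (by norm_num)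
  have hκ0 : 0 < max κ (1 / 2) := lt_max_of_lt_right (by norm_num)
  refine vsd27 hd hρ β h {0} (boxF d n) hn (a := 1) hκ0 hκ1 (Finset.mem_singleton_self 0)
    (fun x hx w hw => ⟨w, hw, 0, Finset.mem_singleton_self 0, ?_⟩) fun u hu h1 => ?_
  · rw [Finset.mem_singleton.1 hx, zero_add, add_zero]
  · rw [Finset.sum_singleton] at h1
    refine le_trans ?_ (le_max_left _ _)
    have h2 : ∀ z ∈ boxF d n, ∫ η, Real.sqrt (∑ y ∈ ({0} : Finset (Site d)),
        Mu P {0} u n (z + y) η) ∂(law d ρ) ≤ ∫ η, Real.sqrt (wt ρ β h η n) ∂(law d ρ) := by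
      intro z _
      have h3 : ∀ η : Env d, Real.sqrt (∑ y ∈ ({0} : Finset (Site d)), Mu P {0} u n (z + y) η) ≤
          Real.sqrt (wt ρ β h η n) := by
        intro η
        refine Real.sqrt_le_sqrt ?_
        unfold Mu
        rw [Finset.sum_singleton, Finset.sum_singleton, h1, one_mul]
        have h4 : sh 0 (0 : Site d) η = η := by
          funext p
          change η (p.1 + 0, p.2 + 0) = η p
          rw [add_zero, add_zero]
        rw [h4]
        exact W_le_ZH _ _ _ _
      refine integral_mono ?_ hint h3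
      refine hint.mono' ?_ (Eventually.of_forall fun η => ?_)
      · exact (Finset.measurable_sum _ fun y _ => measurable_Mu P {0} u n (z + y)).sqrt
          |>.aestronglyMeasurable
      · rw [Real.norm_eq_abs, abs_of_nonneg (Real.sqrt_nonneg _)]
        exact h3 η
    have h5 := Finset.sum_le_card_nsmul _ _ _ h2
    rw [card_boxF, nsmul_eq_mul] at h5
    refine h5.trans (le_of_eq ?_)
    rw [hκ]
    push_cast
    rfl

end Pool.Agent.W_7d29a1_SD.Fra27
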