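import Pool.Agent.W_7d29a1_SD.DefsS43
import Pool.Agent.W_7d29a1_Q29.Vsd61

/-!
Luck at small price.
-/

namespace Pool.Agent.W_7d29a1_SD

open MeasureTheory ProbabilityTheory Filter Topology Pool.Agent.W_MP_7d29a1_pr
  Pool.Agent.W_7d29a1_h46 Pool.Agent.W_7d29a1_h46u Pool.Agent.W_7d29a1_D2.B35
  Pool.Agent.W_7d29a1_Q29 Pool.Agent.W_7d29a1_P89

variable {d : ℕ}

namespace L73

lemma w_nonneg (ρ : Measure ℝ) (β : ℝ) (h : Vec d) (η : Env d) (n : ℕ) (x : Site d) :
    0 ≤ w ρ β h η n x := W_nonneg _ _ _ _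

lemma measurable_w (ρ : Measure ℝ) (β : ℝ) (h : Vec d) (n : ℕ) (x : Site d) :
    Measurable fun η : Env d => w ρ β h η n x := measurable_W _ _ _

lemma wt_eq (ρ : Measure ℝ) (β : ℝ) (h : Vec d) (η : Env d) (n : ℕ) :
    wt ρ β h η n = ∑ x ∈ boxF d n, w ρ β h η n x := ZH_eq _ _ _

/-- The dyadic bound for the powers. -/
lemma dyad {t u e : ℝ} (ht : 0 ≤ t) (hu : 0 < u) (he : 0 < e) (J : ℕ) :
    t ^ (1 + e) ≤ u ^ e * t +
      ∑ j ∈ Finset.range J, (2 ^ (j + 1) * u) ^ e * (if 2 ^ j * u ≤ t then t else 0) +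
      (if 2 ^ J * u ≤ t then t ^ (1 + e) else 0) := by
  have hmul : ∀ s : ℝ, t ≤ s → t ^ (1 + e) ≤ s ^ e * t := by
    intro s hs
    rcases ht.eq_or_lt with h0 | h0
    · rw [← h0, Real.zero_rpow (by linarith), mul_zero]
    · rw [Real.rpow_add h0, Real.rpow_one, mul_comm]
      exact mul_le_mul_of_nonneg_right (Real.rpow_le_rpow ht hs he.le) ht
  induction J with
  | zero =>
    simp only [Finset.range_zero, Finset.sum_empty, add_zero, pow_zero, one_mul]
    by_cases h : u ≤ t
    · rw [if_pos h]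
      have : 0 ≤ u ^ e * t := mul_nonneg (Real.rpow_nonneg hu.le _) ht
      linarith
    · rw [if_neg h, add_zero]
      exact hmul u (le_of_not_ge h)
  | succ J ih =>
    rw [Finset.sum_range_succ]
    have hkey : (if 2 ^ J * u ≤ t then t ^ (1 + e) else 0) ≤
        (2 ^ (J + 1) * u) ^ e * (if 2 ^ J * u ≤ t then t else 0) +
        (if 2 ^ (J + 1) * u ≤ t then t ^ (1 + e) else 0) := by
      by_cases h : 2 ^ J * u ≤ t
      · rw [if_pos h, if_pos h]
        by_cases h' : 2 ^ (J + 1) * u ≤ t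
        · rw [if_pos h']
          have : 0 ≤ (2 ^ (J + 1) * u) ^ e * t :=
            mul_nonneg (Real.rpow_nonneg (by positivity) _) ht
          linarith
        · rw [if_neg h', add_zero]
          exact hmul _ (le_of_not_ge h')
      · have h' : ¬ 2 ^ (J + 1) * u ≤ t := by
          intro h'
          apply h
          refine le_trans ?_ h'
          rw [pow_succ]
          have : 0 < 2 ^ J * u := by positivity
          nlinarith
        rw [if_neg h, if_neg h, if_neg h', mul_zero, zero_add]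
    linarith

end L73

open L73

/-- The mean of the normalised partition function. -/
lemma int_wt73 {ρ : Measure ℝ} [IsProbabilityMeasure ρ] (hd : 0 < d) (hρ : EM ρ) (β : ℝ)
    (h : Vec d) (n : ℕ) : ∫ η, wt ρ β h η n ∂(law d ρ) = 1 := by
  have h1 := (annealed61 (d := d) hρ β h n).2
  have hP : 0 < Phi h := Phi_pos61 hd h
  have hI : 0 < ∫ t, Real.exp (β * t) ∂ρ := integral_exp_pos (hρ β)
  have h2 : ∀ η : Env d, wt ρ β h η n =
      Real.exp (-((n : ℝ) * (Real.log (Phi h) + Real.log (∫ t, Real.exp (β * t) ∂ρ)))) *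
        Z β h η n := fun η => rfl
  simp_rw [h2]
  rw [integral_const_mul, h1, ← Real.log_mul hP.ne' hI.ne', Real.exp_neg, mul_comm (n : ℝ),
    Real.exp_mul, Real.exp_log (mul_pos hP hI), Real.rpow_natCast]
  exact inv_mul_cancel₀ (pow_pos (mul_pos hP hI) n).ne'

/-- B3: luck at small price. -/
theorem lucL73 {ρ : Measure ℝ} [IsProbabilityMeasure ρ] (hd : 0 < d) (hρ : EM ρ) (β : ℝ) :
    LucL d ρ β := by
  classical
  intro h hG ε hε
  set e : ℝ := ε / 2 with he
  have he0 : 0 < e := by positivity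
  obtain ⟨c, r, hc, hr, hM⟩ := hG e he0
  have hlr : 0 < Real.log r := Real.log_pos hr
  refine ⟨Real.log r / ε, by positivity, ?_⟩
  set q : ℝ := (2 : ℝ) ^ (-e) with hq
  have hq0 : 0 < q := Real.rpow_pos_of_pos two_pos _
  have hq1 : q < 1 := Real.rpow_lt_one_of_one_lt_of_neg one_lt_two (by linarith)
  set K : ℝ := 2 ^ e / (1 - q) with hK
  have hK0 : 0 ≤ K := div_nonneg (Real.rpow_nonneg two_pos.le _) (by linarith)
  set s : ℝ := Real.sqrt r with hs
  have hs1 : 1 < s := by
    rw [hs, Real.lt_sqrt zero_le_one]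
    simpa using hr
  have hss : s * s = r := Real.mul_self_sqrt (by linarith)
  have hev : ∀ᶠ m : ℕ in atTop, (1 + K) / c < s ^ m :=
    (tendsto_pow_atTop_atTop_of_one_lt hs1).eventually (eventually_gt_atTop _)
  filter_upwards [hev] with m hm
  by_contra hcon
  push Not at hcon
  set u : ℝ := Real.exp (Real.log r / ε * m) with hu
  have hu0 : 0 < u := Real.exp_pos _
  have hu1 : 1 ≤ u := Real.one_le_exp (by positivity)
  have hue : u ^ e = s ^ m := by
    rw [hu, ← Real.exp_mul, ← Real.rpow_natCast, hs, Real.sqrt_eq_rpow,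
      ← Real.rpow_mul (by linarith : (0 : ℝ) ≤ r), Real.rpow_def_of_pos (by linarith : (0 : ℝ) < r)]
    congr 1
    rw [he]
    field_simp
  have hsm1 : 1 ≤ s ^ m := one_le_pow₀ hs1.le
  -- integrability
  have hMo : c * r ^ m ≤ Mo ρ β h e m := hM m
  have hMpos : 0 < Mo ρ β h e m := lt_of_lt_of_le (mul_pos hc (pow_pos (by linarith) m)) hMo
  have hint : Integrable (fun η => ∑ x ∈ boxF d m, w ρ β h η m x ^ (1 + e)) (law d ρ) := by
    by_contra hni
    unfold Mo at hMpos
    rw [integral_undef hni] at hMpos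
    exact lt_irrefl _ hMpos
  have hwt := integrable_ZH (ρ := ρ) hd hρ (Pn ρ β h 1) m
  have hintw : ∀ v : ℝ, Integrable (fun η => ∑ x ∈ boxF d m,
      (if v ≤ w ρ β h η m x then w ρ β h η m x else 0)) (law d ρ) := by
    intro v
    refine hwt.mono' (Measurable.aestronglyMeasurable ?_) (Eventually.of_forall fun η => ?_)
    · refine Finset.measurable_sum _ fun x _ => ?_
      exact Measurable.ite (measurableSet_le measurable_const (measurable_w _ _ _ _ _))
        (measurable_w _ _ _ _ _) measurable_const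
    · have h0 : ∀ x ∈ boxF d m, 0 ≤ (if v ≤ w ρ β h η m x then w ρ β h η m x else 0) := by
        intro x _
        split_ifs
        · exact w_nonneg _ _ _ _ _ _
        · exact le_rfl
      rw [Real.norm_eq_abs, abs_of_nonneg (Finset.sum_nonneg h0)]
      have h1 : ZH (Pn ρ β h 1) η m = ∑ x ∈ boxF d m, w ρ β h η m x := ZH_eq _ _ _
      rw [h1]
      refine Finset.sum_le_sum fun x _ => ?_
      split_ifs
      · exact le_rfl
      · exact w_nonneg _ _ _ _ _ _
  -- the remainder
  set R : ℕ → ℝ := fun J => ∫ η, ∑ x ∈ boxF d m,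
    (if 2 ^ J * u ≤ w ρ β h η m x then w ρ β h η m x ^ (1 + e) else 0) ∂(law d ρ) with hR
  have hmeasR : ∀ J : ℕ, Measurable (fun η : Env d => ∑ x ∈ boxF d m,
      (if 2 ^ J * u ≤ w ρ β h η m x then w ρ β h η m x ^ (1 + e) else 0)) := fun J =>
    Finset.measurable_sum _ fun x _ =>
      Measurable.ite (measurableSet_le measurable_const (measurable_w _ _ _ _ _))
        ((measurable_w _ _ _ _ _).pow_const _) measurable_const
  have hbR : ∀ (J : ℕ) (η : Env d), ‖∑ x ∈ boxF d m,
      (if 2 ^ J * u ≤ w ρ β h η m x then w ρ β h η m x ^ (1 + e) else 0)‖ ≤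
        ∑ x ∈ boxF d m, w ρ β h η m x ^ (1 + e) := by
    intro J η
    have h0 : ∀ x ∈ boxF d m,
        0 ≤ (if 2 ^ J * u ≤ w ρ β h η m x then w ρ β h η m x ^ (1 + e) else 0) := by
      intro x _
      split_ifs
      · exact Real.rpow_nonneg (w_nonneg _ _ _ _ _ _) _
      · exact le_rfl
    rw [Real.norm_eq_abs, abs_of_nonneg (Finset.sum_nonneg h0)]
    refine Finset.sum_le_sum fun x _ => ?_
    split_ifs
    · exact le_rfl
    · exact Real.rpow_nonneg (w_nonneg _ _ _ _ _ _) _
  have hintR : ∀ J : ℕ, Integrable (fun η => ∑ x ∈ boxF d m,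
      (if 2 ^ J * u ≤ w ρ β h η m x then w ρ β h η m x ^ (1 + e) else 0)) (law d ρ) := fun J =>
    hint.mono' (hmeasR J).aestronglyMeasurable (Eventually.of_forall (hbR J))
  have hRlim : Tendsto R atTop (𝓝 0) := by
    have h1 : Tendsto R atTop (𝓝 (∫ _η : Env d, (0 : ℝ) ∂(law d ρ))) := by
      refine tendsto_integral_of_dominated_convergence
        (fun η => ∑ x ∈ boxF d m, w ρ β h η m x ^ (1 + e))
        (fun J => (hmeasR J).aestronglyMeasurable) hint
        (fun J => Eventually.of_forall (hbR J)) (Eventually.of_forall fun η => ?_)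
      have h2 : Tendsto (fun J : ℕ => (2 : ℝ) ^ J * u) atTop atTop :=
        (tendsto_pow_atTop_atTop_of_one_lt one_lt_two).atTop_mul_const hu0
      have h3 : ∀ x ∈ boxF d m, ∀ᶠ J : ℕ in atTop, w ρ β h η m x < 2 ^ J * u := fun x _ =>
        h2.eventually (eventually_gt_atTop _)
      have h4 : ∀ᶠ J : ℕ in atTop, ∀ x ∈ boxF d m, w ρ β h η m x < 2 ^ J * u :=
        (Filter.eventually_all_finset _).2 h3
      refine tendsto_const_nhds.congr' ?_
      filter_upwards [h4] with J hJ
      symm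
      refine Finset.sum_eq_zero fun x hx => ?_
      exact if_neg (not_le.2 (hJ x hx))
    simpa using h1
  -- the bound
  have hbound : ∀ J : ℕ, Mo ρ β h e m ≤ s ^ m + K + R J := by
    intro J
    have hterm : ∀ j : ℕ, (2 ^ (j + 1) * u) ^ e * Qm ρ β h m (2 ^ j * u) ≤ 2 ^ e * q ^ j := by
      intro j
      have hle : u ≤ 2 ^ j * u := by
        have : (1 : ℝ) ≤ 2 ^ j := one_le_pow₀ one_le_two
        nlinarith
      have hQ := (hcon (2 ^ j * u) hle).le
      have hb0 : 0 < 2 ^ j * u := by positivity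
      have h1 : (2 ^ (j + 1) * u) ^ e = 2 ^ e * (2 ^ j * u) ^ e := by
        rw [← Real.mul_rpow two_pos.le hb0.le]
        congr 1
        ring
      have h2 : (2 ^ j * u) ^ e * (2 ^ j * u) ^ (-ε) = (2 ^ j * u) ^ (-e) := by
        rw [← Real.rpow_add hb0]
        congr 1
        rw [he]; ring
      have h3 : (2 ^ j * u) ^ (-e) ≤ q ^ j := by
        rw [Real.mul_rpow (by positivity) hu0.le, hq, ← Real.rpow_natCast, ← Real.rpow_natCast,
          ← Real.rpow_mul two_pos.le, ← Real.rpow_mul two_pos.le, mul_comm (-e)]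
        refine mul_le_of_le_one_right (Real.rpow_nonneg two_pos.le _) ?_
        exact Real.rpow_le_one_of_one_le_of_nonpos hu1 (by linarith)
      rw [h1]
      calc 2 ^ e * (2 ^ j * u) ^ e * Qm ρ β h m (2 ^ j * u)
          ≤ 2 ^ e * (2 ^ j * u) ^ e * (2 ^ j * u) ^ (-ε) :=
            mul_le_mul_of_nonneg_left hQ (by positivity)
        _ = 2 ^ e * ((2 ^ j * u) ^ e * (2 ^ j * u) ^ (-ε)) := by ring
        _ = 2 ^ e * (2 ^ j * u) ^ (-e) := by rw [h2]
        _ ≤ 2 ^ e * q ^ j := mul_le_mul_of_nonneg_left h3 (Real.rpow_nonneg two_pos.le _)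
    have hsum : ∑ j ∈ Finset.range J, (2 ^ (j + 1) * u) ^ e * Qm ρ β h m (2 ^ j * u) ≤ K := by
      refine (Finset.sum_le_sum fun j _ => hterm j).trans ?_
      rw [← Finset.mul_sum, hK, div_eq_mul_inv]
      refine mul_le_mul_of_nonneg_left ?_ (Real.rpow_nonneg two_pos.le _)
      have h1 := (summable_geometric_of_lt_one hq0.le hq1).sum_le_tsum (Finset.range J)
        fun j _ => pow_nonneg hq0.le j
      rwa [tsum_geometric_of_lt_one hq0.le hq1] at h1
    have hpt : ∀ η : Env d, ∑ x ∈ boxF d m, w ρ β h η m x ^ (1 + e) ≤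
        u ^ e * wt ρ β h η m + ∑ j ∈ Finset.range J, (2 ^ (j + 1) * u) ^ e *
          (∑ x ∈ boxF d m, (if 2 ^ j * u ≤ w ρ β h η m x then w ρ β h η m x else 0)) +
        ∑ x ∈ boxF d m,
          (if 2 ^ J * u ≤ w ρ β h η m x then w ρ β h η m x ^ (1 + e) else 0) := by
      intro η
      have h1 := Finset.sum_le_sum fun x (_ : x ∈ boxF d m) =>
        dyad (w_nonneg ρ β h η m x) hu0 he0 J
      refine h1.trans (le_of_eq ?_)
      rw [Finset.sum_add_distrib, Finset.sum_add_distrib, ← Finset.mul_sum, ← wt_eq,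
        Finset.sum_comm]
      congr 2
      refine Finset.sum_congr rfl fun j _ => ?_
      rw [Finset.mul_sum]
    have hi1 : Integrable (fun η => u ^ e * wt ρ β h η m) (law d ρ) := hwt.const_mul _
    have hi2 : Integrable (fun η => ∑ j ∈ Finset.range J, (2 ^ (j + 1) * u) ^ e *
          (∑ x ∈ boxF d m, (if 2 ^ j * u ≤ w ρ β h η m x then w ρ β h η m x else 0)))
          (law d ρ) := integrable_finsetSum _ fun j _ => (hintw _).const_mul _
    have h2 : Mo ρ β h e m ≤ ∫ η, (u ^ e * wt ρ β h η m +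
        ∑ j ∈ Finset.range J, (2 ^ (j + 1) * u) ^ e *
          (∑ x ∈ boxF d m, (if 2 ^ j * u ≤ w ρ β h η m x then w ρ β h η m x else 0)) +
        ∑ x ∈ boxF d m,
          (if 2 ^ J * u ≤ w ρ β h η m x then w ρ β h η m x ^ (1 + e) else 0)) ∂(law d ρ) :=
      integral_mono hint ((hi1.add hi2).add (hintR J)) hpt
    have hi12 : Integrable (fun η => u ^ e * wt ρ β h η m +
        ∑ j ∈ Finset.range J, (2 ^ (j + 1) * u) ^ e *
          (∑ x ∈ boxF d m, (if 2 ^ j * u ≤ w ρ β h η m x then w ρ β h η m x else 0)))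
          (law d ρ) := hi1.add hi2
    rw [integral_add hi12 (hintR J), integral_add hi1 hi2, integral_const_mul,
      int_wt73 hd hρ, mul_one, hue, integral_finsetSum _ fun j _ => (hintw _).const_mul _] at h2
    simp only [integral_const_mul] at h2
    have h3 : ∑ j ∈ Finset.range J, (2 ^ (j + 1) * u) ^ e * ∫ η, ∑ x ∈ boxF d m,
        (if 2 ^ j * u ≤ w ρ β h η m x then w ρ β h η m x else 0) ∂(law d ρ) ≤ K := hsum
    have h4 : R J = ∫ η, ∑ x ∈ boxF d m,
      (if 2 ^ J * u ≤ w ρ β h η m x then w ρ β h η m x ^ (1 + e) else 0) ∂(law d ρ) := rfl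
    rw [h4]
    linarith
  have hlim : Mo ρ β h e m ≤ s ^ m + K := by
    have h1 : Tendsto (fun J => s ^ m + K + R J) atTop (𝓝 (s ^ m + K + 0)) :=
      tendsto_const_nhds.add hRlim
    rw [add_zero] at h1
    exact ge_of_tendsto' h1 hbound
  have h5 : c * (s ^ m * s ^ m) ≤ s ^ m + K := by
    rw [← mul_pow, hss]
    exact hMo.trans hlim
  have h6 : s ^ m + K ≤ (1 + K) * s ^ m := by nlinarith
  rw [div_lt_iff₀ hc] at hm
  have h7 : (1 + K) * s ^ m < (s ^ m * c) * s ^ m :=
    mul_lt_mul_of_pos_right hm (by linarith)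
  nlinarith

end Pool.Agent.W_7d29a1_SD
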