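import Pool.Agent.W_7d29a1_SD.Step72
import Pool.Agent.W_7d29a1_Q29.Site11

/-!
Strong disorder is very strong disorder: leaves A1 (the martingale) and A3 (the entropy), and the
second moment of one row.
-/

namespace Pool.Agent.W_7d29a1_SD

open MeasureTheory ProbabilityTheory Filter Topology Pool.Agent.W_MP_7d29a1_pr
  Pool.Agent.W_7d29a1_h46 Pool.Agent.W_7d29a1_h46u Pool.Agent.W_7d29a1_D2.B35
  Pool.Agent.W_7d29a1_Q29 Pool.Agent.W_7d29a1_P89

variable {d : ℕ} {ρ : Measure ℝ}

lemma wt_split72 (ρ : Measure ℝ) (β : ℝ) (h : Vec d) (η : Env d) (n m : ℕ) :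
    wt ρ β h η (n + m) = ∑ z ∈ boxF d n, w ρ β h η n z * wt ρ β h (sh n z η) m := by
  unfold wt w ZH W
  rw [exp_split, Site11.Z_split, Finset.mul_sum]
  refine Finset.sum_congr rfl fun z _ => ?_
  ring

variable [IsProbabilityMeasure ρ]

lemma integrable_wt72 (hd : 0 < d) (hρ : EM ρ) (β : ℝ) (h : Vec d) (n : ℕ) :
    Integrable (fun η => wt ρ β h η n) (law d ρ) := integrable_ZH hd hρ _ n

lemma wt_mean72 (hd : 0 < d) (hρ : EM ρ) (β : ℝ) (h : Vec d) (n : ℕ) :
    ∫ η, wt ρ β h η n ∂(law d ρ) = 1 := by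
  have h1 := Phi_pos61 hd h
  have h2 := intExp72 hρ β
  unfold wt ZH Pn
  simp only
  rw [integral_const_mul, (annealed61 hρ β h n).2, ← Real.log_mul h1.ne' h2.ne', Real.exp_neg,
    mul_comm (n : ℝ), ← Real.rpow_def_of_pos (mul_pos h1 h2), Real.rpow_natCast]
  exact inv_mul_cancel₀ (pow_pos (mul_pos h1 h2) n).ne'

/-- Integrability of products of functions of disjoint sets of sites. -/
lemma int_mul72 (S : Set (ℕ × Site d)) {F G : Env d → ℝ} (hF : Measurable F) (hG : Measurable G)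
    (dF : DependsOn F S) (dG : DependsOn G Sᶜ) (iF : Integrable F (law d ρ))
    (iG : Integrable G (law d ρ)) : Integrable (fun η => F η * G η) (law d ρ) :=
  (W_7d29a1_V.indepFun_dep S hF hG dF dG).integrable_mul iF iG

lemma int_left72 (S : Set (ℕ × Site d)) {F G : Env d → ℝ} (hF : Measurable F) (hG : Measurable G)
    (dF : DependsOn F S) (dG : DependsOn G Sᶜ) (iFG : Integrable (fun η => F η * G η) (law d ρ))
    (h0 : ∫ η, G η ∂(law d ρ) ≠ 0) : Integrable F (law d ρ) := by
  refine (W_7d29a1_V.indepFun_dep S hF hG dF dG).integrable_left_of_integrable_op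
    (fun x y => x * y) 1 one_ne_zero (fun x y => by simp [enorm_mul]) iFG
    hF.aestronglyMeasurable hG.aestronglyMeasurable fun h => h0 ?_
  rw [integral_congr_ae h]
  simp

lemma wt_sh_dep72 (ρ : Measure ℝ) (β : ℝ) (h : Vec d) (n m : ℕ) (z : Site d) :
    DependsOn (fun η : Env d => wt ρ β h (sh n z η) m) {p : ℕ × Site d | p.1 ≤ n}ᶜ := by
  refine dependsOn_sh (G := fun η : Env d => wt ρ β h η m) ?_ n z
  intro η η' hη
  simp only [wt_sum72]
  refine Finset.sum_congr rfl fun x _ => ?_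
  exact dependsOn_W (Pn ρ β h 1) m x fun p hp => hη p hp.1

/-- Leaf A1. -/
theorem marS72 (hd : 0 < d) (hρ : EM ρ) (β : ℝ) : MarS d ρ β := by
  intro h n m F hF hFd
  have mG : ∀ z, Measurable fun η : Env d => F η * w ρ β h η n z := fun z =>
    hF.mul (measurable_w72 ρ β h n z)
  have mH : ∀ z, Measurable fun η : Env d => wt ρ β h (sh n z η) m := fun z =>
    (measurable_wt72 ρ β h m).comp (measurable_sh n z)
  have dG : ∀ z, DependsOn (fun η : Env d => F η * w ρ β h η n z) {p : ℕ × Site d | p.1 ≤ n} := by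
    intro z η η' hη
    have h1 := hFd hη
    have h2 := w_dep72 ρ β h n z hη
    simp only at h1 h2 ⊢
    rw [h1, h2]
  have iH : ∀ z, Integrable (fun η : Env d => wt ρ β h (sh n z η) m) (law d ρ) := fun z =>
    (mp_sh n z).integrable_comp_of_integrable (integrable_wt72 hd hρ β h m)
  have eH : ∀ z, ∫ η, wt ρ β h (sh n z η) m ∂(law d ρ) = 1 := fun z => by
    rw [integral_sh n z (measurable_wt72 ρ β h m), wt_mean72 hd hρ]
  have eG : ∀ z, ∫ η, F η * w ρ β h η n z * wt ρ β h (sh n z η) m ∂(law d ρ) =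
      ∫ η, F η * w ρ β h η n z ∂(law d ρ) := by
    intro z
    rw [integral_indep _ (mG z) (mH z) (dG z) (wt_sh_dep72 ρ β h n m z), eH, mul_one]
  have s1 : ∀ η, F η * wt ρ β h η (n + m) =
      ∑ z ∈ boxF d n, F η * w ρ β h η n z * wt ρ β h (sh n z η) m := by
    intro η
    rw [wt_split72, Finset.mul_sum]
    exact Finset.sum_congr rfl fun z _ => by ring
  have s2 : ∀ η, F η * wt ρ β h η n = ∑ z ∈ boxF d n, F η * w ρ β h η n z := by
    intro η
    rw [wt_sum72, Finset.mul_sum]
  by_cases hI : ∀ z ∈ boxF d n, Integrable (fun η => F η * w ρ β h η n z) (law d ρ)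
  · simp only [s1, s2]
    rw [integral_finsetSum _ fun z hz => int_mul72 _ (mG z) (mH z) (dG z)
      (wt_sh_dep72 ρ β h n m z) (hI z hz) (iH z), integral_finsetSum _ hI]
    exact Finset.sum_congr rfl fun z _ => eG z
  · push Not at hI
    obtain ⟨z, hz, hI⟩ := hI
    rw [integral_undef, integral_undef]
    · intro h1
      refine hI (h1.mono (mG z).aestronglyMeasurable (Eventually.of_forall fun η => ?_))
      rw [norm_mul, norm_mul]
      refine mul_le_mul_of_nonneg_left ?_ (norm_nonneg (F η))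
      rw [Real.norm_of_nonneg (w_nonneg72 ρ β h η n z),
        Real.norm_of_nonneg (wt_pos72 hd ρ β h η n).le]
      exact w_le_wt72 ρ β h η n z
    · intro h1
      refine hI (int_left72 {p : ℕ × Site d | p.1 ≤ n} (mG z) (mH z) (dG z)
        (wt_sh_dep72 ρ β h n m z) ?_ (by rw [eH]; exact one_ne_zero))
      refine h1.mono ((mG z).mul (mH z)).aestronglyMeasurable (Eventually.of_forall fun η => ?_)
      rw [mul_assoc, norm_mul (F η), norm_mul (F η)]
      refine mul_le_mul_of_nonneg_left ?_ (norm_nonneg (F η))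
      have h2 := wt_pos72 hd ρ β h (sh n z η) m
      rw [Real.norm_of_nonneg (mul_nonneg (w_nonneg72 ρ β h η n z) h2.le),
        Real.norm_of_nonneg (wt_pos72 hd ρ β h η (n + m)).le, wt_split72]
      exact Finset.single_le_sum (f := fun z => w ρ β h η n z * wt ρ β h (sh n z η) m)
        (fun y _ => mul_nonneg (w_nonneg72 ρ β h η n y) (wt_pos72 hd ρ β h _ m).le) hz

/-! ### One row -/

lemma mp_site72 (p : ℕ × Site d) : MeasurePreserving (fun η : Env d => η p) (law d ρ) ρ := by
  unfold law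
  exact measurePreserving_eval_infinitePi (fun _ : ℕ × Site d => ρ) p

lemma xi_int72 (hρ : EM ρ) (β : ℝ) (p : ℕ × Site d) :
    Integrable (fun η : Env d => xi ρ β (η p)) (law d ρ) ∧
      ∫ η : Env d, xi ρ β (η p) ∂(law d ρ) = 1 := by
  refine ⟨(mp_site72 p).integrable_comp_of_integrable (integrable_xi72 hρ β), ?_⟩
  rw [← int_xi72 hρ β]
  exact LawU_integral (mp_site72 p) (measurable_xi72 ρ β).aestronglyMeasurable

lemma xi_sq_int72 (hρ : EM ρ) (β : ℝ) (p : ℕ × Site d) :
    Integrable (fun η : Env d => xi ρ β (η p) * xi ρ β (η p)) (law d ρ) ∧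
      ∫ η : Env d, xi ρ β (η p) * xi ρ β (η p) ∂(law d ρ) = kap ρ β := by
  refine ⟨(mp_site72 p).integrable_comp_of_integrable (integrable_xi_sq72 hρ β), ?_⟩
  rw [← int_xi_sq72 ρ β]
  exact LawU_integral (F := fun t => xi ρ β t * xi ρ β t) (mp_site72 p)
    ((measurable_xi72 ρ β).mul (measurable_xi72 ρ β)).aestronglyMeasurable

lemma xi_site_dep72 (ρ : Measure ℝ) (β : ℝ) (p : ℕ × Site d) (S : Set (ℕ × Site d)) (hp : p ∈ S) :
    DependsOn (fun η : Env d => xi ρ β (η p)) S := by
  intro η η' hη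
  simp only
  rw [hη p hp]

lemma measurable_xis72 (ρ : Measure ℝ) (β : ℝ) (p : ℕ × Site d) :
    Measurable fun η : Env d => xi ρ β (η p) :=
  (measurable_xi72 ρ β).comp (measurable_pi_apply p)

open Classical in
/-- The second moments of the weights of two sites. -/
lemma xi_two72 (hρ : EM ρ) (β : ℝ) (p q : ℕ × Site d) :
    Integrable (fun η : Env d => xi ρ β (η p) * xi ρ β (η q)) (law d ρ) ∧
      ∫ η : Env d, xi ρ β (η p) * xi ρ β (η q) ∂(law d ρ) =
        1 + (kap ρ β - 1) * (if p = q then 1 else 0) := by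
  by_cases h : p = q
  · subst h
    rw [if_pos rfl]
    refine ⟨(xi_sq_int72 hρ β p).1, ?_⟩
    rw [(xi_sq_int72 hρ β p).2]
    ring
  · rw [if_neg h]
    have d1 := xi_site_dep72 ρ β p {p} (Set.mem_singleton p)
    have d2 := xi_site_dep72 ρ β q ({p} : Set (ℕ × Site d))ᶜ (by simpa using fun e => h e.symm)
    refine ⟨int_mul72 _ (measurable_xis72 ρ β p) (measurable_xis72 ρ β q) d1 d2
      (xi_int72 hρ β p).1 (xi_int72 hρ β q).1, ?_⟩
    rw [integral_indep _ (measurable_xis72 ρ β p) (measurable_xis72 ρ β q) d1 d2,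
      (xi_int72 hρ β p).2, (xi_int72 hρ β q).2]
    ring

open Classical in
/-- The second moment of one row, for one pair of sites. -/
lemma row_two72 (hρ : EM ρ) (β : ℝ) (n : ℕ) {F : Env d → ℝ} (mF : Measurable F)
    (dF : DependsOn F {p : ℕ × Site d | p.1 ≤ n}) (iF : Integrable F (law d ρ)) (x y : Site d) :
    Integrable (fun η => F η * (xi ρ β (η (n + 1, x)) * xi ρ β (η (n + 1, y)))) (law d ρ) ∧
      ∫ η, F η * (xi ρ β (η (n + 1, x)) * xi ρ β (η (n + 1, y))) ∂(law d ρ) =
        (1 + (kap ρ β - 1) * (if x = y then 1 else 0)) * ∫ η, F η ∂(law d ρ) := by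
  have m2 : Measurable fun η : Env d => xi ρ β (η (n + 1, x)) * xi ρ β (η (n + 1, y)) :=
    (measurable_xis72 ρ β _).mul (measurable_xis72 ρ β _)
  have d2 : DependsOn (fun η : Env d => xi ρ β (η (n + 1, x)) * xi ρ β (η (n + 1, y)))
      {p : ℕ × Site d | p.1 ≤ n}ᶜ := by
    intro η η' hη
    simp only
    rw [hη (n + 1, x) (by simp), hη (n + 1, y) (by simp)]
  have h2 := xi_two72 hρ β ((n + 1, x) : ℕ × Site d) (n + 1, y)
  refine ⟨int_mul72 _ mF m2 dF d2 iF h2.1, ?_⟩
  rw [integral_indep _ mF m2 dF d2, h2.2, mul_comm]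
  congr 3
  simp

/-- The square of the next partition function. -/
lemma wt_sq72 (hd : 0 < d) (hρ : EM ρ) (β : ℝ) (h : Vec d) (η : Env d) (n : ℕ) :
    wt ρ β h η (n + 1) ^ 2 = ∑ x ∈ boxF d (n + 1), ∑ y ∈ boxF d (n + 1),
      nu ρ β h η n x * nu ρ β h η n y *
        (xi ρ β (η (n + 1, x)) * xi ρ β (η (n + 1, y))) := by
  rw [wt_succ72 hd hρ, pow_two, Finset.sum_mul_sum]
  refine Finset.sum_congr rfl fun x _ => Finset.sum_congr rfl fun y _ => ?_
  ring

/-- **The second moment of one row.** -/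
theorem sec_row72 (hd : 0 < d) (hρ : EM ρ) (β : ℝ) (h : Vec d) (n : ℕ) {F : Env d → ℝ}
    (mF : Measurable F) (dF : DependsOn F {p : ℕ × Site d | p.1 ≤ n})
    (iF : Integrable (fun η => F η * wt ρ β h η n ^ 2) (law d ρ)) :
    Integrable (fun η => F η * wt ρ β h η (n + 1) ^ 2) (law d ρ) ∧
    Integrable (fun η => F η * ∑ x ∈ boxF d (n + 1), nu ρ β h η n x ^ 2) (law d ρ) ∧
      ∫ η, F η * wt ρ β h η (n + 1) ^ 2 ∂(law d ρ) =
        ∫ η, F η * wt ρ β h η n ^ 2 ∂(law d ρ) +
          (kap ρ β - 1) * ∫ η, F η * ∑ x ∈ boxF d (n + 1), nu ρ β h η n x ^ 2 ∂(law d ρ) := by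
  classical
  have mK : ∀ x y, Measurable fun η : Env d => F η * (nu ρ β h η n x * nu ρ β h η n y) :=
    fun x y => mF.mul ((measurable_nu72 ρ β h n x).mul (measurable_nu72 ρ β h n y))
  have dK : ∀ x y, DependsOn (fun η : Env d => F η * (nu ρ β h η n x * nu ρ β h η n y))
      {p : ℕ × Site d | p.1 ≤ n} := by
    intro x y η η' hη
    have h1 := dF hη
    have h2 := nu_dep72 ρ β h n x hη
    have h3 := nu_dep72 ρ β h n y hη
    simp only at h1 h2 h3 ⊢
    rw [h1, h2, h3]
  have iK : ∀ x y, Integrable (fun η : Env d => F η * (nu ρ β h η n x * nu ρ β h η n y))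
      (law d ρ) := by
    intro x y
    refine iF.mono (mK x y).aestronglyMeasurable (Eventually.of_forall fun η => ?_)
    rw [norm_mul (F η), norm_mul (F η)]
    refine mul_le_mul_of_nonneg_left ?_ (norm_nonneg (F η))
    have h1 := nu_nonneg72 ρ β h η n x
    have h2 := nu_nonneg72 ρ β h η n y
    rw [Real.norm_of_nonneg (mul_nonneg h1 h2), Real.norm_of_nonneg (sq_nonneg _), pow_two]
    exact mul_le_mul (nu_le_wt72 hd ρ β h η n x) (nu_le_wt72 hd ρ β h η n y) h2
      (wt_pos72 hd ρ β h η n).le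
  have e1 : ∀ η, F η * wt ρ β h η (n + 1) ^ 2 = ∑ x ∈ boxF d (n + 1), ∑ y ∈ boxF d (n + 1),
      F η * (nu ρ β h η n x * nu ρ β h η n y) *
        (xi ρ β (η (n + 1, x)) * xi ρ β (η (n + 1, y))) := by
    intro η
    rw [wt_sq72 hd hρ, Finset.mul_sum]
    refine Finset.sum_congr rfl fun x _ => ?_
    rw [Finset.mul_sum]
    exact Finset.sum_congr rfl fun y _ => by ring
  have e2 : ∀ η, F η * ∑ x ∈ boxF d (n + 1), nu ρ β h η n x ^ 2 =
      ∑ x ∈ boxF d (n + 1), F η * (nu ρ β h η n x * nu ρ β h η n x) := by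
    intro η
    rw [Finset.mul_sum]
    exact Finset.sum_congr rfl fun x _ => by ring
  have e3 : ∀ η, F η * wt ρ β h η n ^ 2 = ∑ x ∈ boxF d (n + 1), ∑ y ∈ boxF d (n + 1),
      F η * (nu ρ β h η n x * nu ρ β h η n y) := by
    intro η
    rw [← sum_nu_wt72 hd ρ β h η n, pow_two, Finset.sum_mul_sum, Finset.mul_sum]
    refine Finset.sum_congr rfl fun x _ => ?_
    rw [Finset.mul_sum]
  have iR : ∀ x y, Integrable (fun η : Env d => F η * (nu ρ β h η n x * nu ρ β h η n y) *
        (xi ρ β (η (n + 1, x)) * xi ρ β (η (n + 1, y)))) (law d ρ) := fun x y =>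
    (row_two72 hρ β n (mK x y) (dK x y) (iK x y) x y).1
  refine ⟨?_, ?_, ?_⟩
  · simp only [e1]
    exact integrable_finsetSum _ fun x _ => integrable_finsetSum _ fun y _ => iR x y
  · simp only [e2]
    exact integrable_finsetSum _ fun x _ => iK x x
  · simp only [e1, e2, e3]
    rw [integral_finsetSum _ fun x _ => integrable_finsetSum _ fun y _ => iR x y,
      integral_finsetSum _ fun x _ => integrable_finsetSum _ fun y _ => iK x y,
      integral_finsetSum _ fun x _ => iK x x, Finset.mul_sum, ← Finset.sum_add_distrib]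
    refine Finset.sum_congr rfl fun x hx => ?_
    rw [integral_finsetSum _ fun y _ => iR x y, integral_finsetSum _ fun y _ => iK x y]
    have h5 : ∀ y ∈ boxF d (n + 1), ∫ η, F η * (nu ρ β h η n x * nu ρ β h η n y) *
        (xi ρ β (η (n + 1, x)) * xi ρ β (η (n + 1, y))) ∂(law d ρ) =
        (∫ η, F η * (nu ρ β h η n x * nu ρ β h η n y) ∂(law d ρ)) +
          (if x = y then (kap ρ β - 1) *
            ∫ η, F η * (nu ρ β h η n x * nu ρ β h η n y) ∂(law d ρ) else 0) := by
      intro y _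
      rw [(row_two72 hρ β n (mK x y) (dK x y) (iK x y) x y).2]
      split_ifs <;> ring
    rw [Finset.sum_congr rfl h5, Finset.sum_add_distrib, Finset.sum_ite_eq, if_pos hx]

/-- The mass of later times is integrable against functions of the first rows. -/
lemma intMar72 (hd : 0 < d) (hρ : EM ρ) (β : ℝ) (h : Vec d) (n m : ℕ) {F : Env d → ℝ}
    (hF : Measurable F) (hFd : DependsOn F {p : ℕ × Site d | p.1 ≤ n})
    (iF : Integrable (fun η => F η * wt ρ β h η n) (law d ρ)) :
    Integrable (fun η => F η * wt ρ β h η (n + m)) (law d ρ) := by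
  have mG : ∀ z, Measurable fun η : Env d => F η * w ρ β h η n z := fun z =>
    hF.mul (measurable_w72 ρ β h n z)
  have mH : ∀ z, Measurable fun η : Env d => wt ρ β h (sh n z η) m := fun z =>
    (measurable_wt72 ρ β h m).comp (measurable_sh n z)
  have dG : ∀ z, DependsOn (fun η : Env d => F η * w ρ β h η n z) {p : ℕ × Site d | p.1 ≤ n} := by
    intro z η η' hη
    have h1 := hFd hη
    have h2 := w_dep72 ρ β h n z hη
    simp only at h1 h2 ⊢
    rw [h1, h2]
  have iH : ∀ z, Integrable (fun η : Env d => wt ρ β h (sh n z η) m) (law d ρ) := fun z =>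
    (mp_sh n z).integrable_comp_of_integrable (integrable_wt72 hd hρ β h m)
  have iG : ∀ z, Integrable (fun η : Env d => F η * w ρ β h η n z) (law d ρ) := by
    intro z
    refine iF.mono (mG z).aestronglyMeasurable (Eventually.of_forall fun η => ?_)
    rw [norm_mul, norm_mul]
    refine mul_le_mul_of_nonneg_left ?_ (norm_nonneg (F η))
    rw [Real.norm_of_nonneg (w_nonneg72 ρ β h η n z),
      Real.norm_of_nonneg (wt_pos72 hd ρ β h η n).le]
    exact w_le_wt72 ρ β h η n z
  have s1 : ∀ η, F η * wt ρ β h η (n + m) =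
      ∑ z ∈ boxF d n, F η * w ρ β h η n z * wt ρ β h (sh n z η) m := by
    intro η
    rw [wt_split72, Finset.mul_sum]
    exact Finset.sum_congr rfl fun z _ => by ring
  simp only [s1]
  exact integrable_finsetSum _ fun z _ => int_mul72 _ (mG z) (mH z) (dG z)
    (wt_sh_dep72 ρ β h n m z) (iG z) (iH z)

lemma wt_zero72 (ρ : Measure ℝ) (β : ℝ) (h : Vec d) (η : Env d) : wt ρ β h η 0 = 1 := by
  unfold wt ZH
  rw [Z_zero]
  simp

/-- The second moment is finite. -/
lemma wt_sq_int72 (hd : 0 < d) (hρ : EM ρ) (β : ℝ) (h : Vec d) (n : ℕ) :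
    Integrable (fun η => wt ρ β h η n ^ 2) (law d ρ) := by
  induction n with
  | zero =>
    simp only [wt_zero72]
    exact integrable_const _
  | succ n ih =>
    have h1 := (sec_row72 hd hρ β h n (F := fun _ => 1) measurable_const
      (fun _ _ _ => rfl) (by simpa using ih)).1
    simpa using h1

lemma mul_log_abs72 {a : ℝ} (ha : 0 < a) : |a * Real.log a| ≤ 1 + a ^ 2 := by
  have h1 := Real.log_le_sub_one_of_pos ha
  have h2 := Real.log_le_sub_one_of_pos (inv_pos.2 ha)
  rw [Real.log_inv] at h2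
  have h3 : a * a⁻¹ = 1 := mul_inv_cancel₀ ha.ne'
  rw [abs_le]
  constructor
  · nlinarith
  · nlinarith

/-- Leaf A3. -/
theorem enL72 (hd : 0 < d) (hρ : EM ρ) (β : ℝ) : EnL d ρ β := by
  intro h n G mG dG hG
  have hwn := wt_pos72 hd ρ β h
  have mwn := measurable_wt72 (d := d) ρ β h n
  have mws := measurable_wt72 (d := d) ρ β h (n + 1)
  have hG0 : ∀ η, 0 ≤ G η := fun η => by rcases hG η with e | e <;> rw [e]; exact zero_le_one
  have hG1 : ∀ η, |G η| ≤ 1 := fun η => by rcases hG η with e | e <;> rw [e] <;> simp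
  have iwn := integrable_wt72 hd hρ β h n
  have iws := integrable_wt72 hd hρ β h (n + 1)
  -- integrability
  have bd : ∀ {F : Env d → ℝ}, Integrable F (law d ρ) →
      Integrable (fun η => G η * F η) (law d ρ) := by
    intro F iF
    exact iF.bdd_mul mG.aestronglyMeasurable (Eventually.of_forall fun η => by
      rw [Real.norm_eq_abs]; exact hG1 η)
  have iL : ∀ k, Integrable (fun η => wt ρ β h η k * Real.log (wt ρ β h η k)) (law d ρ) := by
    intro k
    refine ((integrable_const (1 : ℝ)).add (wt_sq_int72 hd hρ β h k)).mono'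
      (((measurable_wt72 ρ β h k).mul (measurable_wt72 ρ β h k).log)).aestronglyMeasurable
      (Eventually.of_forall fun η => ?_)
    rw [Real.norm_eq_abs]
    exact mul_log_abs72 (hwn η k)
  have i1 : Integrable (fun η => G η * (wt ρ β h η (n + 1) * Real.log (wt ρ β h η (n + 1))))
      (law d ρ) := bd (iL (n + 1))
  have mF1 : Measurable fun η => G η * Real.log (wt ρ β h η n) := mG.mul mwn.log
  have dF1 : DependsOn (fun η => G η * Real.log (wt ρ β h η n)) {p : ℕ × Site d | p.1 ≤ n} := by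
    intro η η' hη
    have h1 := dG hη
    have h2 := wt_dep72 ρ β h n hη
    simp only at h1 h2 ⊢
    rw [h1, h2]
  have iF1 : Integrable (fun η => G η * Real.log (wt ρ β h η n) * wt ρ β h η n) (law d ρ) := by
    refine (bd (iL n)).congr (Eventually.of_forall fun η => ?_)
    simp only
    ring
  have i2 : Integrable (fun η => G η * Real.log (wt ρ β h η n) * wt ρ β h η (n + 1))
      (law d ρ) := intMar72 hd hρ β h n 1 mF1 dF1 iF1
  have e2 : ∫ η, G η * Real.log (wt ρ β h η n) * wt ρ β h η (n + 1) ∂(law d ρ) =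
      ∫ η, G η * (wt ρ β h η n * Real.log (wt ρ β h η n)) ∂(law d ρ) := by
    rw [marS72 hd hρ β h n 1 _ mF1 dF1]
    exact integral_congr_ae (Eventually.of_forall fun η => by simp only; ring)
  have mF2 : Measurable fun η => G η / wt ρ β h η n := mG.div mwn
  have dF2 : DependsOn (fun η => G η / wt ρ β h η n) {p : ℕ × Site d | p.1 ≤ n} := by
    intro η η' hη
    have h1 := dG hη
    have h2 := wt_dep72 ρ β h n hη
    simp only at h1 h2 ⊢
    rw [h1, h2]
  have q2 : ∀ η, G η / wt ρ β h η n * wt ρ β h η n ^ 2 = G η * wt ρ β h η n := by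
    intro η
    have := (hwn η n).ne'
    field_simp
  have iF2 : Integrable (fun η => G η / wt ρ β h η n * wt ρ β h η n ^ 2) (law d ρ) := by
    simp only [q2]
    exact bd iwn
  obtain ⟨i3, -, e3⟩ := sec_row72 hd hρ β h n mF2 dF2 iF2
  have e4 : ∫ η, G η / wt ρ β h η n * ∑ x ∈ boxF d (n + 1), nu ρ β h η n x ^ 2 ∂(law d ρ) =
      ∫ η, G η * S2 ρ β h η n ∂(law d ρ) := by
    refine integral_congr_ae (Eventually.of_forall fun η => ?_)
    simp only [S2]
    rw [div_mul_eq_mul_div, mul_div_assoc]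
  simp only [q2] at e3
  rw [e4] at e3
  have e5 : ∫ η, G η * wt ρ β h η (n + 1) ∂(law d ρ) = ∫ η, G η * wt ρ β h η n ∂(law d ρ) :=
    marS72 hd hρ β h n 1 G mG dG
  have i5 := bd iws
  have key : ∀ η, G η * (wt ρ β h η (n + 1) * Real.log (wt ρ β h η (n + 1))) ≤
      (G η * Real.log (wt ρ β h η n) * wt ρ β h η (n + 1) +
        G η / wt ρ β h η n * wt ρ β h η (n + 1) ^ 2) - G η * wt ρ β h η (n + 1) := by
    intro η
    have ha := hwn η n
    have hb := hwn η (n + 1)
    have h1 := Real.log_le_sub_one_of_pos (div_pos hb ha)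
    rw [Real.log_div hb.ne' ha.ne'] at h1
    have h2 : wt ρ β h η (n + 1) * Real.log (wt ρ β h η (n + 1)) ≤
        Real.log (wt ρ β h η n) * wt ρ β h η (n + 1) +
          wt ρ β h η (n + 1) ^ 2 / wt ρ β h η n - wt ρ β h η (n + 1) := by
      have h3 : wt ρ β h η (n + 1) * Real.log (wt ρ β h η (n + 1)) ≤
          wt ρ β h η (n + 1) * (Real.log (wt ρ β h η n) +
            wt ρ β h η (n + 1) / wt ρ β h η n - 1) :=
        mul_le_mul_of_nonneg_left (by linarith) hb.le
      refine h3.trans (le_of_eq ?_)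
      field_simp
    have h4 := mul_le_mul_of_nonneg_left h2 (hG0 η)
    refine h4.trans (le_of_eq ?_)
    ring
  have h6 := integral_mono i1 ((i2.add i3).sub i5) key
  refine h6.trans (le_of_eq ?_)
  simp only [Pi.sub_apply, Pi.add_apply]
  have e6 : ∫ η, (G η * Real.log (wt ρ β h η n) * wt ρ β h η (n + 1) +
      G η / wt ρ β h η n * wt ρ β h η (n + 1) ^ 2) - G η * wt ρ β h η (n + 1) ∂(law d ρ) =
      (∫ η, G η * Real.log (wt ρ β h η n) * wt ρ β h η (n + 1) ∂(law d ρ)) +
      (∫ η, G η / wt ρ β h η n * wt ρ β h η (n + 1) ^ 2 ∂(law d ρ)) -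
      ∫ η, G η * wt ρ β h η (n + 1) ∂(law d ρ) := by
    have i6 : Integrable (fun η => G η * Real.log (wt ρ β h η n) * wt ρ β h η (n + 1) +
      G η / wt ρ β h η n * wt ρ β h η (n + 1) ^ 2) (law d ρ) := i2.add i3
    rw [integral_sub i6 i5, integral_add i2 i3]
  rw [e6, e2, e3, e5]
  ring

end Pool.Agent.W_7d29a1_SD
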