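import Pool.Agent.W_7d29a1_SD.FinA43
import Pool.Agent.W_7d29a1_P78.Tr

/-!
Strong disorder is very strong disorder: integrability of all the moments, and leaf B1, the renewal
inequality.
-/

namespace Pool.Agent.W_7d29a1_SD

open MeasureTheory ProbabilityTheory Filter Topology Pool.Agent.W_MP_7d29a1_pr
  Pool.Agent.W_7d29a1_h46 Pool.Agent.W_7d29a1_h46u Pool.Agent.W_7d29a1_D2.B35
  Pool.Agent.W_7d29a1_Q29 Pool.Agent.W_7d29a1_P89 Pool.Agent.W_7d29a1_P78

variable {d : ℕ} {ρ : Measure ℝ} [IsProbabilityMeasure ρ] {β : ℝ}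

/-! ### Integrability -/

lemma int_wt_rpow78 (hd : 0 < d) (hρ : EM ρ) (β : ℝ) (h : Vec d) (n : ℕ) {t : ℝ} (ht : 0 ≤ t) :
    Integrable (fun η => wt ρ β h η n ^ t) (law d ρ) :=
  ZH_powint78 hd hρ (Pn ρ β h 1) n ht

lemma int_wt_inv78 (hd : 0 < d) (hρ : EM ρ) (β : ℝ) (h : Vec d) (n : ℕ) :
    Integrable (fun η => (wt ρ β h η n)⁻¹) (law d ρ) := by
  have h1 := (Z_negint78 hd hρ β h n (t := 1) zero_le_one).const_mul
    (Real.exp (-((n : ℝ) * (Pn ρ β h 1).Lam)))⁻¹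
  refine h1.congr (Eventually.of_forall fun η => ?_)
  simp only
  unfold wt ZH
  rw [Real.rpow_neg_one, mul_inv]
  rfl

/-- The sum of the powers. -/
noncomputable def U78 (ρ : Measure ℝ) (β : ℝ) (h : Vec d) (ε : ℝ) (η : Env d) (m : ℕ) : ℝ :=
  ∑ x ∈ boxF d m, w ρ β h η m x ^ (1 + ε)

lemma U78_nonneg (ρ : Measure ℝ) (β : ℝ) (h : Vec d) (ε : ℝ) (η : Env d) (m : ℕ) :
    0 ≤ U78 ρ β h ε η m :=
  Finset.sum_nonneg fun x _ => Real.rpow_nonneg (w_nonneg43 ρ β h η m x) _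

lemma U78_meas (ρ : Measure ℝ) (β : ℝ) (h : Vec d) (ε : ℝ) (m : ℕ) :
    Measurable fun η : Env d => U78 ρ β h ε η m :=
  Finset.measurable_sum _ fun x _ => (measurable_w43 ρ β h m x).pow_const _

lemma w_le_wt78 (ρ : Measure ℝ) (β : ℝ) (h : Vec d) (η : Env d) (n : ℕ) (x : Site d) :
    w ρ β h η n x ≤ wt ρ β h η n := W_le_ZH _ _ _ _

lemma U78_le (ρ : Measure ℝ) (β : ℝ) (h : Vec d) {ε : ℝ} (hε : 0 < ε) (η : Env d) (m : ℕ) :
    U78 ρ β h ε η m ≤ ((boxF d m).card : ℝ) * wt ρ β h η m ^ (1 + ε) := by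
  have h1 := Finset.sum_le_card_nsmul (boxF d m) (fun x => w ρ β h η m x ^ (1 + ε))
    (wt ρ β h η m ^ (1 + ε)) fun x _ => Real.rpow_le_rpow (w_nonneg43 ρ β h η m x)
      (w_le_wt78 ρ β h η m x) (by linarith)
  rwa [nsmul_eq_mul] at h1

/-- INT: all the moments are finite. -/
theorem int_Mo78 (hd : 0 < d) (hρ : EM ρ) (β : ℝ) (h : Vec d) {ε : ℝ} (m : ℕ) (hε : 0 < ε) :
    Integrable (fun η => ∑ x ∈ boxF d m, w ρ β h η m x ^ (1 + ε)) (law d ρ) := by
  refine ((int_wt_rpow78 hd hρ β h m (t := 1 + ε) (by linarith)).const_mul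
    ((boxF d m).card : ℝ)).mono' (U78_meas ρ β h ε m).aestronglyMeasurable
      (Eventually.of_forall fun η => ?_)
  have h2 := U78_le ρ β h hε η m
  have h3 := abs_of_nonneg (U78_nonneg ρ β h ε η m)
  rw [Real.norm_eq_abs]
  unfold U78 at h2 h3
  rw [h3]
  exact h2

/-! ### The chain inequality -/

lemma sum_rpow_le78 {ι : Type*} (s : Finset ι) {f : ι → ℝ} (hf : ∀ i, 0 ≤ f i) {a : ℝ}
    (h1 : 1 ≤ a) : ∑ i ∈ s, f i ^ a ≤ (∑ i ∈ s, f i) ^ a := by
  classical
  induction s using Finset.induction_on with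
  | empty => simp [Real.zero_rpow (by linarith : a ≠ 0)]
  | insert i s hi ih =>
    rw [Finset.sum_insert hi, Finset.sum_insert hi]
    have h2 : 0 ≤ ∑ j ∈ s, f j := Finset.sum_nonneg fun j _ => hf j
    have h3 : f i ^ a + (∑ j ∈ s, f j) ^ a ≤ (f i + ∑ j ∈ s, f j) ^ a :=
      Real.add_rpow_le_rpow_add (hf i) h2 h1
    linarith

lemma w_split78 (ρ : Measure ℝ) (β : ℝ) (h : Vec d) (η : Env d) (m n : ℕ) (x : Site d) :
    w ρ β h η (m + n) x = ∑ z ∈ boxF d m, w ρ β h η m z * w ρ β h (sh m z η) n (x - z) :=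
  W_split _ _ _ _ _

lemma chain78 (ρ : Measure ℝ) (β : ℝ) (h : Vec d) {ε : ℝ} (hε : 0 < ε) (η : Env d) (n m : ℕ) :
    ∑ x ∈ boxF d n, w ρ β h η n x ^ (1 + ε) * U78 ρ β h ε (sh n x η) m ≤
      U78 ρ β h ε η (n + m) := by
  classical
  have h1 : ∀ y ∈ boxF d (n + m), ∑ x ∈ boxF d n, w ρ β h η n x ^ (1 + ε) *
      w ρ β h (sh n x η) m (y - x) ^ (1 + ε) ≤ w ρ β h η (n + m) y ^ (1 + ε) := by
    intro y _
    rw [w_split78]
    refine le_trans (le_of_eq (Finset.sum_congr rfl fun x _ => ?_)) (sum_rpow_le78 (boxF d n)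
      (f := fun z => w ρ β h η n z * w ρ β h (sh n z η) m (y - z))
      (fun z => mul_nonneg (w_nonneg43 _ _ _ _ _ _) (w_nonneg43 _ _ _ _ _ _))
      (a := 1 + ε) (by linarith))
    exact (Real.mul_rpow (w_nonneg43 _ _ _ _ _ _) (w_nonneg43 _ _ _ _ _ _)).symm
  unfold U78
  refine le_trans ?_ (Finset.sum_le_sum h1)
  rw [Finset.sum_comm]
  refine Finset.sum_le_sum fun x hx => ?_
  rw [← Finset.mul_sum]
  refine mul_le_mul_of_nonneg_left ?_ (Real.rpow_nonneg (w_nonneg43 _ _ _ _ _ _) _)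
  have h2 : ∑ z ∈ boxF d m, w ρ β h (sh n x η) m z ^ (1 + ε) =
      ∑ y ∈ (boxF d m).image fun z => x + z, w ρ β h (sh n x η) m (y - x) ^ (1 + ε) := by
    rw [Finset.sum_image]
    · refine Finset.sum_congr rfl fun z _ => ?_
      rw [add_sub_cancel_left]
    · intro a _ b _ hab
      exact add_right_injective x hab
  rw [h2]
  refine Finset.sum_le_sum_of_subset_of_nonneg ?_ fun y _ _ =>
    Real.rpow_nonneg (w_nonneg43 _ _ _ _ _ _) _
  intro y hy
  obtain ⟨z, hz, rfl⟩ := Finset.mem_image.1 hy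
  rw [mem_boxF] at hx hz ⊢
  intro i
  have h3 := abs_add_le (x i) (z i)
  have h4 := hx i
  have h5 := hz i
  push_cast
  exact h3.trans (add_le_add h4 h5)

lemma w_dep78 (ρ : Measure ℝ) (β : ℝ) (h : Vec d) (n : ℕ) (x : Site d) :
    DependsOn (fun η : Env d => w ρ β h η n x) {p | p.1 ≤ n} := dependsOn_Wr _ _ _

lemma wt_dep78 (ρ : Measure ℝ) (β : ℝ) (h : Vec d) (n : ℕ) :
    DependsOn (fun η : Env d => wt ρ β h η n) {p | p.1 ≤ n} := by
  intro η η' hη
  simp only [wt_eq43]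
  exact Finset.sum_congr rfl fun x _ => w_dep78 ρ β h n x hη

lemma U78_dep (ρ : Measure ℝ) (β : ℝ) (h : Vec d) (ε : ℝ) (m : ℕ) :
    DependsOn (fun η : Env d => U78 ρ β h ε η m) {p | 1 ≤ p.1} := by
  intro η η' hη
  simp only
  unfold U78
  refine Finset.sum_congr rfl fun x _ => ?_
  have h1 : w ρ β h η m x = w ρ β h η' m x := dependsOn_W (Pn ρ β h 1) m x fun p hp => hη p hp.1
  rw [h1]

/-- The renewal step. -/
lemma renew78 (hd : 0 < d) (hρ : EM ρ) (β : ℝ) (h : Vec d) {ε : ℝ} (hε : 0 < ε) (n m : ℕ)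
    {G : Env d → ℝ} (hG : Measurable G) (hGd : DependsOn G {p | p.1 ≤ n})
    (h0 : ∀ η, 0 ≤ G η) (h1 : ∀ η, G η ≤ 1) :
    (∫ η, G η * U78 ρ β h ε η n ∂(law d ρ)) * Mo ρ β h ε m ≤
      ∫ η, G η * U78 ρ β h ε η (n + m) ∂(law d ρ) := by
  have hU : ∀ k, Integrable (fun η => U78 ρ β h ε η k) (law d ρ) := fun k =>
    int_Mo78 hd hρ β h k hε
  have hGU : ∀ k, Integrable (fun η => G η * U78 ρ β h ε η k) (law d ρ) := by
    intro k
    refine (hU k).mono' (hG.mul (U78_meas ρ β h ε k)).aestronglyMeasurable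
      (Eventually.of_forall fun η => ?_)
    rw [Real.norm_eq_abs, abs_of_nonneg (mul_nonneg (h0 η) (U78_nonneg ρ β h ε η k))]
    exact mul_le_of_le_one_left (U78_nonneg ρ β h ε η k) (h1 η)
  have hT : ∀ x ∈ boxF d n, ∀ η : Env d, w ρ β h η n x ^ (1 + ε) * U78 ρ β h ε (sh n x η) m ≤
      U78 ρ β h ε η (n + m) := by
    intro x hx η
    refine le_trans ?_ (chain78 ρ β h hε η n m)
    exact Finset.single_le_sum (f := fun x => w ρ β h η n x ^ (1 + ε) *
      U78 ρ β h ε (sh n x η) m) (fun y _ => mul_nonneg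
        (Real.rpow_nonneg (w_nonneg43 _ _ _ _ _ _) _) (U78_nonneg _ _ _ _ _ _)) hx
  have hmx : ∀ x, Measurable fun η : Env d => G η * w ρ β h η n x ^ (1 + ε) := fun x =>
    hG.mul ((measurable_w43 ρ β h n x).pow_const _)
  have hms : ∀ x, Measurable fun η : Env d => U78 ρ β h ε (sh n x η) m := fun x =>
    (U78_meas ρ β h ε m).comp (measurable_sh n x)
  have hix : ∀ x ∈ boxF d n, Integrable (fun η => G η * w ρ β h η n x ^ (1 + ε) *
      U78 ρ β h ε (sh n x η) m) (law d ρ) := by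
    intro x hx
    refine (hU (n + m)).mono' ((hmx x).mul (hms x)).aestronglyMeasurable
      (Eventually.of_forall fun η => ?_)
    have h2 : 0 ≤ w ρ β h η n x ^ (1 + ε) * U78 ρ β h ε (sh n x η) m :=
      mul_nonneg (Real.rpow_nonneg (w_nonneg43 _ _ _ _ _ _) _) (U78_nonneg _ _ _ _ _ _)
    rw [Real.norm_eq_abs, mul_assoc, abs_of_nonneg (mul_nonneg (h0 η) h2)]
    exact (mul_le_of_le_one_left h2 (h1 η)).trans (hT x hx η)
  have hiw : ∀ x ∈ boxF d n, Integrable (fun η => G η * w ρ β h η n x ^ (1 + ε)) (law d ρ) := by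
    intro x hx
    refine (hU n).mono' (hmx x).aestronglyMeasurable (Eventually.of_forall fun η => ?_)
    have h2 : 0 ≤ w ρ β h η n x ^ (1 + ε) := Real.rpow_nonneg (w_nonneg43 _ _ _ _ _ _) _
    rw [Real.norm_eq_abs, abs_of_nonneg (mul_nonneg (h0 η) h2)]
    refine (mul_le_of_le_one_left h2 (h1 η)).trans ?_
    exact Finset.single_le_sum (f := fun x => w ρ β h η n x ^ (1 + ε))
      (fun y _ => Real.rpow_nonneg (w_nonneg43 _ _ _ _ _ _) _) hx
  have h3 : ∀ x ∈ boxF d n, (∫ η, G η * w ρ β h η n x ^ (1 + ε) ∂(law d ρ)) * Mo ρ β h ε m =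
      ∫ η, G η * w ρ β h η n x ^ (1 + ε) * U78 ρ β h ε (sh n x η) m ∂(law d ρ) := by
    intro x _
    have h4 := integral_indep (ρ := ρ) {p : ℕ × Site d | p.1 ≤ n}
      (F := fun η => G η * w ρ β h η n x ^ (1 + ε)) (G := fun η => U78 ρ β h ε (sh n x η) m)
      (hmx x) (hms x) (fun η η' hη => by
        have h5 := hGd hη
        have h6 : w ρ β h η n x = w ρ β h η' n x := w_dep78 ρ β h n x hη
        simp only
        rw [h5, h6]) (dependsOn_sh (U78_dep ρ β h ε m) n x)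
    rw [h4, integral_sh n x (U78_meas ρ β h ε m)]
    rfl
  calc (∫ η, G η * U78 ρ β h ε η n ∂(law d ρ)) * Mo ρ β h ε m
      = (∑ x ∈ boxF d n, ∫ η, G η * w ρ β h η n x ^ (1 + ε) ∂(law d ρ)) * Mo ρ β h ε m := by
        rw [← integral_finsetSum _ hiw]
        congr 1
        refine integral_congr_ae (Eventually.of_forall fun η => ?_)
        simp only
        unfold U78
        rw [Finset.mul_sum]
    _ = ∑ x ∈ boxF d n, ∫ η, G η * w ρ β h η n x ^ (1 + ε) *
          U78 ρ β h ε (sh n x η) m ∂(law d ρ) := by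
        rw [Finset.sum_mul]
        exact Finset.sum_congr rfl h3
    _ = ∫ η, ∑ x ∈ boxF d n, G η * w ρ β h η n x ^ (1 + ε) *
          U78 ρ β h ε (sh n x η) m ∂(law d ρ) := (integral_finsetSum _ hix).symm
    _ ≤ _ := by
        refine integral_mono (integrable_finsetSum _ hix) (hGU (n + m)) fun η => ?_
        simp only
        have h5 : ∑ x ∈ boxF d n, G η * w ρ β h η n x ^ (1 + ε) * U78 ρ β h ε (sh n x η) m =
            G η * ∑ x ∈ boxF d n, w ρ β h η n x ^ (1 + ε) * U78 ρ β h ε (sh n x η) m := by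
          rw [Finset.mul_sum]
          exact Finset.sum_congr rfl fun x _ => mul_assoc _ _ _
        rw [h5]
        exact mul_le_mul_of_nonneg_left (chain78 ρ β h hε η n m) (h0 η)

/-! ### The first time of localisation -/

open Classical in
/-- The indicator of no localisation. -/
noncomputable def I78 (ρ : Measure ℝ) (β : ℝ) (h : Vec d) (δ : ℝ) (N T : ℕ) (η : Env d) : ℝ :=
  if NLoc ρ β h δ N T η then 1 else 0

lemma I78_nonneg (ρ : Measure ℝ) (β : ℝ) (h : Vec d) (δ : ℝ) (N T : ℕ) (η : Env d) :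
    0 ≤ I78 ρ β h δ N T η := by
  unfold I78
  split_ifs <;> norm_num

lemma I78_le (ρ : Measure ℝ) (β : ℝ) (h : Vec d) (δ : ℝ) (N T : ℕ) (η : Env d) :
    I78 ρ β h δ N T η ≤ 1 := by
  unfold I78
  split_ifs <;> norm_num

lemma I78_start (ρ : Measure ℝ) (β : ℝ) (h : Vec d) (δ : ℝ) (N : ℕ) (η : Env d) :
    I78 ρ β h δ N N η = 1 := by
  unfold I78
  rw [if_pos]
  intro n h1 h2
  omega

omit [IsProbabilityMeasure ρ] in
lemma NLoc_mono78 {h : Vec d} {δ : ℝ} {N n : ℕ} {η : Env d} (hn : NLoc ρ β h δ N (n + 1) η) :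
    NLoc ρ β h δ N n η := fun k h1 h2 => hn k h1 (by omega)

omit [IsProbabilityMeasure ρ] in
/-- The two values of the difference. -/
lemma G78_val {h : Vec d} {δ : ℝ} {N n : ℕ} (η : Env d) :
    (I78 ρ β h δ N n η - I78 ρ β h δ N (n + 1) η = 0) ∨
      (I78 ρ β h δ N n η - I78 ρ β h δ N (n + 1) η = 1 ∧
        ∃ x, δ * wt ρ β h η n ≤ w ρ β h η n x) := by
  unfold I78
  by_cases h1 : NLoc ρ β h δ N (n + 1) η
  · left
    rw [if_pos h1, if_pos (NLoc_mono78 h1), sub_self]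
  · by_cases h2 : NLoc ρ β h δ N n η
    · right
      refine ⟨by rw [if_pos h2, if_neg h1, sub_zero], ?_⟩
      by_contra hc
      push Not at hc
      refine h1 fun k h3 h4 x => ?_
      rcases Nat.lt_succ_iff_lt_or_eq.1 h4 with h5 | h5
      · exact h2 k h3 h5 x
      · rw [h5]
        exact hc x
    · left
      rw [if_neg h1, if_neg h2, sub_zero]

lemma NLoc_meas78 (ρ : Measure ℝ) (β : ℝ) (h : Vec d) (δ : ℝ) (N T : ℕ) :
    MeasurableSet {η : Env d | NLoc ρ β h δ N T η} := by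
  have h1 : {η : Env d | NLoc ρ β h δ N T η} =
      ⋂ n ∈ Finset.Ico N T, ⋂ x : Site d, {η : Env d | w ρ β h η n x < δ * wt ρ β h η n} := by
    ext η
    simp only [NLoc, Set.mem_ofPred_eq, Set.mem_iInter, Finset.mem_Ico]
    exact ⟨fun hh n hn x => hh n hn.1 hn.2 x, fun hh n h2 h3 x => hh n ⟨h2, h3⟩ x⟩
  rw [h1]
  exact Finset.measurableSet_biInter _ fun n _ => MeasurableSet.iInter fun x =>
    measurableSet_lt (measurable_w43 ρ β h n x) ((measurable_wt43 ρ β h n).const_mul δ)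

lemma I78_meas (ρ : Measure ℝ) (β : ℝ) (h : Vec d) (δ : ℝ) (N T : ℕ) :
    Measurable fun η : Env d => I78 ρ β h δ N T η :=
  Measurable.ite (NLoc_meas78 ρ β h δ N T) measurable_const measurable_const

lemma I78_dep' (ρ : Measure ℝ) (β : ℝ) (h : Vec d) (δ : ℝ) (N n : ℕ) {T : ℕ} (hT : T ≤ n + 1) :
    DependsOn (fun η : Env d => I78 ρ β h δ N T η) {p | p.1 ≤ n} := by
  intro η η' hη
  have h1 : NLoc ρ β h δ N T η ↔ NLoc ρ β h δ N T η' := by
    unfold NLoc
    refine forall_congr' fun k => forall_congr' fun _ => forall_congr' fun hk =>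
      forall_congr' fun x => ?_
    have h2 : ∀ p ∈ {p : ℕ × Site d | p.1 ≤ k}, η p = η' p := fun p hp => by
      refine hη p ?_
      have h4 : p.1 ≤ k := hp
      change p.1 ≤ n
      omega
    have h3 : w ρ β h η k x = w ρ β h η' k x := w_dep78 ρ β h k x h2
    have h4 : wt ρ β h η k = wt ρ β h η' k := wt_dep78 ρ β h k h2
    rw [h3, h4]
  simp only
  unfold I78
  by_cases h5 : NLoc ρ β h δ N T η
  · rw [if_pos h5, if_pos (h1.1 h5)]
  · rw [if_neg h5, if_neg fun h6 => h5 (h1.2 h6)]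

/-! ### The square root -/

lemma sqrt_super78 (hd : 0 < d) (hρ : EM ρ) (hM : MarS d ρ β) (h : Vec d) (n : ℕ)
    {G : Env d → ℝ} (hG : Measurable G) (hGd : DependsOn G {p | p.1 ≤ n})
    (h0 : ∀ η, 0 ≤ G η) (h1 : ∀ η, G η ≤ 1) :
    ∫ η, G η * Real.sqrt (wt ρ β h η (n + 1)) ∂(law d ρ) ≤
      ∫ η, G η * Real.sqrt (wt ρ β h η n) ∂(law d ρ) := by
  have hs : ∀ k, Integrable (fun η => Real.sqrt (wt ρ β h η k)) (law d ρ) := by
    intro k
    refine (int_wt_rpow78 hd hρ β h k (t := 1 / 2) (by norm_num)).congr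
      (Eventually.of_forall fun η => ?_)
    simp only
    rw [Real.sqrt_eq_rpow]
  have hms : ∀ k, Measurable fun η : Env d => Real.sqrt (wt ρ β h η k) := fun k =>
    (measurable_wt43 ρ β h k).sqrt
  have hGs : ∀ k, Integrable (fun η => G η * Real.sqrt (wt ρ β h η k)) (law d ρ) := by
    intro k
    refine (hs k).mono' (hG.mul (hms k)).aestronglyMeasurable (Eventually.of_forall fun η => ?_)
    rw [Real.norm_eq_abs, abs_of_nonneg (mul_nonneg (h0 η) (Real.sqrt_nonneg _))]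
    exact mul_le_of_le_one_left (Real.sqrt_nonneg _) (h1 η)
  have hF : Measurable fun η : Env d => G η / Real.sqrt (wt ρ β h η n) := hG.div (hms n)
  have hFd : DependsOn (fun η : Env d => G η / Real.sqrt (wt ρ β h η n)) {p | p.1 ≤ n} := by
    intro η η' hη
    have h2 : wt ρ β h η n = wt ρ β h η' n := wt_dep78 ρ β h n hη
    simp only
    rw [hGd hη, h2]
  have h2 := hM h n 1 (fun η => G η / Real.sqrt (wt ρ β h η n)) hF hFd
  have h3 : ∫ η, G η / Real.sqrt (wt ρ β h η n) * wt ρ β h η n ∂(law d ρ) =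
      ∫ η, G η * Real.sqrt (wt ρ β h η n) ∂(law d ρ) := by
    refine integral_congr_ae (Eventually.of_forall fun η => ?_)
    simp only
    have h4 := Real.sqrt_pos.2 (wt_pos43 hd ρ β h η n)
    have h5 := Real.mul_self_sqrt (wt_pos43 hd ρ β h η n).le
    have h6 : G η / Real.sqrt (wt ρ β h η n) * wt ρ β h η n =
        G η / Real.sqrt (wt ρ β h η n) *
          (Real.sqrt (wt ρ β h η n) * Real.sqrt (wt ρ β h η n)) := by rw [h5]
    rw [h6]
    field_simp
  have hi : Integrable (fun η => G η / Real.sqrt (wt ρ β h η n) * wt ρ β h η (n + 1))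
      (law d ρ) := by
    have h4 := ((int_wt_rpow78 hd hρ β h (n + 1) (t := 2) (by norm_num)).add
      (int_wt_inv78 hd hρ β h n)).div_const 2
    refine h4.mono' (hF.mul (measurable_wt43 ρ β h (n + 1))).aestronglyMeasurable
      (Eventually.of_forall fun η => ?_)
    have h5 := wt_pos43 hd ρ β h η n
    have h6 := wt_pos43 hd ρ β h η (n + 1)
    have h7 := Real.sqrt_pos.2 h5
    have h8 : 0 ≤ G η / Real.sqrt (wt ρ β h η n) := div_nonneg (h0 η) h7.le
    rw [Real.norm_eq_abs, abs_of_nonneg (mul_nonneg h8 h6.le)]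
    have h9 : G η / Real.sqrt (wt ρ β h η n) ≤ 1 / Real.sqrt (wt ρ β h η n) :=
      div_le_div_of_nonneg_right (h1 η) h7.le
    have h10 : (1 / Real.sqrt (wt ρ β h η n)) ^ 2 = (wt ρ β h η n)⁻¹ := by
      rw [div_pow, Real.sq_sqrt h5.le, one_pow, one_div]
    have h11 : wt ρ β h η (n + 1) ^ (2 : ℝ) = wt ρ β h η (n + 1) ^ 2 := by
      exact_mod_cast Real.rpow_natCast (wt ρ β h η (n + 1)) 2
    simp only [Pi.add_apply]
    rw [h11, ← h10]
    have h12 := mul_le_mul_of_nonneg_right h9 h6.le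
    nlinarith [sq_nonneg (wt ρ β h η (n + 1) - 1 / Real.sqrt (wt ρ β h η n))]
  have h4 : ∫ η, G η * Real.sqrt (wt ρ β h η (n + 1)) ∂(law d ρ) ≤
      ∫ η, (G η * Real.sqrt (wt ρ β h η n) +
        G η / Real.sqrt (wt ρ β h η n) * wt ρ β h η (n + 1)) / 2 ∂(law d ρ) := by
    refine integral_mono (hGs (n + 1)) (((hGs n).add hi).div_const 2) fun η => ?_
    simp only
    have h5 := wt_pos43 hd ρ β h η n
    have h6 := wt_pos43 hd ρ β h η (n + 1)
    have h7 := Real.sqrt_pos.2 h5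
    have h9 := Real.mul_self_sqrt h6.le
    have h10 : Real.sqrt (wt ρ β h η (n + 1)) * 2 * Real.sqrt (wt ρ β h η n) ≤
        (Real.sqrt (wt ρ β h η n) + wt ρ β h η (n + 1) / Real.sqrt (wt ρ β h η n)) *
          Real.sqrt (wt ρ β h η n) := by
      rw [add_mul, div_mul_cancel₀ _ h7.ne']
      nlinarith [sq_nonneg (Real.sqrt (wt ρ β h η (n + 1)) - Real.sqrt (wt ρ β h η n))]
    have h11 := le_of_mul_le_mul_right h10 h7
    have h12 : G η / Real.sqrt (wt ρ β h η n) * wt ρ β h η (n + 1) =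
        G η * (wt ρ β h η (n + 1) / Real.sqrt (wt ρ β h η n)) := by ring
    have h13 := mul_le_mul_of_nonneg_left h11 (h0 η)
    rw [h12]
    linarith
  have h5 : ∫ η, (G η * Real.sqrt (wt ρ β h η n) +
        G η / Real.sqrt (wt ρ β h η n) * wt ρ β h η (n + 1)) / 2 ∂(law d ρ) =
      ∫ η, G η * Real.sqrt (wt ρ β h η n) ∂(law d ρ) := by
    rw [integral_div, integral_add (hGs n) hi, h2, h3]
    ring
  exact h4.trans h5.le

/-! ### The renewal inequality -/

/-- The indicator of the first time of localisation. -/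
noncomputable def G78 (ρ : Measure ℝ) (β : ℝ) (h : Vec d) (δ : ℝ) (N n : ℕ) (η : Env d) : ℝ :=
  I78 ρ β h δ N n η - I78 ρ β h δ N (n + 1) η

lemma G78_nonneg (ρ : Measure ℝ) (β : ℝ) (h : Vec d) (δ : ℝ) (N n : ℕ) (η : Env d) :
    0 ≤ G78 ρ β h δ N n η := by
  unfold G78
  rcases G78_val (ρ := ρ) (β := β) (h := h) (δ := δ) (N := N) (n := n) η with h1 | ⟨h1, -⟩ <;>
    rw [h1]
  norm_num

lemma G78_le (ρ : Measure ℝ) (β : ℝ) (h : Vec d) (δ : ℝ) (N n : ℕ) (η : Env d) :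
    G78 ρ β h δ N n η ≤ 1 := by
  unfold G78
  rcases G78_val (ρ := ρ) (β := β) (h := h) (δ := δ) (N := N) (n := n) η with h1 | ⟨h1, -⟩ <;>
    rw [h1]
  norm_num

lemma G78_meas (ρ : Measure ℝ) (β : ℝ) (h : Vec d) (δ : ℝ) (N n : ℕ) :
    Measurable fun η : Env d => G78 ρ β h δ N n η :=
  (I78_meas ρ β h δ N n).sub (I78_meas ρ β h δ N (n + 1))

lemma G78_dep (ρ : Measure ℝ) (β : ℝ) (h : Vec d) (δ : ℝ) (N n : ℕ) :
    DependsOn (fun η : Env d => G78 ρ β h δ N n η) {p | p.1 ≤ n} := by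
  intro η η' hη
  have h1 : I78 ρ β h δ N n η = I78 ρ β h δ N n η' := I78_dep' ρ β h δ N n (by omega) hη
  have h2 : I78 ρ β h δ N (n + 1) η = I78 ρ β h δ N (n + 1) η' :=
    I78_dep' ρ β h δ N n le_rfl hη
  simp only
  unfold G78
  rw [h1, h2]

lemma G78_sum (ρ : Measure ℝ) (β : ℝ) (h : Vec d) (δ : ℝ) {N T : ℕ} (hT : N ≤ T) (η : Env d) :
    ∑ n ∈ Finset.Ico N T, G78 ρ β h δ N n η = 1 - I78 ρ β h δ N T η := by
  unfold G78
  induction T, hT using Nat.le_induction with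
  | base => simp [I78_start]
  | succ k hk ih =>
    rw [Finset.sum_Ico_succ_top hk, ih]
    ring

/-- The pointwise lower bound of the sum of the powers. -/
lemma U78_low (hd : 0 < d) (ρ : Measure ℝ) (β : ℝ) (h : Vec d) {ε δ v : ℝ} (hε : 0 < ε)
    (hδ : 0 < δ) (hv : 0 < v) (N n : ℕ) (η : Env d) :
    δ ^ (1 + ε) * v ^ ε * (G78 ρ β h δ N n η * wt ρ β h η n -
      Real.sqrt v * (G78 ρ β h δ N n η * Real.sqrt (wt ρ β h η n))) ≤
      G78 ρ β h δ N n η * U78 ρ β h ε η n := by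
  unfold G78
  rcases G78_val (ρ := ρ) (β := β) (h := h) (δ := δ) (N := N) (n := n) η with h1 | ⟨h1, x, hx⟩ <;>
    rw [h1]
  · simp
  · have h2 := wt_pos43 hd ρ β h η n
    have hxb : x ∈ boxF d n := by
      by_contra hc
      have h3 : w ρ β h η n x = 0 := W_zero _ _ _ hc
      rw [h3] at hx
      have := mul_pos hδ h2
      linarith
    have h3 : (δ * wt ρ β h η n) ^ (1 + ε) ≤ U78 ρ β h ε η n := by
      refine (Real.rpow_le_rpow (mul_pos hδ h2).le hx (by linarith)).trans ?_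
      exact Finset.single_le_sum (f := fun x => w ρ β h η n x ^ (1 + ε))
        (fun y _ => Real.rpow_nonneg (w_nonneg43 _ _ _ _ _ _) _) hxb
    rw [Real.mul_rpow hδ.le h2.le] at h3
    have h4 : v ^ ε * (wt ρ β h η n - Real.sqrt v * Real.sqrt (wt ρ β h η n)) ≤
        wt ρ β h η n ^ (1 + ε) := by
      have h5 : wt ρ β h η n ^ (1 + ε) = wt ρ β h η n * wt ρ β h η n ^ ε := by
        rw [Real.rpow_add h2, Real.rpow_one]
      have h6 : 0 ≤ Real.sqrt v * Real.sqrt (wt ρ β h η n) := by positivity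
      have h7 : 0 < v ^ ε := Real.rpow_pos_of_pos hv ε
      rcases le_total v (wt ρ β h η n) with h8 | h8
      · have h9 : v ^ ε ≤ wt ρ β h η n ^ ε := Real.rpow_le_rpow hv.le h8 hε.le
        rw [h5]
        nlinarith [mul_nonneg h7.le h6, mul_le_mul_of_nonneg_left h9 h2.le]
      · have h9 : wt ρ β h η n ≤ Real.sqrt v * Real.sqrt (wt ρ β h η n) := by
          have h10 := Real.mul_self_sqrt h2.le
          have h11 := Real.sqrt_le_sqrt h8
          nlinarith [Real.sqrt_nonneg (wt ρ β h η n)]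
        have h10 : v ^ ε * (wt ρ β h η n - Real.sqrt v * Real.sqrt (wt ρ β h η n)) ≤ 0 :=
          mul_nonpos_of_nonneg_of_nonpos h7.le (by linarith)
        exact h10.trans (Real.rpow_nonneg h2.le _)
    have h5 : 0 < δ ^ (1 + ε) := Real.rpow_pos_of_pos hδ _
    have h6 := mul_le_mul_of_nonneg_left h4 h5.le
    rw [one_mul, one_mul, one_mul, mul_assoc]
    linarith

open Classical in
/-- B1: the renewal inequality. -/
theorem renL78 (hd : 0 < d) (hρ : EM ρ) (hM : MarS d ρ β) : RenL d ρ β := by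
  intro h hS hL ε hε
  obtain ⟨δ, hδ, hL⟩ := hL
  have hδ1 : 0 < δ ^ (1 + ε) := Real.rpow_pos_of_pos hδ _
  obtain ⟨v, hv, hvε⟩ : ∃ v : ℝ, 0 < v ∧ v ^ ε = 4 / δ ^ (1 + ε) := by
    have h1 : 0 < 4 / δ ^ (1 + ε) := by positivity
    refine ⟨(4 / δ ^ (1 + ε)) ^ (1 / ε), Real.rpow_pos_of_pos h1 _, ?_⟩
    rw [← Real.rpow_mul h1.le, one_div, inv_mul_cancel₀ hε.ne', Real.rpow_one]
  have hsv : 0 ≤ Real.sqrt v := Real.sqrt_nonneg v
  have hq : 0 < 1 / (4 * (Real.sqrt v + 1)) := by positivity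
  obtain ⟨N0, hN0⟩ := Filter.eventually_atTop.1 (hS.eventually (gt_mem_nhds hq))
  set N : ℕ := max N0 1 with hN
  have hN1 : 1 ≤ N := le_max_right _ _
  have hsN := hN0 N (le_max_left _ _)
  obtain ⟨T0, hT0⟩ := Filter.eventually_atTop.1
    ((hL N).eventually (gt_mem_nhds (by norm_num : (0 : ℝ) < 1 / 4)))
  set T : ℕ := max T0 (N + 1) with hT
  have hNT : N < T := lt_of_lt_of_le (Nat.lt_succ_self N) (le_max_right _ _)
  have hLT := hT0 T (le_max_left _ _)
  have hmw : ∀ k, Measurable fun η : Env d => wt ρ β h η k := fun k => measurable_wt43 ρ β h k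
  have hiw : ∀ k, Integrable (fun η => wt ρ β h η k) (law d ρ) := fun k =>
    integrable_wt43 hd hρ h k
  have hs : ∀ k, Integrable (fun η => Real.sqrt (wt ρ β h η k)) (law d ρ) := by
    intro k
    refine (int_wt_rpow78 hd hρ β h k (t := 1 / 2) (by norm_num)).congr
      (Eventually.of_forall fun η => ?_)
    simp only
    rw [Real.sqrt_eq_rpow]
  have hbd : ∀ {G F : Env d → ℝ}, Measurable G → Measurable F → (∀ η, 0 ≤ G η) →
      (∀ η, G η ≤ 1) → (∀ η, 0 ≤ F η) → Integrable F (law d ρ) →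
      Integrable (fun η => G η * F η) (law d ρ) := by
    intro G F hG hF h0 h1 hF0 hFi
    refine hFi.mono' (hG.mul hF).aestronglyMeasurable (Eventually.of_forall fun η => ?_)
    rw [Real.norm_eq_abs, abs_of_nonneg (mul_nonneg (h0 η) (hF0 η))]
    exact mul_le_of_le_one_left (hF0 η) (h1 η)
  have hw0 : ∀ k η, 0 ≤ wt ρ β h η k := fun k η => (wt_pos43 hd ρ β h η k).le
  have hGm := G78_meas ρ β h δ N
  have hG0 : ∀ n η, 0 ≤ G78 ρ β h δ N n η := fun n η => G78_nonneg ρ β h δ N n η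
  have hG1 : ∀ n η, G78 ρ β h δ N n η ≤ 1 := fun n η => G78_le ρ β h δ N n η
  have hiGw : ∀ n k, Integrable (fun η => G78 ρ β h δ N n η * wt ρ β h η k) (law d ρ) :=
    fun n k => hbd (hGm n) (hmw k) (hG0 n) (hG1 n) (hw0 k) (hiw k)
  have hiGs : ∀ n k, Integrable (fun η => G78 ρ β h δ N n η * Real.sqrt (wt ρ β h η k))
      (law d ρ) :=
    fun n k => hbd (hGm n) (hmw k).sqrt (hG0 n) (hG1 n) (fun η => Real.sqrt_nonneg _) (hs k)
  have hiIs : ∀ n k, Integrable (fun η => I78 ρ β h δ N n η * Real.sqrt (wt ρ β h η k))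
      (law d ρ) :=
    fun n k => hbd (I78_meas ρ β h δ N n) (hmw k).sqrt (fun η => I78_nonneg ρ β h δ N n η)
      (fun η => I78_le ρ β h δ N n η) (fun η => Real.sqrt_nonneg _) (hs k)
  have hU : ∀ k, Integrable (fun η => U78 ρ β h ε η k) (law d ρ) := fun k =>
    int_Mo78 hd hρ β h k hε
  have hiGU : ∀ n k, Integrable (fun η => G78 ρ β h δ N n η * U78 ρ β h ε η k) (law d ρ) :=
    fun n k => hbd (hGm n) (U78_meas ρ β h ε k) (hG0 n) (hG1 n)
      (fun η => U78_nonneg ρ β h ε η k) (hU k)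
  -- the mass
  have hmass : 3 / 4 ≤ ∑ n ∈ Finset.Ico N T, ∫ η, G78 ρ β h δ N n η * wt ρ β h η n
      ∂(law d ρ) := by
    have h1 : ∀ n ∈ Finset.Ico N T, ∫ η, G78 ρ β h δ N n η * wt ρ β h η n ∂(law d ρ) =
        ∫ η, G78 ρ β h δ N n η * wt ρ β h η T ∂(law d ρ) := by
      intro n hn
      have h2 := hM h n (T - n) (fun η => G78 ρ β h δ N n η) (hGm n) (G78_dep ρ β h δ N n)
      rw [Nat.add_sub_cancel' (Finset.mem_Ico.1 hn).2.le] at h2
      exact h2.symm
    rw [Finset.sum_congr rfl h1, ← integral_finsetSum _ fun n _ => hiGw n T]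
    have h2 : ∫ η, ∑ n ∈ Finset.Ico N T, G78 ρ β h δ N n η * wt ρ β h η T ∂(law d ρ) =
        ∫ η, (wt ρ β h η T - I78 ρ β h δ N T η * wt ρ β h η T) ∂(law d ρ) := by
      refine integral_congr_ae (Eventually.of_forall fun η => ?_)
      simp only
      rw [← Finset.sum_mul, G78_sum ρ β h δ hNT.le η]
      ring
    have h3 : Integrable (fun η => I78 ρ β h δ N T η * wt ρ β h η T) (law d ρ) :=
      hbd (I78_meas ρ β h δ N T) (hmw T) (fun η => I78_nonneg ρ β h δ N T η)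
        (fun η => I78_le ρ β h δ N T η) (hw0 T) (hiw T)
    rw [h2, integral_sub (hiw T) h3, integral_wt43 hd hρ]
    have h4 : ∫ η, I78 ρ β h δ N T η * wt ρ β h η T ∂(law d ρ) =
        ∫ η, (if NLoc ρ β h δ N T η then wt ρ β h η T else 0) ∂(law d ρ) := by
      refine integral_congr_ae (Eventually.of_forall fun η => ?_)
      simp only
      unfold I78
      by_cases h5 : NLoc ρ β h δ N T η
      · rw [if_pos h5, if_pos h5, one_mul]
      · rw [if_neg h5, if_neg h5, zero_mul]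
    rw [h4]
    linarith
  -- the square roots
  have hroot : ∑ n ∈ Finset.Ico N T, ∫ η, G78 ρ β h δ N n η * Real.sqrt (wt ρ β h η n)
      ∂(law d ρ) ≤ ∫ η, Real.sqrt (wt ρ β h η N) ∂(law d ρ) := by
    have h1 : ∀ T' : ℕ, N ≤ T' → ∑ n ∈ Finset.Ico N T', ∫ η, G78 ρ β h δ N n η *
        Real.sqrt (wt ρ β h η n) ∂(law d ρ) ≤ ∫ η, Real.sqrt (wt ρ β h η N) ∂(law d ρ) -
          ∫ η, I78 ρ β h δ N T' η * Real.sqrt (wt ρ β h η T') ∂(law d ρ) := by
      intro T' hT'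
      induction T', hT' using Nat.le_induction with
      | base =>
        simp only [Finset.Ico_self, Finset.sum_empty, I78_start, one_mul, sub_self, le_refl]
      | succ k hk ih =>
        rw [Finset.sum_Ico_succ_top hk]
        have h2 : ∫ η, G78 ρ β h δ N k η * Real.sqrt (wt ρ β h η k) ∂(law d ρ) =
            ∫ η, I78 ρ β h δ N k η * Real.sqrt (wt ρ β h η k) ∂(law d ρ) -
              ∫ η, I78 ρ β h δ N (k + 1) η * Real.sqrt (wt ρ β h η k) ∂(law d ρ) := by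
          rw [← integral_sub (hiIs k k) (hiIs (k + 1) k)]
          refine integral_congr_ae (Eventually.of_forall fun η => ?_)
          simp only
          unfold G78
          ring
        have h3 := sqrt_super78 hd hρ hM h k (I78_meas ρ β h δ N (k + 1))
          (I78_dep' ρ β h δ N k le_rfl) (fun η => I78_nonneg ρ β h δ N (k + 1) η)
          (fun η => I78_le ρ β h δ N (k + 1) η)
        linarith
    refine (h1 T hNT.le).trans (sub_le_self _ (integral_nonneg fun η => ?_))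
    exact mul_nonneg (I78_nonneg ρ β h δ N T η) (Real.sqrt_nonneg _)
  refine ⟨N, T, fun n => ∫ η, G78 ρ β h δ N n η * U78 ρ β h ε η n ∂(law d ρ), hN1, hNT,
    fun n => integral_nonneg fun η => mul_nonneg (hG0 n η) (U78_nonneg ρ β h ε η n), ?_, ?_⟩
  · have h1 : ∀ n ∈ Finset.Ico N T, δ ^ (1 + ε) * v ^ ε *
        (∫ η, G78 ρ β h δ N n η * wt ρ β h η n ∂(law d ρ) - Real.sqrt v *
          ∫ η, G78 ρ β h δ N n η * Real.sqrt (wt ρ β h η n) ∂(law d ρ)) ≤
        ∫ η, G78 ρ β h δ N n η * U78 ρ β h ε η n ∂(law d ρ) := by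
      intro n _
      have h2 : δ ^ (1 + ε) * v ^ ε *
          (∫ η, G78 ρ β h δ N n η * wt ρ β h η n ∂(law d ρ) - Real.sqrt v *
          ∫ η, G78 ρ β h δ N n η * Real.sqrt (wt ρ β h η n) ∂(law d ρ)) =
          ∫ η, δ ^ (1 + ε) * v ^ ε * (G78 ρ β h δ N n η * wt ρ β h η n -
            Real.sqrt v * (G78 ρ β h δ N n η * Real.sqrt (wt ρ β h η n))) ∂(law d ρ) := by
        rw [integral_const_mul, integral_sub (hiGw n n) ((hiGs n n).const_mul _),
          integral_const_mul]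
      rw [h2]
      exact integral_mono (((hiGw n n).sub ((hiGs n n).const_mul _)).const_mul _) (hiGU n n)
        fun η => U78_low hd ρ β h hε hδ hv N n η
    refine le_trans ?_ (Finset.sum_le_sum h1)
    rw [← Finset.mul_sum, Finset.sum_sub_distrib, ← Finset.mul_sum, hvε,
      mul_div_cancel₀ _ hδ1.ne']
    have h2 : Real.sqrt v * ∑ n ∈ Finset.Ico N T, ∫ η, G78 ρ β h δ N n η *
        Real.sqrt (wt ρ β h η n) ∂(law d ρ) ≤ 1 / 4 := by
      have h3 := mul_le_mul_of_nonneg_left (hroot.trans hsN.le) hsv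
      refine h3.trans ?_
      rw [mul_one_div, div_le_div_iff₀ (by positivity) (by norm_num)]
      linarith
    linarith
  · intro m hm
    have h1 : ∀ n ∈ Finset.Ico N T, (∫ η, G78 ρ β h δ N n η * U78 ρ β h ε η n ∂(law d ρ)) *
        Mo ρ β h ε (m - n) ≤ ∫ η, G78 ρ β h δ N n η * U78 ρ β h ε η m ∂(law d ρ) := by
      intro n hn
      have h2 := renew78 hd hρ β h hε n (m - n) (hGm n) (G78_dep ρ β h δ N n) (hG0 n) (hG1 n)
      rwa [Nat.add_sub_cancel' ((Finset.mem_Ico.1 hn).2.le.trans hm)] at h2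
    refine (Finset.sum_le_sum h1).trans ?_
    rw [← integral_finsetSum _ fun n _ => hiGU n m]
    refine integral_mono (integrable_finsetSum _ fun n _ => hiGU n m) (hU m) fun η => ?_
    simp only
    rw [← Finset.sum_mul, G78_sum ρ β h δ hNT.le η]
    change (1 - I78 ρ β h δ N T η) * U78 ρ β h ε η m ≤ U78 ρ β h ε η m
    have h3 := U78_nonneg ρ β h ε η m
    have h4 := I78_nonneg ρ β h δ N T η
    nlinarith

end Pool.Agent.W_7d29a1_SD
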