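import Pool.Agent.W_7d29a1_SD.DefsS43
import Pool.Agent.W_7d29a1_Q29.Vsd61
import Pool.Agent.W_7d29a1_V.VarV75

/-!
Strong disorder is very strong disorder: one step of the normalised partition functions.
-/

namespace Pool.Agent.W_7d29a1_SD

open MeasureTheory ProbabilityTheory Filter Topology Pool.Agent.W_MP_7d29a1_pr
  Pool.Agent.W_7d29a1_h46 Pool.Agent.W_7d29a1_h46u Pool.Agent.W_7d29a1_D2.B35
  Pool.Agent.W_7d29a1_Q29 Pool.Agent.W_7d29a1_P89

variable {d : ℕ} {ρ : Measure ℝ}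

/-! ### The weights of a site -/

lemma intExp72 [IsProbabilityMeasure ρ] (hρ : EM ρ) (β : ℝ) : 0 < ∫ t, Real.exp (β * t) ∂ρ :=
  integral_exp_pos (hρ β)

lemma xi_pos72 [IsProbabilityMeasure ρ] (hρ : EM ρ) (β t : ℝ) : 0 < xi ρ β t :=
  div_pos (Real.exp_pos _) (intExp72 hρ β)

lemma measurable_xi72 (ρ : Measure ℝ) (β : ℝ) : Measurable (xi ρ β) := by
  unfold xi
  fun_prop

lemma integrable_xi72 (hρ : EM ρ) (β : ℝ) : Integrable (xi ρ β) ρ := (hρ β).div_const _

lemma int_xi72 [IsProbabilityMeasure ρ] (hρ : EM ρ) (β : ℝ) : ∫ t, xi ρ β t ∂ρ = 1 := by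
  unfold xi
  rw [integral_div, div_self (intExp72 hρ β).ne']

lemma xi_sq72 (ρ : Measure ℝ) (β t : ℝ) :
    xi ρ β t * xi ρ β t = Real.exp (2 * β * t) / (∫ r, Real.exp (β * r) ∂ρ) ^ 2 := by
  unfold xi
  rw [div_mul_div_comm, ← Real.exp_add, ← pow_two]
  congr 2
  ring

lemma integrable_xi_sq72 (hρ : EM ρ) (β : ℝ) : Integrable (fun t => xi ρ β t * xi ρ β t) ρ := by
  simp only [xi_sq72]
  exact (hρ (2 * β)).div_const _

lemma int_xi_sq72 (ρ : Measure ℝ) (β : ℝ) : ∫ t, xi ρ β t * xi ρ β t ∂ρ = kap ρ β := by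
  simp only [xi_sq72]
  rw [integral_div]
  rfl

lemma one_le_kap72 [IsProbabilityMeasure ρ] (hρ : EM ρ) (β : ℝ) : 1 ≤ kap ρ β := by
  have h1 : 0 ≤ ∫ t, (xi ρ β t - 1) ^ 2 ∂ρ := integral_nonneg fun t => sq_nonneg _
  have h2 : ∫ t, (xi ρ β t - 1) ^ 2 ∂ρ = kap ρ β - 1 := by
    have e : (fun t => (xi ρ β t - 1) ^ 2) =
        fun t => xi ρ β t * xi ρ β t - (2 * xi ρ β t - 1) := by
      funext t; ring
    have i1 : Integrable (fun t => 2 * xi ρ β t - 1) ρ :=
      ((integrable_xi72 hρ β).const_mul 2).sub (integrable_const 1)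
    rw [e, integral_sub (integrable_xi_sq72 hρ β) i1,
      integral_sub ((integrable_xi72 hρ β).const_mul 2) (integrable_const 1),
      integral_const_mul, int_xi72 hρ, int_xi_sq72]
    simp
    ring
  linarith

/-! ### The steps -/

lemma pe_nonneg72 (h : Vec d) (e : Step d) : 0 ≤ pe h e :=
  div_nonneg (Real.exp_pos _).le (Finset.sum_nonneg fun _ _ => (Real.exp_pos _).le)

lemma pe_pos72 (hd : 0 < d) (h : Vec d) (e : Step d) : 0 < pe h e :=
  div_pos (Real.exp_pos _) (Phi_pos61 hd h)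

lemma sum_pe72 (hd : 0 < d) (h : Vec d) : ∑ e : Step d, pe h e = 1 := by
  unfold pe
  rw [← Finset.sum_div]
  exact div_self (Phi_pos61 hd h).ne'

lemma pos_one72 (s : Fin 1 → Step d) : pos s 1 = vec (s 0) := by
  unfold pos
  simp

lemma PP_one72 (β : ℝ) (h : Vec d) (η : Env d) (y : Site d) :
    PP β h η 1 y = ∑ e : Step d, open Classical in
      (if vec e = y then Real.exp (inner ℝ h (emb (vec e)) + β * η (1, y)) else 0) := by
  classical
  unfold PP ZT
  rw [← (Equiv.funUnique (Fin 1) (Step d)).symm.sum_comp]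
  refine Finset.sum_congr rfl fun e _ => ?_
  have h1 : pos ((Equiv.funUnique (Fin 1) (Step d)).symm e) 1 = vec e := by
    rw [pos_one72]
    rfl
  by_cases he : vec e = y
  · rw [if_pos (show _ ∈ {s : Fin 1 → Step d | pos s 1 = y} from h1.trans he), if_pos he]
    unfold wgt energy
    rw [h1]
    congr 2
    rw [Fin.sum_univ_one]
    congr 1
    have : pos ((Equiv.funUnique (Fin 1) (Step d)).symm e) (((0 : Fin 1) : ℕ) + 1) = y := by
      rw [show (((0 : Fin 1) : ℕ) + 1) = 1 from rfl, h1, he]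
    rw [this]
    rfl
  · rw [if_neg (show ¬ _ ∈ {s : Fin 1 → Step d | pos s 1 = y} from
      fun hs => he (h1.symm.trans hs)), if_neg he]

/-- One step of the normalised partition function, from the shifted environment. -/
lemma W_one72 [IsProbabilityMeasure ρ] (hd : 0 < d) (hρ : EM ρ) (β : ℝ) (h : Vec d) (η : Env d)
    (y : Site d) : W (Pn ρ β h 1) η 1 y =
      ∑ e : Step d, open Classical in (if vec e = y then pe h e * xi ρ β (η (1, y)) else 0) := by
  classical
  unfold W Pn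
  simp only
  rw [PP_one72, Finset.mul_sum]
  refine Finset.sum_congr rfl fun e _ => ?_
  by_cases he : vec e = y
  · rw [if_pos he, if_pos he]
    have h1 := Phi_pos61 hd h
    have h2 := intExp72 hρ β
    rw [Real.exp_neg, Nat.cast_one, one_mul, Real.exp_add (Real.log _), Real.exp_log h1,
      Real.exp_log h2, Real.exp_add]
    unfold pe xi
    field_simp
  · rw [if_neg he, if_neg he, mul_zero]

lemma w_nonneg72 (ρ : Measure ℝ) (β : ℝ) (h : Vec d) (η : Env d) (n : ℕ) (x : Site d) :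
    0 ≤ w ρ β h η n x := W_nonneg _ _ _ _

lemma wt_pos72 (hd : 0 < d) (ρ : Measure ℝ) (β : ℝ) (h : Vec d) (η : Env d) (n : ℕ) :
    0 < wt ρ β h η n := ZH_pos hd _ _ _

lemma w_le_wt72 (ρ : Measure ℝ) (β : ℝ) (h : Vec d) (η : Env d) (n : ℕ) (x : Site d) :
    w ρ β h η n x ≤ wt ρ β h η n := W_le_ZH _ _ _ _

lemma w_zero72 (ρ : Measure ℝ) (β : ℝ) (h : Vec d) (η : Env d) (n : ℕ) {x : Site d}
    (hx : x ∉ boxF d n) : w ρ β h η n x = 0 := W_zero _ _ _ hx

lemma wt_sum72 (ρ : Measure ℝ) (β : ℝ) (h : Vec d) (η : Env d) (n : ℕ) :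
    wt ρ β h η n = ∑ x ∈ boxF d n, w ρ β h η n x := ZH_eq _ _ _

/-- **One step**: the row `n + 1` multiplies the transported mass. -/
theorem step72 [IsProbabilityMeasure ρ] (hd : 0 < d) (hρ : EM ρ) (β : ℝ) (h : Vec d) (η : Env d)
    (n : ℕ) (x : Site d) :
    w ρ β h η (n + 1) x = xi ρ β (η (n + 1, x)) * nu ρ β h η n x := by
  classical
  have h1 : w ρ β h η (n + 1) x = ∑ z ∈ boxF d n, w ρ β h η n z *
      ∑ e : Step d, (if vec e = x - z then pe h e * xi ρ β (η (n + 1, x)) else 0) := by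
    unfold w
    rw [W_split]
    refine Finset.sum_congr rfl fun z _ => ?_
    rw [W_one72 hd hρ]
    have : sh n z η (1, x - z) = η (n + 1, x) := by
      unfold sh
      simp only [sub_add_cancel]
      rw [add_comm 1 n]
    rw [this]
  rw [h1]
  have h2 : ∀ z ∈ boxF d n, w ρ β h η n z *
      ∑ e : Step d, (if vec e = x - z then pe h e * xi ρ β (η (n + 1, x)) else 0) =
      ∑ e : Step d, (if z = x - vec e then
        pe h e * xi ρ β (η (n + 1, x)) * w ρ β h η n z else 0) := by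
    intro z _
    rw [Finset.mul_sum]
    refine Finset.sum_congr rfl fun e _ => ?_
    by_cases he : vec e = x - z
    · rw [if_pos he, if_pos (by rw [he]; abel)]
      ring
    · rw [if_neg he, if_neg (fun hz => he (by rw [hz]; abel)), mul_zero]
  rw [Finset.sum_congr rfl h2, Finset.sum_comm]
  unfold nu
  rw [Finset.mul_sum]
  refine Finset.sum_congr rfl fun e _ => ?_
  rw [Finset.sum_ite_eq']
  by_cases hb : x - vec e ∈ boxF d n
  · rw [if_pos hb]
    ring
  · rw [if_neg hb, w_zero72 _ _ _ _ _ hb]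
    ring

lemma nu_nonneg72 (ρ : Measure ℝ) (β : ℝ) (h : Vec d) (η : Env d) (n : ℕ) (x : Site d) :
    0 ≤ nu ρ β h η n x :=
  Finset.sum_nonneg fun e _ => mul_nonneg (pe_nonneg72 h e) (w_nonneg72 ρ β h η n _)

lemma measurable_w72 (ρ : Measure ℝ) (β : ℝ) (h : Vec d) (n : ℕ) (x : Site d) :
    Measurable fun η : Env d => w ρ β h η n x := measurable_W _ _ _

lemma measurable_wt72 (ρ : Measure ℝ) (β : ℝ) (h : Vec d) (n : ℕ) :
    Measurable fun η : Env d => wt ρ β h η n := measurable_ZH _ _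

lemma measurable_nu72 (ρ : Measure ℝ) (β : ℝ) (h : Vec d) (n : ℕ) (x : Site d) :
    Measurable fun η : Env d => nu ρ β h η n x :=
  Finset.measurable_sum _ fun e _ => (measurable_w72 ρ β h n _).const_mul _

lemma w_dep72 (ρ : Measure ℝ) (β : ℝ) (h : Vec d) (n : ℕ) (x : Site d) :
    DependsOn (fun η : Env d => w ρ β h η n x) {p | p.1 ≤ n} := dependsOn_Wr _ _ _

lemma wt_dep72 (ρ : Measure ℝ) (β : ℝ) (h : Vec d) (n : ℕ) :
    DependsOn (fun η : Env d => wt ρ β h η n) {p | p.1 ≤ n} := by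
  intro η η' hη
  simp only [wt_sum72]
  exact Finset.sum_congr rfl fun x _ => w_dep72 ρ β h n x hη

lemma nu_dep72 (ρ : Measure ℝ) (β : ℝ) (h : Vec d) (n : ℕ) (x : Site d) :
    DependsOn (fun η : Env d => nu ρ β h η n x) {p | p.1 ≤ n} := by
  intro η η' hη
  simp only [nu]
  exact Finset.sum_congr rfl fun e _ => by
    have h1 := w_dep72 ρ β h n (x - vec e) hη
    simp only at h1
    rw [h1]

lemma vec_box72 (e : Step d) : vec e ∈ boxF d 1 := by
  rw [mem_boxF]
  intro i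
  unfold vec
  by_cases hi : i = e.1
  · subst hi
    rw [Pi.single_eq_same]
    split_ifs <;> simp
  · rw [Pi.single_eq_of_ne hi]
    simp

lemma box_sub72 {n : ℕ} {x : Site d} {e : Step d} (hx : x - vec e ∈ boxF d n) :
    x ∈ boxF d (n + 1) := by
  rw [mem_boxF] at hx ⊢
  have h1 := mem_boxF.1 (vec_box72 e)
  intro i
  have h2 := hx i
  have h3 := h1 i
  rw [Pi.sub_apply, abs_le] at h2
  rw [abs_le] at h3 ⊢
  push_cast at h2 h3 ⊢
  omega

lemma nu_zero72 (ρ : Measure ℝ) (β : ℝ) (h : Vec d) (η : Env d) (n : ℕ) {x : Site d}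
    (hx : x ∉ boxF d (n + 1)) : nu ρ β h η n x = 0 :=
  Finset.sum_eq_zero fun e _ => by
    rw [w_zero72 ρ β h η n (fun hb => hx (box_sub72 hb)), mul_zero]

/-- The transport of a function of the end point: the sums over the two boxes. -/
lemma sum_nu72 (ρ : Measure ℝ) (β : ℝ) (h : Vec d) (η : Env d) (n : ℕ) (f : Site d → ℝ) :
    ∑ x ∈ boxF d (n + 1), nu ρ β h η n x * f x =
      ∑ z ∈ boxF d n, w ρ β h η n z * ∑ e : Step d, pe h e * f (z + vec e) := by
  classical
  have h1 : ∀ e : Step d, ∑ x ∈ boxF d (n + 1), w ρ β h η n (x - vec e) * f x =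
      ∑ z ∈ boxF d n, w ρ β h η n z * f (z + vec e) := by
    intro e
    have h2 : ∑ z ∈ boxF d n, w ρ β h η n z * f (z + vec e) =
        ∑ x ∈ (boxF d n).image fun z => z + vec e, w ρ β h η n (x - vec e) * f x := by
      rw [Finset.sum_image (fun x _ y _ hxy => add_left_injective _ hxy)]
      refine Finset.sum_congr rfl fun z _ => ?_
      rw [add_sub_cancel_right]
    rw [h2]
    symm
    refine Finset.sum_subset ?_ fun x _ hx => ?_
    · intro x hx
      obtain ⟨z, hz, rfl⟩ := Finset.mem_image.1 hx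
      exact box_sub72 (e := e) (by rwa [add_sub_cancel_right])
    · rw [w_zero72 ρ β h η n (fun hb => hx ?_), zero_mul]
      exact Finset.mem_image.2 ⟨x - vec e, hb, by abel⟩
  have h3 : ∀ x, nu ρ β h η n x * f x =
      ∑ e : Step d, pe h e * (w ρ β h η n (x - vec e) * f x) := by
    intro x
    unfold nu
    rw [Finset.sum_mul]
    exact Finset.sum_congr rfl fun e _ => by ring
  simp only [h3]
  rw [Finset.sum_comm]
  have h4 : ∀ e : Step d, ∑ x ∈ boxF d (n + 1), pe h e * (w ρ β h η n (x - vec e) * f x) =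
      ∑ z ∈ boxF d n, pe h e * (w ρ β h η n z * f (z + vec e)) := by
    intro e
    rw [← Finset.mul_sum, h1 e, Finset.mul_sum]
  rw [Finset.sum_congr rfl fun e _ => h4 e, Finset.sum_comm]
  refine Finset.sum_congr rfl fun z _ => ?_
  rw [Finset.mul_sum]
  exact Finset.sum_congr rfl fun e _ => by ring

lemma sum_nu_wt72 (hd : 0 < d) (ρ : Measure ℝ) (β : ℝ) (h : Vec d) (η : Env d) (n : ℕ) :
    ∑ x ∈ boxF d (n + 1), nu ρ β h η n x = wt ρ β h η n := by
  have h1 := sum_nu72 ρ β h η n fun _ => 1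
  simp only [mul_one] at h1
  rw [h1, sum_pe72 hd h]
  simp only [mul_one]
  exact (wt_sum72 ρ β h η n).symm

lemma nu_le_wt72 (hd : 0 < d) (ρ : Measure ℝ) (β : ℝ) (h : Vec d) (η : Env d) (n : ℕ)
    (x : Site d) : nu ρ β h η n x ≤ wt ρ β h η n := by
  by_cases hx : x ∈ boxF d (n + 1)
  · rw [← sum_nu_wt72 hd ρ β h η n]
    exact Finset.single_le_sum (fun y _ => nu_nonneg72 ρ β h η n y) hx
  · rw [nu_zero72 ρ β h η n hx]
    exact (wt_pos72 hd ρ β h η n).le

lemma nu_le_max72 (hd : 0 < d) (ρ : Measure ℝ) (β : ℝ) (h : Vec d) (η : Env d) (n : ℕ) {c : ℝ}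
    (hc : ∀ x, w ρ β h η n x ≤ c) (x : Site d) : nu ρ β h η n x ≤ c := by
  unfold nu
  calc ∑ e : Step d, pe h e * w ρ β h η n (x - vec e)
      ≤ ∑ e : Step d, pe h e * c :=
        Finset.sum_le_sum fun e _ => mul_le_mul_of_nonneg_left (hc _) (pe_nonneg72 h e)
    _ = c := by rw [← Finset.sum_mul, sum_pe72 hd h, one_mul]

/-- The sum over the new end points. -/
lemma wt_succ72 [IsProbabilityMeasure ρ] (hd : 0 < d) (hρ : EM ρ) (β : ℝ) (h : Vec d) (η : Env d)
    (n : ℕ) : wt ρ β h η (n + 1) =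
      ∑ x ∈ boxF d (n + 1), xi ρ β (η (n + 1, x)) * nu ρ β h η n x := by
  rw [wt_sum72]
  exact Finset.sum_congr rfl fun x _ => step72 hd hρ β h η n x

end Pool.Agent.W_7d29a1_SD
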