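import Pool.Agent.W_7d29a1_SD.Int43
import Pool.Agent.W_7d29a1_SD.Step72
import Pool.Agent.W_7d29a1_Q29.Dual85

/-!
Strong disorder is very strong disorder: the leaves A4 (bounds of the functional of two replicas)
and C1 (the second moment below the return probability line).
-/

namespace Pool.Agent.W_7d29a1_SD.S62

open MeasureTheory ProbabilityTheory Filter Topology Pool.Agent.W_MP_7d29a1_pr
  Pool.Agent.W_7d29a1_h46 Pool.Agent.W_7d29a1_h46u Pool.Agent.W_7d29a1_D2.B35
  Pool.Agent.W_7d29a1_Q29 Pool.Agent.W_7d29a1_P89 Pool.Agent.W_7d29a1_SD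

variable {d : ℕ} {ρ : Measure ℝ}

/-! ### The operator -/

lemma Ad_nonneg62 (h : Vec d) {f : Site d → ℝ} (hf : ∀ z, 0 ≤ f z) (z : Site d) :
    0 ≤ Ad h f z :=
  Finset.sum_nonneg fun e _ => Finset.sum_nonneg fun e' _ =>
    mul_nonneg (mul_nonneg (pe_nonneg72 h e) (pe_nonneg72 h e')) (hf _)

lemma Ad_le_one62 (hd : 0 < d) (h : Vec d) {f : Site d → ℝ} (hf : ∀ z, f z ≤ 1) (z : Site d) :
    Ad h f z ≤ 1 := by
  have h1 : Ad h f z ≤ ∑ e : Step d, ∑ e' : Step d, pe h e * pe h e' :=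
    Finset.sum_le_sum fun e _ => Finset.sum_le_sum fun e' _ => by
      have := mul_le_mul_of_nonneg_left (hf (z + vec e - vec e'))
        (mul_nonneg (pe_nonneg72 h e) (pe_nonneg72 h e'))
      rwa [mul_one] at this
  refine h1.trans (le_of_eq ?_)
  rw [← Finset.sum_mul_sum, sum_pe72 hd h, one_mul]

lemma gk_bd62 (hd : 0 < d) (h : Vec d) : ∀ (k : ℕ) (z : Site d), 0 ≤ gk h k z ∧ gk h k z ≤ 1 := by
  intro k
  induction k with
  | zero =>
    intro z
    unfold gk
    split_ifs <;> norm_num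
  | succ k ih =>
    intro z
    unfold gk
    split_ifs
    · norm_num
    · exact ⟨Ad_nonneg62 h (fun z => (ih z).1) z, Ad_le_one62 hd h (fun z => (ih z).2) z⟩

lemma Ad_gk62 (h : Vec d) (k : ℕ) (z : Site d) :
    Ad h (gk h k) z = gk h (k + 1) z - (1 - rt h k) * gk h 0 z := by
  by_cases hz : z = 0
  · subst hz
    simp only [gk, if_true]
    unfold rt
    ring
  · simp only [gk, if_neg hz]
    ring

lemma Ad_lin62 (h : Vec d) (f g : Site d → ℝ) (c : ℝ) (z : Site d) :
    Ad h (fun y => f y - c * g y) z = Ad h f z - c * Ad h g z := by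
  unfold Ad
  rw [Finset.mul_sum, ← Finset.sum_sub_distrib]
  refine Finset.sum_congr rfl fun e _ => ?_
  rw [Finset.mul_sum, ← Finset.sum_sub_distrib]
  refine Finset.sum_congr rfl fun e' _ => ?_
  ring

/-! ### A4 -/

/-- A4: the functional of two replicas is between zero and the partition function. -/
theorem ybL62 (hd : 0 < d) (ρ : Measure ℝ) (β : ℝ) : YbL d ρ β := by
  intro h k n η
  have hw := wt_pos72 hd ρ β h η n
  have hn := fun x => w_nonneg72 ρ β h η n x
  have hg0 : ∀ z, 0 ≤ Ad h (gk h k) z := Ad_nonneg62 h fun z => (gk_bd62 hd h k z).1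
  have hg1 : ∀ z, Ad h (gk h k) z ≤ 1 := Ad_le_one62 hd h fun z => (gk_bd62 hd h k z).2
  constructor
  · exact div_nonneg (Finset.sum_nonneg fun x _ => Finset.sum_nonneg fun y _ =>
      mul_nonneg (mul_nonneg (hn x) (hn y)) (hg0 _)) hw.le
  · unfold Yk
    rw [div_le_iff₀ hw]
    have h1 : wt ρ β h η n * wt ρ β h η n =
        ∑ x ∈ boxF d n, ∑ y ∈ boxF d n, w ρ β h η n x * w ρ β h η n y := by
      rw [wt_sum72, Finset.sum_mul_sum]
    rw [h1]
    refine Finset.sum_le_sum fun x _ => Finset.sum_le_sum fun y _ => ?_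
    have := mul_le_mul_of_nonneg_left (hg1 (x - y)) (mul_nonneg (hn x) (hn y))
    rwa [mul_one] at this

/-! ### The two replicas -/

/-- The sum over two replicas. -/
noncomputable def rp (ρ : Measure ℝ) (β : ℝ) (h : Vec d) (η : Env d) (n : ℕ) (f : Site d → ℝ) :
    ℝ := ∑ x ∈ boxF d n, ∑ y ∈ boxF d n, w ρ β h η n x * w ρ β h η n y * f (x - y)

/-- The transport of a function of two replicas. -/
lemma rp_nu62 (ρ : Measure ℝ) (β : ℝ) (h : Vec d) (η : Env d) (n : ℕ) (f : Site d → ℝ) :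
    ∑ x ∈ boxF d (n + 1), ∑ y ∈ boxF d (n + 1), nu ρ β h η n x * nu ρ β h η n y * f (x - y) =
      rp ρ β h η n (Ad h f) := by
  have h1 : ∀ x, ∑ y ∈ boxF d (n + 1), nu ρ β h η n x * nu ρ β h η n y * f (x - y) =
      nu ρ β h η n x * ∑ y ∈ boxF d (n + 1), nu ρ β h η n y * f (x - y) := by
    intro x
    rw [Finset.mul_sum]
    exact Finset.sum_congr rfl fun y _ => by ring
  simp only [h1]
  rw [sum_nu72 ρ β h η n fun x => ∑ y ∈ boxF d (n + 1), nu ρ β h η n y * f (x - y)]
  unfold rp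
  refine Finset.sum_congr rfl fun z _ => ?_
  have h2 : ∀ e : Step d, ∑ y ∈ boxF d (n + 1), nu ρ β h η n y * f (z + vec e - y) =
      ∑ z' ∈ boxF d n, w ρ β h η n z' * ∑ e' : Step d, pe h e' * f (z + vec e - (z' + vec e')) :=
    fun e => sum_nu72 ρ β h η n fun y => f (z + vec e - y)
  simp only [h2]
  have h3 : ∀ z', w ρ β h η n z * w ρ β h η n z' * Ad h f (z - z') =
      w ρ β h η n z * ∑ e : Step d, pe h e * (w ρ β h η n z' *
        ∑ e' : Step d, pe h e' * f (z + vec e - (z' + vec e'))) := by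
    intro z'
    unfold Ad
    rw [mul_assoc, Finset.mul_sum]
    congr 1
    refine Finset.sum_congr rfl fun e _ => ?_
    rw [Finset.mul_sum, Finset.mul_sum, Finset.mul_sum]
    refine Finset.sum_congr rfl fun e' _ => ?_
    have : z + vec e - (z' + vec e') = z - z' + vec e - vec e' := by abel
    rw [this]
    ring
  simp only [h3]
  rw [← Finset.mul_sum, Finset.sum_comm]
  congr 1
  refine Finset.sum_congr rfl fun e _ => ?_
  rw [Finset.mul_sum]

lemma sum_nu_sq62 (ρ : Measure ℝ) (β : ℝ) (h : Vec d) (η : Env d) (n : ℕ) :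
    ∑ x ∈ boxF d (n + 1), nu ρ β h η n x * nu ρ β h η n x = rp ρ β h η n (Ad h (gk h 0)) := by
  classical
  rw [← rp_nu62]
  refine Finset.sum_congr rfl fun x hx => ?_
  rw [Finset.sum_eq_single_of_mem x hx]
  · simp [gk]
  · intro y _ hy
    have : x - y ≠ 0 := fun h0 => hy (sub_eq_zero.1 h0).symm
    simp [gk, this]

variable [IsProbabilityMeasure ρ] {β : ℝ}

lemma int_wmul62 (hd : 0 < d) (hρ : EM ρ) (h : Vec d) (n : ℕ) (x y : Site d) :
    Integrable (fun η => w ρ β h η n x * w ρ β h η n y) (law d ρ) := by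
  refine int_of43 hd hρ β h n (q := 2) (by norm_num)
    ((measurable_w72 ρ β h n x).mul (measurable_w72 ρ β h n y)) 1 fun η => ?_
  have h1 := w_nonneg72 ρ β h η n x
  have h2 := w_nonneg72 ρ β h η n y
  have h3 := w_le_wt72 ρ β h η n x
  have h4 := w_le_wt72 ρ β h η n y
  rw [abs_of_nonneg (mul_nonneg h1 h2), one_mul]
  nlinarith [mul_le_mul h3 h4 h2 (h1.trans h3)]

lemma int_nmul62 (hd : 0 < d) (hρ : EM ρ) (h : Vec d) (n : ℕ) (x y : Site d) :
    Integrable (fun η => nu ρ β h η n x * nu ρ β h η n y) (law d ρ) := by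
  refine int_of43 hd hρ β h n (q := 2) (by norm_num)
    ((measurable_nu72 ρ β h n x).mul (measurable_nu72 ρ β h n y)) 1 fun η => ?_
  have h1 := nu_nonneg72 ρ β h η n x
  have h2 := nu_nonneg72 ρ β h η n y
  have h3 := nu_le_wt72 hd ρ β h η n x
  have h4 := nu_le_wt72 hd ρ β h η n y
  rw [abs_of_nonneg (mul_nonneg h1 h2), one_mul]
  nlinarith [mul_le_mul h3 h4 h2 (h1.trans h3)]

lemma int_rp62 (hd : 0 < d) (hρ : EM ρ) (h : Vec d) (n : ℕ) (f : Site d → ℝ) :
    Integrable (fun η => rp ρ β h η n f) (law d ρ) :=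
  integrable_finsetSum _ fun x _ => integrable_finsetSum _ fun y _ =>
    (int_wmul62 hd hρ h n x y).mul_const _

/-- The mean of the weights of two sites of a row. -/
lemma xi_pair62 (hρ : EM ρ) (n : ℕ) (x y : Site d) :
    ∫ η, xi ρ β (η (n, x)) * xi ρ β (η (n, y)) ∂(law d ρ) =
      1 + (kap ρ β - 1) * (if x = y then 1 else 0) := by
  have hm : ∀ z : Site d, Measurable fun η : Env d => xi ρ β (η (n, z)) := fun z =>
    (measurable_xi72 ρ β).comp (measurable_pi_apply _)
  have h1 : ∀ z : Site d, ∫ η, xi ρ β (η (n, z)) ∂(law d ρ) = 1 := by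
    intro z
    have h2 := LawU_integral (D85.mp_coord (ρ := ρ) ((n, z) : ℕ × Site d))
      (F := xi ρ β) (measurable_xi72 ρ β).aestronglyMeasurable
    rw [h2, int_xi72 hρ]
  by_cases hxy : x = y
  · subst hxy
    rw [if_pos rfl]
    have h2 := LawU_integral (D85.mp_coord (ρ := ρ) ((n, x) : ℕ × Site d))
      (F := fun t => xi ρ β t * xi ρ β t)
      ((measurable_xi72 ρ β).mul (measurable_xi72 ρ β)).aestronglyMeasurable
    rw [h2, int_xi_sq72]
    ring
  · rw [if_neg hxy, mul_zero, add_zero]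
    rw [integral_indep {((n, x) : ℕ × Site d)} (hm x) (hm y), h1, h1, one_mul]
    · intro η η' hη
      simp only
      rw [hη _ rfl]
    · intro η η' hη
      simp only
      rw [hη (n, y)]
      intro h'
      exact hxy (Prod.ext_iff.1 h').2.symm

/-- The recursion of the two replicas. -/
lemma rec62 (hd : 0 < d) (hρ : EM ρ) (h : Vec d) (n : ℕ) (f : Site d → ℝ) :
    ∫ η, rp ρ β h η (n + 1) f ∂(law d ρ) = ∫ η, rp ρ β h η n (Ad h f) ∂(law d ρ) +
      (kap ρ β - 1) * f 0 * ∫ η, rp ρ β h η n (Ad h (gk h 0)) ∂(law d ρ) := by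
  classical
  have hs : ∀ x y : Site d, ∫ η, w ρ β h η (n + 1) x * w ρ β h η (n + 1) y * f (x - y) ∂(law d ρ) =
      (∫ η, nu ρ β h η n x * nu ρ β h η n y ∂(law d ρ)) * f (x - y) +
        (kap ρ β - 1) * f 0 *
          (if x = y then ∫ η, nu ρ β h η n x * nu ρ β h η n x ∂(law d ρ) else 0) := by
    intro x y
    rw [integral_mul_const]
    have h1 : ∀ η : Env d, w ρ β h η (n + 1) x * w ρ β h η (n + 1) y =
        (nu ρ β h η n x * nu ρ β h η n y) *
          (xi ρ β (η (n + 1, x)) * xi ρ β (η (n + 1, y))) := by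
      intro η
      rw [step72 hd hρ, step72 hd hρ]
      ring
    simp only [h1]
    rw [integral_indep {p : ℕ × Site d | p.1 ≤ n}
      (F := fun η => nu ρ β h η n x * nu ρ β h η n y)
      (G := fun η => xi ρ β (η (n + 1, x)) * xi ρ β (η (n + 1, y)))
      ((measurable_nu72 ρ β h n x).mul (measurable_nu72 ρ β h n y))
      (((measurable_xi72 ρ β).comp (measurable_pi_apply _)).mul
        ((measurable_xi72 ρ β).comp (measurable_pi_apply _))), xi_pair62 hρ]
    · by_cases hxy : x = y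
      · subst hxy
        rw [if_pos rfl, if_pos rfl, sub_self]
        ring
      · rw [if_neg hxy, if_neg hxy]
        ring
    · intro η η' hη
      have e1 := nu_dep72 ρ β h n x hη
      have e2 := nu_dep72 ρ β h n y hη
      simp only at e1 e2 ⊢
      rw [e1, e2]
    · intro η η' hη
      have e : ∀ z : Site d, η (n + 1, z) = η' (n + 1, z) := fun z => hη (n + 1, z) (by
        simp)
      simp only [e]
  have hi : ∀ x y : Site d, Integrable
      (fun η => w ρ β h η (n + 1) x * w ρ β h η (n + 1) y * f (x - y)) (law d ρ) :=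
    fun x y => (int_wmul62 hd hρ h (n + 1) x y).mul_const _
  have h2 : ∫ η, rp ρ β h η (n + 1) f ∂(law d ρ) =
      ∑ x ∈ boxF d (n + 1), ∑ y ∈ boxF d (n + 1),
        ((∫ η, nu ρ β h η n x * nu ρ β h η n y ∂(law d ρ)) * f (x - y) +
        (kap ρ β - 1) * f 0 *
          (if x = y then ∫ η, nu ρ β h η n x * nu ρ β h η n x ∂(law d ρ) else 0)) := by
    unfold rp
    rw [integral_finsetSum _ fun x _ => integrable_finsetSum _ fun y _ => hi x y]
    refine Finset.sum_congr rfl fun x _ => ?_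
    rw [integral_finsetSum _ fun y _ => hi x y]
    exact Finset.sum_congr rfl fun y _ => hs x y
  have h3 : ∫ η, rp ρ β h η n (Ad h f) ∂(law d ρ) =
      ∑ x ∈ boxF d (n + 1), ∑ y ∈ boxF d (n + 1),
        (∫ η, nu ρ β h η n x * nu ρ β h η n y ∂(law d ρ)) * f (x - y) := by
    simp only [← rp_nu62]
    rw [integral_finsetSum _ fun x _ => integrable_finsetSum _ fun y _ =>
      (int_nmul62 hd hρ h n x y).mul_const _]
    refine Finset.sum_congr rfl fun x _ => ?_
    rw [integral_finsetSum _ fun y _ => (int_nmul62 hd hρ h n x y).mul_const _]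
    exact Finset.sum_congr rfl fun y _ => integral_mul_const _ _
  have h4 : ∫ η, rp ρ β h η n (Ad h (gk h 0)) ∂(law d ρ) =
      ∑ x ∈ boxF d (n + 1), ∫ η, nu ρ β h η n x * nu ρ β h η n x ∂(law d ρ) := by
    simp only [← sum_nu_sq62]
    exact integral_finsetSum _ fun x _ => int_nmul62 hd hρ h n x x
  rw [h2, h3, h4]
  simp only [Finset.sum_add_distrib, ← Finset.mul_sum]
  congr 2
  refine Finset.sum_congr rfl fun x hx => ?_
  rw [Finset.sum_ite_eq, if_pos hx]

lemma rp_nonneg62 (hd : 0 < d) (h : Vec d) (η : Env d) (n : ℕ) {f : Site d → ℝ}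
    (hf : ∀ z, 0 ≤ f z) : 0 ≤ rp ρ β h η n f :=
  Finset.sum_nonneg fun x _ => Finset.sum_nonneg fun y _ =>
    mul_nonneg (mul_nonneg (w_nonneg72 ρ β h η n x) (w_nonneg72 ρ β h η n y)) (hf _)

lemma rp_lin62 (h : Vec d) (η : Env d) (n : ℕ) (f g : Site d → ℝ) (c : ℝ) :
    rp ρ β h η n (fun z => f z - c * g z) = rp ρ β h η n f - c * rp ρ β h η n g := by
  unfold rp
  rw [Finset.mul_sum, ← Finset.sum_sub_distrib]
  refine Finset.sum_congr rfl fun x _ => ?_
  rw [Finset.mul_sum, ← Finset.sum_sub_distrib]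
  refine Finset.sum_congr rfl fun y _ => ?_
  ring

/-- One step of the hitting functions. -/
lemma hit62 (hd : 0 < d) (hρ : EM ρ) (h : Vec d) (hk : ∀ k : ℕ, kap ρ β * rt h k ≤ 1) (n k : ℕ) :
    ∫ η, rp ρ β h η (n + 1) (Ad h (gk h k)) ∂(law d ρ) ≤
      ∫ η, rp ρ β h η n (Ad h (gk h (k + 1))) ∂(law d ρ) := by
  have h0 : 0 ≤ ∫ η, rp ρ β h η n (Ad h (gk h 0)) ∂(law d ρ) :=
    integral_nonneg fun η => rp_nonneg62 hd h η n
      (Ad_nonneg62 h fun z => (gk_bd62 hd h 0 z).1)
  have h1 : Ad h (Ad h (gk h k)) = fun z => Ad h (gk h (k + 1)) z -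
      (1 - rt h k) * Ad h (gk h 0) z := by
    funext z
    rw [← Ad_lin62]
    congr 1
    funext y
    exact Ad_gk62 h k y
  rw [rec62 hd hρ, h1]
  have h2 : ∫ η, rp ρ β h η n (fun z => Ad h (gk h (k + 1)) z -
      (1 - rt h k) * Ad h (gk h 0) z) ∂(law d ρ) =
      ∫ η, rp ρ β h η n (Ad h (gk h (k + 1))) ∂(law d ρ) -
        (1 - rt h k) * ∫ η, rp ρ β h η n (Ad h (gk h 0)) ∂(law d ρ) := by
    simp only [rp_lin62]
    rw [integral_sub (int_rp62 hd hρ h n _) ((int_rp62 hd hρ h n _).const_mul _),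
      integral_const_mul]
  rw [h2]
  have h3 : Ad h (gk h k) 0 = rt h k := rfl
  rw [h3]
  have h4 := mul_le_mul_of_nonneg_right (hk k) h0
  nlinarith

lemma hitn62 (hd : 0 < d) (hρ : EM ρ) (h : Vec d) (hk : ∀ k : ℕ, kap ρ β * rt h k ≤ 1) (n : ℕ) :
    ∀ k : ℕ, ∫ η, rp ρ β h η n (Ad h (gk h k)) ∂(law d ρ) ≤
      ∫ η, rp ρ β h η 0 (Ad h (gk h (k + n))) ∂(law d ρ) := by
  induction n with
  | zero => intro k; exact le_rfl
  | succ n ih =>
    intro k
    refine (hit62 hd hρ h hk n k).trans ((ih (k + 1)).trans (le_of_eq ?_))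
    have : k + 1 + n = k + (n + 1) := by omega
    rw [this]

lemma wt_zero62 (h : Vec d) (η : Env d) : wt ρ β h η 0 = 1 := by
  rw [wt_def43, Z_zero]
  simp

lemma wt_sq62 (h : Vec d) (η : Env d) (n : ℕ) :
    wt ρ β h η n ^ 2 = rp ρ β h η n fun _ => 1 := by
  unfold rp
  simp only [mul_one]
  rw [← Finset.sum_mul_sum, ← wt_sum72, pow_two]

/-- C1: the second moment grows at most linearly. -/
theorem secS62 (hd : 0 < d) (hρ : EM ρ) (β : ℝ) : SecS d ρ β := by
  intro h hk n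
  have hb : ∀ n : ℕ, ∫ η, rp ρ β h η n (Ad h (gk h 0)) ∂(law d ρ) ≤ 1 := by
    intro n
    refine (hitn62 hd hρ h hk n 0).trans ?_
    have h1 : ∀ η : Env d, rp ρ β h η 0 (Ad h (gk h (0 + n))) ≤ 1 := by
      intro η
      have h2 := wt_sq62 (ρ := ρ) (β := β) h η 0
      rw [wt_zero62] at h2
      have h3 : rp ρ β h η 0 (Ad h (gk h (0 + n))) ≤ rp ρ β h η 0 fun _ => 1 :=
        Finset.sum_le_sum fun x _ => Finset.sum_le_sum fun y _ =>
          mul_le_mul_of_nonneg_left (Ad_le_one62 hd h (fun z => (gk_bd62 hd h _ z).2) _)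
            (mul_nonneg (w_nonneg72 ρ β h η 0 x) (w_nonneg72 ρ β h η 0 y))
      rw [← h2] at h3
      simpa using h3
    have h4 := integral_mono (int_rp62 (ρ := ρ) (β := β) hd hρ h 0 (Ad h (gk h (0 + n))))
      (integrable_const (1 : ℝ)) h1
    simpa using h4
  induction n with
  | zero =>
    simp only [wt_zero62]
    simp
  | succ n ih =>
    have h1 : ∫ η, wt ρ β h η (n + 1) ^ 2 ∂(law d ρ) = ∫ η, wt ρ β h η n ^ 2 ∂(law d ρ) +
        (kap ρ β - 1) * ∫ η, rp ρ β h η n (Ad h (gk h 0)) ∂(law d ρ) := by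
      simp only [wt_sq62]
      rw [rec62 hd hρ]
      have h2 : Ad h (fun _ : Site d => (1 : ℝ)) = fun _ => 1 := by
        funext z
        unfold Ad
        simp only [mul_one]
        rw [← Finset.sum_mul_sum, sum_pe72 hd h, one_mul]
      rw [h2, mul_one]
    rw [h1]
    have h3 := one_le_kap72 hρ β
    have h4 := hb n
    push_cast
    nlinarith

end Pool.Agent.W_7d29a1_SD.S62
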