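import Pool.Agent.W_7d29a1_SD.Loc43
import Pool.Agent.W_7d29a1_SD.Conv43
import Pool.Agent.W_7d29a1_SD.Ren78
import Pool.Agent.W_7d29a1_SD.Luc73
import Pool.Agent.W_7d29a1_SD.EndS61
import Pool.Agent.W_7d29a1_SD.Blk27
import Pool.Agent.W_7d29a1_SD.Fra27
import Pool.Agent.W_7d29a1_SD.MarEn72
import Pool.Agent.W_7d29a1_SD.Sec62

/-!
Strong disorder is very strong disorder: the assembly over the last two leaves.
-/

namespace Pool.Agent.W_7d29a1_SD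

open MeasureTheory ProbabilityTheory Filter Topology Pool.Agent.W_MP_7d29a1_pr
  Pool.Agent.W_7d29a1_h46 Pool.Agent.W_7d29a1_h46u Pool.Agent.W_7d29a1_D2.B35
  Pool.Agent.W_7d29a1_Q29 Pool.Agent.W_7d29a1_P89

variable {d : ℕ} {ρ : Measure ℝ} [IsProbabilityMeasure ρ] {β : ℝ}

/-- Strong disorder above the second moment line is very strong disorder. -/
theorem sdk43 (h2 : DrL d ρ β) (h7 : ExpL) (hd : 0 < d) (hρ : EM ρ) (h : Vec d)
    (hk : ∃ k : ℕ, 1 < kap ρ β * rt h k) (hS : SDm ρ β h) : VSD ρ β h :=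
  sd43 (fun h ε m hε => integrable_Mo43 hd hρ h ε m hε) hd
    (locS43 hd hρ (marS72 hd hρ β) h2 (enL72 hd hρ β) (S62.ybL62 hd ρ β))
    (renL78 hd hρ (marS72 hd hρ β)) h7 (lucL73 hd hρ β) (endL61 hd hρ β (Blk27.blkL27 hd hρ β))
    (Fra27.fraL27 hd hρ β) h hk hS

/-- The form with the second moment: an equivalence. -/
theorem sdi43 (h2 : DrL d ρ β) (h7 : ExpL) (hd : 0 < d) (hρ : EM ρ) (h : Vec d)
    (h12 : (∀ᵐ η ∂(law d ρ), Tendsto (fun n : ℕ => wt ρ β h η n) atTop (𝓝 0)) → SDm ρ β h) :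
    VSD ρ β h ↔ SDm ρ β h ∧
      ∀ C : ℝ, ∃ n : ℕ, C * (n + 1) < ∫ η, wt ρ β h η n ^ 2 ∂(law d ρ) := by
  constructor
  · intro hV
    exact ⟨h12 (as43 hd hρ β h hV), sec43 hd hρ β h hV⟩
  · rintro ⟨hS, hk⟩
    exact sdm43 (fun h ε m hε => integrable_Mo43 hd hρ h ε m hε) hd
      (locS43 hd hρ (marS72 hd hρ β) h2 (enL72 hd hρ β) (S62.ybL62 hd ρ β))
      (renL78 hd hρ (marS72 hd hρ β)) h7 (lucL73 hd hρ β) (endL61 hd hρ β (Blk27.blkL27 hd hρ β))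
      (Fra27.fraL27 hd hρ β) (S62.secS62 hd hρ β) h hk hS

end Pool.Agent.W_7d29a1_SD
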