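import Pool.Agent.W_7d29a1_SD.FinB43
import Pool.Agent.W_7d29a1_SD.Exp73
import Pool.Agent.W_7d29a1_SD.Crit72
import Pool.Agent.W_7d29a1_Q29.Fin29

/-!
Strong disorder is very strong disorder: the form beyond the critical point.
-/

namespace Pool.Agent.W_7d29a1_SD

open MeasureTheory ProbabilityTheory Filter Topology Pool.Agent.W_MP_7d29a1_pr
  Pool.Agent.W_7d29a1_h46 Pool.Agent.W_7d29a1_h46u Pool.Agent.W_7d29a1_D2.B35
  Pool.Agent.W_7d29a1_Q29 Pool.Agent.W_7d29a1_P89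

/-- Strong disorder at a smaller inverse temperature gives very strong disorder. -/
theorem vsdA43 {d : ℕ} {ρ : Measure ℝ} [IsProbabilityMeasure ρ] {β : ℝ} (h2 : DrL d ρ β)
    (hd : 0 < d) (hρ : EM ρ) (hnc : ∀ c : ℝ, ρ {c} ≠ 1) {b : ℝ} (hb : 0 < b) (hbβ : b < β)
    (h : Vec d) (hM : SDm ρ b h → SDm ρ β h) (hs : SDm ρ b h) : VSD ρ β h :=
  sdk43 h2 expL73 hd hρ h (crit72 hd hρ hnc hb hbβ h hs) (hM hs)

/-- The clause for an arbitrary environment, over the transfer of the hypothesis. -/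
theorem clause43 {Ω : Type*} [MeasurableSpace Ω] {μ : Measure Ω} [IsProbabilityMeasure μ] {d : ℕ}
    {ρ : Measure ℝ} [IsProbabilityMeasure ρ] {ω : ℕ × Site d → Ω → ℝ} {β : ℝ} (h2 : DrL d ρ β)
    (hd : 0 < d) (hρ : EM ρ) (hnc : ∀ c : ℝ, ρ {c} ≠ 1)
    (hM : ∀ (b : ℝ) (h : Vec d), 0 < b → b < β → SDm ρ b h → SDm ρ β h)
    (hT : ∀ (b : ℝ) (h : Vec d), (∀ᵐ x ∂μ, Tendsto (fun n : ℕ => Zn b h (fun p => ω p x) n /
      ∫ y, Zn b h (fun p => ω p y) n ∂μ) atTop (𝓝 0)) → SDm ρ b h) :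
    ∀ (h : Vec d) (b : ℝ), 0 < b → b < β →
      (∀ᵐ x ∂μ, Tendsto (fun n : ℕ => Zn b h (fun p => ω p x) n /
        ∫ y, Zn b h (fun p => ω p y) n ∂μ) atTop (𝓝 0)) → lamN ρ β h < annN ρ β h :=
  fun h b hb hbβ hx => (vsd29 h).2 (vsdA43 h2 hd hρ hnc hb hbβ h (hM b h hb hbβ) (hT b h hx))

end Pool.Agent.W_7d29a1_SD
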