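import Pool.Agent.W_7d29a1_SD.SelT51
import Pool.Agent.W_7d29a1_SD.Fin67
import Pool.Agent.W_7d29a1_SD.TrSD80

/-!
Theorem SD for almost every tilt: no hypothesis left, and the form for an arbitrary i.i.d.
environment.
-/

namespace Pool.Agent.W_7d29a1_SD

open MeasureTheory ProbabilityTheory Filter Topology Pool.Agent.W_MP_7d29a1_pr
  Pool.Agent.W_7d29a1_h46 Pool.Agent.W_7d29a1_h46u Pool.Agent.W_7d29a1_D2
  Pool.Agent.W_7d29a1_D2.B35 Pool.Agent.W_7d29a1_Q29 Pool.Agent.W_7d29a1_NV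

variable {d : ℕ} {ρ : Measure ℝ} [IsProbabilityMeasure ρ] {β : ℝ}

/-- **Theorem SD for almost every tilt**: at almost every tilt of very strong disorder the free
energy is flat to second order or the polymer is not diffusive. -/
theorem mainSDtE51 (hd : 0 < d) (hρ : EM ρ) (hnc : ∀ c : ℝ, ρ {c} ≠ 1) (hβ : 0 < β) :
    MainSDt d ρ β :=
  mainSDt51 hd hρ (nvr67 hd hρ hnc hβ) (pairS6 hd β) (subD20 hd hρ)

variable {Ω : Type*} [MeasurableSpace Ω] {μ : Measure Ω} [IsProbabilityMeasure μ]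
  {ω : ℕ × Site d → Ω → ℝ}

/-- **Theorem SD for almost every tilt**, for an arbitrary i.i.d. environment. -/
theorem trSDt51 (hd : 0 < d) (hω : IID μ ρ ω) (hM : MainSDt d ρ β) :
    ∀ᵐ h : Vec d, VSD ρ β h → ∀ v : Vec d,
      (∀ ε : ℝ, 0 < ε → ∃ δ : ℝ, 0 < δ ∧ ∀ r : Vec d, ‖r‖ ≤ δ →
        gap (lam ρ β) h v r ≤ ε * ‖r‖ ^ 2) ∨
      ∃ ε : ℝ, 0 < ε ∧ ∀ R : ℝ, ∃ᶠ n : ℕ in atTop,
        ε < ∫ x, PolT β h (fun p => ω p x) {s : Fin n → Step d | ∃ i ≤ n,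
          R * Real.sqrt n < ‖emb (pos s i) - (i : ℝ) • v‖} ∂μ := by
  filter_upwards [hM] with h hh hV v
  by_cases hD : Dif ρ β h v
  · exact Or.inl (hh hV v hD)
  · obtain ⟨ε, hε, H⟩ := TrSD80.not_dif80 hd hD
    refine Or.inr ⟨ε, hε, fun R => (H R).mono fun n hn => ?_⟩
    rw [TrSD80.tb_int80 hd hω h v R n]
    exact hn

end Pool.Agent.W_7d29a1_SD
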