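import Pool.Agent.W_7d29a1_NV.MulT27
import Pool.Agent.W_7d29a1_NV.Inc34
import Pool.Agent.W_7d29a1_NV.Dens89

/-!
The law of the position is concentrated on few sites as soon as the free energy does not feel the
resampling of the later rows (the insertion in probability).
-/

set_option autoImplicit false

namespace Pool.Agent.W_7d29a1_SD.G79

open MeasureTheory ProbabilityTheory Filter Topology Pool.Agent.W_MP_7d29a1_pr
  Pool.Agent.W_7d29a1_h46 Pool.Agent.W_7d29a1_h46u Pool.Agent.W_7d29a1_D2.B35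
  Pool.Agent.W_7d29a1_D2 Pool.Agent.W_7d29a1_V.Law2
  Pool.Agent.W_7d29a1_Q29 Pool.Agent.W_7d29a1_P89 Pool.Agent.W_7d29a1_P78
  Pool.Agent.W_7d29a1_NV Pool.Agent.W_7d29a1_NV.MT27 Pool.Agent.W_7d29a1_NV.I34

variable {d : ℕ} {ρ : Measure ℝ}

/-- The increment of the free energy is not much larger than the mean of the short one. -/
theorem incU79 [IsProbabilityMeasure ρ] (hd : 0 < d) (hρ : EM ρ) (β : ℝ) (h : Vec d) (n m : ℕ)
    {c : ℝ} (hc : 0 < c) :
    (law d ρ).real {η | c ≤ X β h η (n + m) - X β h η n - A ρ β h m} ≤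
      ((A ρ β h (n + m) - A ρ β h n - A ρ β h m) +
        ∫ η, |X β h η m - A ρ β h m| ∂(law d ρ)) / c := by
  have hX : ∀ k, Integrable (fun η => X β h η k) (law d ρ) := fun k => (concU hd hρ β h k).1
  have hD : ∀ k, Integrable (fun η : Env d => |X β h η k - A ρ β h k|) (law d ρ) := fun k =>
    (dev_le hd hρ β h k).1
  obtain ⟨i1, e1⟩ := mean_fut (ρ := ρ) hd β h n (F := fun η => X β h η m) (measurable_X β h m)
    (hX m) (FreeU_dep2 β h n m)
  obtain ⟨i2, e2⟩ := mean_fut (ρ := ρ) hd β h n (F := fun η => |X β h η m - A ρ β h m|)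
    ((measurable_X β h m).sub_const _).abs (hD m) (fun y η η' hη => by
      have := FreeU_dep2 β h n m y hη
      simp only at this ⊢
      rw [this])
  set F : Env d → ℝ := fun η => (X β h η (n + m) - X β h η n -
      ∑ s : Fin n → Step d, FreeU_p β h n s η * X β h (sh n (pos s n) η) m) +
      ∑ s : Fin n → Step d, FreeU_p β h n s η * |X β h (sh n (pos s n) η) m - A ρ β h m| with hF
  have i3 : Integrable (fun η : Env d => X β h η (n + m) - X β h η n) (law d ρ) :=
    (hX (n + m)).sub (hX n)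
  have i4 : Integrable (fun η : Env d => X β h η (n + m) - X β h η n -
      ∑ s : Fin n → Step d, FreeU_p β h n s η * X β h (sh n (pos s n) η) m) (law d ρ) :=
    i3.sub i1
  have i5 : Integrable F (law d ρ) := i4.add i2
  have hF0 : ∀ η, 0 ≤ F η := by
    intro η
    have h1 := FreeU_pt hd β h n m η
    have h2 : 0 ≤ ∑ s : Fin n → Step d, FreeU_p β h n s η *
        |X β h (sh n (pos s n) η) m - A ρ β h m| :=
      Finset.sum_nonneg fun s _ => mul_nonneg (FreeU_nonneg hd β h n s η) (abs_nonneg _)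
    show 0 ≤ _ + _
    linarith
  have hFI : ∫ η, F η ∂(law d ρ) = (A ρ β h (n + m) - A ρ β h n - A ρ β h m) +
      ∫ η, |X β h η m - A ρ β h m| ∂(law d ρ) := by
    rw [hF, integral_add i4 i2, integral_sub i3 i1, integral_sub (hX (n + m)) (hX n), e1, e2]
    rfl
  have hsub : {η | c ≤ X β h η (n + m) - X β h η n - A ρ β h m} ⊆ {η | c ≤ F η} := by
    intro η hη
    have h0 : c ≤ X β h η (n + m) - X β h η n - A ρ β h m := hη
    show c ≤ _ + _
    have h3 : ∑ s : Fin n → Step d, FreeU_p β h n s η *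
        (X β h (sh n (pos s n) η) m - A ρ β h m) =
        (∑ s : Fin n → Step d, FreeU_p β h n s η * X β h (sh n (pos s n) η) m) -
          A ρ β h m := by
      simp only [mul_sub]
      rw [Finset.sum_sub_distrib, ← Finset.sum_mul, FreeU_sum hd, one_mul]
    have h2 : ∑ s : Fin n → Step d, FreeU_p β h n s η *
        (X β h (sh n (pos s n) η) m - A ρ β h m) ≤
        ∑ s : Fin n → Step d, FreeU_p β h n s η *
          |X β h (sh n (pos s n) η) m - A ρ β h m| :=
      Finset.sum_le_sum fun s _ => mul_le_mul_of_nonneg_left (le_abs_self _)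
        (FreeU_nonneg hd β h n s η)
    rw [h3] at h2
    linarith
  have hmk := mul_meas_ge_le_integral_of_nonneg (μ := law d ρ) (Eventually.of_forall hF0) i5 c
  rw [hFI] at hmk
  rw [le_div_iff₀ hc]
  have h4 := mul_le_mul_of_nonneg_right (measureReal_mono (μ := law d ρ) hsub) hc.le
  linarith

/-- One insertion: a set of environments on which the insertion gains `b` with probability at least
one half is small, if the insertion moves the free energy by at most `b / 2`. -/
theorem core79 [IsProbabilityMeasure ρ] (hd : 0 < d) (hρ : EM ρ) (β : ℝ) (h : Vec d)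
    {b : ℝ} (hb : 0 < b) {n τ m : ℕ} (z0 : Site d) (Bad : Set (Env d))
    (hBad : ∀ η ∈ Bad, 1 / 2 ≤ (law d ρ).real {ξ | X β h η n + (lam ρ β h * m + b) ≤
          X β h (insE τ m z0 η ξ) (n + m)}) :
    (law d ρ).real Bad ≤ 2 * (((law d ρ).prod (law d ρ)).real
      {w | b / 2 < |X β h (insE τ m z0 w.1 w.2) (n + m) - X β h w.1 (n + m)|} +
        2 / b * ((A ρ β h (n + m) - A ρ β h n - A ρ β h m) +
          ∫ η, |X β h η m - A ρ β h m| ∂(law d ρ))) := by
  set G : Set (Env d × Env d) := {w | X β h w.1 n + (lam ρ β h * m + b) ≤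
    X β h (insE τ m z0 w.1 w.2) (n + m)} with hG
  have hmp := mp_ins (d := d) (ρ := ρ) τ m z0
  have hGm : MeasurableSet G := measurableSet_le
    (((measurable_X β h n).comp measurable_fst).add_const _)
    ((measurable_X β h (n + m)).comp hmp.measurable)
  have hA : A ρ β h m ≤ m * lam ρ β h := A_le_lam hd hρ β h m
  set H : Set (Env d) := {η | b / 2 ≤ X β h η (n + m) - X β h η n - A ρ β h m} with hH
  have hHm : MeasurableSet H := measurableSet_le measurable_const
    (((measurable_X β h (n + m)).sub (measurable_X β h n)).sub_const _)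
  have hsub : G ⊆ {w | b / 2 < |X β h (insE τ m z0 w.1 w.2) (n + m) - X β h w.1 (n + m)|} ∪
      {w | w.1 ∈ H} := by
    intro w hw
    by_contra hno
    rw [Set.mem_union, not_or] at hno
    obtain ⟨h1, h2⟩ := hno
    have h1' : |X β h (insE τ m z0 w.1 w.2) (n + m) - X β h w.1 (n + m)| ≤ b / 2 := not_lt.1 h1
    have h2' : X β h w.1 (n + m) - X β h w.1 n - A ρ β h m < b / 2 := not_le.1 h2
    have h3 : X β h w.1 n + (lam ρ β h * m + b) ≤ X β h (insE τ m z0 w.1 w.2) (n + m) := hw
    have h4 := (abs_le.1 h1').2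
    linarith
  have hP2 : ((law d ρ).prod (law d ρ)).real {w : Env d × Env d | w.1 ∈ H} =
      (law d ρ).real H := by
    have h1 := (measurePreserving_fst (μ := law d ρ) (ν := law d ρ)).measure_preimage
      hHm.nullMeasurableSet
    unfold Measure.real
    rw [← h1]
    rfl
  have h5 := (measureReal_mono (μ := (law d ρ).prod (law d ρ)) hsub).trans
    (measureReal_union_le _ _)
  have h6 := incU79 (ρ := ρ) hd hρ β h n m (c := b / 2) (by linarith)
  have h7 := sec27 (ρ := ρ) hGm Bad hBad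
  rw [hP2] at h5
  have h8 : ((A ρ β h (n + m) - A ρ β h n - A ρ β h m) +
        ∫ η, |X β h η m - A ρ β h m| ∂(law d ρ)) / (b / 2) =
      2 / b * ((A ρ β h (n + m) - A ρ β h n - A ρ β h m) +
        ∫ η, |X β h η m - A ρ β h m| ∂(law d ρ)) := by
    field_simp
  rw [h8] at h6
  linarith

/-- The numbers: the error of the insertion is small as soon as the increment of the mean is. -/
theorem err79 [IsProbabilityMeasure ρ] (hd : 0 < d) (hρ : EM ρ) (β : ℝ) (h : Vec d)
    {c₀ C' κ : ℝ} (hc0 : 0 < c₀) (hC : 0 < C') (hκ : 0 < κ) :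
    ∃ b₁ : ℝ, 1 ≤ b₁ ∧ ∀ b : ℝ, b₁ ≤ b → ∀ m : ℕ, c₀ * b ≤ m → m ≤ C' * b → ∀ n : ℕ,
      A ρ β h (n + m) - A ρ β h n ≤ (lam ρ β h + κ / (4 * C')) * m →
        (A ρ β h (n + m) - A ρ β h n - A ρ β h m) +
          ∫ η, |X β h η m - A ρ β h m| ∂(law d ρ) ≤ κ * b := by
  obtain ⟨C, hC0, hCm⟩ := momU (ρ := ρ) hd hρ β 1
  obtain ⟨C2, hC2⟩ := dmC89 (ρ := ρ) hd hρ β h (show (0 : ℝ) < κ / (4 * C') by positivity)
  refine ⟨max 1 (max (4 * C2 / κ) (16 * C ^ 2 * C' / κ ^ 2)), le_max_left _ _,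
    fun b hb m hm1 hm2 n hA => ?_⟩
  have hb1 : 1 ≤ b := (le_max_left _ _).trans hb
  have hb2 : 4 * C2 / κ ≤ b := (le_max_left _ _).trans ((le_max_right _ _).trans hb)
  have hb3 : 16 * C ^ 2 * C' / κ ^ 2 ≤ b := (le_max_right _ _).trans ((le_max_right _ _).trans hb)
  have hb0 : 0 < b := by linarith
  have hm0 : (0 : ℝ) < m := lt_of_lt_of_le (mul_pos hc0 hb0) hm1
  have hmn : 1 ≤ m := by
    have : 0 < m := by exact_mod_cast hm0
    exact this
  have h1 : C2 ≤ κ * b / 4 := by
    rw [div_le_iff₀ hκ] at hb2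
    linarith
  have h2 : κ / (4 * C') * m ≤ κ * b / 4 := by
    have h3 := mul_le_mul_of_nonneg_left hm2 (show (0 : ℝ) ≤ κ / (4 * C') by positivity)
    refine h3.trans (le_of_eq ?_)
    field_simp
  have h4 : ∫ η, |X β h η m - A ρ β h m| ∂(law d ρ) ≤ κ * b / 4 := by
    have h5 := (hCm h m hmn).2
    simp only [pow_one, Nat.cast_one, mul_one] at h5
    refine h5.trans ?_
    rw [← Real.sqrt_eq_rpow]
    have h6 : (4 * C / κ * Real.sqrt m) ^ 2 ≤ b ^ 2 := by
      rw [mul_pow, Real.sq_sqrt hm0.le]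
      have h7 : (4 * C / κ) ^ 2 * (m : ℝ) ≤ (4 * C / κ) ^ 2 * (C' * b) :=
        mul_le_mul_of_nonneg_left hm2 (sq_nonneg _)
      refine h7.trans ?_
      have h8 := mul_le_mul_of_nonneg_right hb3 hb0.le
      refine le_trans (le_of_eq ?_) (h8.trans (le_of_eq ?_))
      · field_simp
        ring
      · ring
    have h9 : 4 * C / κ * Real.sqrt m ≤ b := abs_le_of_sq_le_sq' h6 hb0.le |>.2
    have h10 : 4 * C / κ * Real.sqrt m = 4 / κ * (C * Real.sqrt m) := by ring
    rw [h10] at h9
    have h11 := mul_le_mul_of_nonneg_left h9 (show (0 : ℝ) ≤ κ / 4 by positivity)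
    have h12 : κ / 4 * (4 / κ * (C * Real.sqrt m)) = C * Real.sqrt m := by
      field_simp
    rw [h12] at h11
    linarith
  have h13 := hC2 m
  have h14 : (lam ρ β h + κ / (4 * C')) * m = m * lam ρ β h + κ / (4 * C') * m := by ring
  rw [h14] at hA
  linarith

end Pool.Agent.W_7d29a1_SD.G79
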