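import Pool.Agent.W_7d29a1_SD.FinA43

/-!
Integrability of all powers of the partition functions.
-/

namespace Pool.Agent.W_7d29a1_SD

open MeasureTheory ProbabilityTheory Filter Topology Pool.Agent.W_MP_7d29a1_pr
  Pool.Agent.W_7d29a1_h46 Pool.Agent.W_7d29a1_h46u Pool.Agent.W_7d29a1_D2.B35
  Pool.Agent.W_7d29a1_Q29 Pool.Agent.W_7d29a1_P89

variable {d : ℕ} {ρ : Measure ℝ} [IsProbabilityMeasure ρ] {β : ℝ}

lemma w_le_wt43 (ρ : Measure ℝ) (β : ℝ) (h : Vec d) (η : Env d) (n : ℕ) (x : Site d) :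
    w ρ β h η n x ≤ wt ρ β h η n := W_le_ZH _ _ _ _

lemma wt_def43 (ρ : Measure ℝ) (β : ℝ) (h : Vec d) (η : Env d) (n : ℕ) :
    wt ρ β h η n =
      Real.exp (-((n : ℝ) * (Real.log (Phi h) + Real.log (∫ t, Real.exp (β * t) ∂ρ)))) *
        Z β h η n := rfl

/-- All powers of the partition function are integrable. -/
lemma integrable_wt_rpow43 (hd : 0 < d) (hρ : EM ρ) (β : ℝ) (h : Vec d) (n : ℕ) {q : ℝ}
    (hq : 1 ≤ q) : Integrable (fun η => wt ρ β h η n ^ q) (law d ρ) := by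
  have h1 : ∀ η : Env d, Z β h η n ^ q ≤
      (Fintype.card (Fin n → Step d) : ℝ) ^ (q - 1) * Z (q * β) (q • h) η n := by
    intro η
    have h2 := Real.rpow_sum_le_const_mul_sum_rpow_of_nonneg (Finset.univ : Finset (Fin n → Step d))
      (f := fun s => wgt β h η s) hq (fun s _ => (wgt_pos _ _ _ _).le)
    rw [Z_eq, Z_eq]
    refine h2.trans (le_of_eq ?_)
    congr 1
    refine Finset.sum_congr rfl fun s _ => ?_
    unfold wgt
    rw [← Real.exp_mul]
    congr 1
    rw [inner_smul_left]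
    simp only [conj_trivial]
    ring
  have h3 : Integrable (fun η : Env d =>
      Real.exp (-((n : ℝ) * (Real.log (Phi h) + Real.log (∫ t, Real.exp (β * t) ∂ρ)))) ^ q *
        ((Fintype.card (Fin n → Step d) : ℝ) ^ (q - 1) * Z (q * β) (q • h) η n)) (law d ρ) :=
    ((annealed61 hρ (q * β) (q • h) n).1.const_mul _).const_mul _
  refine h3.mono' ((measurable_wt43 ρ β h n).pow_const q).aestronglyMeasurable
    (Eventually.of_forall fun η => ?_)
  rw [Real.norm_eq_abs, abs_of_nonneg (Real.rpow_nonneg (wt_pos43 hd ρ β h η n).le _), wt_def43,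
    Real.mul_rpow (Real.exp_pos _).le (Z_pos hd _ _ _ _).le]
  exact mul_le_mul_of_nonneg_left (h1 η) (Real.rpow_nonneg (Real.exp_pos _).le _)

lemma integrable_wt_pow43 (hd : 0 < d) (hρ : EM ρ) (β : ℝ) (h : Vec d) (n : ℕ) {q : ℕ}
    (hq : 1 ≤ q) : Integrable (fun η => wt ρ β h η n ^ q) (law d ρ) := by
  have h1 := integrable_wt_rpow43 hd hρ β h n (q := q) (by exact_mod_cast hq)
  simpa only [Real.rpow_natCast] using h1

/-- Anything measurable which is at most `C (1 + wt ^ q)` is integrable. -/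
lemma int_of43 (hd : 0 < d) (hρ : EM ρ) (β : ℝ) (h : Vec d) (n : ℕ) {q : ℕ} (hq : 1 ≤ q)
    {F : Env d → ℝ} (hF : Measurable F) (C : ℝ) (h0 : ∀ η, |F η| ≤ C * (1 + wt ρ β h η n ^ q)) :
    Integrable F (law d ρ) := by
  have h2 : Integrable (fun η => C * (1 + wt ρ β h η n ^ q)) (law d ρ) :=
    ((integrable_const (1 : ℝ)).add (integrable_wt_pow43 hd hρ β h n hq)).const_mul C
  exact h2.mono' hF.aestronglyMeasurable (Eventually.of_forall fun η => h0 η)

/-- The moments of order `1 + ε` are finite. -/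
lemma integrable_Mo43 (hd : 0 < d) (hρ : EM ρ) (h : Vec d) (ε : ℝ) (m : ℕ) (hε : 0 < ε) :
    Integrable (fun η => ∑ x ∈ boxF d m, w ρ β h η m x ^ (1 + ε)) (law d ρ) := by
  refine integrable_finsetSum _ fun x _ => ?_
  refine (integrable_wt_rpow43 hd hρ β h m (q := 1 + ε) (by linarith)).mono'
    ((measurable_w43 ρ β h m x).pow_const _).aestronglyMeasurable (Eventually.of_forall fun η => ?_)
  rw [Real.norm_eq_abs, abs_of_nonneg (Real.rpow_nonneg (w_nonneg43 ρ β h η m x) _)]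
  exact Real.rpow_le_rpow (w_nonneg43 ρ β h η m x) (w_le_wt43 ρ β h η m x) (by linarith)

lemma abs_mul_log_le43 {x : ℝ} (hx : 0 < x) : |x * Real.log x| ≤ 1 + x ^ 2 := by
  rcases le_total 1 x with h | h
  · have h1 := Real.log_nonneg h
    rw [abs_of_nonneg (mul_nonneg hx.le h1)]
    have h2 := Real.log_le_sub_one_of_pos hx
    nlinarith
  · have h1 := Real.log_nonpos hx.le h
    rw [abs_mul, abs_of_pos hx, abs_of_nonpos h1]
    have h2 := Real.one_sub_inv_le_log_of_pos hx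
    have h3 : x * x⁻¹ = 1 := mul_inv_cancel₀ hx.ne'
    nlinarith [sq_nonneg x]

lemma neg_mul_log_le43 {x : ℝ} (hx : 0 < x) : -(x * Real.log x) ≤ 1 := by
  have h2 := Real.one_sub_inv_le_log_of_pos hx
  have h3 : x * x⁻¹ = 1 := mul_inv_cancel₀ hx.ne'
  nlinarith

lemma integrable_ent43 (hd : 0 < d) (hρ : EM ρ) (h : Vec d) (n : ℕ) :
    Integrable (fun η => wt ρ β h η n * Real.log (wt ρ β h η n)) (law d ρ) := by
  refine int_of43 hd hρ β h n (q := 2) (by norm_num)
    ((measurable_wt43 ρ β h n).mul (measurable_wt43 ρ β h n).log) 1 fun η => ?_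
  rw [one_mul]
  exact abs_mul_log_le43 (wt_pos43 hd ρ β h η n)

end Pool.Agent.W_7d29a1_SD
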