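import Pool.Agent.W_7d29a1_SD.Int43

/-!
Localisation under the size biased law (leaf A5).
-/

namespace Pool.Agent.W_7d29a1_SD

open MeasureTheory ProbabilityTheory Filter Topology Pool.Agent.W_MP_7d29a1_pr
  Pool.Agent.W_7d29a1_h46 Pool.Agent.W_7d29a1_h46u Pool.Agent.W_7d29a1_D2.B35
  Pool.Agent.W_7d29a1_Q29 Pool.Agent.W_7d29a1_P89

variable {d : ℕ} {ρ : Measure ℝ} {β : ℝ}

open Classical in
/-- The indicator of no localisation. -/
noncomputable def gN (ρ : Measure ℝ) (β : ℝ) (h : Vec d) (δ : ℝ) (N T : ℕ) (η : Env d) : ℝ :=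
  if NLoc ρ β h δ N T η then 1 else 0

lemma gN_zo43 (ρ : Measure ℝ) (β : ℝ) (h : Vec d) (δ : ℝ) (N T : ℕ) (η : Env d) :
    gN ρ β h δ N T η = 0 ∨ gN ρ β h δ N T η = 1 := by
  unfold gN
  split_ifs
  · exact Or.inr rfl
  · exact Or.inl rfl

lemma gN_nonneg43 (ρ : Measure ℝ) (β : ℝ) (h : Vec d) (δ : ℝ) (N T : ℕ) (η : Env d) :
    0 ≤ gN ρ β h δ N T η := by
  rcases gN_zo43 ρ β h δ N T η with h1 | h1 <;> rw [h1] <;> norm_num

lemma gN_le_one43 (ρ : Measure ℝ) (β : ℝ) (h : Vec d) (δ : ℝ) (N T : ℕ) (η : Env d) :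
    gN ρ β h δ N T η ≤ 1 := by
  rcases gN_zo43 ρ β h δ N T η with h1 | h1 <;> rw [h1] <;> norm_num

lemma gN_succ43 (ρ : Measure ℝ) (β : ℝ) (h : Vec d) (δ : ℝ) (N T : ℕ) (η : Env d) :
    gN ρ β h δ N (T + 1) η ≤ gN ρ β h δ N T η := by
  by_cases h1 : NLoc ρ β h δ N (T + 1) η
  · have h2 : NLoc ρ β h δ N T η := fun n h3 h4 => h1 n h3 (by omega)
    unfold gN
    rw [if_pos h1, if_pos h2]
  · have h3 : gN ρ β h δ N (T + 1) η = 0 := if_neg h1
    rw [h3]
    exact gN_nonneg43 ρ β h δ N T η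

lemma gN_self43 (ρ : Measure ℝ) (β : ℝ) (h : Vec d) (δ : ℝ) (N : ℕ) (η : Env d) :
    gN ρ β h δ N N η = 1 := by
  unfold gN
  rw [if_pos]
  intro n h1 h2
  omega

lemma measurableSet_NLoc43 (ρ : Measure ℝ) (β : ℝ) (h : Vec d) (δ : ℝ) (N T : ℕ) :
    MeasurableSet {η : Env d | NLoc ρ β h δ N T η} := by
  have h1 : {η : Env d | NLoc ρ β h δ N T η} = ⋂ n : ℕ, ⋂ _ : N ≤ n, ⋂ _ : n < T, ⋂ x : Site d,
      {η : Env d | w ρ β h η n x < δ * wt ρ β h η n} := by
    ext η
    simp only [NLoc, Set.mem_ofPred_eq, Set.mem_iInter]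
  rw [h1]
  exact MeasurableSet.iInter fun n => MeasurableSet.iInter fun _ => MeasurableSet.iInter fun _ =>
    MeasurableSet.iInter fun x => measurableSet_lt (measurable_w43 ρ β h n x)
      ((measurable_wt43 ρ β h n).const_mul δ)

lemma measurable_gN43 (ρ : Measure ℝ) (β : ℝ) (h : Vec d) (δ : ℝ) (N T : ℕ) :
    Measurable (gN ρ β h δ N T : Env d → ℝ) :=
  Measurable.ite (measurableSet_NLoc43 ρ β h δ N T) measurable_const measurable_const

lemma dependsOn_w43 (ρ : Measure ℝ) (β : ℝ) (h : Vec d) (n : ℕ) (x : Site d) :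
    DependsOn (fun η : Env d => w ρ β h η n x) {p | p.1 ≤ n} := dependsOn_Wr _ _ _

lemma dependsOn_wt43 (ρ : Measure ℝ) (β : ℝ) (h : Vec d) (n : ℕ) :
    DependsOn (fun η : Env d => wt ρ β h η n) {p | p.1 ≤ n} := by
  intro η η' hη
  simp only
  rw [wt_eq43, wt_eq43]
  exact Finset.sum_congr rfl fun x _ => dependsOn_w43 ρ β h n x hη

lemma dependsOn_gN43 (ρ : Measure ℝ) (β : ℝ) (h : Vec d) (δ : ℝ) (N n : ℕ) :
    DependsOn (gN ρ β h δ N (n + 1) : Env d → ℝ) {p | p.1 ≤ n} := by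
  have key : ∀ η η' : Env d, (∀ p ∈ {p : ℕ × Site d | p.1 ≤ n}, η p = η' p) →
      NLoc ρ β h δ N (n + 1) η → NLoc ρ β h δ N (n + 1) η' := by
    intro η η' hη h1 i h2 h3 x
    have h4 := h1 i h2 h3 x
    have h5 : ∀ p ∈ {p : ℕ × Site d | p.1 ≤ i}, η p = η' p := fun p hp => hη p (by
      have : p.1 ≤ i := hp
      change p.1 ≤ n
      omega)
    have h6 : w ρ β h η i x = w ρ β h η' i x := dependsOn_w43 ρ β h i x h5
    have h7 : wt ρ β h η i = wt ρ β h η' i := dependsOn_wt43 ρ β h i h5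
    rwa [h6, h7] at h4
  intro η η' hη
  unfold gN
  by_cases h1 : NLoc ρ β h δ N (n + 1) η
  · rw [if_pos h1, if_pos (key η η' hη h1)]
  · rw [if_neg h1, if_neg fun h2 => h1 (key η' η (fun p hp => (hη p hp).symm) h2)]

variable [IsProbabilityMeasure ρ]

lemma int_g43 {G F : Env d → ℝ} (hG : Measurable G) (h0 : ∀ η, 0 ≤ G η) (h1 : ∀ η, G η ≤ 1)
    (hF : Integrable F (law d ρ)) : Integrable (fun η => G η * F η) (law d ρ) := by
  refine hF.norm.mono' (hG.aestronglyMeasurable.mul hF.1) (Eventually.of_forall fun η => ?_)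
  rw [norm_mul, Real.norm_eq_abs (G η), abs_of_nonneg (h0 η)]
  exact mul_le_of_le_one_left (norm_nonneg _) (h1 η)

lemma measurable_Yk43 (ρ : Measure ℝ) (β : ℝ) (h : Vec d) (k n : ℕ) :
    Measurable fun η : Env d => Yk ρ β h k η n := by
  unfold Yk
  refine Measurable.div ?_ (measurable_wt43 ρ β h n)
  exact Finset.measurable_sum _ fun x _ => Finset.measurable_sum _ fun y _ =>
    ((measurable_w43 ρ β h n x).mul (measurable_w43 ρ β h n y)).mul_const _

lemma S2_nonneg43 (hd : 0 < d) (ρ : Measure ℝ) (β : ℝ) (h : Vec d) (η : Env d) (n : ℕ) :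
    0 ≤ S2 ρ β h η n :=
  div_nonneg (Finset.sum_nonneg fun x _ => sq_nonneg _) (wt_pos43 hd ρ β h η n).le

/-- Leaf A5. -/
theorem locS43 (hd : 0 < d) (hρ : EM ρ) (h1 : MarS d ρ β) (h2 : DrL d ρ β) (h3 : EnL d ρ β)
    (h4 : YbL d ρ β) : LocS d ρ β := by
  classical
  rintro h ⟨k, hk⟩ hS
  obtain ⟨C, hC, hdr⟩ := h2 h k
  obtain ⟨γ, hγd⟩ : ∃ γ : ℝ, γ = (kap ρ β * rt h k - 1) / 2 := ⟨_, rfl⟩
  have hγ : 0 < γ := by rw [hγd]; linarith
  obtain ⟨δ, hδd⟩ : ∃ δ : ℝ, δ = γ / (C + 1) := ⟨_, rfl⟩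
  have hδ : 0 < δ := by rw [hδd]; positivity
  have hCδ : C * δ ≤ γ := by
    rw [hδd, mul_div_assoc', div_le_iff₀ (by linarith)]
    nlinarith
  refine ⟨δ, hδ, fun N => ?_⟩
  -- integrability
  have iw : ∀ n, Integrable (fun η => wt ρ β h η n) (law d ρ) := fun n => integrable_wt43 hd hρ h n
  have ie : ∀ n, Integrable (fun η => wt ρ β h η n * Real.log (wt ρ β h η n)) (law d ρ) :=
    fun n => integrable_ent43 hd hρ h n
  have iy : ∀ n, Integrable (fun η => Yk ρ β h k η n) (law d ρ) := by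
    intro n
    refine (iw n).mono' (measurable_Yk43 ρ β h k n).aestronglyMeasurable
      (Eventually.of_forall fun η => ?_)
    rw [Real.norm_eq_abs, abs_of_nonneg (h4 h k n η).1]
    exact (h4 h k n η).2
  have ig : ∀ (T : ℕ) {F : Env d → ℝ}, Integrable F (law d ρ) →
      Integrable (fun η => gN ρ β h δ N T η * F η) (law d ρ) := fun T F hF =>
    int_g43 (measurable_gN43 ρ β h δ N T) (gN_nonneg43 ρ β h δ N T) (gN_le_one43 ρ β h δ N T) hF
  have ig1 : ∀ T : ℕ, Integrable (fun η => gN ρ β h δ N T η) (law d ρ) := by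
    intro T
    have := ig T (integrable_const (1 : ℝ))
    simpa using this
  -- sequences
  obtain ⟨p, hp⟩ : ∃ p : ℕ → ℝ, p = fun n => ∫ η, gN ρ β h δ N n η * wt ρ β h η n ∂(law d ρ) :=
    ⟨_, rfl⟩
  obtain ⟨a, ha⟩ : ∃ a : ℕ → ℝ, a = fun n => ∫ η, gN ρ β h δ N n η * Yk ρ β h k η n ∂(law d ρ) :=
    ⟨_, rfl⟩
  obtain ⟨s, hs⟩ : ∃ s : ℕ → ℝ, s = fun n => ∫ η, gN ρ β h δ N (n + 1) η * S2 ρ β h η n
    ∂(law d ρ) := ⟨_, rfl⟩
  obtain ⟨e, he⟩ : ∃ e : ℕ → ℝ, e = fun n => ∫ η, gN ρ β h δ N n η *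
    (wt ρ β h η n * Real.log (wt ρ β h η n)) ∂(law d ρ) := ⟨_, rfl⟩
  obtain ⟨b, hb⟩ : ∃ b : ℕ → ℝ, b = fun n => ∫ η, gN ρ β h δ N n η ∂(law d ρ) := ⟨_, rfl⟩
  have hs0 : ∀ n, 0 ≤ s n := by
    intro n
    rw [hs]
    exact integral_nonneg fun η => mul_nonneg (gN_nonneg43 _ _ _ _ _ _ _) (S2_nonneg43 hd _ _ _ _ _)
  have hb0 : ∀ n, 0 ≤ b n := by
    intro n
    rw [hb]
    exact integral_nonneg fun η => gN_nonneg43 _ _ _ _ _ _ _
  have hstep : ∀ n, N ≤ n → a n - p n + γ * s n ≤ a (n + 1) - p (n + 1) := by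
    intro n hn
    have e1 := hdr n δ (gN ρ β h δ N (n + 1)) hδ (measurable_gN43 ρ β h δ N (n + 1))
      (dependsOn_gN43 ρ β h δ N n) (gN_zo43 ρ β h δ N (n + 1)) (by
        intro η hη x
        have h5 : NLoc ρ β h δ N (n + 1) η := by
          by_contra h6
          have h7 : gN ρ β h δ N (n + 1) η = 0 := if_neg h6
          rw [h7] at hη
          exact zero_ne_one hη
        exact (h5 n hn (by omega) x).le)
    have e2 := h1 h n 1 (gN ρ β h δ N (n + 1)) (measurable_gN43 ρ β h δ N (n + 1))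
      (dependsOn_gN43 ρ β h δ N n)
    have e3 : ∫ η, gN ρ β h δ N n η * Yk ρ β h k η n ∂(law d ρ) -
        ∫ η, gN ρ β h δ N (n + 1) η * Yk ρ β h k η n ∂(law d ρ) ≤
        ∫ η, gN ρ β h δ N n η * wt ρ β h η n ∂(law d ρ) -
        ∫ η, gN ρ β h δ N (n + 1) η * wt ρ β h η n ∂(law d ρ) := by
      rw [← integral_sub (ig n (iy n)) (ig (n + 1) (iy n)),
        ← integral_sub (ig n (iw n)) (ig (n + 1) (iw n))]
      refine integral_mono ((ig n (iy n)).sub (ig (n + 1) (iy n)))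
        ((ig n (iw n)).sub (ig (n + 1) (iw n))) fun η => ?_
      have h5 := (h4 h k n η).2
      have h6 := gN_succ43 ρ β h δ N n η
      simp only
      nlinarith
    have e4 : γ * s n ≤ (kap ρ β * rt h k - 1 - C * δ) * s n := by
      refine mul_le_mul_of_nonneg_right ?_ (hs0 n)
      linarith
    rw [ha, hp]
    rw [hs] at e4 ⊢
    simp only at e4 ⊢
    linarith
  have hent : ∀ n, N ≤ n → e (n + 1) + b (n + 1) ≤ e n + b n + (kap ρ β - 1) * s n := by
    intro n hn
    have e1 := h3 h n (gN ρ β h δ N (n + 1)) (measurable_gN43 ρ β h δ N (n + 1))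
      (dependsOn_gN43 ρ β h δ N n) (gN_zo43 ρ β h δ N (n + 1))
    have e3 : ∫ η, gN ρ β h δ N (n + 1) η * (wt ρ β h η n * Real.log (wt ρ β h η n)) ∂(law d ρ) -
        ∫ η, gN ρ β h δ N n η * (wt ρ β h η n * Real.log (wt ρ β h η n)) ∂(law d ρ) ≤
        ∫ η, gN ρ β h δ N n η ∂(law d ρ) - ∫ η, gN ρ β h δ N (n + 1) η ∂(law d ρ) := by
      rw [← integral_sub (ig (n + 1) (ie n)) (ig n (ie n)), ← integral_sub (ig1 n) (ig1 (n + 1))]
      refine integral_mono ((ig (n + 1) (ie n)).sub (ig n (ie n))) ((ig1 n).sub (ig1 (n + 1)))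
        fun η => ?_
      have h5 := neg_mul_log_le43 (wt_pos43 hd ρ β h η n)
      have h6 := gN_succ43 ρ β h δ N n η
      simp only
      nlinarith
    rw [he, hb]
    rw [hs]
    simp only
    linarith
  have hsum : ∀ T, N ≤ T → γ * ∑ n ∈ Finset.Ico N T, s n ≤ (a T - p T) - (a N - p N) := by
    intro T hT
    induction T, hT using Nat.le_induction with
    | base => simp
    | succ T hT ih =>
      rw [Finset.sum_Ico_succ_top hT, mul_add]
      have := hstep T hT
      linarith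
  have hsum2 : ∀ T, N ≤ T →
      e T + b T ≤ e N + b N + (kap ρ β - 1) * ∑ n ∈ Finset.Ico N T, s n := by
    intro T hT
    induction T, hT using Nat.le_induction with
    | base => simp
    | succ T hT ih =>
      rw [Finset.sum_Ico_succ_top hT, mul_add]
      have := hent T hT
      linarith
  have hpN : p N = 1 := by
    rw [hp]
    simp only [gN_self43, one_mul]
    exact integral_wt43 hd hρ β h N
  have hbN : b N = 1 := by
    rw [hb]
    simp [gN_self43]
  have haN : 0 ≤ a N := by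
    rw [ha]
    exact integral_nonneg fun η => mul_nonneg (gN_nonneg43 _ _ _ _ _ _ _) (h4 h k N η).1
  have hap : ∀ T, a T ≤ p T := by
    intro T
    rw [ha, hp]
    exact integral_mono (ig T (iy T)) (ig T (iw T)) fun η =>
      mul_le_mul_of_nonneg_left (h4 h k T η).2 (gN_nonneg43 _ _ _ _ _ _ _)
  have hS1 : ∀ T, N ≤ T → ∑ n ∈ Finset.Ico N T, s n ≤ 1 / γ := by
    intro T hT
    rw [le_div_iff₀ hγ, mul_comm]
    have h5 := hsum T hT
    have h6 := hap T
    linarith
  obtain ⟨K, hK⟩ : ∃ K : ℝ, K = |e N| + 1 + |kap ρ β - 1| * (1 / γ) := ⟨_, rfl⟩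
  have hK0 : 0 ≤ K := by rw [hK]; positivity
  have heT : ∀ T, N ≤ T → e T ≤ K := by
    intro T hT
    have h5 := hsum2 T hT
    have h6 : (kap ρ β - 1) * ∑ n ∈ Finset.Ico N T, s n ≤ |kap ρ β - 1| * (1 / γ) :=
      (mul_le_mul_of_nonneg_right (le_abs_self _) (Finset.sum_nonneg fun n _ => hs0 n)).trans
        (mul_le_mul_of_nonneg_left (hS1 T hT) (abs_nonneg _))
    have h7 := le_abs_self (e N)
    have h8 := hb0 T
    rw [hK]
    linarith
  -- the bound
  have hbd : ∀ y : ℝ, 1 < y → ∀ T, N ≤ T →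
      ∫ η, (if NLoc ρ β h δ N T η then wt ρ β h η T else 0) ∂(law d ρ) ≤
        Real.sqrt y * ∫ η, Real.sqrt (wt ρ β h η T) ∂(law d ρ) + (K + 1) / Real.log y := by
    intro y hy T hT
    have hly : 0 < Real.log y := Real.log_pos hy
    have hpt : ∀ η : Env d, (if NLoc ρ β h δ N T η then wt ρ β h η T else 0) ≤
        Real.sqrt y * Real.sqrt (wt ρ β h η T) +
          (gN ρ β h δ N T η * (wt ρ β h η T * Real.log (wt ρ β h η T)) + 1) / Real.log y := by
      intro η
      have hw := wt_pos43 hd ρ β h η T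
      have hneg := neg_mul_log_le43 hw
      have hsq : 0 ≤ Real.sqrt y * Real.sqrt (wt ρ β h η T) := by positivity
      by_cases hc : NLoc ρ β h δ N T η
      · have hg : gN ρ β h δ N T η = 1 := if_pos hc
        rw [if_pos hc, hg, one_mul]
        rcases le_or_gt (wt ρ β h η T) y with h5 | h5
        · have h6 : wt ρ β h η T ≤ Real.sqrt y * Real.sqrt (wt ρ β h η T) := by
            have h7 : wt ρ β h η T = Real.sqrt (wt ρ β h η T) * Real.sqrt (wt ρ β h η T) :=
              (Real.mul_self_sqrt hw.le).symm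
            nth_rewrite 1 [h7]
            exact mul_le_mul_of_nonneg_right (Real.sqrt_le_sqrt h5) (Real.sqrt_nonneg _)
          have h8 : 0 ≤ (wt ρ β h η T * Real.log (wt ρ β h η T) + 1) / Real.log y :=
            div_nonneg (by linarith) hly.le
          linarith
        · have h6 : Real.log y ≤ Real.log (wt ρ β h η T) := Real.log_le_log (by linarith) h5.le
          have h7 : wt ρ β h η T ≤ (wt ρ β h η T * Real.log (wt ρ β h η T) + 1) / Real.log y := by
            rw [le_div_iff₀ hly]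
            nlinarith
          linarith
      · have hg : gN ρ β h δ N T η = 0 := if_neg hc
        rw [if_neg hc, hg, zero_mul, zero_add]
        positivity
    have i1 : Integrable (fun η => Real.sqrt (wt ρ β h η T)) (law d ρ) := by
      refine int_of43 hd hρ β h T (q := 1) le_rfl (measurable_wt43 ρ β h T).sqrt 1 fun η => ?_
      rw [abs_of_nonneg (Real.sqrt_nonneg _), one_mul, pow_one]
      have hw := wt_pos43 hd ρ β h η T
      rw [Real.sqrt_le_left (by linarith)]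
      nlinarith
    have i2 : Integrable (fun η => (gN ρ β h δ N T η * (wt ρ β h η T *
        Real.log (wt ρ β h η T)) + 1) / Real.log y) (law d ρ) :=
      ((ig T (ie T)).add (integrable_const _)).div_const _
    have i3 : Integrable (fun η => if NLoc ρ β h δ N T η then wt ρ β h η T else 0) (law d ρ) := by
      refine (ig T (iw T)).congr (Eventually.of_forall fun η => ?_)
      simp only [gN]
      split_ifs <;> simp
    have h5 := integral_mono i3 ((i1.const_mul (Real.sqrt y)).add i2) hpt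
    rw [integral_add' (i1.const_mul _) i2, integral_const_mul, integral_div,
      integral_add (ig T (ie T)) (integrable_const _)] at h5
    have h6 : ∫ η, gN ρ β h δ N T η * (wt ρ β h η T * Real.log (wt ρ β h η T)) ∂(law d ρ) ≤ K := by
      have := heT T hT
      rw [he] at this
      exact this
    have h7 : ∫ _ : Env d, (1 : ℝ) ∂(law d ρ) = 1 := by simp
    rw [h7] at h5
    refine h5.trans (add_le_add le_rfl ?_)
    exact div_le_div_of_nonneg_right (by linarith) hly.le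
  refine tendsto_order.2 ⟨fun a' ha' => Eventually.of_forall fun T => ?_, fun a' ha' => ?_⟩
  · refine lt_of_lt_of_le ha' (integral_nonneg fun η => ?_)
    simp only [Pi.zero_apply]
    split_ifs
    · exact (wt_pos43 hd ρ β h η T).le
    · exact le_rfl
  · obtain ⟨y, hyd⟩ : ∃ y : ℝ, y = Real.exp (2 * (K + 1) / a' + 1) := ⟨_, rfl⟩
    have hly : Real.log y = 2 * (K + 1) / a' + 1 := by rw [hyd, Real.log_exp]
    have hy : 1 < y := by
      rw [hyd]
      exact Real.one_lt_exp_iff.2 (by positivity)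
    have h5 : (K + 1) / Real.log y < a' / 2 := by
      rw [hly, div_lt_iff₀ (by positivity)]
      have : a' / 2 * (2 * (K + 1) / a' + 1) = (K + 1) + a' / 2 := by
        field_simp
      rw [this]
      linarith
    have h6 : Tendsto (fun T : ℕ => Real.sqrt y * ∫ η, Real.sqrt (wt ρ β h η T) ∂(law d ρ)) atTop
        (𝓝 0) := by
      have := hS.const_mul (Real.sqrt y)
      rwa [mul_zero] at this
    filter_upwards [(tendsto_order.1 h6).2 (a' / 2) (by linarith), eventually_ge_atTop N] with T h7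
      h8
    have := hbd y hy T h8
    linarith

end Pool.Agent.W_7d29a1_SD
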