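import Pool.Agent.W_7d29a1_SD.DefsSD
import Pool.Agent.W_7d29a1_NV.MulT27
import Pool.Agent.W_7d29a1_NV.Lim34

/-!
Theorem SD, leaf I: the laws of the positions at the times `≥ n / 8`, when all the rows `> n / 8`
together move the free energy by a bounded amount.
-/

set_option autoImplicit false

namespace Pool.Agent.W_7d29a1_SD

open MeasureTheory ProbabilityTheory Filter Topology Pool.Agent.W_MP_7d29a1_pr
  Pool.Agent.W_7d29a1_h46 Pool.Agent.W_7d29a1_h46u Pool.Agent.W_7d29a1_D2.B35
  Pool.Agent.W_7d29a1_Q29 Pool.Agent.W_7d29a1_NV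

variable {d : ℕ} {ρ : Measure ℝ} [IsProbabilityMeasure ρ]

/-- The increment of the free energy between the lengths `n` and `n + m` is close to the mean of
the length `m`. -/
theorem dev89 (hd : 0 < d) (hρ : EM ρ) (β : ℝ) (h : Vec d) (n m : ℕ) :
    Integrable (fun η : Env d => |X β h η (n + m) - X β h η n - A ρ β h m|) (law d ρ) ∧
    ∫ η, |X β h η (n + m) - X β h η n - A ρ β h m| ∂(law d ρ) ≤
      (A ρ β h (n + m) - A ρ β h n - A ρ β h m) +
        ∫ η, |X β h η m - A ρ β h m| ∂(law d ρ) := by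
  have hX : ∀ k, Integrable (fun η => X β h η k) (law d ρ) := fun k => (concU hd hρ β h k).1
  have hD : ∀ k, Integrable (fun η : Env d => |X β h η k - A ρ β h k|) (law d ρ) := fun k =>
    (I34.dev_le hd hρ β h k).1
  obtain ⟨i1, e1⟩ := I34.mean_fut (ρ := ρ) hd β h n (F := fun η => X β h η m)
    (measurable_X β h m) (hX m) (FreeU_dep2 β h n m)
  obtain ⟨i2, e2⟩ := I34.mean_fut (ρ := ρ) hd β h n (F := fun η => |X β h η m - A ρ β h m|)
    ((measurable_X β h m).sub_const _).abs (hD m) (fun y η η' hη => by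
      have := FreeU_dep2 β h n m y hη
      simp only at this ⊢
      rw [this])
  have hpt : ∀ η : Env d, |X β h η (n + m) - X β h η n - A ρ β h m| ≤
      (X β h η (n + m) - X β h η n -
        ∑ s : Fin n → Step d, FreeU_p β h n s η * X β h (sh n (pos s n) η) m) +
      (∑ s : Fin n → Step d, FreeU_p β h n s η * |X β h (sh n (pos s n) η) m - A ρ β h m|) := by
    intro η
    have h1 := FreeU_pt hd β h n m η
    have h2 : |∑ s : Fin n → Step d, FreeU_p β h n s η *
        (X β h (sh n (pos s n) η) m - A ρ β h m)| ≤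
        ∑ s : Fin n → Step d, FreeU_p β h n s η *
          |X β h (sh n (pos s n) η) m - A ρ β h m| := by
      refine (Finset.abs_sum_le_sum_abs _ _).trans (le_of_eq ?_)
      refine Finset.sum_congr rfl fun s _ => ?_
      rw [abs_mul, abs_of_nonneg (FreeU_nonneg hd β h n s η)]
    have h3 : ∑ s : Fin n → Step d, FreeU_p β h n s η *
        (X β h (sh n (pos s n) η) m - A ρ β h m) =
        (∑ s : Fin n → Step d, FreeU_p β h n s η * X β h (sh n (pos s n) η) m) -
          A ρ β h m := by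
      simp only [mul_sub]
      rw [Finset.sum_sub_distrib, ← Finset.sum_mul, FreeU_sum hd, one_mul]
    rw [h3] at h2
    obtain ⟨h5, h6⟩ := abs_le.1 h2
    rw [abs_le]
    constructor <;> linarith
  have i3 : Integrable (fun η : Env d => X β h η (n + m) - X β h η n) (law d ρ) :=
    (hX (n + m)).sub (hX n)
  have i0 : Integrable (fun η : Env d => |X β h η (n + m) - X β h η n - A ρ β h m|) (law d ρ) :=
    (i3.sub (integrable_const _)).abs
  have i4 : Integrable (fun η : Env d => X β h η (n + m) - X β h η n -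
      ∑ s : Fin n → Step d, FreeU_p β h n s η * X β h (sh n (pos s n) η) m) (law d ρ) :=
    i3.sub i1
  have i5 : Integrable (fun η : Env d => X β h η (n + m) - X β h η n -
      (∑ s : Fin n → Step d, FreeU_p β h n s η * X β h (sh n (pos s n) η) m) +
      ∑ s : Fin n → Step d, FreeU_p β h n s η * |X β h (sh n (pos s n) η) m - A ρ β h m|)
      (law d ρ) := i4.add i2
  refine ⟨i0, ?_⟩
  have h9 := integral_mono i0 i5 hpt
  rw [integral_add i4 i2, integral_sub i3 i1, integral_sub (hX (n + m)) (hX n), e1, e2] at h9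
  have h10 : ∫ η, X β h η (n + m) ∂(law d ρ) = A ρ β h (n + m) := rfl
  have h11 : ∫ η, X β h η m ∂(law d ρ) = A ρ β h m := rfl
  have h12 : ∫ η, X β h η n ∂(law d ρ) = A ρ β h n := rfl
  rw [h10, h11, h12] at h9
  exact h9

/-- The free energy gains more than `lam m + b / 2` between the lengths `n` and `n + m` with a
small probability. -/
theorem mkv89 (hd : 0 < d) (hρ : EM ρ) (β : ℝ) (h : Vec d) (n m : ℕ) (b : ℝ) :
    b / 2 * (law d ρ).real {η | lam ρ β h * m + b / 2 ≤ X β h η (n + m) - X β h η n} ≤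
      (A ρ β h (n + m) - A ρ β h n - A ρ β h m) +
        ∫ η, |X β h η m - A ρ β h m| ∂(law d ρ) := by
  obtain ⟨i0, h1⟩ := dev89 hd hρ β h n m
  have hsub : {η : Env d | lam ρ β h * m + b / 2 ≤ X β h η (n + m) - X β h η n} ⊆
      {η | b / 2 ≤ |X β h η (n + m) - X β h η n - A ρ β h m|} := by
    intro η hη
    have h2 : lam ρ β h * m + b / 2 ≤ X β h η (n + m) - X β h η n := hη
    have h3 := A_le_lam hd hρ β h m
    show b / 2 ≤ |X β h η (n + m) - X β h η n - A ρ β h m|
    have h4 := le_abs_self (X β h η (n + m) - X β h η n - A ρ β h m)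
    linarith
  have h4 := mul_meas_ge_le_integral_of_nonneg (μ := law d ρ)
    (f := fun η : Env d => |X β h η (n + m) - X β h η n - A ρ β h m|)
    (Eventually.of_forall fun η : Env d => abs_nonneg _) i0 (b / 2)
  have h5 := measureReal_mono (μ := law d ρ) hsub
  rcases le_or_gt 0 b with hb | hb
  · exact ((mul_le_mul_of_nonneg_left h5 (by linarith)).trans h4).trans h1
  · have h6 : b / 2 * (law d ρ).real
        {η | lam ρ β h * m + b / 2 ≤ X β h η (n + m) - X β h η n} ≤ 0 :=
      mul_nonpos_of_nonpos_of_nonneg (by linarith) measureReal_nonneg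
    have h7 : 0 ≤ ∫ η, |X β h η m - A ρ β h m| ∂(law d ρ) := integral_nonneg fun _ => abs_nonneg _
    have h8 := A_add_le hd hρ β h n m
    linarith

/-- **Leaf I.** -/
theorem mulW89 (hd : 0 < d) (hρ : EM ρ) (β : ℝ) (hC : Coup d ρ β) : MulW d ρ β := by
  classical
  intro h hV ε δ hε hδ
  obtain ⟨c₀, C', b₁, hc0, hC0, hb11, hg⟩ := MT27.gain27 hd hρ β hV hε
  refine ⟨δ / 8, by positivity, fun M => ?_⟩
  obtain ⟨κ, hκd⟩ : ∃ κ, κ = δ / 16 := ⟨_, rfl⟩
  have hκ : 0 < κ := by rw [hκd]; positivity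
  obtain ⟨ε₁, hε₁d⟩ : ∃ ε₁, ε₁ = δ / (64 * C') := ⟨_, rfl⟩
  have hε₁ : 0 < ε₁ := by rw [hε₁d]; positivity
  obtain ⟨bD, hbD⟩ := dens89 hd hρ β h (C' := C' / κ) (δ := δ) (by positivity) hδ
  obtain ⟨mS, hmS⟩ := I34.small_m hd hρ β h 0 hε₁
  refine ⟨max (max b₁ (4 * M)) (max (bD / κ) (mS / c₀)), fun b hb => ?_⟩
  have hbb1 : b₁ ≤ b := (le_max_left _ _).trans ((le_max_left _ _).trans hb)
  have hbb2 : 4 * M ≤ b := (le_max_right _ _).trans ((le_max_left _ _).trans hb)
  have hbb3 : bD / κ ≤ b := (le_max_left _ _).trans ((le_max_right _ _).trans hb)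
  have hbb4 : (mS : ℝ) / c₀ ≤ b := (le_max_right _ _).trans ((le_max_right _ _).trans hb)
  have hb0 : 0 < b := by linarith
  obtain ⟨m, z0, hm1, hm2, hgain⟩ := hg b hbb1
  have hbD2 : bD ≤ κ * b := by
    rw [div_le_iff₀ hκ] at hbb3
    linarith
  have hmC : (m : ℝ) ≤ C' / κ * (κ * b) := by
    refine hm2.trans (le_of_eq ?_)
    field_simp
  obtain ⟨N₀, hN₀⟩ := hbD (κ * b) hbD2 m hmC
  have hmm : mS ≤ m := by
    have h1 : (mS : ℝ) ≤ m := by
      rw [div_le_iff₀ hc0] at hbb4
      linarith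
    exact_mod_cast h1
  obtain ⟨hS1, hS2, -⟩ := hmS m hmm
  refine ⟨m, N₀, fun N hN => ?_⟩
  refine le_trans ?_ (hN₀ N hN)
  rw [Nat.cast_le]
  refine Finset.card_le_card fun n hn => ?_
  rw [Finset.mem_filter] at hn ⊢
  refine ⟨hn.1, fun hA => hn.2 ?_⟩
  intro hRS τ hτ1 hτn
  -- the event of the insertion
  set G : Set (Env d × Env d) := {w | X β h w.1 n + (lam ρ β h * m + b) ≤
    X β h (insE τ m z0 w.1 w.2) (n + m)} with hG
  have hmp := mp_ins (d := d) (ρ := ρ) τ m z0
  have hGm : MeasurableSet G := measurableSet_le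
    (((measurable_X β h n).comp measurable_fst).add_const _)
    ((measurable_X β h (n + m)).comp hmp.measurable)
  have hfin := MT27.sec27 (ρ := ρ) hGm {η | ¬ GoodN β h n τ b ε η}
    (fun η hη => hgain n τ hτn η hη)
  have hsub : G ⊆ {w : Env d × Env d | 2 * M <
      |X β h (insE τ m z0 w.1 w.2) (n + m) - X β h w.1 (n + m)|} ∪
      {w | lam ρ β h * m + b / 2 ≤ X β h w.1 (n + m) - X β h w.1 n} := by
    intro w hw
    by_contra hno
    rw [Set.mem_union, not_or] at hno
    obtain ⟨h1, h2⟩ := hno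
    have h1' : |X β h (insE τ m z0 w.1 w.2) (n + m) - X β h w.1 (n + m)| ≤ 2 * M := not_lt.1 h1
    have h2' : X β h w.1 (n + m) - X β h w.1 n < lam ρ β h * m + b / 2 := not_le.1 h2
    have h3 : X β h w.1 n + (lam ρ β h * m + b) ≤ X β h (insE τ m z0 w.1 w.2) (n + m) := hw
    have h4 := le_abs_self (X β h (insE τ m z0 w.1 w.2) (n + m) - X β h w.1 (n + m))
    linarith
  have hP1 : ((law d ρ).prod (law d ρ)).real {w : Env d × Env d | 2 * M <
      |X β h (insE τ m z0 w.1 w.2) (n + m) - X β h w.1 (n + m)|} ≤ 2 * (δ / 8) := by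
    refine hC (Env d × Env d) ((law d ρ).prod (law d ρ))
      (fun w => insE τ m z0 w.1 w.2) (fun w => w.1) hmp measurePreserving_fst (n / 8) ?_
      h (n + m) M (δ / 8) (hRS m le_rfl)
    intro w q hq
    show insE τ m z0 w.1 w.2 q = w.1 q
    unfold insE
    rw [if_pos (hq.trans hτ1)]
  have hP2 : ((law d ρ).prod (law d ρ)).real
      {w : Env d × Env d | lam ρ β h * m + b / 2 ≤ X β h w.1 (n + m) - X β h w.1 n} ≤
      δ / 8 := by
    have h0 : ((law d ρ).prod (law d ρ)).real
        {w : Env d × Env d | lam ρ β h * m + b / 2 ≤ X β h w.1 (n + m) - X β h w.1 n} =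
        (law d ρ).real {η | lam ρ β h * m + b / 2 ≤ X β h η (n + m) - X β h η n} := by
      have hms : MeasurableSet
          {η : Env d | lam ρ β h * m + b / 2 ≤ X β h η (n + m) - X β h η n} :=
        measurableSet_le measurable_const ((measurable_X β h (n + m)).sub (measurable_X β h n))
      have h1 := (measurePreserving_fst (μ := law d ρ) (ν := law d ρ)).measure_preimage
        hms.nullMeasurableSet
      unfold Measure.real
      rw [← h1]
      rfl
    rw [h0]
    have h1 := mkv89 hd hρ β h n m b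
    have h2 : (A ρ β h (n + m) - A ρ β h n - A ρ β h m) +
        ∫ η, |X β h η m - A ρ β h m| ∂(law d ρ) ≤ b / 2 * (δ / 8) := by
      have h3 : ε₁ * (m : ℝ) ≤ δ / 64 * b := by
        have h4 := mul_le_mul_of_nonneg_left hm2 hε₁.le
        refine h4.trans (le_of_eq ?_)
        rw [hε₁d]
        field_simp
      rw [sub_mul] at hS1
      rw [hκd] at hA
      nlinarith
    have h5 : b / 2 * (law d ρ).real
        {η | lam ρ β h * m + b / 2 ≤ X β h η (n + m) - X β h η n} ≤ b / 2 * (δ / 8) :=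
      h1.trans h2
    exact le_of_mul_le_mul_left h5 (by linarith)
  have h5 := (measureReal_mono (μ := (law d ρ).prod (law d ρ)) hsub).trans
    (measureReal_union_le _ _)
  linarith

end Pool.Agent.W_7d29a1_SD
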