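import Mathlib

/-!
Theorem SDU: density partners on the line, and the right inverse of a monotone function.
-/

namespace Pool.Agent.W_7d29a1_SD

open MeasureTheory Filter Topology Set
open scoped ENNReal

/-- A density point of an arbitrary set of reals has partners in the set at every small scale. -/
theorem partR67 (E : Set ℝ) :
    ∀ᵐ a : ℝ, a ∈ E → ∀ b : ℝ, 0 < b →
      ∃ s₀ : ℝ, 0 < s₀ ∧ ∀ s : ℝ, 0 < s → s ≤ s₀ →
        ∃ a' ∈ E, b * s ≤ a' - a ∧ a' - a ≤ 2 * b * s := by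
  have h0 := Besicovitch.ae_tendsto_measure_inter_div (volume : Measure ℝ) E
  rw [ae_iff] at h0 ⊢
  refine measure_mono_null (fun v hv => ?_)
    (le_antisymm ((Measure.le_restrict_apply E _).trans h0.le) bot_le)
  simp only [mem_setOf_eq, Classical.not_imp] at hv
  refine ⟨fun hT => hv.2 fun b hb => ?_, hv.1⟩
  have hlt : ENNReal.ofReal (3 / 4) < 1 := by
    rw [ENNReal.ofReal_lt_one]
    norm_num
  have h1 := (tendsto_order.1 hT).1 _ hlt
  rw [eventually_nhdsWithin_iff, Metric.eventually_nhds_iff] at h1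
  obtain ⟨ε, hε, h2⟩ := h1
  refine ⟨ε / (4 * b), by positivity, fun s hs hs0 => ?_⟩
  by_contra hcon
  push Not at hcon
  set ρ : ℝ := 2 * b * s with hρ
  have hρ0 : 0 < ρ := by positivity
  have hρε : ρ < ε := by
    rw [le_div_iff₀ (by positivity)] at hs0
    rw [hρ]
    nlinarith
  have h3 := h2 (y := ρ) (by rw [Real.dist_eq, sub_zero, abs_of_pos hρ0]; exact hρε) hρ0
  have hE : E ∩ Metric.closedBall v ρ ⊆ Ico (v - ρ) (v + ρ / 2) := by
    rintro x ⟨hx1, hx2⟩
    rw [Metric.mem_closedBall, Real.dist_eq, abs_le] at hx2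
    refine ⟨by linarith [hx2.1], ?_⟩
    by_contra hx3
    push Not at hx3
    have h4 := hcon x hx1 (by rw [hρ] at hx3; linarith)
    rw [hρ] at hx2
    linarith [hx2.2]
  have h5 : volume (E ∩ Metric.closedBall v ρ) ≤ ENNReal.ofReal (3 / 2 * ρ) := by
    refine (measure_mono hE).trans ?_
    rw [Real.volume_Ico]
    exact ENNReal.ofReal_le_ofReal (by linarith)
  have h6 : volume (Metric.closedBall v ρ) = ENNReal.ofReal (2 * ρ) := Real.volume_closedBall _ _
  have h7 : volume (E ∩ Metric.closedBall v ρ) / volume (Metric.closedBall v ρ)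
      ≤ ENNReal.ofReal (3 / 4) := by
    rw [h6]
    refine (ENNReal.div_le_div_right h5 _).trans ?_
    rw [← ENNReal.ofReal_div_of_pos (by positivity)]
    refine ENNReal.ofReal_le_ofReal ?_
    rw [div_le_iff₀ (by positivity)]
    linarith
  exact absurd h3 (not_lt.2 h7)

/-- The right inverse of a monotone continuous function: monotone, and Lipschitz at almost every
point. -/
theorem rinv67 {g : ℝ → ℝ} (hm : MonotoneOn g (Icc 0 1)) (hc : ContinuousOn g (Icc 0 1)) :
    ∃ s : ℝ → ℝ, Monotone s ∧ (∀ a, s a ∈ Icc (0 : ℝ) 1) ∧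
      (∀ a ∈ Icc (g 0) (g 1), g (s a) = a) ∧ InjOn s (Icc (g 0) (g 1)) ∧
      ∀ᵐ a : ℝ, ∃ C ε : ℝ, 0 < C ∧ 0 < ε ∧ ∀ a', |a' - a| < ε → |s a' - s a| ≤ C * |a' - a| := by
  set S : ℝ → Set ℝ := fun a => {x | x ∈ Icc (0 : ℝ) 1 ∧ min a (g 1) ≤ g x} with hS
  have hne : ∀ a, (S a).Nonempty := fun a => ⟨1, ⟨by norm_num, le_refl _⟩, min_le_right _ _⟩
  have hbd : ∀ a, BddBelow (S a) := fun a => ⟨0, fun x hx => hx.1.1⟩
  have hmono : Monotone fun a => sInf (S a) := by
    intro a a' haa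
    refine csInf_le_csInf (hbd a) (hne a') fun x hx => ⟨hx.1, ?_⟩
    exact (min_le_min_right _ haa).trans hx.2
  have hIcc : ∀ a, sInf (S a) ∈ Icc (0 : ℝ) 1 := fun a =>
    ⟨le_csInf (hne a) fun x hx => hx.1.1, csInf_le (hbd a) ⟨⟨by norm_num, le_refl _⟩, min_le_right _ _⟩⟩
  have hcl : ∀ a, IsClosed (S a) := by
    intro a
    have : S a = Icc (0 : ℝ) 1 ∩ g ⁻¹' Ici (min a (g 1)) := by
      ext x
      simp [hS]
    rw [this]
    exact hc.preimage_isClosed_of_isClosed isClosed_Icc isClosed_Ici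
  have hg : ∀ a ∈ Icc (g 0) (g 1), g (sInf (S a)) = a := by
    intro a ha
    have h1 : sInf (S a) ∈ S a := (hcl a).csInf_mem (hne a) (hbd a)
    have h2 : a ≤ g (sInf (S a)) := by
      have := h1.2
      rwa [min_eq_left ha.2] at this
    refine le_antisymm ?_ h2
    obtain ⟨x, hx, hxa⟩ := intermediate_value_Icc zero_le_one hc ha
    have h3 : sInf (S a) ≤ x := csInf_le (hbd a) ⟨hx, by rw [hxa]; exact min_le_left _ _⟩
    exact (hm (hIcc a) hx h3).trans hxa.le
  refine ⟨fun a => sInf (S a), hmono, hIcc, hg, ?_, ?_⟩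
  · intro a ha a' ha' haa
    have h1 := hg a ha
    have h2 := hg a' ha'
    simp only at haa
    rw [haa] at h1
    exact h1.symm.trans h2
  · filter_upwards [hmono.ae_differentiableAt] with a ha
    have h1 := ha.isBigO_sub
    obtain ⟨C, hC, hb⟩ := h1.exists_pos
    rw [Asymptotics.isBigOWith_iff, Metric.eventually_nhds_iff] at hb
    obtain ⟨ε, hε, hb⟩ := hb
    refine ⟨C, ε, hC, hε, fun a' ha' => ?_⟩
    have := hb (y := a') (by rwa [Real.dist_eq])
    simpa [Real.norm_eq_abs] using this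

end Pool.Agent.W_7d29a1_SD
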