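import Pool.Agent.W_7d29a1_h46u.Fub

/-!
Theorem SD: for almost every point of an arbitrary set there are partners in the set at every small
scale and in every direction.
-/

namespace Pool.Agent.W_7d29a1_SD

open MeasureTheory Filter Topology Set Pool.Agent.W_MP_7d29a1_pr Pool.Agent.W_7d29a1_h46
  Pool.Agent.W_7d29a1_h46u
open scoped ENNReal

variable {d : ℕ}

/-- A density point of an arbitrary set has partners in the set, near the points
`v + b s e`, with error `r s`, for all small `s`. -/
theorem partner67 (E : Set (Vec d)) :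
    ∀ᵐ v : Vec d, v ∈ E → ∀ (e : Vec d) (b r : ℝ), ‖e‖ ≤ 1 → 0 ≤ b → 0 < r →
      ∃ s₀ : ℝ, 0 < s₀ ∧ ∀ s : ℝ, 0 < s → s ≤ s₀ → ∃ v' ∈ E, ‖v' - (v + (b * s) • e)‖ ≤ r * s := by
  have h0 := Besicovitch.ae_tendsto_measure_inter_div (volume : Measure (Vec d)) E
  rw [ae_iff] at h0 ⊢
  refine measure_mono_null (fun v hv => ?_)
    (le_antisymm ((Measure.le_restrict_apply E _).trans h0.le) bot_le)
  simp only [mem_setOf_eq, Classical.not_imp] at hv
  refine ⟨fun hT => hv.2 fun e b r he hb hr => ?_, hv.1⟩
  -- the fraction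
  set q : ℝ≥0∞ := ENNReal.ofReal ((r / (b + r)) ^ d) with hq
  have hbr : 0 < b + r := by linarith
  have hq0 : 0 < q := by
    rw [hq, ENNReal.ofReal_pos]
    positivity
  have hq1 : q ≤ 1 := by
    rw [hq, ENNReal.ofReal_le_one]
    refine pow_le_one₀ (by positivity) ?_
    rw [div_le_one hbr]
    linarith
  have hlt : 1 - q < 1 := ENNReal.sub_lt_self (by simp) (by simp) hq0.ne'
  have h1 := (tendsto_order.1 hT).1 _ hlt
  rw [eventually_nhdsWithin_iff, Metric.eventually_nhds_iff] at h1
  obtain ⟨ε, hε, h2⟩ := h1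
  refine ⟨ε / (2 * (b + r)), by positivity, fun s hs hs0 => ?_⟩
  by_contra hcon
  push Not at hcon
  set ρ : ℝ := (b + r) * s with hρ
  have hρ0 : 0 < ρ := by positivity
  have hρε : ρ < ε := by
    rw [le_div_iff₀ (by positivity)] at hs0
    rw [hρ]
    nlinarith
  have h3 := h2 (y := ρ) (by rw [Real.dist_eq, sub_zero, abs_of_pos hρ0]; exact hρε) hρ0
  set B : Set (Vec d) := Metric.closedBall v ρ with hB
  set B' : Set (Vec d) := Metric.closedBall (v + (b * s) • e) (r * s) with hB'
  have hsub : B' ⊆ B := by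
    refine Metric.closedBall_subset_closedBall' ?_
    rw [dist_eq_norm, add_sub_cancel_left, norm_smul, Real.norm_eq_abs,
      abs_of_nonneg (by positivity)]
    have : b * s * ‖e‖ ≤ b * s := mul_le_of_le_one_right (by positivity) he
    rw [hρ]
    linarith
  have hE : E ∩ B ⊆ B \ B' := by
    rintro x ⟨hx1, hx2⟩
    refine ⟨hx2, fun hx3 => ?_⟩
    have h4 := hcon x hx1
    rw [hB', mem_closedBall_iff_norm] at hx3
    exact absurd hx3 (not_le.2 h4)
  have hvB : volume B = ENNReal.ofReal (ρ ^ d) * volume (Metric.ball (0 : Vec d) 1) := by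
    rw [hB, Measure.addHaar_closedBall _ _ hρ0.le]
    simp
  have hvB' : volume B' = q * volume B := by
    rw [hvB, hB', Measure.addHaar_closedBall _ _ (by positivity), hq, ← mul_assoc,
      ← ENNReal.ofReal_mul (by positivity)]
    have : (r / (b + r)) ^ d * ρ ^ d = (r * s) ^ d := by
      rw [hρ, ← mul_pow]
      congr 1
      field_simp
    rw [this]
    simp
  have hfin : volume B ≠ ∞ := by
    rw [hB]
    exact (measure_closedBall_lt_top).ne
  have hfin' : volume B' ≠ ∞ := by
    rw [hB']
    exact (measure_closedBall_lt_top).ne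
  have hpos : volume B ≠ 0 := by
    rw [hB]
    exact (Metric.measure_closedBall_pos _ _ hρ0).ne'
  have h5 : volume (E ∩ B) ≤ (1 - q) * volume B := by
    refine (measure_mono hE).trans ?_
    rw [measure_diff hsub measurableSet_closedBall.nullMeasurableSet hfin', hvB',
      ENNReal.sub_mul fun _ _ => hfin, one_mul]
  have h6 : volume (E ∩ B) / volume B ≤ 1 - q := by
    rw [ENNReal.div_le_iff hpos hfin]
    exact h5
  exact absurd h3 (not_lt.2 h6)

end Pool.Agent.W_7d29a1_SD
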