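import Pool.Agent.W_7d29a1_SD.Two30
import Pool.Agent.W_7d29a1_SD.MarEn72
import Pool.Agent.W_7d29a1_SD.Sec62

/-!
Strong disorder is very strong disorder: the third moment of one row.
-/

namespace Pool.Agent.W_7d29a1_SD

open MeasureTheory ProbabilityTheory Filter Topology Pool.Agent.W_MP_7d29a1_pr
  Pool.Agent.W_7d29a1_h46 Pool.Agent.W_7d29a1_h46u Pool.Agent.W_7d29a1_D2.B35
  Pool.Agent.W_7d29a1_Q29 Pool.Agent.W_7d29a1_P89

variable {d : ℕ} {ρ : Measure ℝ}

/-- The third moment of the weight of a site. -/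
noncomputable def k3 (ρ : Measure ℝ) (β : ℝ) : ℝ := ∫ t, xi ρ β t * xi ρ β t * xi ρ β t ∂ρ

lemma cube_int30 (hρ : EM ρ) (β : ℝ) : Integrable (fun t => xi ρ β t * xi ρ β t * xi ρ β t) ρ := by
  have e : (fun t => xi ρ β t * xi ρ β t * xi ρ β t) =
      fun t => Real.exp (3 * β * t) / (∫ r, Real.exp (β * r) ∂ρ) ^ 3 := by
    funext t
    unfold xi
    rw [div_mul_div_comm, div_mul_div_comm, ← Real.exp_add, ← Real.exp_add]
    congr 1
    · congr 1
      ring
    · ring
  rw [e]
  exact (hρ (3 * β)).div_const _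

variable [IsProbabilityMeasure ρ]

lemma k3_nonneg30 (hρ : EM ρ) (β : ℝ) : 0 ≤ k3 ρ β :=
  integral_nonneg fun t => by
    have := xi_pos72 hρ β t
    positivity

open Classical in
/-- The third moments of the weights of three sites. -/
lemma xi_three30 (hρ : EM ρ) (β : ℝ) (p q r : ℕ × Site d) :
    Integrable (fun η : Env d => xi ρ β (η p) * xi ρ β (η q) * xi ρ β (η r)) (law d ρ) ∧
      ∫ η : Env d, xi ρ β (η p) * xi ρ β (η q) * xi ρ β (η r) ∂(law d ρ) ≤
        1 + (kap ρ β - 1) * (if p = q then 1 else 0) +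
          (kap ρ β + k3 ρ β) * ((if p = r then 1 else 0) + (if q = r then 1 else 0)) := by
  have hk := one_le_kap72 hρ β
  have hk3 := k3_nonneg30 hρ β
  have mx : ∀ s : ℕ × Site d, Measurable fun η : Env d => xi ρ β (η s) :=
    fun s => measurable_xis72 ρ β s
  have two : ∀ a b : ℕ × Site d, a ≠ b →
      Integrable (fun η : Env d => xi ρ β (η a) * xi ρ β (η a) * xi ρ β (η b)) (law d ρ) ∧
      ∫ η : Env d, xi ρ β (η a) * xi ρ β (η a) * xi ρ β (η b) ∂(law d ρ) = kap ρ β := by
    intro a b hab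
    have d1 : DependsOn (fun η : Env d => xi ρ β (η a) * xi ρ β (η a)) ({a} : Set (ℕ × Site d)) := by
      intro η η' hη
      simp only
      rw [hη a (Set.mem_singleton a)]
    have d2 := xi_site_dep72 ρ β b ({a} : Set (ℕ × Site d))ᶜ (by simpa using fun e => hab e.symm)
    have m1 : Measurable fun η : Env d => xi ρ β (η a) * xi ρ β (η a) := (mx a).mul (mx a)
    refine ⟨int_mul72 _ m1 (mx b) d1 d2 (xi_sq_int72 hρ β a).1 (xi_int72 hρ β b).1, ?_⟩
    rw [integral_indep _ m1 (mx b) d1 d2, (xi_sq_int72 hρ β a).2, (xi_int72 hρ β b).2, mul_one]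
  by_cases h1 : p = r
  · subst h1
    by_cases h2 : p = q
    · subst h2
      simp only [if_true]
      refine ⟨(mp_site72 p).integrable_comp_of_integrable (cube_int30 hρ β), ?_⟩
      have e : ∫ η : Env d, xi ρ β (η p) * xi ρ β (η p) * xi ρ β (η p) ∂(law d ρ) = k3 ρ β :=
        LawU_integral (F := fun t => xi ρ β t * xi ρ β t * xi ρ β t) (mp_site72 p)
          (((measurable_xi72 ρ β).mul (measurable_xi72 ρ β)).mul
            (measurable_xi72 ρ β)).aestronglyMeasurable
      rw [e]
      nlinarith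
    · have h3 : q ≠ p := fun e => h2 e.symm
      have t := two p q h2
      have e : (fun η : Env d => xi ρ β (η p) * xi ρ β (η q) * xi ρ β (η p)) =
          fun η : Env d => xi ρ β (η p) * xi ρ β (η p) * xi ρ β (η q) := by
        funext η; ring
      rw [e, if_neg h2, if_neg h3]
      simp only [if_true]
      refine ⟨t.1, ?_⟩
      rw [t.2]
      nlinarith
  · by_cases h2 : q = r
    · subst h2
      have h3 : q ≠ p := fun e => h1 e.symm
      have t := two q p h3
      have e : (fun η : Env d => xi ρ β (η p) * xi ρ β (η q) * xi ρ β (η q)) =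
          fun η : Env d => xi ρ β (η q) * xi ρ β (η q) * xi ρ β (η p) := by
        funext η; ring
      rw [e, if_neg h1]
      simp only [if_true]
      refine ⟨t.1, ?_⟩
      rw [t.2]
      nlinarith
    · have d1 := xi_site_dep72 ρ β r {r} (Set.mem_singleton r)
      have d2 : DependsOn (fun η : Env d => xi ρ β (η p) * xi ρ β (η q))
          ({r} : Set (ℕ × Site d))ᶜ := by
        intro η η' hη
        simp only
        rw [hη p (by simpa using h1), hη q (by simpa using h2)]
      have t := xi_two72 hρ β p q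
      have e : (fun η : Env d => xi ρ β (η p) * xi ρ β (η q) * xi ρ β (η r)) =
          fun η : Env d => xi ρ β (η r) * (xi ρ β (η p) * xi ρ β (η q)) := by
        funext η; ring
      have m1 : Measurable fun η : Env d => xi ρ β (η p) * xi ρ β (η q) := (mx p).mul (mx q)
      rw [e, if_neg h1, if_neg h2]
      refine ⟨int_mul72 _ (mx r) m1 d1 d2 (xi_int72 hρ β r).1 t.1, ?_⟩
      rw [integral_indep _ (mx r) m1 d1 d2, (xi_int72 hρ β r).2, t.2]
      simp

open Classical in
/-- The third moments of one row. -/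
lemma row_three30 (hρ : EM ρ) (β : ℝ) (n : ℕ) {F : Env d → ℝ} (mF : Measurable F)
    (dF : DependsOn F {p : ℕ × Site d | p.1 ≤ n}) (iF : Integrable F (law d ρ))
    (hF : ∀ η, 0 ≤ F η) (x y z : Site d) :
    Integrable (fun η => F η * (xi ρ β (η (n + 1, x)) * xi ρ β (η (n + 1, y)) *
      xi ρ β (η (n + 1, z)))) (law d ρ) ∧
      ∫ η, F η * (xi ρ β (η (n + 1, x)) * xi ρ β (η (n + 1, y)) *
        xi ρ β (η (n + 1, z))) ∂(law d ρ) ≤
        (1 + (kap ρ β - 1) * (if x = y then 1 else 0) +
          (kap ρ β + k3 ρ β) * ((if x = z then 1 else 0) + (if y = z then 1 else 0))) *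
          ∫ η, F η ∂(law d ρ) := by
  have mx : ∀ s : ℕ × Site d, Measurable fun η : Env d => xi ρ β (η s) :=
    fun s => measurable_xis72 ρ β s
  have m2 : Measurable fun η : Env d => xi ρ β (η (n + 1, x)) * xi ρ β (η (n + 1, y)) *
      xi ρ β (η (n + 1, z)) := ((mx _).mul (mx _)).mul (mx _)
  have d2 : DependsOn (fun η : Env d => xi ρ β (η (n + 1, x)) * xi ρ β (η (n + 1, y)) *
      xi ρ β (η (n + 1, z))) {p : ℕ × Site d | p.1 ≤ n}ᶜ := by
    intro η η' hη
    simp only
    rw [hη (n + 1, x) (by simp), hη (n + 1, y) (by simp), hη (n + 1, z) (by simp)]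
  have h2 := xi_three30 hρ β ((n + 1, x) : ℕ × Site d) (n + 1, y) (n + 1, z)
  refine ⟨int_mul72 _ mF m2 dF d2 iF h2.1, ?_⟩
  rw [integral_indep _ mF m2 dF d2, mul_comm]
  refine mul_le_mul_of_nonneg_right ?_ (integral_nonneg hF)
  refine h2.2.trans (le_of_eq ?_)
  simp

end Pool.Agent.W_7d29a1_SD
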