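import Pool.Agent.W_7d29a1_SD.Step72
import Pool.Agent.W_7d29a1_SD.Int43

/-!
Strong disorder is very strong disorder: the expectations over the row `n + 1`.
-/

namespace Pool.Agent.W_7d29a1_SD

open MeasureTheory ProbabilityTheory Filter Topology Pool.Agent.W_MP_7d29a1_pr
  Pool.Agent.W_7d29a1_h46 Pool.Agent.W_7d29a1_h46u Pool.Agent.W_7d29a1_D2.B35
  Pool.Agent.W_7d29a1_Q29 Pool.Agent.W_7d29a1_P89

variable {d : ℕ} {ρ : Measure ℝ}

/-- The weight of the site `x` of the row `n + 1`. -/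
noncomputable def X77 (ρ : Measure ℝ) (β : ℝ) (n : ℕ) (η : Env d) (x : Site d) : ℝ :=
  xi ρ β (η (n + 1, x))

/-- The third moment of the weight of a site. -/
noncomputable def m377 (ρ : Measure ℝ) (β : ℝ) : ℝ := ∫ t, xi ρ β t * xi ρ β t * xi ρ β t ∂ρ

lemma xi_pow77 (ρ : Measure ℝ) (β t : ℝ) (j : ℕ) :
    xi ρ β t ^ j = Real.exp (j * β * t) / (∫ r, Real.exp (β * r) ∂ρ) ^ j := by
  unfold xi
  rw [div_pow, ← Real.exp_nat_mul]
  congr 2
  ring

lemma integrable_xi_pow77 (hρ : EM ρ) (β : ℝ) (j : ℕ) : Integrable (fun t => xi ρ β t ^ j) ρ := by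
  simp only [xi_pow77]
  exact (hρ (j * β)).div_const _

lemma measurable_X77 (ρ : Measure ℝ) (β : ℝ) (n : ℕ) (x : Site d) :
    Measurable fun η : Env d => X77 ρ β n η x :=
  (measurable_xi72 ρ β).comp (measurable_pi_apply (n + 1, x))

lemma dep_X77 (ρ : Measure ℝ) (β : ℝ) (n : ℕ) (x : Site d) :
    DependsOn (fun η : Env d => X77 ρ β n η x) {((n + 1, x) : ℕ × Site d)} := by
  intro η η' hη
  unfold X77
  simp only
  rw [hη (n + 1, x) rfl]

lemma m377_nonneg [IsProbabilityMeasure ρ] (hρ : EM ρ) (β : ℝ) : 0 ≤ m377 ρ β :=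
  integral_nonneg fun t => by
    have := xi_pos72 hρ β t
    simp only [Pi.zero_apply]
    positivity

variable [IsProbabilityMeasure ρ]

lemma X77_pos (hρ : EM ρ) (β : ℝ) (n : ℕ) (η : Env d) (x : Site d) : 0 < X77 ρ β n η x :=
  xi_pos72 hρ β _

lemma mp_eval77 (p : ℕ × Site d) : MeasurePreserving (fun η : Env d => η p) (law d ρ) ρ :=
  measurePreserving_eval_infinitePi (fun _ => ρ) p

lemma integrable_X_pow77 (hρ : EM ρ) (β : ℝ) (n : ℕ) (x : Site d) (j : ℕ) :
    Integrable (fun η : Env d => X77 ρ β n η x ^ j) (law d ρ) :=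
  (mp_eval77 (ρ := ρ) (n + 1, x)).integrable_comp_of_integrable (integrable_xi_pow77 hρ β j)

lemma int_X77 (hρ : EM ρ) (β : ℝ) (n : ℕ) (x : Site d) :
    ∫ η, X77 ρ β n η x ∂(law d ρ) = 1 := by
  have h1 := LawU_integral (mp_eval77 (d := d) (ρ := ρ) (n + 1, x)) (F := xi ρ β)
    (measurable_xi72 ρ β).aestronglyMeasurable
  rw [int_xi72 hρ] at h1
  exact h1

lemma int_XX77 (β : ℝ) (n : ℕ) (x : Site d) :
    ∫ η, X77 ρ β n η x * X77 ρ β n η x ∂(law d ρ) = kap ρ β := by
  have h1 := LawU_integral (mp_eval77 (d := d) (ρ := ρ) (n + 1, x))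
    (F := fun t => xi ρ β t * xi ρ β t)
    ((measurable_xi72 ρ β).mul (measurable_xi72 ρ β)).aestronglyMeasurable
  rw [int_xi_sq72] at h1
  exact h1

lemma int_XXX77 (β : ℝ) (n : ℕ) (x : Site d) :
    ∫ η, X77 ρ β n η x * X77 ρ β n η x * X77 ρ β n η x ∂(law d ρ) = m377 ρ β :=
  LawU_integral (mp_eval77 (d := d) (ρ := ρ) (n + 1, x))
    (F := fun t => xi ρ β t * xi ρ β t * xi ρ β t)
    (((measurable_xi72 ρ β).mul (measurable_xi72 ρ β)).mul
      (measurable_xi72 ρ β)).aestronglyMeasurable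

lemma ne_pt77 {n : ℕ} {x y : Site d} (h : x ≠ y) :
    ((n + 1, y) : ℕ × Site d) ∈ ({(n + 1, x)} : Set (ℕ × Site d))ᶜ := by
  simp only [Set.mem_compl_iff, Set.mem_singleton_iff, Prod.mk.injEq, true_and]
  exact fun h1 => h h1.symm

/-- Two sites. -/
lemma int_XY77 (hρ : EM ρ) (β : ℝ) (n : ℕ) {x y : Site d} (h : x ≠ y) :
    ∫ η, X77 ρ β n η x * X77 ρ β n η y ∂(law d ρ) = 1 := by
  rw [integral_indep {((n + 1, x) : ℕ × Site d)} (measurable_X77 ρ β n x) (measurable_X77 ρ β n y)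
    (dep_X77 ρ β n x) ((dep_X77 ρ β n y).mono (by
      rintro p hp
      rw [Set.mem_singleton_iff] at hp
      rw [hp]
      exact ne_pt77 h)), int_X77 hρ, int_X77 hρ, one_mul]

lemma int_XXY77 (hρ : EM ρ) (β : ℝ) (n : ℕ) {x y : Site d} (h : x ≠ y) :
    ∫ η, X77 ρ β n η x * X77 ρ β n η x * X77 ρ β n η y ∂(law d ρ) = kap ρ β := by
  rw [integral_indep {((n + 1, x) : ℕ × Site d)}
    (F := fun η => X77 ρ β n η x * X77 ρ β n η x) (G := fun η => X77 ρ β n η y)
    ((measurable_X77 ρ β n x).mul (measurable_X77 ρ β n x)) (measurable_X77 ρ β n y)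
    (fun η η' hη => by
      have := dep_X77 ρ β n x hη
      simp only at this ⊢
      rw [this]) ((dep_X77 ρ β n y).mono (by
      rintro p hp
      rw [Set.mem_singleton_iff] at hp
      rw [hp]
      exact ne_pt77 h)), int_X77 hρ, int_XX77, mul_one]

lemma int_XYZ77 (hρ : EM ρ) (β : ℝ) (n : ℕ) {x y z : Site d} (h : x ≠ y) (h' : x ≠ z)
    (h'' : y ≠ z) :
    ∫ η, X77 ρ β n η x * (X77 ρ β n η y * X77 ρ β n η z) ∂(law d ρ) = 1 := by
  rw [integral_indep {((n + 1, x) : ℕ × Site d)}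
    (F := fun η => X77 ρ β n η x) (G := fun η => X77 ρ β n η y * X77 ρ β n η z)
    (measurable_X77 ρ β n x) ((measurable_X77 ρ β n y).mul (measurable_X77 ρ β n z))
    (dep_X77 ρ β n x) (fun η η' hη => by
      have e1 : X77 ρ β n η y = X77 ρ β n η' y := dep_X77 ρ β n y (fun p hp => hη p (by
        rw [Set.mem_singleton_iff] at hp
        rw [hp]
        exact ne_pt77 h))
      have e2 : X77 ρ β n η z = X77 ρ β n η' z := dep_X77 ρ β n z (fun p hp => hη p (by
        rw [Set.mem_singleton_iff] at hp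
        rw [hp]
        exact ne_pt77 h'))
      simp only
      rw [e1, e2]), int_X77 hρ, int_XY77 hρ β n h'', one_mul]

open Classical in
/-- The expectation of the product of two weights. -/
noncomputable def c277 (ρ : Measure ℝ) (β : ℝ) (x y : Site d) : ℝ := if x = y then kap ρ β else 1

lemma int_two77 (hρ : EM ρ) (β : ℝ) (n : ℕ) (x y : Site d) :
    ∫ η, X77 ρ β n η x * X77 ρ β n η y ∂(law d ρ) = c277 ρ β x y := by
  unfold c277
  by_cases h : x = y
  · subst h
    rw [if_pos rfl, int_XX77]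
  · rw [if_neg h, int_XY77 hρ β n h]

open Classical in
/-- The bound of the expectation of the product of three weights. -/
noncomputable def c377 (ρ : Measure ℝ) (β : ℝ) (x y z : Site d) : ℝ :=
  c277 ρ β x y + (kap ρ β - 1) * ((if z = x then 1 else 0) + (if z = y then 1 else 0)) +
    m377 ρ β * ((if x = y then 1 else 0) * (if z = x then 1 else 0))

lemma int_three77 (hρ : EM ρ) (β : ℝ) (n : ℕ) (x y z : Site d) :
    ∫ η, X77 ρ β n η x * X77 ρ β n η y * X77 ρ β n η z ∂(law d ρ) ≤ c377 ρ β x y z := by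
  have hk := one_le_kap72 hρ β
  have hm := m377_nonneg hρ β
  unfold c377 c277
  by_cases h : x = y
  · subst h
    by_cases h' : z = x
    · subst h'
      rw [int_XXX77]
      simp only [if_true]
      linarith
    · rw [int_XXY77 hρ β n (Ne.symm h'), if_pos rfl, if_neg h', if_pos rfl]
      linarith
  · rw [if_neg h, if_neg h]
    by_cases h' : z = x
    · subst h'
      have e : (fun η : Env d => X77 ρ β n η z * X77 ρ β n η y * X77 ρ β n η z) =
          fun η => X77 ρ β n η z * X77 ρ β n η z * X77 ρ β n η y := by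
        funext η; ring
      rw [e, int_XXY77 hρ β n h, if_pos rfl, if_neg h]
      linarith
    · rw [if_neg h']
      by_cases h'' : z = y
      · subst h''
        have e : (fun η : Env d => X77 ρ β n η x * X77 ρ β n η z * X77 ρ β n η z) =
            fun η => X77 ρ β n η z * X77 ρ β n η z * X77 ρ β n η x := by
          funext η; ring
        rw [e, int_XXY77 hρ β n h', if_pos rfl]
        linarith
      · have e : (fun η : Env d => X77 ρ β n η x * X77 ρ β n η y * X77 ρ β n η z) =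
            fun η => X77 ρ β n η x * (X77 ρ β n η y * X77 ρ β n η z) := by
          funext η; ring
        rw [e, int_XYZ77 hρ β n h (Ne.symm h') (Ne.symm h''), if_neg h'']
        linarith

/-- The rows `≤ n` and the row `n + 1` are independent. -/
lemma row_indep77 (n : ℕ) {H K : Env d → ℝ} (hH : Measurable H) (hK : Measurable K)
    (dH : DependsOn H {p | p.1 ≤ n}) (dK : DependsOn K {p | p.1 = n + 1}) :
    ∫ η, H η * K η ∂(law d ρ) = (∫ η, H η ∂(law d ρ)) * ∫ η, K η ∂(law d ρ) :=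
  integral_indep {p | p.1 ≤ n} hH hK dH (dK.mono (by
    rintro p hp
    have h1 : p.1 = n + 1 := hp
    change ¬ p.1 ≤ n
    omega))

lemma dep_row77 (ρ : Measure ℝ) (β : ℝ) (n : ℕ) (x : Site d) {η η' : Env d}
    (hη : ∀ p ∈ {p : ℕ × Site d | p.1 = n + 1}, η p = η' p) :
    X77 ρ β n η x = X77 ρ β n η' x := by
  unfold X77
  rw [hη (n + 1, x) rfl]

lemma row_two77 (hρ : EM ρ) (β : ℝ) (n : ℕ) {H : Env d → ℝ} (hH : Measurable H)
    (dH : DependsOn H {p | p.1 ≤ n}) (x y : Site d) :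
    ∫ η, H η * (X77 ρ β n η x * X77 ρ β n η y) ∂(law d ρ) =
      c277 ρ β x y * ∫ η, H η ∂(law d ρ) := by
  rw [row_indep77 n (K := fun η => X77 ρ β n η x * X77 ρ β n η y) hH
    ((measurable_X77 ρ β n x).mul (measurable_X77 ρ β n y)) dH
    (fun η η' hη => by
      simp only
      rw [dep_row77 ρ β n x hη, dep_row77 ρ β n y hη]), int_two77 hρ, mul_comm]

lemma row_three77 (hρ : EM ρ) (β : ℝ) (n : ℕ) {H : Env d → ℝ} (hH : Measurable H)
    (dH : DependsOn H {p | p.1 ≤ n}) (h0 : ∀ η, 0 ≤ H η) (x y z : Site d) :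
    ∫ η, H η * (X77 ρ β n η x * X77 ρ β n η y * X77 ρ β n η z) ∂(law d ρ) ≤
      c377 ρ β x y z * ∫ η, H η ∂(law d ρ) := by
  rw [row_indep77 n (K := fun η => X77 ρ β n η x * X77 ρ β n η y * X77 ρ β n η z) hH
    (((measurable_X77 ρ β n x).mul (measurable_X77 ρ β n y)).mul (measurable_X77 ρ β n z)) dH
    (fun η η' hη => by
      simp only
      rw [dep_row77 ρ β n x hη, dep_row77 ρ β n y hη, dep_row77 ρ β n z hη]), mul_comm]
  exact mul_le_mul_of_nonneg_right (int_three77 hρ β n x y z) (integral_nonneg h0)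

/-! ### Integrability -/

lemma four77 (a b c e : ℝ) :
    a * (b * c * e) ≤ a ^ 4 + b ^ 4 + c ^ 4 + e ^ 4 := by
  have h1 : a * b ≤ a ^ 2 + b ^ 2 := by nlinarith [sq_nonneg (a - b)]
  have h2 : c * e ≤ c ^ 2 + e ^ 2 := by nlinarith [sq_nonneg (c - e)]
  have h3 : (a * b) * (c * e) ≤ ((a * b) ^ 2 + (c * e) ^ 2) / 2 := by
    nlinarith [sq_nonneg (a * b - c * e)]
  have h4 : (a * b) ^ 2 ≤ (a ^ 4 + b ^ 4) / 2 := by nlinarith [sq_nonneg (a ^ 2 - b ^ 2)]
  have h5 : (c * e) ^ 2 ≤ (c ^ 4 + e ^ 4) / 2 := by nlinarith [sq_nonneg (c ^ 2 - e ^ 2)]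
  have h6 : 0 ≤ a ^ 4 + b ^ 4 + c ^ 4 + e ^ 4 := by positivity
  have h7 : a * (b * c * e) = (a * b) * (c * e) := by ring
  rw [h7]
  linarith

lemma integrable_three77 (hd : 0 < d) (hρ : EM ρ) (β : ℝ) (h : Vec d) (n : ℕ) {H : Env d → ℝ}
    (hH : Measurable H) (h0 : ∀ η, 0 ≤ H η) (h1 : ∀ η, H η ≤ wt ρ β h η n) (x y z : Site d) :
    Integrable (fun η => H η * (X77 ρ β n η x * X77 ρ β n η y * X77 ρ β n η z)) (law d ρ) := by
  have h2 : Integrable (fun η => wt ρ β h η n ^ 4 + X77 ρ β n η x ^ 4 + X77 ρ β n η y ^ 4 +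
      X77 ρ β n η z ^ 4) (law d ρ) :=
    (((integrable_wt_pow43 hd hρ β h n (by norm_num)).add (integrable_X_pow77 hρ β n x 4)).add
      (integrable_X_pow77 hρ β n y 4)).add (integrable_X_pow77 hρ β n z 4)
  refine h2.mono' (hH.mul (((measurable_X77 ρ β n x).mul (measurable_X77 ρ β n y)).mul
    (measurable_X77 ρ β n z))).aestronglyMeasurable (Eventually.of_forall fun η => ?_)
  have e1 := (X77_pos hρ β n η x).le
  have e2 := (X77_pos hρ β n η y).le
  have e3 := (X77_pos hρ β n η z).le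
  rw [Real.norm_eq_abs, abs_of_nonneg (mul_nonneg (h0 η) (mul_nonneg (mul_nonneg e1 e2) e3))]
  exact (mul_le_mul_of_nonneg_right (h1 η) (mul_nonneg (mul_nonneg e1 e2) e3)).trans
    (four77 _ _ _ _)

lemma integrable_two77 (hd : 0 < d) (hρ : EM ρ) (β : ℝ) (h : Vec d) (n : ℕ) {H : Env d → ℝ}
    (hH : Measurable H) (h0 : ∀ η, 0 ≤ H η) (h1 : ∀ η, H η ≤ wt ρ β h η n) (x y : Site d) :
    Integrable (fun η => H η * (X77 ρ β n η x * X77 ρ β n η y)) (law d ρ) := by
  have h2 : Integrable (fun η => wt ρ β h η n ^ 4 + X77 ρ β n η x ^ 4 + X77 ρ β n η y ^ 4 + 1)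
      (law d ρ) :=
    (((integrable_wt_pow43 hd hρ β h n (by norm_num)).add (integrable_X_pow77 hρ β n x 4)).add
      (integrable_X_pow77 hρ β n y 4)).add (integrable_const 1)
  refine h2.mono' (hH.mul ((measurable_X77 ρ β n x).mul
    (measurable_X77 ρ β n y))).aestronglyMeasurable (Eventually.of_forall fun η => ?_)
  have e1 := (X77_pos hρ β n η x).le
  have e2 := (X77_pos hρ β n η y).le
  rw [Real.norm_eq_abs, abs_of_nonneg (mul_nonneg (h0 η) (mul_nonneg e1 e2))]
  have e5 := four77 (wt ρ β h η n) (X77 ρ β n η x) (X77 ρ β n η y) 1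
  rw [one_pow, mul_one] at e5
  exact (mul_le_mul_of_nonneg_right (h1 η) (mul_nonneg e1 e2)).trans e5

end Pool.Agent.W_7d29a1_SD
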