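import Pool.Agent.W_7d29a1_SD.DefsSD
import Pool.Agent.W_7d29a1_D2.Dens21
import Pool.Agent.W_7d29a1_D2.Dens36
import Pool.Agent.W_7d29a1_D2.Dich31

/-!
Theorem SD, the form for almost every tilt: at almost every tilt of very strong disorder the free
energy is flat to second order or the polymer is not diffusive.
-/

namespace Pool.Agent.W_7d29a1_SD

open MeasureTheory ProbabilityTheory Filter Topology Pool.Agent.W_MP_7d29a1_pr
  Pool.Agent.W_7d29a1_h46 Pool.Agent.W_7d29a1_h46u Pool.Agent.W_7d29a1_D2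
  Pool.Agent.W_7d29a1_D2.B35 Pool.Agent.W_7d29a1_Q29 Pool.Agent.W_7d29a1_NV

variable {d : ℕ} {ρ : Measure ℝ} [IsProbabilityMeasure ρ] {β : ℝ}

/-- The theorem for almost every tilt. -/
def MainSDt (d : ℕ) (ρ : Measure ℝ) (β : ℝ) : Prop :=
  ∀ᵐ h : Vec d, VSD ρ β h → ∀ v : Vec d, Dif ρ β h v → ∀ ε : ℝ, 0 < ε → ∃ δ : ℝ, 0 < δ ∧
    ∀ r : Vec d, ‖r‖ ≤ δ → gap (lam ρ β) h v r ≤ ε * ‖r‖ ^ 2

lemma Tb_anti51 (h v : Vec d) {R R' : ℝ} (hR : R ≤ R') (n : ℕ) :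
    Tb ρ β h v R' n ≤ Tb ρ β h v R n := by
  have hi : ∀ r : ℝ, Integrable (fun η : Env d => 1 - PolT β h η (tube d n v r)) (law d ρ) := by
    intro r
    have hm : Measurable fun η : Env d => 1 - PolT β h η (tube d n v r) :=
      measurable_const.sub (measurable_PolT β h _)
    have h0 : ∀ η : Env d, 0 ≤ 1 - PolT β h η (tube d n v r) := fun η =>
      sub_nonneg.2 (PolT_le_one β h η _)
    refine Integrable.mono' (integrable_const (1 : ℝ)) hm.aestronglyMeasurable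
      (ae_of_all _ fun η => ?_)
    rw [Real.norm_eq_abs, abs_of_nonneg (h0 η)]
    linarith [PolT_nonneg β h η (tube d n v r)]
  refine integral_mono (hi _) (hi _) fun η => ?_
  have h1 : tube d n v (R * Real.sqrt n) ⊆ tube d n v (R' * Real.sqrt n) :=
    tube_mono v (mul_le_mul_of_nonneg_right hR (Real.sqrt_nonneg _))
  have h2 := PolT_mono β h η h1
  show 1 - PolT β h η (tube d n v (R' * Real.sqrt n)) ≤
    1 - PolT β h η (tube d n v (R * Real.sqrt n))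
  linarith

/-- The tilts of diffusive polymers, with a bound for the tube of radius `R √n`. -/
def ET51 (ρ : Measure ℝ) (β : ℝ) (j R : ℕ) : Set (Vec d) :=
  {h | ∃ v : Vec d, Dif ρ β h v ∧ ∀ n : ℕ, Tb ρ β h v R n ≤ 1 / ((j : ℝ) + 1)}

lemma exists_ET51 {h v : Vec d} (hD : Dif ρ β h v) (j : ℕ) :
    ∃ R : ℕ, ∀ n : ℕ, Tb ρ β h v R n ≤ 1 / ((j : ℝ) + 1) := by
  obtain ⟨R, hR⟩ := hD (1 / ((j : ℝ) + 1)) (by positivity)
  obtain ⟨N, hN⟩ := exists_nat_ge R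
  exact ⟨N, fun n => (Tb_anti51 h v hN n).trans (hR n)⟩

/-- Almost every tilt is approached in every direction by every set `ET51` which contains it. -/
theorem ae_ET51 (d : ℕ) (ρ : Measure ℝ) (β : ℝ) : ∀ᵐ h : Vec d, ∀ j R : ℕ,
    h ∈ (ET51 ρ β j R : Set (Vec d)) → DnK (fun _ => (ET51 ρ β j R : Set (Vec d))) h := by
  refine ae_all_iff.2 fun j => ae_all_iff.2 fun R => ?_
  have h0 := dens_pts21 (ET51 ρ β j R : Set (Vec d))
  rw [ae_iff] at h0 ⊢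
  refine measure_mono_null (fun v hv => ?_)
    (le_antisymm ((Measure.le_restrict_apply (ET51 ρ β j R : Set (Vec d)) _).trans h0.le) bot_le)
  simp only [Set.mem_ofPred_eq, Classical.not_imp] at hv
  refine ⟨fun hT => hv.2 fun _ => ⟨hv.1, fun ε hε => ?_⟩, hv.1⟩
  exact hT ε hε

/-- Two slopes at one tilt with a second order upper bound. -/
lemma slope_eq51 {L : Vec d → ℝ} {h v v₀ : Vec d} (hU : UpG L h v₀ 2)
    (hv : ∀ k : Vec d, L h + inner ℝ v k ≤ L (h + k)) : v = v₀ := by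
  obtain ⟨C, δ, hδ, H⟩ := hU
  by_contra hne
  set w : Vec d := v - v₀ with hw
  have hw0 : 0 < ‖w‖ := norm_pos_iff.2 (sub_ne_zero.2 hne)
  have key : ∀ t : ℝ, 0 < t → t * ‖w‖ ≤ δ → 1 ≤ C * t := by
    intro t ht htδ
    have hn : ‖t • w‖ = t * ‖w‖ := by rw [norm_smul, Real.norm_eq_abs, abs_of_pos ht]
    have h1 := H (t • w) (by rw [hn]; exact htδ)
    have h2 := hv (t • w)
    unfold gap at h1
    rw [Real.rpow_two, hn] at h1
    have h3 : inner ℝ v (t • w) - inner ℝ v₀ (t • w) = t * ‖w‖ ^ 2 := by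
      rw [← inner_sub_left, ← hw, inner_smul_right, real_inner_self_eq_norm_sq]
    have h4 : t * ‖w‖ ^ 2 * 1 ≤ t * ‖w‖ ^ 2 * (C * t) := by nlinarith
    exact le_of_mul_le_mul_left h4 (by positivity)
  have hC : 0 < C := by
    have h1 := key (δ / ‖w‖) (by positivity) (by rw [div_mul_cancel₀ _ hw0.ne'])
    by_contra hC
    have h2 : C * (δ / ‖w‖) ≤ 0 := mul_nonpos_of_nonpos_of_nonneg (not_lt.1 hC) (by positivity)
    linarith
  have h1 := key (min (δ / ‖w‖) (1 / (2 * C))) (lt_min (by positivity) (by positivity)) (by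
    calc min (δ / ‖w‖) (1 / (2 * C)) * ‖w‖ ≤ δ / ‖w‖ * ‖w‖ :=
          mul_le_mul_of_nonneg_right (min_le_left _ _) hw0.le
      _ = δ := div_mul_cancel₀ _ hw0.ne')
  have h2 : C * min (δ / ‖w‖) (1 / (2 * C)) ≤ C * (1 / (2 * C)) :=
    mul_le_mul_of_nonneg_left (min_le_right _ _) hC.le
  have h3 : C * (1 / (2 * C)) = 1 / 2 := by field_simp
  linarith

/-- The slopes at a close tilt: lower bound from the gap. -/
lemma slope_low51 {L : Vec d → ℝ} {h v v' r : Vec d}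
    (hv' : ∀ k : Vec d, L (h + r) + inner ℝ v' k ≤ L (h + r + k)) :
    gap L h v r ≤ ‖v' - v‖ * ‖r‖ := by
  have h1 := hv' (-r)
  rw [add_neg_cancel_right, inner_neg_right] at h1
  have h2 : inner ℝ v' r - inner ℝ v r ≤ ‖v' - v‖ * ‖r‖ := by
    rw [← inner_sub_left]
    exact real_inner_le_norm _ _
  unfold gap
  linarith

/-- The slopes at a close tilt: upper bound from the second order bound. -/
lemma slope_up51 {L : Vec d → ℝ} {h v v' r : Vec d} {C δ : ℝ} (hC : 0 ≤ C)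
    (hU : ∀ r : Vec d, ‖r‖ ≤ δ → gap L h v r ≤ C * ‖r‖ ^ 2)
    (hv : ∀ k : Vec d, L h + inner ℝ v k ≤ L (h + k))
    (hv' : ∀ k : Vec d, L (h + r) + inner ℝ v' k ≤ L (h + r + k)) (hr : 0 < ‖r‖)
    (hrδ : 2 * ‖r‖ ≤ δ) : ‖v' - v‖ ≤ 4 * C * ‖r‖ := by
  rcases eq_or_ne v' v with he | hne
  · rw [he, sub_self, norm_zero]
    positivity
  have hw0 : 0 < ‖v' - v‖ := norm_pos_iff.2 (sub_ne_zero.2 hne)
  set w : Vec d := (‖r‖ / ‖v' - v‖) • (v' - v) with hw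
  have hwn : ‖w‖ = ‖r‖ := by
    rw [hw, norm_smul, Real.norm_eq_abs, abs_of_nonneg (by positivity), div_mul_cancel₀ _ hw0.ne']
  have h1 := hv' w
  have h2 := hv r
  have hrw : ‖r + w‖ ≤ 2 * ‖r‖ := by
    refine (norm_add_le _ _).trans ?_
    rw [hwn]
    linarith
  have h3 := hU (r + w) (hrw.trans hrδ)
  have h4 : C * ‖r + w‖ ^ 2 ≤ C * (2 * ‖r‖) ^ 2 :=
    mul_le_mul_of_nonneg_left (pow_le_pow_left₀ (norm_nonneg _) hrw 2) hC
  unfold gap at h3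
  rw [inner_add_right, ← add_assoc] at h3
  have h5 : inner ℝ v' w - inner ℝ v w = ‖r‖ * ‖v' - v‖ := by
    rw [← inner_sub_left, hw, inner_smul_right, real_inner_self_eq_norm_sq]
    field_simp
  have h6 : ‖r‖ * ‖v' - v‖ ≤ ‖r‖ * (4 * C * ‖r‖) := by nlinarith
  exact le_of_mul_le_mul_left h6 hr

/-- All the rows `> p` move the free energy by at most a constant, at a density point of a set of
diffusive tilts where the free energy has second order bounds. -/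
theorem lev51 (hd : 0 < d) (hρ : EM ρ) (hP : PairS d ρ β) (hS : SubD d ρ β) {h v : Vec d}
    (hU : UpG (lam ρ β) h v 2) (hL : LoA (lam ρ β) h v 2) (hD : Dif ρ β h v) {j R : ℕ}
    (hT : ∀ n : ℕ, Tb ρ β h v R n ≤ 1 / ((j : ℝ) + 1))
    (hE : DnK (fun _ => (ET51 ρ β j R : Set (Vec d))) h) :
    ∃ M : ℝ, ∃ n₀ : ℕ, ∀ n p : ℕ, n₀ ≤ n → n ≤ 16 * p →
      RS ρ β h n p M (10 * (1 / ((j : ℝ) + 1))) := by
  have hcv : ConvexOn ℝ Set.univ (lam ρ β : Vec d → ℝ) := lam_convex hd hρ β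
  obtain ⟨c, hc, H⟩ := loAK36 hcv hE hL
  obtain ⟨δ₁, hδ₁, H1⟩ := H 0
  obtain ⟨C₀, δ₂, hδ₂, H2⟩ := hU
  set C : ℝ := max C₀ 0 with hCdef
  have hC0 : 0 ≤ C := le_max_right _ _
  have H2' : ∀ r : Vec d, ‖r‖ ≤ δ₂ → gap (lam ρ β) h v r ≤ C * ‖r‖ ^ 2 := by
    intro r hr
    have h1 := H2 r hr
    rw [Real.rpow_two] at h1
    exact h1.trans (mul_le_mul_of_nonneg_right (le_max_left _ _) (by positivity))
  set b : ℝ := (96 * R + 1) / c with hb
  have hb0 : 0 < b := by positivity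
  have hcb : c * b = 96 * R + 1 := by
    rw [hb]
    field_simp
  set s₀ : ℝ := min δ₁ (δ₂ / 6) with hs₀
  have hs₀0 : 0 < s₀ := lt_min hδ₁ (by positivity)
  obtain ⟨n₁, hn₁⟩ := exists_nat_ge ((b / s₀) ^ 2)
  refine ⟨3 * b * (12 * C * b) + 2 * (3 * b) * R + 6, max n₁ 1, fun n p hn hp => ?_⟩
  have hn1 : 1 ≤ n := (le_max_right _ _).trans hn
  have hn0 : (0 : ℝ) < n := by exact_mod_cast hn1
  have hsn : 0 < Real.sqrt n := Real.sqrt_pos.2 hn0
  have hsq : Real.sqrt n * Real.sqrt n = n := Real.mul_self_sqrt hn0.le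
  set s : ℝ := b / Real.sqrt n with hs
  have hs0 : 0 < s := by positivity
  have hsb : s * Real.sqrt n = b := div_mul_cancel₀ _ hsn.ne'
  have hss : s ≤ s₀ := by
    rw [hs, div_le_comm₀ hsn hs₀0]
    refine Real.le_sqrt_of_sq_le ?_
    refine hn₁.trans ?_
    exact_mod_cast (le_max_left _ _).trans hn
  obtain ⟨r, hr1, hr2, hrE, hr3⟩ := H1 s hs0 (hss.trans (min_le_left _ _))
  obtain ⟨v', hD', hT'⟩ := hrE
  have hslo : ∀ k : Vec d, lam ρ β h + inner ℝ v k ≤ lam ρ β (h + k) := hS h v hD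
  have hslo' : ∀ k : Vec d, lam ρ β (h + r) + inner ℝ v' k ≤ lam ρ β (h + r + k) :=
    hS (h + r) v' hD'
  have hr0 : 0 < ‖r‖ := lt_of_lt_of_le hs0 hr1
  have h6 : s ≤ δ₂ / 6 := hss.trans (min_le_right _ _)
  have hup : ‖v' - v‖ ≤ 4 * C * ‖r‖ :=
    slope_up51 hC0 H2' hslo hslo' hr0 (by linarith)
  have hup2 : ‖v' - v‖ ≤ 12 * C * s := by
    refine hup.trans ?_
    have : 4 * C * ‖r‖ ≤ 4 * C * (3 * s) := mul_le_mul_of_nonneg_left hr2 (by positivity)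
    linarith
  have hlow : gap (lam ρ β) h v r ≤ ‖v' - v‖ * ‖r‖ := slope_low51 hslo'
  have hlow2 : c * s ≤ 3 * ‖v' - v‖ := by
    rw [Real.rpow_two] at hr3
    have h7 : ‖v' - v‖ * ‖r‖ ≤ ‖v' - v‖ * (3 * s) :=
      mul_le_mul_of_nonneg_left hr2 (norm_nonneg _)
    have h8 : s * (c * s) ≤ s * (3 * ‖v' - v‖) := by nlinarith
    exact le_of_mul_le_mul_left h8 hs0
  have hpn : (n : ℝ) ≤ 16 * p := by exact_mod_cast hp
  refine hP h (h + r) v v' n p R (12 * C * b) (3 * b) (1 / ((j : ℝ) + 1)) (Nat.cast_nonneg _)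
    (by positivity) (by positivity) ?_ ?_ ?_ (hT n) (hT' n)
  · calc ‖v' - v‖ * Real.sqrt n ≤ 12 * C * s * Real.sqrt n :=
          mul_le_mul_of_nonneg_right hup2 hsn.le
      _ = 12 * C * b := by rw [mul_assoc, hsb]
  · rw [add_sub_cancel_left]
    calc ‖r‖ * Real.sqrt n ≤ 3 * s * Real.sqrt n := mul_le_mul_of_nonneg_right hr2 hsn.le
      _ = 3 * b := by rw [mul_assoc, hsb]
  · have h9 : Real.sqrt n * (96 * R + 1) ≤ 48 * (p * ‖v' - v‖) := by
      calc Real.sqrt n * (96 * R + 1) = Real.sqrt n * (c * (s * Real.sqrt n)) := by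
            rw [hsb, hcb]
        _ = Real.sqrt n * Real.sqrt n * (c * s) := by ring
        _ = n * (c * s) := by rw [hsq]
        _ ≤ n * (3 * ‖v' - v‖) := mul_le_mul_of_nonneg_left hlow2 hn0.le
        _ ≤ 16 * p * (3 * ‖v' - v‖) := mul_le_mul_of_nonneg_right hpn (by positivity)
        _ = 48 * (p * ‖v' - v‖) := by ring
    nlinarith

omit [IsProbabilityMeasure ρ] in
lemma RS_mono51 {h : Vec d} {n p : ℕ} {M δ δ' : ℝ} (hδ : δ ≤ δ') (H : RS ρ β h n p M δ) :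
    RS ρ β h n p M δ' := by
  unfold RS at H ⊢
  exact H.trans hδ

/-- **Theorem SD for almost every tilt.** -/
theorem mainSDt51 (hd : 0 < d) (hρ : EM ρ) (hN : NVR d ρ β) (hP : PairS d ρ β)
    (hS : SubD d ρ β) : MainSDt d ρ β := by
  have hcv : ConvexOn ℝ Set.univ (lam ρ β : Vec d → ℝ) := lam_convex hd hρ β
  filter_upwards [ae_ET51 d ρ β, Dich31.ae_dich31 hcv] with h hE hdi hV v hD
  obtain ⟨v₀, hv₀, hU, hLF⟩ := hdi
  have hslo : ∀ k : Vec d, lam ρ β h + inner ℝ v k ≤ lam ρ β (h + k) := hS h v hD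
  have hvv : v = v₀ := slope_eq51 hU hslo
  subst hvv
  rcases hLF with hL | hF
  · exfalso
    obtain ⟨δ₀, hδ₀, H0⟩ := hN h hV
    -- the level of `δ₀`
    have hj : ∀ δ : ℝ, 0 < δ → ∃ j : ℕ, 10 * (1 / ((j : ℝ) + 1)) ≤ δ := by
      intro δ hδ
      obtain ⟨j, hj⟩ := exists_nat_ge (10 / δ)
      refine ⟨j, ?_⟩
      rw [div_le_iff₀ hδ] at hj
      rw [mul_one_div, div_le_iff₀ (by positivity)]
      nlinarith
    have lev : ∀ δ : ℝ, 0 < δ → ∃ M : ℝ, ∃ n₀ : ℕ, ∀ n p : ℕ, n₀ ≤ n → n ≤ 16 * p →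
        RS ρ β h n p M δ := by
      intro δ hδ
      obtain ⟨j, hj⟩ := hj δ hδ
      obtain ⟨R, hR⟩ := exists_ET51 hD j
      obtain ⟨M, n₀, H⟩ := lev51 hd hρ hP hS hU hL hD hR (hE j R ⟨v, hD, hR⟩)
      exact ⟨M, n₀, fun n p h1 h2 => RS_mono51 hj (H n p h1 h2)⟩
    obtain ⟨M₁, n₁, H1⟩ := lev δ₀ hδ₀
    obtain ⟨δ₂, hδ₂, H2⟩ := H0 M₁
    obtain ⟨M₂, n₂, H3⟩ := lev δ₂ hδ₂
    obtain ⟨m₀, H4⟩ := H2 M₂
    obtain ⟨n, hn, H5⟩ := H4 (n₁ + n₂ + m₀ + 14)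
    refine H5 ⟨H1 n (n / 8) (by omega) (by omega), fun m hm => ?_⟩
    exact H3 (n + m) (n / 8) (by omega) (by omega)
  · exact hF

end Pool.Agent.W_7d29a1_SD
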