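import Pool.Agent.W_7d29a1_NT6.Lit6
import Pool.Agent.W_7d29a1_SD.Rs6
import Pool.Agent.W_7d29a1_NV.Kap20

/-!
Theorem SD, leaf W1: the free energies of two environments which differ in some rows `> p` only.
-/

namespace Pool.Agent.W_7d29a1_SD

open MeasureTheory ProbabilityTheory Filter Topology Pool.Agent.W_MP_7d29a1_pr
  Pool.Agent.W_7d29a1_h46 Pool.Agent.W_7d29a1_h46u Pool.Agent.W_7d29a1_D2.B35
  Pool.Agent.W_7d29a1_Q29 Pool.Agent.W_7d29a1_NV Pool.Agent.W_7d29a1_NV.M66
  Pool.Agent.W_7d29a1_NT6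

section Pol

variable {d : ℕ} {ρ : Measure ℝ} [IsProbabilityMeasure ρ] {β b : ℝ}

/-- The truncated distance of two resampled free energies. -/
lemma distW6 (hb : HB ρ b) (hE : EqT d ρ β b) (hW : MixT d ρ b)
    (h : Vec d) {n k : ℕ} {T : Fin k → ℕ} {r : Fin (k + 1) → ℕ} (hO : Ord n T r)
    {p : ℕ} (hp : ∀ i, p < T i) {M δ W : ℝ} (hM : 0 ≤ M) (hW0 : 0 ≤ W)
    (hR : RS ρ β h n p M δ) :
    ∫ η, (∫ ω, ∫ ω', min |Real.log (dT (Qsp ρ β b h n T r η) (usp ρ β b h n T r η) ω) -
      Real.log (dT (Qsp ρ β b h n T r η) (usp ρ β b h n T r η) ω')| W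
      ∂(Measure.pi fun _ => law d (rb ρ b)) ∂(Measure.pi fun _ => law d (rb ρ b))) ∂(law d ρ) ≤
      2 * M + 2 * W * δ := by
  have := prob_rb hb
  set Pk : Measure (Fin k → Env d) := Measure.pi fun _ => law d (rb ρ b) with hPk
  have hmp := hW k T (ord_inj hO)
  obtain ⟨E₁, hE₁⟩ : ∃ E₁ : Env d × ((Fin k → Env d) × (Fin k → Env d)) → Env d,
    E₁ = fun w => mxJ b T w.1 w.2.1 := ⟨_, rfl⟩
  obtain ⟨E₂, hE₂⟩ : ∃ E₂ : Env d × ((Fin k → Env d) × (Fin k → Env d)) → Env d,
    E₂ = fun w => mxJ b T w.1 w.2.2 := ⟨_, rfl⟩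
  have m₁ : MeasurePreserving E₁ ((law d ρ).prod (Pk.prod Pk)) (law d ρ) := by
    have h3 : MeasurePreserving (Prod.map id Prod.fst :
        Env d × ((Fin k → Env d) × (Fin k → Env d)) → Env d × (Fin k → Env d))
        ((law d ρ).prod (Pk.prod Pk)) ((law d ρ).prod Pk) :=
      (MeasurePreserving.id _).prod measurePreserving_fst
    rw [hE₁]
    exact hmp.comp h3
  have m₂ : MeasurePreserving E₂ ((law d ρ).prod (Pk.prod Pk)) (law d ρ) := by
    have h3 : MeasurePreserving (Prod.map id Prod.snd :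
        Env d × ((Fin k → Env d) × (Fin k → Env d)) → Env d × (Fin k → Env d))
        ((law d ρ).prod (Pk.prod Pk)) ((law d ρ).prod Pk) :=
      (MeasurePreserving.id _).prod measurePreserving_snd
    rw [hE₂]
    exact hmp.comp h3
  have hag : ∀ θ, ∀ q : ℕ × Site d, q.1 ≤ p → E₁ θ q = E₂ θ q := by
    intro θ q hq
    have h3 : ∀ i, T i ≠ q.1 := fun i => by
      have := hp i
      omega
    rw [hE₁, hE₂]
    exact (K20.mxJ_off20 h3 _ _).trans (K20.mxJ_off20 h3 _ _).symm
  have hC := coup6 hR m₁ m₂ hag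
  set Bd : Set (Env d × ((Fin k → Env d) × (Fin k → Env d))) :=
    {θ | 2 * M < |X β h (E₁ θ) n - X β h (E₂ θ) n|} with hBd
  have mX : Measurable fun θ : Env d × ((Fin k → Env d) × (Fin k → Env d)) =>
      |X β h (E₁ θ) n - X β h (E₂ θ) n| :=
    (((measurable_X β h n).comp m₁.measurable).sub
      ((measurable_X β h n).comp m₂.measurable)).abs
  have hBm : MeasurableSet Bd := measurableSet_lt measurable_const mX
  obtain ⟨G, hG⟩ : ∃ G : Env d × ((Fin k → Env d) × (Fin k → Env d)) → ℝ,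
    G = fun θ => min |X β h (E₁ θ) n - X β h (E₂ θ) n| W := ⟨_, rfl⟩
  have hGm : Measurable G := by
    rw [hG]
    exact mX.min measurable_const
  have hG1 : ∀ θ, |G θ| ≤ W := fun θ => by
    rw [hG]
    simp only
    rw [abs_of_nonneg (le_min (abs_nonneg _) hW0)]
    exact min_le_right _ _
  have hGi : Integrable G ((law d ρ).prod (Pk.prod Pk)) := bint6 _ hGm hG1
  have hGle : ∀ θ, G θ ≤ 2 * M + W * Set.indicator Bd (fun _ => (1 : ℝ)) θ := by
    intro θ
    by_cases hθ : θ ∈ Bd
    · rw [Set.indicator_of_mem hθ]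
      have : G θ ≤ W := (le_abs_self _).trans (hG1 θ)
      linarith
    · rw [Set.indicator_of_notMem hθ]
      have h3 : |X β h (E₁ θ) n - X β h (E₂ θ) n| ≤ 2 * M := not_lt.1 hθ
      rw [hG]
      simp only
      linarith [min_le_left |X β h (E₁ θ) n - X β h (E₂ θ) n| W]
  have hIi : Integrable (Set.indicator Bd fun _ => (1 : ℝ)) ((law d ρ).prod (Pk.prod Pk)) :=
    (integrable_const (1 : ℝ)).indicator hBm
  have hGI : ∫ θ, G θ ∂((law d ρ).prod (Pk.prod Pk)) ≤ 2 * M + 2 * W * δ := by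
    have iW : Integrable (fun θ => 2 * M + W * Set.indicator Bd (fun _ => (1 : ℝ)) θ)
        ((law d ρ).prod (Pk.prod Pk)) := (integrable_const _).add (hIi.const_mul W)
    refine (integral_mono hGi iW hGle).trans ?_
    rw [integral_add (integrable_const _) (hIi.const_mul W), integral_const, probReal_univ,
      one_smul, integral_const_mul, integral_indicator hBm]
    have h4 : ∫ _x in Bd, (1 : ℝ) ∂((law d ρ).prod (Pk.prod Pk)) =
        ((law d ρ).prod (Pk.prod Pk)).real Bd := by
      simp [Measure.real]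
    rw [h4]
    have h5 := mul_le_mul_of_nonneg_left hC hW0
    linarith
  rw [integral_prod _ hGi] at hGI
  refine le_trans (le_of_eq ?_) hGI
  refine integral_congr_ae (Eventually.of_forall fun η => ?_)
  have i1 : Integrable (fun w : (Fin k → Env d) × (Fin k → Env d) => G (η, w)) (Pk.prod Pk) :=
    bint6 _ (hGm.comp (measurable_const.prodMk measurable_id)) fun w => hG1 (η, w)
  obtain ⟨H, h1⟩ := hE h n k T r hO η
  simp only
  rw [integral_prod _ i1]
  refine integral_congr_ae (Eventually.of_forall fun ω => ?_)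
  refine integral_congr_ae (Eventually.of_forall fun ω' => ?_)
  simp only
  rw [hG, hE₁, hE₂]
  simp only
  have e2 : X β h (mxJ b T η ω) n - X β h (mxJ b T η ω') n =
      Real.log (dT (Qsp ρ β b h n T r η) (usp ρ β b h n T r η) ω) -
      Real.log (dT (Qsp ρ β b h n T r η) (usp ρ β b h n T r η) ω') := by
    rw [(h1 ω).2, (h1 ω').2]
    ring
  rw [e2]

/-- Leaf W1. -/
theorem twoW6 (hb : HB ρ b) (h1 : OneT) (h2 : Pool.Agent.W_7d29a1_NV.TwoTr)
    (hE : EqT d ρ β b) (hK : KapT d ρ β b) (hW : MixT d ρ b) : TwoW d ρ β b := by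
  intro h n k T r hO p M δ hM hp hR
  have := prob_rb hb
  have hB := one_le_Bc hb β
  set B : ℝ := Bc β b with hBdef
  obtain ⟨W, hWd⟩ : ∃ W : ℝ, W = 2 * B * Real.sqrt (k + 1) := ⟨_, rfl⟩
  have hW0 : 0 ≤ W := by
    rw [hWd]
    positivity
  set P : Measure (Env d) := law d (rb ρ b) with hP
  set Pk : Measure (Fin k → Env d) := Measure.pi fun _ => P with hPk
  set V : Env d → ℝ := fun η => ∑ i, ∫ ω, ∑ s, prT (Qsp ρ β b h n T r η) (usp ρ β b h n T r η) ω s *
      vaT P (usp ρ β b h n T r η) i s ∂Pk with hV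
  set I : Env d → ℝ := fun η => ∫ ω, ∫ ω', min |Real.log (dT (Qsp ρ β b h n T r η)
      (usp ρ β b h n T r η) ω) - Real.log (dT (Qsp ρ β b h n T r η) (usp ρ β b h n T r η) ω')| W
      ∂Pk ∂Pk with hI
  set κ : Env d → ℝ := fun η => ∑ i, kaT P (Qsp ρ β b h n T r η) (usp ρ β b h n T r η) i with hκ
  have hpt : ∀ η, V η / (4 * B * Real.sqrt (k + 1)) ≤
      I η + κ η + (2 * B * k + 1) * Real.sqrt (2 * κ η) := by
    intro η
    have h9 := h2 (Env d) (Sp d n k) k P _ _ B hB (hE h n k T r hO η).1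
    rw [← hWd] at h9
    exact h9
  -- measurability and bounds
  have mv : ∀ i, Measurable fun η => ∫ ω, ∑ s, prT (Qsp ρ β b h n T r η)
      (usp ρ β b h n T r η) ω s * vaT P (usp ρ β b h n T r η) i s ∂Pk := by
    intro i
    have h3 : Measurable fun w : Env d × (Fin k → Env d) => ∑ s, prT (Qsp ρ β b h n T r w.1)
        (usp ρ β b h n T r w.1) w.2 s * vaT P (usp ρ β b h n T r w.1) i s :=
      Finset.measurable_sum _ fun s _ =>
        (prT_meas ρ β b h n T r s measurable_fst measurable_snd).mul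
          ((vaT_meas hb β h n T r i s).comp measurable_fst)
    exact (h3.stronglyMeasurable.integral_prod_right (ν := Pk)).measurable
  have bv : ∀ i η, |∫ ω, ∑ s, prT (Qsp ρ β b h n T r η)
      (usp ρ β b h n T r η) ω s * vaT P (usp ρ β b h n T r η) i s ∂Pk| ≤ 4 * B ^ 2 := by
    intro i η
    have H := (hE h n k T r hO η).1
    have h3 := norm_integral_le_of_norm_le_const (μ := Pk)
      (f := fun ω => ∑ s, prT (Qsp ρ β b h n T r η) (usp ρ β b h n T r η) ω s *
        vaT P (usp ρ β b h n T r η) i s) (C := 4 * B ^ 2)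
      (Eventually.of_forall fun ω => sum_pr_le H ω fun s => by
        rw [abs_of_nonneg (vaT_bd H i s).1]
        exact (vaT_bd H i s).2)
    simpa using h3
  have iv : ∀ i, Integrable (fun η => ∫ ω, ∑ s, prT (Qsp ρ β b h n T r η)
      (usp ρ β b h n T r η) ω s * vaT P (usp ρ β b h n T r η) i s ∂Pk) (law d ρ) := fun i =>
    Integrable.mono' (integrable_const _) (mv i).aestronglyMeasurable
      (Eventually.of_forall fun η => bv i η)
  have iV : Integrable V (law d ρ) := integrable_finsetSum _ fun i _ => iv i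
  have ik : ∀ i, Integrable (fun η => kaT P (Qsp ρ β b h n T r η) (usp ρ β b h n T r η) i)
      (law d ρ) := fun i =>
    Integrable.mono' (integrable_const (2 * B)) (kaT_meas hb β h n T r i).aestronglyMeasurable
      (Eventually.of_forall fun η => kaT_bd (hE h n k T r hO η).1 i)
  have iκ : Integrable κ (law d ρ) := integrable_finsetSum _ fun i _ => ik i
  have κ0 : ∀ η, 0 ≤ κ η := fun η => Finset.sum_nonneg fun i _ =>
    kaT_nonneg h1 hB (hE h n k T r hO η).1 i
  have κm : Measurable κ := Finset.measurable_sum _ fun i _ => kaT_meas hb β h n T r i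
  have κb : ∀ η, κ η ≤ 2 * B * k := by
    intro η
    calc κ η ≤ ∑ _i : Fin k, 2 * B := Finset.sum_le_sum fun i _ =>
          (le_abs_self _).trans (kaT_bd (hE h n k T r hO η).1 i)
      _ = 2 * B * k := by
          rw [Finset.sum_const, Finset.card_univ, Fintype.card_fin, nsmul_eq_mul]
          ring
  have is : Integrable (fun η => Real.sqrt (2 * κ η)) (law d ρ) := by
    refine Integrable.mono' (integrable_const (Real.sqrt (2 * (2 * B * k))))
      (κm.const_mul 2).sqrt.aestronglyMeasurable (Eventually.of_forall fun η => ?_)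
    rw [Real.norm_eq_abs, abs_of_nonneg (Real.sqrt_nonneg _)]
    exact Real.sqrt_le_sqrt (by linarith [κb η])
  have mI : Measurable I := by
    have h3 : Measurable fun w : (Env d × (Fin k → Env d)) × (Fin k → Env d) =>
        min |Real.log (dT (Qsp ρ β b h n T r w.1.1) (usp ρ β b h n T r w.1.1) w.1.2) -
        Real.log (dT (Qsp ρ β b h n T r w.1.1) (usp ρ β b h n T r w.1.1) w.2)| W :=
      (measurable_norm.comp ((Real.measurable_log.comp (dT_meas ρ β b h n T r
        (measurable_fst.comp measurable_fst) (measurable_snd.comp measurable_fst))).sub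
        (Real.measurable_log.comp (dT_meas ρ β b h n T r
        (measurable_fst.comp measurable_fst) measurable_snd)))).min measurable_const
    have h4 := (h3.stronglyMeasurable.integral_prod_right' (ν := Pk))
    exact (h4.integral_prod_right' (ν := Pk)).measurable
  have bI : ∀ η, |I η| ≤ 2 * (B * k) := by
    intro η
    have H := (hE h n k T r hO η).1
    have h3 : ∀ ω ω' : Fin k → Env d, min |Real.log (dT (Qsp ρ β b h n T r η)
        (usp ρ β b h n T r η) ω) - Real.log (dT (Qsp ρ β b h n T r η)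
        (usp ρ β b h n T r η) ω')| W ≤ 2 * (B * k) := by
      intro ω ω'
      refine (min_le_left _ _).trans ((abs_sub _ _).trans ?_)
      linarith [log_dT H ω, log_dT H ω']
    have h4 : ∀ ω, |∫ ω', min |Real.log (dT (Qsp ρ β b h n T r η)
        (usp ρ β b h n T r η) ω) - Real.log (dT (Qsp ρ β b h n T r η)
        (usp ρ β b h n T r η) ω')| W ∂Pk| ≤ 2 * (B * k) := by
      intro ω
      have h5 := norm_integral_le_of_norm_le_const (μ := Pk) (f := fun ω' =>
        min |Real.log (dT (Qsp ρ β b h n T r η) (usp ρ β b h n T r η) ω) -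
          Real.log (dT (Qsp ρ β b h n T r η) (usp ρ β b h n T r η) ω')| W) (C := 2 * (B * k))
        (Eventually.of_forall fun ω' => by
          rw [Real.norm_eq_abs, abs_of_nonneg (le_min (abs_nonneg _) hW0)]
          exact h3 ω ω')
      simpa using h5
    have h6 := norm_integral_le_of_norm_le_const (μ := Pk) (f := fun ω => ∫ ω',
        min |Real.log (dT (Qsp ρ β b h n T r η) (usp ρ β b h n T r η) ω) -
          Real.log (dT (Qsp ρ β b h n T r η) (usp ρ β b h n T r η) ω')| W ∂Pk) (C := 2 * (B * k))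
        (Eventually.of_forall fun ω => h4 ω)
    simpa [hI] using h6
  have iI : Integrable I (law d ρ) := Integrable.mono' (integrable_const _)
    mI.aestronglyMeasurable (Eventually.of_forall bI)
  have iIκ : Integrable (fun η => I η + κ η) (law d ρ) := iI.add iκ
  -- integrate
  have h3 := integral_mono (iV.div_const _) (iIκ.add (is.const_mul (2 * B * k + 1))) hpt
  have eV : ∫ η, V η / (4 * B * Real.sqrt (k + 1)) ∂(law d ρ) =
      (∑ i : Fin k, vap ρ β b h n (T i) (r i.castSucc) (r i.succ)) /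
        (4 * B * Real.sqrt (k + 1)) := by
    rw [integral_div]
    congr 1
    rw [hV, integral_finsetSum _ fun i _ => iv i]
    exact Finset.sum_congr rfl fun i _ => (hK h n k T r hO i).2.2
  have eκ : ∫ η, κ η ∂(law d ρ) =
      ∑ i : Fin k, kap ρ β b h n (T i) (r i.castSucc) (r i.succ) := by
    rw [hκ, integral_finsetSum _ fun i _ => ik i]
    exact Finset.sum_congr rfl fun i _ => (hK h n k T r hO i).1
  have eR : ∫ η, (I η + κ η + (2 * B * k + 1) * Real.sqrt (2 * κ η)) ∂(law d ρ) =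
      ∫ η, I η ∂(law d ρ) + ∫ η, κ η ∂(law d ρ) +
        (2 * B * k + 1) * ∫ η, Real.sqrt (2 * κ η) ∂(law d ρ) := by
    rw [integral_add iIκ (is.const_mul _), integral_add iI iκ, integral_const_mul]
  have hs : ∫ η, Real.sqrt (2 * κ η) ∂(law d ρ) ≤
      Real.sqrt (2 * ∑ i : Fin k, kap ρ β b h n (T i) (r i.castSucc) (r i.succ)) := by
    refine Real.le_sqrt_of_sq_le ?_
    have e4 : ∀ η, Real.sqrt (2 * κ η) ^ 2 = 2 * κ η := fun η =>
      Real.sq_sqrt (by linarith [κ0 η])
    have i4 : Integrable (fun η => Real.sqrt (2 * κ η) ^ 2) (law d ρ) := by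
      simp only [e4]
      exact iκ.const_mul 2
    refine (sq_int is i4).trans (le_of_eq ?_)
    simp only [e4]
    rw [integral_const_mul, eκ]
  have hd' : ∫ η, I η ∂(law d ρ) ≤ 2 * M + 4 * B * Real.sqrt (k + 1) * δ := by
    refine (distW6 hb hE hW h hO hp hM hW0 hR).trans (le_of_eq ?_)
    rw [hWd]
    ring
  have hk : 0 ≤ 2 * B * k + 1 := by positivity
  calc (∑ i : Fin k, vap ρ β b h n (T i) (r i.castSucc) (r i.succ)) /
        (4 * B * Real.sqrt (k + 1)) = ∫ η, V η / (4 * B * Real.sqrt (k + 1)) ∂(law d ρ) := eV.symm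
    _ ≤ ∫ η, (I η + κ η + (2 * B * k + 1) * Real.sqrt (2 * κ η)) ∂(law d ρ) := h3
    _ = ∫ η, I η ∂(law d ρ) + ∑ i : Fin k, kap ρ β b h n (T i) (r i.castSucc) (r i.succ) +
        (2 * B * k + 1) * ∫ η, Real.sqrt (2 * κ η) ∂(law d ρ) := by rw [eR, eκ]
    _ ≤ _ := add_le_add (add_le_add hd' le_rfl) (mul_le_mul_of_nonneg_left hs hk)

end Pol

end Pool.Agent.W_7d29a1_SD
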