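import Pool.Agent.W_7d29a1_SD.DefsSD
import Pool.Agent.W_7d29a1_NV.TwoPw66
import Pool.Agent.W_7d29a1_NV.CoreE66

/-!
Theorem SD, leaf W1: the truncated inequality of the free energy, with the resampling of the rows
`> p` instead of a centring.
-/

namespace Pool.Agent.W_7d29a1_SD

open MeasureTheory ProbabilityTheory Filter Topology Pool.Agent.W_MP_7d29a1_pr
  Pool.Agent.W_7d29a1_h46 Pool.Agent.W_7d29a1_h46u Pool.Agent.W_7d29a1_D2.B35
  Pool.Agent.W_7d29a1_Q29 Pool.Agent.W_7d29a1_NV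

variable {d : ℕ} {ρ : Measure ℝ} [IsProbabilityMeasure ρ] {β : ℝ}

/-- Leaf W1, from the leaves of NV. -/
theorem twoW66 {b : ℝ} (hb : HB ρ b) (h1 : OneT) (h2 : TwoTr) (hE : EqT d ρ β b)
    (hK : KapT d ρ β b) (hW : MixT d ρ b) : TwoW d ρ β b :=
  fun h n k T r hO p M δ hM hp hRS =>
    M66.twoPw66 hb h1 h2 hE hK hW h n k T r hO p hp M δ hM hRS

/-- **Leaf W1**, closed. -/
theorem twoWE66 (hd : 0 < d) (hβ : 0 < β) {b : ℝ} (hb : HB ρ b) : TwoW d ρ β b :=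
  twoW66 hb oneT twoTr66 (Eq41.eqT41 hd hβ hb) (kapTm77 hd hb (Eq41.eqT41 hd hβ hb)) (mix96 hb)

end Pool.Agent.W_7d29a1_SD
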